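import Pool.Agent.Q218.HB.Stm

/-!
# Project HB: further lemma jobs
-/

set_option autoImplicit false

open MeasureTheory

namespace Pool.Agent.Q218.HB

/-- JOB FRE. With `η₀ = (K d)^(-1/2) ≥ 1/(d+1)` (as `K ≤ d`) and `m = d` or `d - 1`: `In n m η ≤ In n m η₀` for `η ≥ η₀` (`‖b_n‖ ≤ 1`, so the
integrand is integrable), `In n m η₀ ≤ ∫ e^{-η₀ q} ‖b‖^m + 1/√d` for `n ≥ n₀(d, K)` (RIE) and the integral is at most `C/√m` (BIN). -/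
def S_FRE : Prop := S_BES → S_BIN → S_RIE → ∃ C0 : ℝ, 0 < C0 ∧ ∀ (K : ℝ) (d : ℕ), 1 ≤ K → 3 ≤ d →
  K ≤ d → ∃ n0 : ℕ, ∀ (n : ℕ) [NeZero n], n0 ≤ n → ∀ η : ℝ, (K * d) ^ (-(1 / 2 : ℝ)) ≤ η →
  In n d η ≤ C0 * (d : ℝ) ^ (-(1 / 2 : ℝ)) ∧ In n (d - 1) η ≤ C0 * (d : ℝ) ^ (-(1 / 2 : ℝ))

/-- the Fourier transform on the torus -/
noncomputable def fo {d n : ℕ} [NeZero n] (φ : Tor d n → ℂ) (k : Tor d n) : ℂ :=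
  ((Real.sqrt ((n : ℝ) ^ d))⁻¹ : ℝ) * ∑ x : Tor d n,
    Complex.exp (-(2 * Real.pi * (∑ j : Fin d, ((k j).val : ℝ) * ((x j).val : ℝ)) / n : ℝ) * Complex.I) * φ x

/-- JOB MOM. The Fourier transform `fo` is unitary and diagonalizes `H₀` (FOU, Pool.Agent.Q124.HB.FOU), so the Fourier transform of
`r = φ - (e - z) G₀ φ` is `(e(k) - e)/(e(k) - z) fo φ k`, and `|e(k) - e|/|e(k) - z| ≥ 1/2` if `|e(k) - E| > 3 η`, `|e - E| ≤ η`. -/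
def S_MOM : Prop := ∀ (d n : ℕ) [NeZero n] (E η e : ℝ), 0 < η → |e - E| ≤ η → ∀ φ : Tor d n → ℂ,
  ∑ k, Set.indicator {k : Tor d n | 3 * η < |en k - E|} (fun k => ‖fo φ k‖ ^ 2) k ≤
    4 * ∑ x, ‖φ x - ((e : ℂ) - pt E η) * ∑ y, G hop (fun _ => 0) (pt E η) x y * φ y‖ ^ 2

end Pool.Agent.Q218.HB
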