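import Pool.Agent.Q218.HB.OnB

/-! The parameters. -/

set_option autoImplicit false
set_option linter.unusedSectionVars false
set_option linter.unusedVariables false

open MeasureTheory

namespace Pool.Agent.Q218.HB

theorem par_facts2 (m ε : ℝ) (hm : 0 ≤ m) (hε : 0 < ε) (h : 2 * m + 3 * ε ≤ 1 / 2) (d : ℕ) (hd : 1 ≤ d)
    {η s v : ℝ} {L : ℕ} (hηd : η = (d : ℝ) ^ (-(1 / 2 - 2 * m - ε))) (hsd : s = (d : ℝ) ^ (-(1 / 2 : ℝ)))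
    (hvd : v = (d : ℝ) ^ (-(ε / 64))) (hLd : L = ⌊(d : ℝ) ^ (1 / 2 - 2 * m - 2 * ε)⌋₊) :
    0 < η ∧ η ≤ 1 ∧ 0 < s ∧ 0 < v ∧ v ≤ 1 ∧ 1 ≤ L ∧ L * η ≤ v ^ 64 ∧ 1 / (L : ℝ) ≤ 2 * v ^ 64 ∧
      s ≤ η * v ^ 64 ∧ η * (d : ℝ) ^ (-(1 - 2 * (1 / 2 - 2 * m - ε) - 2 * m - ε / 2)) = s * v ^ 32 ∧
      s * Real.sqrt d = 1 ∧ (d : ℝ) ^ (-(1 / 2 : ℝ)) ≤ η := by
  have hd1 : (1 : ℝ) ≤ d := by exact_mod_cast hd
  have hd0 : (0 : ℝ) < d := by linarith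
  have v64 : v ^ 64 = (d : ℝ) ^ (-ε) := by
    rw [hvd, ← Real.rpow_natCast, ← Real.rpow_mul hd0.le]; congr 1; push_cast; ring
  have v32 : v ^ 32 = (d : ℝ) ^ (-(ε / 2)) := by
    rw [hvd, ← Real.rpow_natCast, ← Real.rpow_mul hd0.le]; congr 1; push_cast; ring
  have hb : 1 ≤ (d : ℝ) ^ (1 / 2 - 2 * m - 2 * ε) := Real.one_le_rpow hd1 (by linarith)
  have hL1 : 1 ≤ L := by rw [hLd]; exact Nat.le_floor (by exact_mod_cast hb)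
  have hLle : (L : ℝ) ≤ (d : ℝ) ^ (1 / 2 - 2 * m - 2 * ε) := by rw [hLd]; exact Nat.floor_le (by linarith)
  have hLge : (d : ℝ) ^ (1 / 2 - 2 * m - 2 * ε) ≤ 2 * L := by
    have h1 := Nat.lt_floor_add_one ((d : ℝ) ^ (1 / 2 - 2 * m - 2 * ε))
    rw [← hLd] at h1
    have h2 : (1 : ℝ) ≤ L := by exact_mod_cast hL1
    linarith
  have hη0 : 0 < η := by rw [hηd]; positivity
  refine ⟨hη0, ?_, by rw [hsd]; positivity, by rw [hvd]; positivity, ?_, hL1, ?_, ?_, ?_, ?_, ?_, ?_⟩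
  · rw [hηd]; exact Real.rpow_le_one_of_one_le_of_nonpos hd1 (by linarith)
  · rw [hvd]; exact Real.rpow_le_one_of_one_le_of_nonpos hd1 (by linarith)
  · rw [v64]
    calc (L : ℝ) * η ≤ (d : ℝ) ^ (1 / 2 - 2 * m - 2 * ε) * (d : ℝ) ^ (-(1 / 2 - 2 * m - ε)) := by
          rw [hηd]; exact mul_le_mul_of_nonneg_right hLle (by positivity)
      _ = (d : ℝ) ^ (-ε) := by rw [← Real.rpow_add hd0]; congr 1; ring
  · rw [v64]
    have h2 : (0 : ℝ) < L := by exact_mod_cast hL1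
    rw [div_le_iff₀ h2]
    have h3 : (d : ℝ) ^ (-ε) * (d : ℝ) ^ (1 / 2 - 2 * m - 2 * ε) ≤ (d : ℝ) ^ (-ε) * (2 * L) :=
      mul_le_mul_of_nonneg_left hLge (by positivity)
    have h4 : 1 ≤ (d : ℝ) ^ (-ε) * (d : ℝ) ^ (1 / 2 - 2 * m - 2 * ε) := by
      rw [← Real.rpow_add hd0]; exact Real.one_le_rpow hd1 (by linarith)
    linarith
  · rw [v64, hsd, hηd, ← Real.rpow_add hd0]
    exact Real.rpow_le_rpow_of_exponent_le hd1 (by linarith)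
  · rw [v32, hsd, hηd, ← Real.rpow_add hd0, ← Real.rpow_add hd0]; congr 1; ring
  · rw [hsd, Real.sqrt_eq_rpow, ← Real.rpow_add hd0]; norm_num
  · rw [hηd]; exact Real.rpow_le_rpow_of_exponent_le hd1 (by linarith)

theorem In_nn2 (n m : ℕ) [NeZero n] (η : ℝ) : 0 ≤ In n m η :=
  setIntegral_nonneg measurableSet_Ioi fun q _ => by positivity

theorem exists_small2 (ε : ℝ) (hε : 0 < ε) (Q : ℝ) (hQ : 0 < Q) :
    ∃ D : ℕ, ∀ d : ℕ, D ≤ d → (d : ℝ) ^ (-(ε / 64)) * Q ≤ 1 := by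
  have h1 : Filter.Tendsto (fun d : ℕ => (d : ℝ) ^ (-(ε / 64))) Filter.atTop (nhds 0) :=
    (tendsto_rpow_neg_atTop (by positivity)).comp tendsto_natCast_atTop_atTop
  have h2 := h1.eventually (ge_mem_nhds (show (0 : ℝ) < 1 / Q by positivity))
  obtain ⟨D, hD⟩ := Filter.eventually_atTop.1 h2
  refine ⟨D, fun d hd => ?_⟩
  have := hD d hd
  rwa [le_div_iff₀ hQ] at this

end Pool.Agent.Q218.HB
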