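import Pool.Agent.Q218.HB.OnB
import Pool.Agent.Q218.HB.Par2

/-! The deterministic part of the second main theorem. -/

set_option autoImplicit false
set_option linter.unusedSectionVars false
set_option linter.unusedVariables false

open MeasureTheory

namespace Pool.Agent.Q218.HB

theorem hm_hs {d n : ℕ} [NeZero n] (hn : 3 ≤ n) {U : Tor d n → ℝ} {M : ℝ} (hV : ∀ x, |U x| ≤ M) :
    ∑ x, ∑ y, ‖Hm hop U x y‖ ^ 2 ≤ (n : ℝ) ^ d * (4 * d + 2 * M ^ 2) := by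
  have hN : (Finset.univ : Finset (Tor d n)).card = n ^ d := by simp [ZMod.card]
  have h3 : ∀ x, ∑ y, ‖Hm hop U x y‖ ^ 2 ≤ 4 * d + 2 * M ^ 2 := fun x => by
    have h4 : ∀ y, ‖Hm hop U x y‖ ^ 2 ≤ 2 * (hop x y) ^ 2 + (if y = x then 2 * M ^ 2 else 0) := fun y => by
      unfold Hm
      by_cases hxy : x = y
      · rw [if_pos hxy, if_pos hxy.symm]
        have : ((hop x y : ℝ) : ℂ) + (U x : ℂ) = ((hop x y + U x : ℝ) : ℂ) := by push_cast; rfl
        rw [this, Complex.norm_real, Real.norm_eq_abs, sq_abs]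
        have hVx : (U x) ^ 2 ≤ M ^ 2 := by
          rw [← sq_abs (U x)]; exact pow_le_pow_left₀ (abs_nonneg _) (hV x) 2
        nlinarith [sq_nonneg (hop x y - U x)]
      · rw [if_neg hxy, if_neg fun hh => hxy hh.symm, add_zero, add_zero, Complex.norm_real, Real.norm_eq_abs,
          sq_abs]
        nlinarith [sq_nonneg (hop x y)]
    refine (Finset.sum_le_sum fun y _ => h4 y).trans (le_of_eq ?_)
    rw [Finset.sum_add_distrib, ← Finset.mul_sum, hop_sq hn, Finset.sum_ite_eq']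
    simp only [Finset.mem_univ, if_true]
    ring
  refine (Finset.sum_le_sum fun x _ => h3 x).trans (le_of_eq ?_)
  rw [Finset.sum_const, hN, nsmul_eq_mul]; push_cast; ring

/-- comparison of the matrix `GA` of a perturbed operator with the free resolvent -/
theorem HX_le (hRSA : S_RSA) (hRNK : S_RNK) {d n : ℕ} [NeZero n] {φ : Tor d n → Tor d n → ℂ} {e : Tor d n → ℝ}
    (h : ON φ) (A : Matrix (Tor d n) (Tor d n) ℂ) (hA : ∀ j x, ∑ y, A x y * φ j y = (e j : ℂ) * φ j x)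
    (U : Tor d n → ℝ) {r : ℝ} (hr : ((A - Hm hop U).rank : ℝ) ≤ r) {E η : ℝ} (hη : 0 < η) :
    HX φ e E η ≤ 2 * HT E η U + 8 * r / η ^ 2 := by
  have h1 := hRSA hRNK lInv lOpb (Tor d n) hop U A φ e hop_symm h hA E η hη
  have h2 : HX φ e E η ≤ 2 * HT E η U + 2 * ∑ x, ∑ y, ‖GA φ e (pt E η) x y - G hop U (pt E η) x y‖ ^ 2 := by
    unfold HX HT
    rw [Finset.mul_sum, Finset.mul_sum, ← Finset.sum_add_distrib]
    refine Finset.sum_le_sum fun x _ => ?_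
    rw [Finset.mul_sum, Finset.mul_sum, ← Finset.sum_add_distrib]
    refine Finset.sum_le_sum fun y _ => ?_
    have h3 : ‖GA φ e (pt E η) x y - G hop (fun _ => 0) (pt E η) x y‖ ≤
        ‖G hop U (pt E η) x y - G hop (fun _ => 0) (pt E η) x y‖ + ‖GA φ e (pt E η) x y - G hop U (pt E η) x y‖ := by
      have := norm_add_le (G hop U (pt E η) x y - G hop (fun _ => 0) (pt E η) x y)
        (GA φ e (pt E η) x y - G hop U (pt E η) x y)
      refine le_trans (le_of_eq ?_) this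
      congr 1; ring
    have h4 := norm_nonneg (GA φ e (pt E η) x y - G hop (fun _ => 0) (pt E η) x y)
    nlinarith [sq_nonneg (‖G hop U (pt E η) x y - G hop (fun _ => 0) (pt E η) x y‖ -
      ‖GA φ e (pt E η) x y - G hop U (pt E η) x y‖), norm_nonneg (G hop U (pt E η) x y - G hop (fun _ => 0) (pt E η) x y),
      norm_nonneg (GA φ e (pt E η) x y - G hop U (pt E η) x y)]
  have h5 : 4 * ((A - Hm hop U).rank : ℝ) / η ^ 2 ≤ 4 * r / η ^ 2 :=
    div_le_div_of_nonneg_right (by linarith) (by positivity)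
  have h6 : 2 * (4 * r / η ^ 2) = 8 * r / η ^ 2 := by ring
  linarith

open Classical in
/-- **The deterministic theorem.** -/
theorem det_all (hRSA : S_RSA) (hRNK : S_RNK) (hTAI : S_TAI) {C0 C1 C2 C' c1 θ c m ε M κ : ℝ} (hC0 : 0 < C0)
    (hC1 : 0 ≤ C1) (hC2 : 0 ≤ C2) (hc1 : 0 < c1) (hθ : 0 < θ) (hθ1 : θ ≤ 1) (hc : 0 < c)
    (hcl : c ≤ θ * c1 / 4) (hcu : c * (4 * (C0 + 1)) ≤ 1) (hM : 0 ≤ M)
    (hm : 0 ≤ m) (hε : 0 < ε) (hmε : 2 * m + 3 * ε ≤ 1 / 2) {d n : ℕ} [NeZero n] (hd : 1 ≤ d)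
    {η s v : ℝ} {L : ℕ} (hηd : η = (d : ℝ) ^ (-(1 / 2 - 2 * m - ε))) (hsd : s = (d : ℝ) ^ (-(1 / 2 : ℝ)))
    (hvd : v = (d : ℝ) ^ (-(ε / 64))) (hLd : L = ⌊(d : ℝ) ^ (1 / 2 - 2 * m - 2 * ε)⌋₊)
    (hn : 8 * L ^ 2 + 8 ≤ n) (hv4 : v ≤ 1 / 4) (hv2 : 2400 * v ≤ 1)
    (havg : (n : ℝ)⁻¹ * ∑ j : ZMod n,
      ((v ^ 16) ^ 2 / (4 * Real.sin (2 * Real.pi * (j.val : ℝ) / n) ^ 2 + (v ^ 16) ^ 2)) ^ 2 ≤ 2 * v ^ 16)
    (hIn : In n (d - 1) η ≤ C0 * s) (hIn2 : In n d η ≤ C0 * s)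
    (hlow : ∀ E : ℝ, |E| ≤ κ * Real.sqrt d → ∀ x : Tor d n,
      c1 * s ≤ (G hop (fun _ => 0) (pt E (θ * η)) x x).im)
    (K1 : 32 * θ * C0 ≤ c1) (K2 : 40 * C' * v ≤ c1) (K4 : C' * v ≤ 1)
    (K3 : (128 * C0 + 72 * C') * (4 / (θ * c1)) * v ≤ 1)
    (hC' : C' = 2 * C1 + 2 * C2 + 20 + 16 / θ) (hκ : κ * v ≤ 1)
    (hQ : (512 * C0 + 288 * C' + (6 + 2 * M ^ 2)) * v ≤ 1)
    {U : Tor d n → ℝ} (hU : ∀ x, |U x| ≤ M * (d : ℝ) ^ m)
    (hHT1 : ∀ E, |E| ≤ 7 * (Real.sqrt d / v ^ 4) → HT E η U ≤ C1 * (n : ℝ) ^ d * s * v ^ 32 / η)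
    (hHT2 : ∀ E, |E| ≤ 7 * (Real.sqrt d / v ^ 4) → HT E (θ * η) U ≤ C2 * (n : ℝ) ^ d * s * v ^ 32 / η)
    {A : Matrix (Tor d n) (Tor d n) ℂ} (hr : ((A - Hm hop U).rank : ℝ) ≤ 2 * (n : ℝ) ^ d / d)
    {φ : Tor d n → Tor d n → ℂ} {e : Tor d n → ℝ} (h : ON φ)
    (hA : ∀ j x, ∑ y, A x y * φ j y = (e j : ℂ) * φ j x) :
    Few φ e η v L Finset.univ ((n : ℝ) ^ d) ∧
    ∀ E : ℝ, |E| ≤ κ * Real.sqrt d →
      c * (η * (d : ℝ) ^ (-(1 / 2 : ℝ)) * (n : ℝ) ^ d) ≤ (Wd e E η).card ∧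
      c * (Wd e E η).card ≤ η * (d : ℝ) ^ (-(1 / 2 : ℝ)) * (n : ℝ) ^ d ∧
      Few φ e η v L (Wd e E η) (Wd e E η).card := by
  obtain ⟨hη, hη1, hs, hv, hv1, hL, hLη, hL2, hsη, hηs, hsd1, -⟩ := par_facts2 m ε hm hε hmε d hd hηd hsd hvd hLd
  have hd1 : (1 : ℝ) ≤ d := by exact_mod_cast hd
  have hd0 : (0 : ℝ) < d := by linarith
  have hn0 : (0 : ℝ) < n := by exact_mod_cast Nat.pos_of_ne_zero (NeZero.ne n)
  obtain ⟨N, hN⟩ : ∃ N, N = (n : ℝ) ^ d := ⟨_, rfl⟩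
  have hN0 : 0 < N := by rw [hN]; positivity
  have hC'0 : 0 ≤ C' := by rw [hC']; positivity
  have hss : s * s = 1 / d := by
    have h1 : s = 1 / Real.sqrt d := by
      rw [eq_div_iff (Real.sqrt_pos.2 hd0).ne']; exact hsd1
    rw [h1]
    have := Real.mul_self_sqrt hd0.le
    field_simp
    rw [Real.sq_sqrt hd0.le]
  have hv64 : v ^ 64 ≤ v ^ 32 := pow_le_pow_of_le_one hv.le hv1 (by norm_num)
  have hv32 : v ^ 32 ≤ v ^ 24 := pow_le_pow_of_le_one hv.le hv1 (by norm_num)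
  have hsη' : s * s / η ≤ s * v ^ 32 := by
    rw [div_le_iff₀ hη]
    calc s * s ≤ s * (η * v ^ 64) := mul_le_mul_of_nonneg_left hsη hs.le
      _ ≤ s * (η * v ^ 32) := by gcongr
      _ = _ := by ring
  have B1 : ∀ E, |E| ≤ 7 * (Real.sqrt d / v ^ 4) → η * HX φ e E η ≤ N * s * (C' * v ^ 32) := fun E hE => by
    have h1 := HX_le hRSA hRNK h A hA U hr (E := E) hη
    have h2 := hHT1 E hE
    rw [← hN] at h1 h2
    calc η * HX φ e E η ≤ η * (2 * (C1 * N * s * v ^ 32 / η) + 8 * (2 * N / d) / η ^ 2) :=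
          mul_le_mul_of_nonneg_left (by linarith) hη.le
      _ = 2 * C1 * N * s * v ^ 32 + 16 * N * (1 / d / η) := by field_simp; ring
      _ = 2 * C1 * N * s * v ^ 32 + 16 * N * (s * s / η) := by rw [hss]
      _ ≤ 2 * C1 * N * s * v ^ 32 + 16 * N * (s * v ^ 32) := by gcongr
      _ = N * s * ((2 * C1 + 16) * v ^ 32) := by ring
      _ ≤ N * s * (C' * v ^ 32) := by
          have : 2 * C1 + 16 ≤ C' := by
            rw [hC']
            have : 0 ≤ 16 / θ := by positivity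
            linarith
          gcongr
  have B2 : ∀ E, |E| ≤ 7 * (Real.sqrt d / v ^ 4) → θ * η * HX φ e E (θ * η) ≤ N * s * (C' * v ^ 32) := fun E hE => by
    have hθη : 0 < θ * η := by positivity
    have h1 := HX_le hRSA hRNK h A hA U hr (E := E) hθη
    have h2 := hHT2 E hE
    rw [← hN] at h1 h2
    calc θ * η * HX φ e E (θ * η) ≤ θ * η * (2 * (C2 * N * s * v ^ 32 / η) + 8 * (2 * N / d) / (θ * η) ^ 2) :=
          mul_le_mul_of_nonneg_left (by linarith) hθη.le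
      _ = θ * (2 * C2 * N * s * v ^ 32) + 16 / θ * N * (1 / d / η) := by field_simp; ring
      _ = θ * (2 * C2 * N * s * v ^ 32) + 16 / θ * N * (s * s / η) := by rw [hss]
      _ ≤ 1 * (2 * C2 * N * s * v ^ 32) + 16 / θ * N * (s * v ^ 32) := by gcongr
      _ = N * s * ((2 * C2 + 16 / θ) * v ^ 32) := by ring
      _ ≤ N * s * (C' * v ^ 32) := by
          have : 2 * C2 + 16 / θ ≤ C' := by
            rw [hC']; linarith
          gcongr
  obtain ⟨R, hR⟩ : ∃ R, R = Real.sqrt d / v ^ 4 := ⟨_, rfl⟩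
  rw [← hR] at B1 B2
  have hsq1 : 1 ≤ Real.sqrt d := Real.one_le_sqrt.2 hd1
  have hR1 : 1 ≤ R := by
    rw [hR, one_le_div (by positivity)]
    exact (pow_le_one₀ hv.le hv1).trans hsq1
  have hR0 : 0 < R := by linarith
  have hRs : R * s * v ^ 4 = 1 := by
    rw [hR]
    calc Real.sqrt d / v ^ 4 * s * v ^ 4 = (s * Real.sqrt d) * (v ^ 4 / v ^ 4) := by ring
      _ = 1 := by rw [hsd1, div_self (by positivity), one_mul]
  obtain ⟨k0, hk0⟩ : ∃ k0 : ℕ, k0 = ⌈R / η + 1 / 2⌉₊ := ⟨_, rfl⟩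
  have hm1 : R / η + 1 / 2 ≤ (k0 : ℝ) := by rw [hk0]; exact Nat.le_ceil _
  have hm2 : ((k0 : ℝ) + 1) * η ≤ 4 * R := by
    have h1 : (k0 : ℝ) < R / η + 1 / 2 + 1 := by rw [hk0]; exact Nat.ceil_lt_add_one (by positivity)
    have h2 : ((k0 : ℝ) + 1) * η ≤ (R / η + 5 / 2) * η := mul_le_mul_of_nonneg_right (by linarith) hη.le
    have h3 : (R / η + 5 / 2) * η = R + 5 / 2 * η := by field_simp
    rw [h3] at h2
    linarith
  refine ⟨?_, fun E hE => ?_⟩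
  · refine partBX h hd (C' := C') (CT := 6 + 2 * M ^ 2) (R := R) (m := k0) hL hn hη hv hv4
      hs hC0 hC'0 (by positivity) hv2 havg hIn (In_nn2 _ _ _) hLη hL2 ?_ hR0 hm1 hm2 hRs.le ?_ hQ
    · -- the tail of the spectrum
      have h1 := hTAI (Tor d n) A (Hm hop U) φ e h hA R hR0.le
      have h2 := hm_hs (by nlinarith [Nat.one_le_pow 2 L (by omega)]) hU
      rw [← hN] at h2 hr ⊢
      obtain ⟨W, hW⟩ : ∃ W : ℝ, W = ((Finset.univ.filter fun j => R < |e j|).card : ℝ) := ⟨_, rfl⟩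
      rw [← hW] at h1
      have hW' : ((Finset.univ.filter fun j => R < |e j|).card : ℝ) = W := hW.symm
      rw [hW']
      have h3 : (d : ℝ) ^ m * (d : ℝ) ^ m ≤ d := by
        rw [← Real.rpow_add hd0]
        calc (d : ℝ) ^ (m + m) ≤ (d : ℝ) ^ (1 : ℝ) := Real.rpow_le_rpow_of_exponent_le hd1 (by linarith)
          _ = d := Real.rpow_one _
      have h4 : 4 * (d : ℝ) + 2 * (M * (d : ℝ) ^ m) ^ 2 ≤ (4 + 2 * M ^ 2) * d := by
        calc 4 * (d : ℝ) + 2 * (M * (d : ℝ) ^ m) ^ 2 = 4 * (d : ℝ) + 2 * M ^ 2 * ((d : ℝ) ^ m * (d : ℝ) ^ m) := by ring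
          _ ≤ 4 * (d : ℝ) + 2 * M ^ 2 * d := by
              have := mul_le_mul_of_nonneg_left h3 (by positivity : 0 ≤ 2 * M ^ 2); linarith
          _ = _ := by ring
      have h5 : v ^ 8 * R ^ 2 = d := by
        rw [hR, div_pow, Real.sq_sqrt hd0.le]
        field_simp
      have h6 : R ^ 2 * (W - (A - Hm hop U).rank) ≤ R ^ 2 * (N * ((4 + 2 * M ^ 2) * v ^ 8)) := by
        refine h1.trans (h2.trans ?_)
        calc N * (4 * (d : ℝ) + 2 * (M * (d : ℝ) ^ m) ^ 2) ≤ N * ((4 + 2 * M ^ 2) * d) :=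
              mul_le_mul_of_nonneg_left h4 hN0.le
          _ = N * ((4 + 2 * M ^ 2) * (v ^ 8 * R ^ 2)) := by rw [h5]
          _ = _ := by ring
      have h7 := le_of_mul_le_mul_left h6 (by positivity : 0 < R ^ 2)
      have h8 : 2 * N / d ≤ 2 * N * v ^ 8 := by
        have h9 : s * s ≤ v ^ 8 := by
          have e1 : s ≤ v ^ 8 := by
            calc s ≤ η * v ^ 64 := hsη
              _ ≤ 1 * v ^ 64 := by gcongr
              _ ≤ v ^ 8 := by rw [one_mul]; exact pow_le_pow_of_le_one hv.le hv1 (by norm_num)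
          have e2 : v ^ 8 ≤ 1 := pow_le_one₀ hv.le hv1
          calc s * s ≤ v ^ 8 * 1 := mul_le_mul e1 (e1.trans e2) hs.le (by positivity)
            _ = v ^ 8 := mul_one _
        rw [hss] at h9
        calc 2 * N / d = 2 * N * (1 / d) := by ring
          _ ≤ 2 * N * v ^ 8 := mul_le_mul_of_nonneg_left h9 (by positivity)
      linarith
    · rw [← hN]
      have h1 : ∀ k ∈ Finset.range (k0 + 1), η ^ 2 * HX φ e (-R + 2 * η * k) η ≤ η * (N * s * (C' * v ^ 32)) := by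
        intro k hk
        have hk' : (k : ℝ) ≤ k0 := by exact_mod_cast Nat.lt_succ_iff.1 (Finset.mem_range.1 hk)
        have h2 : |(-R + 2 * η * k)| ≤ 7 * R := by
          rw [abs_le]
          have h3 : (k : ℝ) * η ≤ 4 * R := by
            calc (k : ℝ) * η ≤ ((k0 : ℝ) + 1) * η := mul_le_mul_of_nonneg_right (by linarith) hη.le
              _ ≤ 4 * R := hm2
          have h4 : 0 ≤ (k : ℝ) * η := mul_nonneg (Nat.cast_nonneg _) hη.le
          have h5 : 2 * η * (k : ℝ) = 2 * ((k : ℝ) * η) := by ring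
          rw [h5]
          constructor
          · clear hRSA hRNK hTAI hHT1 hHT2 B1 B2 hlow havg h hA hQ K1 K2 K3 K4; linarith
          · clear hRSA hRNK hTAI hHT1 hHT2 B1 B2 hlow havg h hA hQ K1 K2 K3 K4; linarith
        calc η ^ 2 * HX φ e (-R + 2 * η * k) η = η * (η * HX φ e (-R + 2 * η * k) η) := by ring
          _ ≤ _ := mul_le_mul_of_nonneg_left (B1 _ h2) hη.le
      refine (Finset.sum_le_sum h1).trans ?_
      rw [Finset.sum_const, Finset.card_range, nsmul_eq_mul]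
      push_cast
      have hv28 : v ^ 28 ≤ v ^ 20 := pow_le_pow_of_le_one hv.le hv1 (by norm_num)
      calc ((k0 : ℝ) + 1) * (η * (N * s * (C' * v ^ 32))) = (((k0 : ℝ) + 1) * η) * (N * s * (C' * v ^ 32)) := by ring
        _ ≤ (4 * R) * (N * s * (C' * v ^ 32)) := mul_le_mul_of_nonneg_right hm2 (by positivity)
        _ = 4 * C' * N * v ^ 28 * (R * s * v ^ 4) := by ring
        _ = 4 * C' * N * v ^ 28 := by rw [hRs, mul_one]
        _ ≤ 4 * C' * N * v ^ 20 := by gcongr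
  · have hE7 : |E| ≤ 7 * R := by
      refine hE.trans ?_
      have h1 : κ ≤ 1 / v ^ 4 := by
        rw [le_div_iff₀ (by positivity)]
        rcases le_or_gt κ 0 with hk | hk
        · exact le_trans (mul_nonpos_of_nonpos_of_nonneg hk (by positivity)) zero_le_one
        · have h2 : v ^ 4 ≤ v := by
            have := pow_le_pow_of_le_one hv.le hv1 (show 1 ≤ 4 by norm_num); rwa [pow_one] at this
          exact (mul_le_mul_of_nonneg_left h2 hk.le).trans hκ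
      calc κ * Real.sqrt d ≤ 1 / v ^ 4 * Real.sqrt d := mul_le_mul_of_nonneg_right h1 (Real.sqrt_nonneg _)
        _ = R := by rw [hR]; ring
        _ ≤ 7 * R := by linarith
    have hg : ∀ x : Tor d n, (G hop (fun _ => 0) (pt E η) x x).im ≤ C0 * s := fun x =>
      ((Complex.im_le_norm _).trans (lGze lFou d n E η hη x)).trans hIn2
    have H1 : η * HX φ e E η ≤ (n : ℝ) ^ d * s * (C' * v ^ 24) := by
      rw [← hN]
      refine (B1 E hE7).trans ?_
      gcongr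
    have H2 : θ * η * HX φ e E (θ * η) ≤ (n : ℝ) ^ d * s * (C' * v ^ 24) := by
      rw [← hN]
      refine (B2 E hE7).trans ?_
      gcongr
    obtain ⟨r1, r2, r3⟩ := partAX h hd hL hn hη hv hv4 hs hC0 hC'0 hc1 hθ hθ1 hv2 havg hIn (In_nn2 _ _ _) hLη hL2
      hg (hlow E hE) H1 H2 K1 K2 K4 K3
    have hp : 0 ≤ η * s * (n : ℝ) ^ d := by positivity
    refine ⟨?_, ?_, r3⟩
    · rw [← hsd]
      exact (mul_le_mul_of_nonneg_right hcl hp).trans r1
    · rw [← hsd]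
      calc c * ((Wd e E η).card : ℝ) ≤ c * (4 * (C0 + 1) * (η * s * (n : ℝ) ^ d)) :=
            mul_le_mul_of_nonneg_left r2 hc.le
        _ = c * (4 * (C0 + 1)) * (η * s * (n : ℝ) ^ d) := by ring
        _ ≤ 1 * (η * s * (n : ℝ) ^ d) := mul_le_mul_of_nonneg_right hcu hp
        _ = _ := one_mul _

end Pool.Agent.Q218.HB
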