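import Pool.Agent.Q218.HB.Rec

/-! The local law at a fixed disorder. -/

set_option autoImplicit false
set_option linter.unusedSectionVars false
set_option linter.unusedVariables false

open MeasureTheory

namespace Pool.Agent.Q218.HB

/-- the lemmas of the jobs -/
structure Lem : Prop where
  inv : S_INV
  ward : S_WARD
  opb : S_OPB
  mono : S_MONO
  difz : S_DIFZ
  upd : S_UPD
  sec : S_SEC
  pt : S_PT
  cont : S_CONT
  tra : S_TRA
  shi : S_SHI
  res : S_RES

theorem pt_im (E η : ℝ) : (pt E η).im = η := by simp [pt]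

section One

variable {Λ : Type} [Fintype Λ] [DecidableEq Λ] {h : Λ → Λ → ℝ} {z : ℂ}

/-- `E ‖(G - G₀) δ_o‖² ≤ E A₁ / η` -/
theorem diff_A1 (L : Lem) (hs : ∀ x y, h x y = h y x) (hz : 0 < z.im) (ν : Measure ℝ)
    [IsProbabilityMeasure ν] {M : ℝ} (hM : 0 ≤ M) (hν : ν (Set.Icc (-M) M)ᶜ = 0)
    (hν0 : ∫ t, t ∂ν = 0) (o : Λ) :
    ∫ V, ∑ x, ‖G h V z x o - G h (fun _ => 0) z x o‖ ^ 2 ∂(iid Λ ν) ≤
      1 / z.im * ∫ V, A1 h z M o V ∂(iid Λ ν) := by
  haveI := iid_prob Λ ν
  have hae := ae_le (Λ := Λ) ν M hν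
  have hint : ∀ x, Integrable (fun V : Λ → ℝ => (V x : ℂ) * G h V z x o) (iid Λ ν) := fun x => by
    refine Integrable.of_bound (((Complex.continuous_ofReal.comp (continuous_apply x)).mul
      (L.cont Λ h z hs hz.ne' x o)).aestronglyMeasurable) (M * (1 / z.im)) ?_
    filter_upwards [hae] with V hV
    rw [norm_mul, Complex.norm_real, Real.norm_eq_abs]
    exact mul_le_mul (hV x) (ent_le L.opb hs hz V x o) (norm_nonneg _) hM
  have e1 : ∀ V, ∑ x, ‖G h V z x o - G h (fun _ => 0) z x o‖ ^ 2 =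
      Complex.im (∑ x, (-(1 / z.im : ℝ) : ℂ) * (starRingEnd ℂ) (G h (fun _ => 0) z x o) *
        ((V x : ℂ) * G h V z x o)) := fun V => by
    rw [L.pt Λ h V z hs hz o]
    have : ∑ x, (-(1 / z.im : ℝ) : ℂ) * (starRingEnd ℂ) (G h (fun _ => 0) z x o) *
        ((V x : ℂ) * G h V z x o) = ((-(1 / z.im) : ℝ) : ℂ) *
        ∑ x, (starRingEnd ℂ) (G h (fun _ => 0) z x o) * (V x : ℂ) * G h V z x o := by
      rw [Finset.mul_sum]
      exact Finset.sum_congr rfl fun x _ => by push_cast; ring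
    rw [this, Complex.im_ofReal_mul]
  have hint2 : ∀ x, Integrable (fun V : Λ → ℝ => (-(1 / z.im : ℝ) : ℂ) *
      (starRingEnd ℂ) (G h (fun _ => 0) z x o) * ((V x : ℂ) * G h V z x o)) (iid Λ ν) := fun x =>
    (hint x).const_mul _
  have e2 : ∫ V, ∑ x, ‖G h V z x o - G h (fun _ => 0) z x o‖ ^ 2 ∂(iid Λ ν) =
      Complex.im (∑ x, (-(1 / z.im : ℝ) : ℂ) * (starRingEnd ℂ) (G h (fun _ => 0) z x o) *
        ∫ V, (V x : ℂ) * G h V z x o ∂(iid Λ ν)) := by
    simp only [e1]
    have h1 := integral_im (𝕜 := ℂ) (μ := iid Λ ν) (f := fun V : Λ → ℝ =>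
      ∑ x, (-(1 / z.im : ℝ) : ℂ) * (starRingEnd ℂ) (G h (fun _ => 0) z x o) *
        ((V x : ℂ) * G h V z x o)) (integrable_finsetSum _ fun x _ => hint2 x)
    simp only [RCLike.im_eq_complex_im] at h1
    rw [h1, integral_finsetSum _ fun x _ => hint2 x]
    congr 1
    exact Finset.sum_congr rfl fun x _ => by rw [integral_const_mul]
  rw [e2]
  refine (Complex.im_le_norm _).trans ((norm_sum_le _ _).trans ?_)
  have h3 : ∀ x, ‖(-(1 / z.im : ℝ) : ℂ) * (starRingEnd ℂ) (G h (fun _ => 0) z x o) *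
        ∫ V, (V x : ℂ) * G h V z x o ∂(iid Λ ν)‖ ≤
      ∫ V, 1 / z.im * (M ^ 2 * (‖G h (fun _ => 0) z o x‖ *
        (‖G h (up V x) z x x‖ * ‖G h V z x o‖))) ∂(iid Λ ν) := fun x => by
    have h4 := L.res Λ ν M hM hν hν0 x (fun V => G h V z x o) (L.cont Λ h z hs hz.ne' x o)
      ⟨1 / z.im, fun V => ent_le L.opb hs hz V x o⟩
    have s1 : ‖G h (fun _ => 0) z o x‖ = ‖G h (fun _ => 0) z x o‖ := by
      rw [(L.inv Λ h (fun _ => 0) z hs hz.ne').2.2 o x]
    have h5 : M * ∫ V, ‖G h V z x o - G h (up V x) z x o‖ ∂(iid Λ ν) ≤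
        ∫ V, M ^ 2 * (‖G h (up V x) z x x‖ * ‖G h V z x o‖) ∂(iid Λ ν) := by
      rw [← integral_const_mul]
      refine integral_mono_ae ?_ ?_ ?_
      · refine (bc_int ν ((L.cont Λ h z hs hz.ne' x o).sub
          ((L.cont Λ h z hs hz.ne' x o).comp (up_cont x))).norm (B := 2 * (1 / z.im)) fun V => ?_).const_mul M
        rw [abs_of_nonneg (norm_nonneg _)]
        refine (norm_sub_le _ _).trans ?_
        have h8 := ent_le L.opb hs hz V x o
        have h9 : ‖((fun V => G h V z x o) ∘ fun V => up V x) V‖ ≤ 1 / z.im :=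
          ent_le L.opb hs hz (up V x) x o
        linarith
      · exact (CB.cmul (sq_nonneg M) ((cbU L.inv L.cont L.opb hs hz x x x).mul
          (cbG L.inv L.cont L.opb hs hz x o))).int ν
      · filter_upwards [hae] with V hV
        have hVx : ‖(V x : ℂ)‖ ≤ M := by rw [Complex.norm_real, Real.norm_eq_abs]; exact hV x
        obtain ⟨u1, _⟩ := L.upd Λ h V z hs hz.ne' x x o
        have : G h V z x o - G h (up V x) z x o = -((V x : ℂ) * G h (up V x) z x x * G h V z x o) := by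
          linear_combination u1
        rw [this, norm_neg, norm_mul, norm_mul, mul_assoc, pow_two, mul_assoc]
        exact mul_le_mul_of_nonneg_left (mul_le_mul_of_nonneg_right hVx (by positivity)) hM
    have hη : 0 < 1 / z.im := by positivity
    have e5 : ‖(-(1 / z.im : ℝ) : ℂ)‖ = 1 / z.im := by
      rw [norm_neg, Complex.norm_real, Real.norm_of_nonneg hη.le]
    rw [norm_mul, norm_mul, e5, RCLike.norm_conj]
    have e6 : ∫ V, 1 / z.im * (M ^ 2 * (‖G h (fun _ => 0) z o x‖ *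
        (‖G h (up V x) z x x‖ * ‖G h V z x o‖))) ∂(iid Λ ν) =
        1 / z.im * ‖G h (fun _ => 0) z x o‖ * ∫ V, M ^ 2 * (‖G h (up V x) z x x‖ * ‖G h V z x o‖) ∂(iid Λ ν) := by
      rw [← integral_const_mul]
      congr 1
      funext V
      rw [s1]; ring
    rw [e6]
    exact mul_le_mul_of_nonneg_left (h4.trans h5) (by positivity)
  refine (Finset.sum_le_sum fun x _ => h3 x).trans (le_of_eq ?_)
  rw [← integral_finsetSum, ← integral_const_mul]
  · congr 1
    funext V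
    unfold A1
    simp only [Finset.mul_sum]
  · intro x _
    exact (CB.cmul (by positivity) (CB.cmul (sq_nonneg M) (CB.cmul (norm_nonneg _)
      ((cbU L.inv L.cont L.opb hs hz x x x).mul (cbG L.inv L.cont L.opb hs hz x o))))).int ν

end One

end Pool.Agent.Q218.HB
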