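import Pool.Agent.Q198.HB.INV
import Pool.Agent.Q123.HB.Ward
import Pool.Agent.Q190.HB.OPB
import Pool.Agent.Q182.HB.MONO
import Pool.Agent.Q164.HB.Difz
import Pool.Agent.Q65.HB.UPD
import Pool.Agent.Q285.HB.Sec
import Pool.Agent.Q265.HB.NEU
import Pool.Agent.Q129.HB.CONT
import Pool.Agent.Q65.HB.TRA
import Pool.Agent.Q65.HB.SHI
import Pool.Agent.Q124.HB.RES
import Pool.Agent.Q150.HB.BES
import Pool.Agent.Q124.HB.BIN
import Pool.Agent.Q124.HB.RIE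
import Pool.Agent.Q124.HB.FOU
import Pool.Agent.Q124.HB.GZE
import Pool.Agent.Q150.HB.KGB
import Pool.Agent.Q224.HB.Avg
import Pool.Agent.Q153.HB.KON
import Pool.Agent.Q150.HB.COM
import Pool.Agent.Q150.HB.SLB
import Pool.Agent.Q224.HB.Fam
import Pool.Agent.Q130.HB.LOA
import Pool.Agent.Q121.HB.LOB
import Pool.Agent.Q124.HB.FRE
import Pool.Agent.Q124.HB.MOM
import Pool.Agent.Q218.HB.Law

/-! The lemmas of the project HB, proved by helpers 65, 121, 123, 124, 129, 130, 150, 153, 164, 182, 190, 198,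
224, 265, 285. -/

set_option autoImplicit false

namespace Pool.Agent.Q218.HB

theorem lInv : S_INV := Pool.Agent.Q198.HB.inv
theorem lWard : S_WARD := Pool.Agent.Q123.HB.ward lInv
theorem lOpb : S_OPB := Pool.Agent.Q190.HB.opb lInv
theorem lMono : S_MONO := Pool.Agent.Q182.HB.mono lInv lWard
theorem lDifz : S_DIFZ := Pool.Agent.Q164.HB.difz lInv lWard
theorem lUpd : S_UPD := Pool.Agent.Q65.HB.upd lInv
theorem lSec : S_SEC := Pool.Agent.Q285.HB.sec lInv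
theorem lPt : S_PT := Pool.Agent.Q265.HB.pt lInv lWard
theorem lCont : S_CONT := Pool.Agent.Q129.HB.cont lInv
theorem lTra : S_TRA := Pool.Agent.Q65.HB.tra
theorem lShi : S_SHI := Pool.Agent.Q65.HB.shi
theorem lRes : S_RES := Pool.Agent.Q124.HB.res

theorem lem : Lem := ⟨lInv, lWard, lOpb, lMono, lDifz, lUpd, lSec, lPt, lCont, lTra, lShi, lRes⟩

theorem lBes : S_BES := Pool.Agent.Q150.HB.bes
theorem lBin : S_BIN := Pool.Agent.Q124.HB.bin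
theorem lRie : S_RIE := Pool.Agent.Q124.HB.rie
theorem lFou : S_FOU := Pool.Agent.Q124.HB.fou
theorem lGze : S_GZE := Pool.Agent.Q124.HB.gze
theorem lKgb : S_KGB := Pool.Agent.Q150.HB.kgb
theorem lAvg : S_AVG := Pool.Agent.Q224.HB.avg
theorem lKon : S_KON := Pool.Agent.Q153.HB.kon
theorem lCom : S_COM := Pool.Agent.Q150.HB.com
theorem lSlb : S_SLB := Pool.Agent.Q150.HB.slb
theorem lFam : S_FAM := Pool.Agent.Q224.HB.fam
theorem lLoa : S_LOA := Pool.Agent.Q130.HB.loa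
theorem lLob : S_LOB := Pool.Agent.Q121.HB.lob
theorem lMom : S_MOM := Pool.Agent.Q124.HB.mom

theorem lFre : ∃ C0 : ℝ, 0 < C0 ∧ ∀ (K : ℝ) (d : ℕ), 1 ≤ K → 3 ≤ d →
  K ≤ d → ∃ n0 : ℕ, ∀ (n : ℕ) [NeZero n], n0 ≤ n → ∀ η : ℝ, (K * d) ^ (-(1 / 2 : ℝ)) ≤ η →
  In n d η ≤ C0 * (d : ℝ) ^ (-(1 / 2 : ℝ)) ∧ In n (d - 1) η ≤ C0 * (d : ℝ) ^ (-(1 / 2 : ℝ)) :=
  Pool.Agent.Q124.HB.fre lBes lBin lRie

theorem lLow : ∀ κ : ℝ, 0 < κ → ∃ (c : ℝ) (d0 : ℕ), 0 < c ∧ ∀ (d : ℕ) (E η : ℝ), d0 ≤ d →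
  1 ≤ d → |E| ≤ κ * Real.sqrt d → 1 / Real.sqrt d ≤ η → η ≤ 1 →
  c / Real.sqrt d ≤ (∫ q in Set.Ioi (0 : ℝ), (Real.exp (-(η * q)) : ℂ) *
    Complex.exp ((q * E : ℝ) * Complex.I) * bc q ^ d).re :=
  lLoa lBes

end Pool.Agent.Q218.HB
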