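import Pool.Agent.Q190.HB2.RR
import Pool.Agent.Q252.HB.TAI
import Pool.Agent.Q149.HB.LIP
import Pool.Agent.Q195.HB.BDD
import Pool.Agent.Q195.HB.PSH
import Pool.Agent.Q213.HB.TRN
import Pool.Agent.Q68.HB.DIA
import Pool.Agent.Q184.HB.SUM
import Pool.Agent.Q238.HB.ConNum
import Pool.Agent.Q218.HB.Imp

/-! The lemmas of the second part of the project HB, proved by helpers 68, 149, 184, 190, 195, 213, 238, 252. -/

set_option autoImplicit false

namespace Pool.Agent.Q218.HB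

theorem lRnk : S_RNK := Pool.Agent.Q190.HB2.rnk
theorem lRsa : S_RSA := Pool.Agent.Q190.HB2.rsa
theorem lTai : S_TAI := Pool.Agent.Q252.HB.tai
theorem lLip : S_LIP := Pool.Agent.Q149.HB.lip
theorem lBdd : S_BDD := Pool.Agent.Q195.HB.bdd
theorem lPsh : S_PSH := Pool.Agent.Q195.HB.psh
theorem lTrn : S_TRN := Pool.Agent.Q213.HB.trn
theorem lDia : S_DIA := Pool.Agent.Q68.HB.dia
theorem lSum : S_SUM := Pool.Agent.Q184.HB.sum
theorem lCon : S_CON := Pool.Agent.Q238.HB.con
theorem lNum : S_NUM := Pool.Agent.Q238.HB.num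

end Pool.Agent.Q218.HB
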