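import Pool.Agent.Q218.HB.Al1
import Pool.Agent.Q218.HB.Imp2

/-! The probability of the good event on one torus. -/

set_option autoImplicit false
set_option linter.unusedSectionVars false
set_option linter.unusedVariables false

open MeasureTheory

namespace Pool.Agent.Q218.HB

/-- the good event: the conclusions hold for all matrices `A` which differ from `Hm hop V` by a matrix of
rank at most `n^d / d`, and all energies -/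
def GG {d n : ℕ} [NeZero n] (c κ η τ : ℝ) (L : ℕ) (V : Tor d n → ℝ) : Prop :=
  ∃ μ : ℝ, |μ| ≤ η ∧ ∀ A : Matrix (Tor d n) (Tor d n) ℂ,
    ((A - Hm hop V).rank : ℝ) ≤ (n : ℝ) ^ d / d → ∀ (φ : Tor d n → Tor d n → ℂ) (e : Tor d n → ℝ), ON φ →
    (∀ j x, ∑ y, A x y * φ j y = (e j : ℂ) * φ j x) →
    Few φ (fun j => e j - μ) η τ L Finset.univ ((n : ℝ) ^ d) ∧
    ∀ E : ℝ, |E| ≤ κ * Real.sqrt d →
      c * (η * (d : ℝ) ^ (-(1 / 2 : ℝ)) * (n : ℝ) ^ d) ≤ (Wd e E η).card ∧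
      c * (Wd e E η).card ≤ η * (d : ℝ) ^ (-(1 / 2 : ℝ)) * (n : ℝ) ^ d ∧
      Few φ (fun j => e j - μ) η τ L (Wd e E η) (Wd e E η).card

theorem net_E {R δ E : ℝ} (hδ : 0 < δ) (hR : 0 ≤ R) (hE : |E| ≤ R) :
    ∃ i ∈ Finset.range (⌈2 * R / δ⌉₊ + 1), |E - (-R + δ * i)| ≤ δ := by
  obtain ⟨h1, h2⟩ := abs_le.1 hE
  have hy : 0 ≤ (E + R) / δ := div_nonneg (by linarith) hδ.le
  refine ⟨⌊(E + R) / δ⌋₊, ?_, ?_⟩
  · rw [Finset.mem_range, Nat.lt_succ_iff]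
    refine (Nat.floor_le_ceil _).trans (Nat.ceil_mono ?_)
    exact div_le_div_of_nonneg_right (by linarith) hδ.le
  · have f1 := Nat.floor_le hy
    have f2 := Nat.lt_floor_add_one ((E + R) / δ)
    obtain ⟨k, hk⟩ : ∃ k : ℝ, k = (⌊(E + R) / δ⌋₊ : ℝ) := ⟨_, rfl⟩
    rw [← hk] at f1 f2 ⊢
    rw [le_div_iff₀ hδ] at f1
    rw [div_lt_iff₀ hδ] at f2
    rw [abs_le]
    constructor <;> nlinarith

theorem mrank_add {X : Type} [Fintype X] [DecidableEq X] (A B : Matrix X X ℂ) :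
    (A + B).rank ≤ A.rank + B.rank := by
  have h : LinearMap.range (A + B).mulVecLin ≤
      LinearMap.range A.mulVecLin ⊔ LinearMap.range B.mulVecLin := by
    rintro _ ⟨v, rfl⟩
    rw [Matrix.mulVecLin_add, LinearMap.add_apply]
    exact Submodule.add_mem_sup ⟨v, rfl⟩ ⟨v, rfl⟩
  unfold Matrix.rank
  exact (Submodule.finrank_mono h).trans (Submodule.finrank_add_le_finrank_add_finrank _ _)

open Classical in
theorem det_step {C0 C1 C2 C' c1 θ c m ε M κ μ : ℝ} (hC0 : 0 < C0)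
    (hC1 : 0 ≤ C1) (hC2 : 0 ≤ C2) (hc1 : 0 < c1) (hθ : 0 < θ) (hθ1 : θ ≤ 1) (hc : 0 < c)
    (hcl : c ≤ θ * c1 / 4) (hcu : c * (4 * (C0 + 1)) ≤ 1) (hM : 0 ≤ M)
    (hm : 0 ≤ m) (hε : 0 < ε) (hmε : 2 * m + 3 * ε ≤ 1 / 2) {d n : ℕ} [NeZero n] (hd : 1 ≤ d)
    {η s v : ℝ} {L : ℕ} (hηd : η = (d : ℝ) ^ (-(1 / 2 - 2 * m - ε))) (hsd : s = (d : ℝ) ^ (-(1 / 2 : ℝ)))
    (hvd : v = (d : ℝ) ^ (-(ε / 64))) (hLd : L = ⌊(d : ℝ) ^ (1 / 2 - 2 * m - 2 * ε)⌋₊)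
    (hn : 8 * L ^ 2 + 8 ≤ n) (hv4 : v ≤ 1 / 4) (hv2 : 2400 * v ≤ 1)
    (havg : (n : ℝ)⁻¹ * ∑ j : ZMod n,
      ((v ^ 16) ^ 2 / (4 * Real.sin (2 * Real.pi * (j.val : ℝ) / n) ^ 2 + (v ^ 16) ^ 2)) ^ 2 ≤ 2 * v ^ 16)
    (hIn : In n (d - 1) η ≤ C0 * s) (hIn2 : In n d η ≤ C0 * s)
    (hlow : ∀ E : ℝ, |E| ≤ (κ + 1) * Real.sqrt d → ∀ x : Tor d n,
      c1 * s ≤ (G hop (fun _ => 0) (pt E (θ * η)) x x).im)
    (K1 : 32 * θ * C0 ≤ c1) (K2 : 40 * C' * v ≤ c1) (K4 : C' * v ≤ 1)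
    (K3 : (128 * C0 + 72 * C') * (4 / (θ * c1)) * v ≤ 1)
    (hC' : C' = 2 * C1 + 2 * C2 + 20 + 16 / θ) (hκ : (κ + 1) * v ≤ 1)
    (hQ : (512 * C0 + 288 * C' + (6 + 2 * M ^ 2)) * v ≤ 1)
    (hμ : |μ| ≤ η) {V U : Tor d n → ℝ} (hU : ∀ x, |U x| ≤ M * (d : ℝ) ^ m) {S : Finset (Tor d n)}
    (hS : ∀ x, x ∉ S → V x - μ = U x) (hS2 : (S.card : ℝ) ≤ (n : ℝ) ^ d / d)
    (hHT1 : ∀ E, |E| ≤ 7 * (Real.sqrt d / v ^ 4) → HT E η U ≤ C1 * (n : ℝ) ^ d * s * v ^ 32 / η)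
    (hHT2 : ∀ E, |E| ≤ 7 * (Real.sqrt d / v ^ 4) → HT E (θ * η) U ≤ C2 * (n : ℝ) ^ d * s * v ^ 32 / η) :
    GG c κ η v L V := by
  have hη : 0 < η := (par_facts2 m ε hm hε hmε d hd hηd hsd hvd hLd).1
  have hη1 : η ≤ 1 := (par_facts2 m ε hm hε hmε d hd hηd hsd hvd hLd).2.1
  have hd1 : (1 : ℝ) ≤ d := by exact_mod_cast hd
  refine ⟨μ, hμ, fun A hA φ e hφ he => ?_⟩
  have hr : ((A - (μ : ℂ) • (1 : Matrix (Tor d n) (Tor d n) ℂ) - Hm hop U).rank : ℝ) ≤ 2 * (n : ℝ) ^ d / d := by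
    have e1 : A - (μ : ℂ) • (1 : Matrix (Tor d n) (Tor d n) ℂ) - Hm hop U =
        (A - Hm hop V) + (Hm hop (fun x => V x - μ) - Hm hop U) := by
      have : Hm hop (fun x => V x - μ) = Hm hop V - (μ : ℂ) • (1 : Matrix (Tor d n) (Tor d n) ℂ) := by
        ext x y
        rw [Matrix.sub_apply, Matrix.smul_apply, Matrix.one_apply, Hm, Hm]
        split_ifs <;> (push_cast; simp [smul_eq_mul]) <;> ring
      rw [this]; abel
    rw [e1]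
    have h1 := mrank_add (A - Hm hop V) (Hm hop (fun x => V x - μ) - Hm hop U)
    have h2 := lDia (Tor d n) hop (fun x => V x - μ) U S hS
    have h3 : (((A - Hm hop V) + (Hm hop (fun x => V x - μ) - Hm hop U)).rank : ℝ) ≤
        ((A - Hm hop V).rank : ℝ) + (S.card : ℝ) := by exact_mod_cast h1.trans (Nat.add_le_add_left h2 _)
    have h4 : 2 * (n : ℝ) ^ d / d = (n : ℝ) ^ d / d + (n : ℝ) ^ d / d := by ring
    rw [h4]; linarith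
  have he' : ∀ j x, ∑ y, (A - (μ : ℂ) • (1 : Matrix (Tor d n) (Tor d n) ℂ)) x y * φ j y =
      ((e j - μ : ℝ) : ℂ) * φ j x := fun j x => by
    have h1 : ∀ y, (A - (μ : ℂ) • (1 : Matrix (Tor d n) (Tor d n) ℂ)) x y * φ j y =
        A x y * φ j y - (if x = y then (μ : ℂ) * φ j y else 0) := fun y => by
      rw [Matrix.sub_apply, Matrix.smul_apply, Matrix.one_apply, sub_mul, smul_eq_mul]
      split_ifs <;> simp
    rw [Finset.sum_congr rfl fun y _ => h1 y, Finset.sum_sub_distrib, he j x, Finset.sum_ite_eq]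
    simp only [Finset.mem_univ, if_true]
    push_cast; ring
  obtain ⟨r1, r2⟩ := det_all (κ := κ + 1) lRsa lRnk lTai hC0 hC1 hC2 hc1 hθ hθ1 hc hcl hcu hM hm hε hmε hd hηd hsd
    hvd hLd hn hv4 hv2 havg hIn hIn2 hlow K1 K2 K4 K3 hC' hκ hQ hU hHT1 hHT2 hr hφ he'
  refine ⟨r1, fun E hE => ?_⟩
  have hw : Wd (fun j => e j - μ) (E - μ) η = Wd e E η := by
    unfold Wd
    refine Finset.filter_congr fun j _ => ?_
    rw [sub_sub_sub_cancel_right]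
  have h3 := r2 (E - μ) (by
    have h1 : |E - μ| ≤ |E| + |μ| := abs_sub _ _
    have h2 : 1 ≤ Real.sqrt d := Real.one_le_sqrt.2 hd1
    calc |E - μ| ≤ κ * Real.sqrt d + 1 * 1 := by linarith
      _ ≤ κ * Real.sqrt d + 1 * Real.sqrt d := by linarith
      _ = _ := by ring)
  rw [hw] at h3
  exact h3

end Pool.Agent.Q218.HB
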