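import Pool.Agent.Q218.HB.Al2

/-! The probability of the good event on one torus. -/

set_option autoImplicit false
set_option linter.unusedSectionVars false
set_option linter.unusedVariables false

open MeasureTheory

namespace Pool.Agent.Q218.HB

theorem exp_le_of {b N x : ℝ} (hN : 0 < N) (h : b * Real.sqrt N ≤ x) :
    ENNReal.ofReal (4 * Real.exp (-x)) ≤ ENNReal.ofReal (4 * Real.exp (-(b * Real.sqrt N))) := by
  refine ENNReal.ofReal_le_ofReal (mul_le_mul_of_nonneg_left (Real.exp_le_exp.2 ?_) (by norm_num))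
  linarith

open Classical in
theorem prob_one {C0 C1 C2 A1 A2 C' c1 θ c m ε M κ μ σ : ℝ} (hC0 : 0 < C0)
    (hA1 : 0 ≤ A1) (hA2 : 0 ≤ A2) (hC1 : C1 = A1 + 2) (hC2 : C2 = A2 + 1 + 1 / θ)
    (hc1 : 0 < c1) (hθ : 0 < θ) (hθ1 : θ ≤ 1) (hc : 0 < c)
    (hcl : c ≤ θ * c1 / 4) (hcu : c * (4 * (C0 + 1)) ≤ 1) (hM : 0 ≤ M)
    (hm : 0 ≤ m) (hε : 0 < ε) (hmε : 2 * m + 3 * ε ≤ 1 / 2) {d n : ℕ} [NeZero n] (hd : 1 ≤ d)
    {η s v : ℝ} {L : ℕ} (hηd : η = (d : ℝ) ^ (-(1 / 2 - 2 * m - ε))) (hsd : s = (d : ℝ) ^ (-(1 / 2 : ℝ)))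
    (hvd : v = (d : ℝ) ^ (-(ε / 64))) (hLd : L = ⌊(d : ℝ) ^ (1 / 2 - 2 * m - 2 * ε)⌋₊)
    (hn : 8 * L ^ 2 + 8 ≤ n) (hv4 : v ≤ 1 / 4) (hv2 : 2400 * v ≤ 1)
    (havg : (n : ℝ)⁻¹ * ∑ j : ZMod n,
      ((v ^ 16) ^ 2 / (4 * Real.sin (2 * Real.pi * (j.val : ℝ) / n) ^ 2 + (v ^ 16) ^ 2)) ^ 2 ≤ 2 * v ^ 16)
    (hIn : In n (d - 1) η ≤ C0 * s) (hIn2 : In n d η ≤ C0 * s)
    (hlow : ∀ E : ℝ, |E| ≤ (κ + 1) * Real.sqrt d → ∀ x : Tor d n,
      c1 * s ≤ (G hop (fun _ => 0) (pt E (θ * η)) x x).im)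
    (K1 : 32 * θ * C0 ≤ c1) (K2 : 40 * C' * v ≤ c1) (K4 : C' * v ≤ 1)
    (K3 : (128 * C0 + 72 * C') * (4 / (θ * c1)) * v ≤ 1)
    (hC' : C' = 2 * C1 + 2 * C2 + 20 + 16 / θ) (hκ : (κ + 1) * v ≤ 1)
    (hQ : (512 * C0 + 288 * C' + (6 + 2 * M ^ 2)) * v ≤ 1) (hμ : |μ| ≤ η)
    (ν : Measure ℝ) [IsProbabilityMeasure ν] {f : ℝ → ℝ} (hfm : Measurable f) {S : Set ℝ} (hS : MeasurableSet S)
    (hf : ∀ t, |f t| ≤ M * (d : ℝ) ^ m) (hfS : ∀ t, t ∉ S → σ * t - μ = f t)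
    (hνS : ν S ≤ ENNReal.ofReal (1 / (4 * d)))
    (hI1 : ∀ E, ∫ W, HT E η (fun x => f (W x)) ∂(iid (Tor d n) ν) ≤ A1 * (n : ℝ) ^ d * s * v ^ 32 / η)
    (hI2 : ∀ E, ∫ W, HT E (θ * η) (fun x => f (W x)) ∂(iid (Tor d n) ν) ≤ A2 * (n : ℝ) ^ d * s * v ^ 32 / η)
    {δ b : ℝ} (hδ : δ = (θ * η) ^ 2 * s * v ^ 32 / 8)
    (hb : b = min (s * v ^ 32 * θ ^ 2 * η / 8) (3 / (4 * (d : ℝ)))) :
    iid (Tor d n) ν {V | ¬ GG c κ η v L (fun x => σ * V x)} ≤
      ENNReal.ofReal ((8 * (((⌈2 * (7 * (Real.sqrt (d : ℝ) / v ^ 4)) / δ⌉₊ : ℕ) : ℝ) + 1) + 4) *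
        Real.exp (-(b * Real.sqrt ((n : ℝ) ^ d)))) := by
  haveI := iid_prob (Tor d n) ν
  obtain ⟨hη, hη1, hs, hv, hv1, -⟩ := par_facts2 m ε hm hε hmε d hd hηd hsd hvd hLd
  have hd1 : (1 : ℝ) ≤ d := by exact_mod_cast hd
  have hd0 : (0 : ℝ) < d := by linarith
  have hn0 : (0 : ℝ) < n := by exact_mod_cast Nat.pos_of_ne_zero (NeZero.ne n)
  obtain ⟨N, hN⟩ : ∃ N, N = (n : ℝ) ^ d := ⟨_, rfl⟩
  have hN0 : 0 < N := by rw [hN]; positivity
  have hθη : 0 < θ * η := by positivity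
  have hδ0 : 0 < δ := by rw [hδ]; positivity
  obtain ⟨R, hR⟩ : ∃ R, R = 7 * (Real.sqrt d / v ^ 4) := ⟨_, rfl⟩
  have hR0 : 0 ≤ R := by rw [hR]; positivity
  rw [← hR, ← hN]
  obtain ⟨I, hI⟩ : ∃ I : ℕ, I = ⌈2 * R / δ⌉₊ := ⟨_, rfl⟩
  rw [← hI]
  obtain ⟨t, ht⟩ : ∃ t, t = N * s * v ^ 32 / η := ⟨_, rfl⟩
  have ht0 : 0 < t := by rw [ht]; positivity
  obtain ⟨En, hEn⟩ : ∃ En : ℕ → ℝ, En = fun i : ℕ => -R + δ * (i : ℝ) := ⟨_, rfl⟩
  obtain ⟨P1, hP1⟩ : ∃ P : ℕ → Set (Tor d n → ℝ), P = fun i => {V | (∫ W, HT (En i) η (fun x => f (W x))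
    ∂(iid (Tor d n) ν)) + t ≤ HT (En i) η fun x => f (V x)} := ⟨_, rfl⟩
  obtain ⟨P2, hP2⟩ : ∃ P : ℕ → Set (Tor d n → ℝ), P = fun i => {V | (∫ W, HT (En i) (θ * η) (fun x => f (W x))
    ∂(iid (Tor d n) ν)) + t ≤ HT (En i) (θ * η) fun x => f (V x)} := ⟨_, rfl⟩
  obtain ⟨P3, hP3⟩ : ∃ P : Set (Tor d n → ℝ), P = {V | 1 / (4 * d) * (n : ℝ) ^ d + 3 * N / (4 * d) ≤
    ((Finset.univ.filter fun x => V x ∈ S).card : ℝ)} := ⟨_, rfl⟩
  have hsq : N / Real.sqrt N = Real.sqrt N := Real.div_sqrt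
  have m1 : ∀ i, iid (Tor d n) ν (P1 i) ≤ ENNReal.ofReal (4 * Real.exp (-(b * Real.sqrt N))) := fun i => by
    rw [hP1]
    refine (lCon lBdd lInv lOpb lCont d n ν f hfm (En i) η t hη ht0).trans ?_
    rw [← hN]
    refine exp_le_of hN0 ?_
    have e1 : t * η ^ 2 / (8 * Real.sqrt N) = s * v ^ 32 * 1 ^ 2 * η / 8 * (N / Real.sqrt N) := by
      rw [ht]; field_simp
    rw [e1, hsq]
    refine mul_le_mul_of_nonneg_right ?_ (Real.sqrt_nonneg _)
    rw [hb]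
    refine (min_le_left _ _).trans ?_
    gcongr
  have m2 : ∀ i, iid (Tor d n) ν (P2 i) ≤ ENNReal.ofReal (4 * Real.exp (-(b * Real.sqrt N))) := fun i => by
    rw [hP2]
    refine (lCon lBdd lInv lOpb lCont d n ν f hfm (En i) (θ * η) t hθη ht0).trans ?_
    rw [← hN]
    refine exp_le_of hN0 ?_
    have e1 : t * (θ * η) ^ 2 / (8 * Real.sqrt N) = s * v ^ 32 * θ ^ 2 * η / 8 * (N / Real.sqrt N) := by
      rw [ht]; field_simp
    rw [e1, hsq]
    refine mul_le_mul_of_nonneg_right ?_ (Real.sqrt_nonneg _)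
    rw [hb]
    exact min_le_left _ _
  have m3 : iid (Tor d n) ν P3 ≤ ENNReal.ofReal (4 * Real.exp (-(b * Real.sqrt N))) := by
    rw [hP3]
    refine (lNum d n ν S (1 / (4 * d)) (3 * N / (4 * d)) hS (by positivity) hνS (by positivity)).trans ?_
    rw [← hN]
    refine exp_le_of hN0 ?_
    have e1 : 3 * N / (4 * d) / Real.sqrt N = 3 / (4 * d) * (N / Real.sqrt N) := by ring
    rw [e1, hsq]
    refine mul_le_mul_of_nonneg_right ?_ (Real.sqrt_nonneg _)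
    rw [hb]
    exact min_le_right _ _
  have hsub : {V : Tor d n → ℝ | ¬ GG c κ η v L (fun x => σ * V x)} ⊆
      (⋃ i ∈ Finset.range (I + 1), (P1 i ∪ P2 i)) ∪ P3 := by
    intro V hV
    by_contra hcc
    rw [Set.mem_union, not_or] at hcc
    obtain ⟨h12, h3⟩ := hcc
    have h1 : ∀ i ∈ Finset.range (I + 1), V ∉ P1 i ∧ V ∉ P2 i := fun i hi => by
      constructor
      · intro hh
        exact h12 (Set.mem_biUnion (show i ∈ Finset.range (I + 1) from hi) (Or.inl hh))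
      · intro hh
        exact h12 (Set.mem_biUnion (show i ∈ Finset.range (I + 1) from hi) (Or.inr hh))
    have hB1 : ∀ E, |E| ≤ R → HT E η (fun x => f (V x)) ≤ C1 * N * s * v ^ 32 / η := fun E hE => by
      obtain ⟨i, hi, hi2⟩ := net_E hδ0 hR0 hE
      rw [← hI] at hi
      have q1 := (h1 i hi).1
      rw [hP1] at q1
      have q2 : HT (En i) η (fun x => f (V x)) <
        (∫ W, HT (En i) η (fun x => f (W x)) ∂(iid (Tor d n) ν)) + t := not_le.1 q1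
      have q3 := lLip lInv lOpb d n E (En i) η hη (fun x => f (V x))
      have q4 := hI1 (En i)
      have q5 : |E - En i| ≤ δ := by rw [hEn]; exact hi2
      have q6 : 8 * (n : ℝ) ^ d * |E - En i| / η ^ 3 ≤ t := by
        rw [← hN]
        calc 8 * N * |E - En i| / η ^ 3 ≤ 8 * N * δ / η ^ 3 := by gcongr
          _ = N * s * v ^ 32 / η * θ ^ 2 := by rw [hδ]; field_simp
          _ ≤ N * s * v ^ 32 / η * 1 := by
              refine mul_le_mul_of_nonneg_left ?_ (by positivity)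
              exact pow_le_one₀ hθ.le hθ1
          _ = t := by rw [ht, mul_one]
      have q7 := (abs_le.1 q3).2
      have q8 : C1 * N * s * v ^ 32 / η = A1 * N * s * v ^ 32 / η + 2 * t := by rw [hC1, ht]; ring
      rw [← hN] at q4
      rw [q8]; linarith
    have hB2 : ∀ E, |E| ≤ R → HT E (θ * η) (fun x => f (V x)) ≤ C2 * N * s * v ^ 32 / η := fun E hE => by
      obtain ⟨i, hi, hi2⟩ := net_E hδ0 hR0 hE
      rw [← hI] at hi
      have q1 := (h1 i hi).2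
      rw [hP2] at q1
      have q2 : HT (En i) (θ * η) (fun x => f (V x)) <
        (∫ W, HT (En i) (θ * η) (fun x => f (W x)) ∂(iid (Tor d n) ν)) + t := not_le.1 q1
      have q3 := lLip lInv lOpb d n E (En i) (θ * η) hθη (fun x => f (V x))
      have q4 := hI2 (En i)
      have q5 : |E - En i| ≤ δ := by rw [hEn]; exact hi2
      have q6 : 8 * (n : ℝ) ^ d * |E - En i| / (θ * η) ^ 3 ≤ 1 / θ * t := by
        rw [← hN]
        calc 8 * N * |E - En i| / (θ * η) ^ 3 ≤ 8 * N * δ / (θ * η) ^ 3 := by gcongr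
          _ = 1 / θ * t := by rw [hδ, ht]; field_simp
      have q7 := (abs_le.1 q3).2
      have q8 : C2 * N * s * v ^ 32 / η = A2 * N * s * v ^ 32 / η + t + 1 / θ * t := by rw [hC2, ht]; ring
      rw [← hN] at q4
      rw [q8]; linarith
    rw [hN] at hB1 hB2
    rw [hR] at hB1 hB2
    refine hV ?_
    refine det_step hC0 (by rw [hC1]; linarith) (by rw [hC2]; positivity) hc1 hθ hθ1 hc hcl hcu hM hm hε hmε hd hηd
      hsd hvd hLd hn hv4 hv2 havg hIn hIn2 hlow K1 K2 K4 K3 hC' hκ hQ hμ (U := fun x => f (V x))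
      (S := Finset.univ.filter fun x => V x ∈ S) (fun x => hf (V x)) (fun x hx => ?_) ?_ hB1 hB2
    · refine hfS (V x) fun hh => hx ?_
      rw [Finset.mem_filter]
      exact ⟨Finset.mem_univ _, hh⟩
    · rw [hP3] at h3
      have h4 : ((Finset.univ.filter fun x => V x ∈ S).card : ℝ) < 1 / (4 * d) * (n : ℝ) ^ d + 3 * N / (4 * d) :=
        not_le.1 h3
      refine h4.le.trans (le_of_eq ?_)
      rw [hN]; field_simp; norm_num
  calc iid (Tor d n) ν {V | ¬ GG c κ η v L (fun x => σ * V x)} ≤ _ := measure_mono hsub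
    _ ≤ iid (Tor d n) ν (⋃ i ∈ Finset.range (I + 1), (P1 i ∪ P2 i)) + iid (Tor d n) ν P3 := measure_union_le _ _
    _ ≤ (∑ i ∈ Finset.range (I + 1), iid (Tor d n) ν (P1 i ∪ P2 i)) + iid (Tor d n) ν P3 := by
        gcongr
        exact measure_biUnion_finset_le _ _
    _ ≤ (∑ i ∈ Finset.range (I + 1), (ENNReal.ofReal (4 * Real.exp (-(b * Real.sqrt N))) +
        ENNReal.ofReal (4 * Real.exp (-(b * Real.sqrt N))))) + ENNReal.ofReal (4 * Real.exp (-(b * Real.sqrt N))) := by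
        refine add_le_add (Finset.sum_le_sum fun i _ => ?_) m3
        exact (measure_union_le _ _).trans (add_le_add (m1 i) (m2 i))
    _ = _ := by
        rw [Finset.sum_const, Finset.card_range, ← ENNReal.ofReal_add (by positivity) (by positivity),
          nsmul_eq_mul, ← ENNReal.ofReal_natCast, ← ENNReal.ofReal_mul (by positivity),
          ← ENNReal.ofReal_add (by positivity) (by positivity)]
        congr 1
        push_cast; ring

end Pool.Agent.Q218.HB
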