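import Pool.Agent.Q218.HB.Al3

/-! The almost sure theorem. -/

set_option autoImplicit false
set_option linter.unusedSectionVars false
set_option linter.unusedVariables false

open MeasureTheory Filter

namespace Pool.Agent.Q218.HB

/-- the restriction of a potential on `ℤ^d` to the box `{0, ..., n-1}^d`, as a function on the torus -/
def rs {d : ℕ} (n : ℕ) (ω : (Fin d → ℤ) → ℝ) (x : Tor d n) : ℝ := ω fun i => ((x i).val : ℤ)

theorem rs_meas {d : ℕ} (n : ℕ) : Measurable fun (ω : (Fin d → ℤ) → ℝ) (x : Tor d n) => rs n ω x :=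
  measurable_pi_lambda _ fun x => measurable_pi_apply _

theorem iid_map {Λ : Type} [Fintype Λ] (ν : Measure ℝ) [IsProbabilityMeasure ν] {f : ℝ → ℝ} (hf : Measurable f) :
    (iid Λ ν).map (fun V x => f (V x)) = iid Λ (ν.map f) := by
  haveI : IsProbabilityMeasure (ν.map f) := Measure.isProbabilityMeasure_map hf.aemeasurable
  unfold iid
  exact Measure.pi_map_pi (fun _ => hf.aemeasurable)

theorem int_map {d n : ℕ} [NeZero n] (ν : Measure ℝ) [IsProbabilityMeasure ν] {f : ℝ → ℝ} (hf : Measurable f)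
    (E η : ℝ) (hη : 0 < η) :
    ∫ W, HT E η (fun x => f (W x)) ∂(iid (Tor d n) ν) = ∫ W, HT E η W ∂(iid (Tor d n) (ν.map f)) := by
  rw [← iid_map ν hf, integral_map]
  · exact (measurable_pi_lambda _ fun x => hf.comp (measurable_pi_apply x)).aemeasurable
  · exact (HT_cb E η hη).1.aestronglyMeasurable

/-- Borel-Cantelli -/
theorem as_of {d : ℕ} (hd : 1 ≤ d) (ν : Measure ℝ) [IsProbabilityMeasure ν] {σ : ℝ}
    (P : ∀ (n : ℕ) [NeZero n], (Tor d n → ℝ) → Prop) {b C : ℝ} (hb : 0 < b) (hC : 0 ≤ C) {n0 : ℕ}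
    (h : ∀ (n : ℕ) [NeZero n], n0 ≤ n → iid (Tor d n) ν {V | ¬ P n (fun x => σ * V x)} ≤
      ENNReal.ofReal (C * Real.exp (-(b * Real.sqrt ((n : ℝ) ^ d))))) :
    ∀ᵐ ω ∂(Measure.infinitePi fun _ : Fin d → ℤ => ν), ∀ᶠ n : ℕ in atTop, ∀ [NeZero n],
      P n (fun x => σ * rs n ω x) := by
  have h1 : ∀ n : ℕ, n0 ≤ n → (Measure.infinitePi fun _ : Fin d → ℤ => ν)
      {ω | ¬ ∀ [NeZero n], P n (fun x => σ * rs n ω x)} ≤
        ENNReal.ofReal (C * Real.exp (-(b * Real.sqrt ((n : ℝ) ^ d)))) := fun n hn => by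
    by_cases h0 : n = 0
    · have : {ω : (Fin d → ℤ) → ℝ | ¬ ∀ [NeZero n], P n (fun x => σ * rs n ω x)} = ∅ := by
        ext ω
        simp only [Set.mem_setOf_eq, Set.mem_empty_iff_false, iff_false, not_not]
        intro hne
        exact absurd h0 hne.out
      rw [this, measure_empty]
      simp
    · haveI : NeZero n := ⟨h0⟩
      have h2 := h n hn
      rw [← lPsh d n ν] at h2
      refine le_trans ?_ h2
      refine le_trans (measure_mono ?_) (Measure.le_map_apply (rs_meas n).aemeasurable _)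
      intro ω hω hP
      refine hω ?_
      intro _
      exact hP
  have h3 : ∑' n : ℕ, (Measure.infinitePi fun _ : Fin d → ℤ => ν)
      {ω | ¬ ∀ [NeZero (n + n0)], P (n + n0) (fun x => σ * rs (n + n0) ω x)} ≠ ⊤ := by
    have hs : Summable fun n : ℕ => C * Real.exp (-(b * Real.sqrt (((n + n0 : ℕ) : ℝ) ^ d))) :=
      (lSum d b C hd hb).comp_injective (add_left_injective n0)
    have hs' : ∑' n : ℕ, ENNReal.ofReal (C * Real.exp (-(b * Real.sqrt (((n + n0 : ℕ) : ℝ) ^ d)))) ≠ ⊤ := by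
      rw [← ENNReal.ofReal_tsum_of_nonneg (fun n => by positivity) hs]
      exact ENNReal.ofReal_ne_top
    exact ne_top_of_le_ne_top hs' (ENNReal.tsum_le_tsum fun n => h1 (n + n0) (Nat.le_add_left _ _))
  have h4 := ae_eventually_notMem h3
  filter_upwards [h4] with ω hω
  obtain ⟨k, hk⟩ := eventually_atTop.1 hω
  refine eventually_atTop.2 ⟨k + n0, fun n hn => ?_⟩
  have h5 := hk (n - n0) (by omega)
  have h6 : n - n0 + n0 = n := by omega
  rw [h6] at h5
  intro inst
  by_contra hc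
  exact h5 fun hh => hc hh

end Pool.Agent.Q218.HB
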