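import Pool.Agent.Q218.HB.Al4

/-! The second main theorem. -/

set_option autoImplicit false
set_option linter.unusedSectionVars false
set_option linter.unusedVariables false

open MeasureTheory Filter

namespace Pool.Agent.Q218.HB

/-- truncation of the law of `σ t` -/
theorem trunc (ν : Measure ℝ) [IsProbabilityMeasure ν] {α m ε M p σ : ℝ} (hα : 0 ≤ α) (hp : 1 ≤ p)
    (hmp : 1 ≤ (m - α) * p) (hε : 0 < ε) (hmε : 2 * m + 3 * ε ≤ 1 / 2) (hM : 1 ≤ M) {d : ℕ} (hd : 1 ≤ d)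
    (hdM : M ^ 2 ≤ d) (hint : Integrable (fun t => |t| ^ p) ν) (h0 : ∫ t, t ∂ν = 0)
    (hP : |σ| ^ p * ∫ t, |t| ^ p ∂ν ≤ (M * (d : ℝ) ^ α) ^ p) :
    ∃ (μ : ℝ) (f : ℝ → ℝ) (S : Set ℝ), Measurable f ∧ MeasurableSet S ∧ |μ| ≤ (d : ℝ) ^ (-(1 / 2 - 2 * m - ε)) ∧
      (∀ t, |f t| ≤ 8 * M * (d : ℝ) ^ m) ∧ (∀ t, t ∉ S → σ * t - μ = f t) ∧
      ν S ≤ ENNReal.ofReal (1 / (4 * d)) ∧ ∫ t, t ∂(ν.map f) = 0 ∧
      (ν.map f) (Set.Icc (-(8 * M * (d : ℝ) ^ m)) (8 * M * (d : ℝ) ^ m))ᶜ = 0 := by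
  have hd1 : (1 : ℝ) ≤ d := by exact_mod_cast hd
  have hd0 : (0 : ℝ) < d := by linarith
  have hM0 : 0 < M := by linarith
  have hm0 : 0 < m := by
    by_contra h
    have : (m - α) * p ≤ 0 := mul_nonpos_of_nonpos_of_nonneg (by linarith) (by linarith)
    linarith
  obtain ⟨T, hT⟩ : ∃ T, T = 4 * M * (d : ℝ) ^ m := ⟨_, rfl⟩
  have hdm : 1 ≤ (d : ℝ) ^ m := Real.one_le_rpow hd1 hm0.le
  have hT1 : 1 ≤ T := by rw [hT]; nlinarith
  have hT0 : 0 < T := by linarith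
  have hmul : Measurable fun t : ℝ => σ * t := measurable_const_mul σ
  haveI : IsProbabilityMeasure (ν.map fun t => σ * t) := Measure.isProbabilityMeasure_map hmul.aemeasurable
  have hpm : Measurable fun t : ℝ => |t| ^ p := by fun_prop
  have habs : ∀ t : ℝ, |σ * t| ^ p = |σ| ^ p * |t| ^ p := fun t => by
    rw [abs_mul, Real.mul_rpow (abs_nonneg _) (abs_nonneg _)]
  have hint' : Integrable (fun t => |t| ^ p) (ν.map fun t => σ * t) := by
    rw [integrable_map_measure hpm.aestronglyMeasurable hmul.aemeasurable]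
    refine (hint.const_mul (|σ| ^ p)).congr (Eventually.of_forall fun t => ?_)
    simp only [Function.comp_apply]
    exact (habs t).symm
  have hP' : ∫ t, |t| ^ p ∂(ν.map fun t => σ * t) ≤ (M * (d : ℝ) ^ α) ^ p := by
    rw [integral_map hmul.aemeasurable hpm.aestronglyMeasurable]
    simp only [habs]
    rw [integral_const_mul]
    exact hP
  have h0' : ∫ t, t ∂(ν.map fun t => σ * t) = 0 := by
    rw [integral_map hmul.aemeasurable (by fun_prop), integral_const_mul, h0, mul_zero]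
  obtain ⟨μ, hμ, hS, hmean, hsupp⟩ := lTrn (ν.map fun t => σ * t) p ((M * (d : ℝ) ^ α) ^ p) T hp hT0 hint' hP' h0'
  obtain ⟨g, hg⟩ : ∃ g : ℝ → ℝ, g = fun t => (if |t| ≤ T then t else 0) - μ := ⟨_, rfl⟩
  have hgm : Measurable g := by
    rw [hg]
    exact (Measurable.ite (measurableSet_le (by fun_prop) measurable_const) measurable_id measurable_const).sub_const _
  have hratio : M * (d : ℝ) ^ α / T = (d : ℝ) ^ (α - m) / 4 := by
    rw [hT, Real.rpow_sub hd0]; field_simp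
  have hTp : 0 < T ^ p := by positivity
  have hdα : 0 < (d : ℝ) ^ α := by positivity
  have hPT : (M * (d : ℝ) ^ α) ^ p / T ^ p ≤ 1 / (4 * d) := by
    rw [← Real.div_rpow (by positivity) hT0.le, hratio, Real.div_rpow (by positivity) (by norm_num),
      ← Real.rpow_mul hd0.le]
    have h1 : (d : ℝ) ^ ((α - m) * p) ≤ (d : ℝ) ^ (-1 : ℝ) := Real.rpow_le_rpow_of_exponent_le hd1 (by nlinarith)
    have h2 : (4 : ℝ) ≤ 4 ^ p := by
      calc (4 : ℝ) = 4 ^ (1 : ℝ) := (Real.rpow_one _).symm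
        _ ≤ 4 ^ p := Real.rpow_le_rpow_of_exponent_le (by norm_num) hp
    rw [Real.rpow_neg_one] at h1
    calc (d : ℝ) ^ ((α - m) * p) / 4 ^ p ≤ (d : ℝ)⁻¹ / 4 := by
          refine div_le_div₀ (by positivity) h1 (by norm_num) h2
      _ = 1 / (4 * d) := by field_simp
  have hμ1 : |μ| ≤ (d : ℝ) ^ (-(1 / 2 - 2 * m - ε)) := by
    refine hμ.trans ?_
    have e1 : (M * (d : ℝ) ^ α) ^ p / T ^ (p - 1) = (M * (d : ℝ) ^ α) ^ p / T ^ p * T := by
      rw [Real.rpow_sub_one hT0.ne']; field_simp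
    rw [e1]
    calc (M * (d : ℝ) ^ α) ^ p / T ^ p * T ≤ 1 / (4 * d) * T := mul_le_mul_of_nonneg_right hPT hT0.le
      _ = M * (d : ℝ) ^ (m - 1) := by rw [hT, Real.rpow_sub_one hd0.ne']; field_simp
      _ ≤ (d : ℝ) ^ (1 / 2 : ℝ) * (d : ℝ) ^ (m - 1) := by
          refine mul_le_mul_of_nonneg_right ?_ (by positivity)
          rw [← Real.sqrt_eq_rpow]
          exact Real.le_sqrt_of_sq_le hdM
      _ = (d : ℝ) ^ (1 / 2 + (m - 1)) := (Real.rpow_add hd0 _ _).symm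
      _ ≤ _ := Real.rpow_le_rpow_of_exponent_le hd1 (by linarith)
  have hμT : |μ| ≤ T := by
    refine hμ1.trans (le_trans ?_ hT1)
    exact Real.rpow_le_one_of_one_le_of_nonpos hd1 (by linarith)
  refine ⟨μ, fun t => g (σ * t), {t | T < |σ * t|}, hgm.comp hmul, measurableSet_lt measurable_const (by fun_prop),
    hμ1, fun t => ?_, fun t ht => ?_, ?_, ?_, ?_⟩
  · have h1 : |g (σ * t)| ≤ T + |μ| := by
      rw [hg]
      refine (abs_sub _ _).trans (add_le_add ?_ le_rfl)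
      split_ifs with h
      · exact h
      · rw [abs_zero]; exact hT0.le
    have h2 : 8 * M * (d : ℝ) ^ m = 2 * T := by rw [hT]; ring
    rw [h2]; linarith
  · have h1 : |σ * t| ≤ T := not_lt.1 ht
    rw [hg]
    simp only
    rw [if_pos h1]
  · have h1 : ν {t | T < |σ * t|} = (ν.map fun t => σ * t) {t | T < |t|} := by
      rw [Measure.map_apply hmul (measurableSet_lt measurable_const (by fun_prop))]
      rfl
    rw [h1]
    exact hS.trans (ENNReal.ofReal_le_ofReal hPT)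
  · have h1 : ν.map (fun t => g (σ * t)) = (ν.map fun t => σ * t).map g := by
      rw [Measure.map_map hgm hmul]; rfl
    rw [h1, hg]; exact hmean
  · have h1 : ν.map (fun t => g (σ * t)) = (ν.map fun t => σ * t).map g := by
      rw [Measure.map_map hgm hmul]; rfl
    have h2 : 8 * M * (d : ℝ) ^ m = 2 * T := by rw [hT]; ring
    rw [h1, h2, hg]; exact hsupp

theorem main2 (κ : ℝ) (hκ : 0 < κ) : ∃ c : ℝ, 0 < c ∧ ∀ α m ε M p : ℝ, 0 ≤ α → 1 ≤ p → 1 ≤ (m - α) * p →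
    0 < ε → 2 * m + 3 * ε ≤ 1 / 2 → 1 ≤ M → ∃ d0 : ℕ, 1 ≤ d0 ∧ ∀ d : ℕ, d0 ≤ d →
    ∀ (ν : Measure ℝ) [IsProbabilityMeasure ν], Integrable (fun t => |t| ^ p) ν → ∫ t, t ∂ν = 0 →
    ∀ σ : ℝ, |σ| ^ p * ∫ t, |t| ^ p ∂ν ≤ (M * (d : ℝ) ^ α) ^ p →
      ∀ᵐ ω ∂(Measure.infinitePi fun _ : Fin d → ℤ => ν), ∀ᶠ n : ℕ in atTop, ∀ [NeZero n],
        GG c κ ((d : ℝ) ^ (-(1 / 2 - 2 * m - ε))) ((d : ℝ) ^ (-(ε / 64)))
          ⌊(d : ℝ) ^ (1 / 2 - 2 * m - 2 * ε)⌋₊ (fun x => σ * rs n ω x) := by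
  obtain ⟨C0, hC0, hfre⟩ := lFre
  obtain ⟨cκ, dκ, hcκ, hlow⟩ := lLow (κ + 1) (by linarith)
  obtain ⟨c1, hc1d⟩ : ∃ c1, c1 = cκ / 2 := ⟨_, rfl⟩
  have hc1 : 0 < c1 := by rw [hc1d]; positivity
  obtain ⟨θ, hθd⟩ : ∃ θ, θ = min 1 (c1 / (32 * C0)) := ⟨_, rfl⟩
  have hθ : 0 < θ := by rw [hθd]; exact lt_min one_pos (by positivity)
  have hθ1 : θ ≤ 1 := by rw [hθd]; exact min_le_left _ _
  have K1 : 32 * θ * C0 ≤ c1 := by
    have : θ ≤ c1 / (32 * C0) := by rw [hθd]; exact min_le_right _ _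
    rw [le_div_iff₀ (by positivity)] at this
    linarith
  refine ⟨min (θ * c1 / 4) (1 / (4 * (C0 + 1))), lt_min (by positivity) (by positivity), ?_⟩
  intro α m ε M p hα hp hmp hε hmε hM
  have hM0 : 0 < M := by linarith
  have hm : 0 ≤ m := by
    by_contra h
    have : (m - α) * p ≤ 0 := mul_nonpos_of_nonpos_of_nonneg (by linarith) (by linarith)
    linarith
  obtain ⟨a, had⟩ : ∃ a, a = 1 / 2 - 2 * m - ε := ⟨_, rfl⟩
  have ha : 0 < a := by rw [had]; linarith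
  obtain ⟨K, hKd⟩ : ∃ K, K = θ ^ (-(1 / a)) := ⟨_, rfl⟩
  have hK : 1 ≤ K := by
    rw [hKd]; exact Real.one_le_rpow_of_pos_of_le_one_of_nonpos hθ hθ1 (by rw [neg_nonpos]; positivity)
  obtain ⟨A1, hA1, T1⟩ := torus_law lem lGze lFou lFre (8 * M) m a ε 1 (by positivity) hm ha.le hε
    (by rw [had]; linarith) le_rfl
  obtain ⟨A2, hA2, T2⟩ := torus_law lem lGze lFou lFre (8 * M) m a ε K (by positivity) hm ha.le hε
    (by rw [had]; linarith) hK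
  obtain ⟨C1, hC1⟩ : ∃ C1, C1 = A1 + 2 := ⟨_, rfl⟩
  obtain ⟨C2, hC2⟩ : ∃ C2, C2 = A2 + 1 + 1 / θ := ⟨_, rfl⟩
  have hC1' : 0 ≤ C1 := by rw [hC1]; linarith
  have hC2' : 0 ≤ C2 := by rw [hC2]; positivity
  obtain ⟨C', hC'd⟩ : ∃ C', C' = 2 * C1 + 2 * C2 + 20 + 16 / θ := ⟨_, rfl⟩
  have hC'0 : 0 < C' := by rw [hC'd]; positivity
  obtain ⟨Q, hQd⟩ : ∃ Q : ℝ, Q = 2400 + 1 / θ + 40 * C' / c1 + C' + (128 * C0 + 72 * C') * (4 / (θ * c1)) +
    (512 * C0 + 288 * C' + (6 + 2 * (8 * M) ^ 2)) + (κ + 1) := ⟨_, rfl⟩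
  have p1 : 0 < 1 / θ := by positivity
  have p2 : 0 < 40 * C' / c1 := by positivity
  have p3 : 0 < (128 * C0 + 72 * C') * (4 / (θ * c1)) := by positivity
  have p4 : 0 < 512 * C0 + 288 * C' + (6 + 2 * (8 * M) ^ 2) := by positivity
  have hQ : 0 < Q := by rw [hQd]; positivity
  obtain ⟨D, hD⟩ := exists_small2 ε hε Q hQ
  refine ⟨max (max D dκ) (max 3 (max ⌈K⌉₊ ⌈M ^ 2⌉₊)),
    le_trans (by norm_num) (le_max_of_le_right (le_max_left 3 _)), ?_⟩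
  intro d hd ν _ hint hν0 σ hP
  have hdD : D ≤ d := (le_max_left _ _).trans ((le_max_left _ _).trans hd)
  have hdκ : dκ ≤ d := (le_max_right _ _).trans ((le_max_left _ _).trans hd)
  have hd3 : 3 ≤ d := (le_max_left _ _).trans ((le_max_right _ _).trans hd)
  have hdKM : max ⌈K⌉₊ ⌈M ^ 2⌉₊ ≤ d := (le_max_right _ _).trans ((le_max_right _ _).trans hd)
  have hdK : K ≤ d := (Nat.le_ceil K).trans (by exact_mod_cast (le_max_left _ _).trans hdKM)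
  have hdM : M ^ 2 ≤ d := (Nat.le_ceil (M ^ 2)).trans (by exact_mod_cast (le_max_right _ _).trans hdKM)
  have hd1 : 1 ≤ d := by omega
  have hd1' : (1 : ℝ) ≤ d := by exact_mod_cast hd1
  have hd0 : (0 : ℝ) < d := by linarith
  obtain ⟨η, hηd⟩ : ∃ η, η = (d : ℝ) ^ (-(1 / 2 - 2 * m - ε)) := ⟨_, rfl⟩
  obtain ⟨s, hsd⟩ : ∃ s, s = (d : ℝ) ^ (-(1 / 2 : ℝ)) := ⟨_, rfl⟩
  obtain ⟨v, hvd⟩ : ∃ v, v = (d : ℝ) ^ (-(ε / 64)) := ⟨_, rfl⟩
  obtain ⟨L, hLd⟩ : ∃ L, L = ⌊(d : ℝ) ^ (1 / 2 - 2 * m - 2 * ε)⌋₊ := ⟨_, rfl⟩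
  have hηa : η = (d : ℝ) ^ (-a) := by rw [hηd, had]
  obtain ⟨hη, hη1, hs, hv, hv1, hL, hLη, hL2, hsη, hηs, hsd1, hsη2⟩ :=
    par_facts2 m ε hm hε hmε d hd1 hηd hsd hvd hLd
  have hvQ : v * Q ≤ 1 := by rw [hvd]; exact hD d hdD
  have sub : ∀ x : ℝ, x ≤ Q → x * v ≤ 1 := fun x hx => by
    have := mul_le_mul_of_nonneg_left hx hv.le
    linarith
  have hv2 : 2400 * v ≤ 1 := sub _ (by rw [hQd]; linarith)
  have hv4 : v ≤ 1 / 4 := by linarith
  have hvθ : v ≤ θ := by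
    have := sub (1 / θ) (by rw [hQd]; linarith)
    rw [one_div, inv_mul_le_iff₀ hθ] at this
    linarith
  have K2 : 40 * C' * v ≤ c1 := by
    have := sub (40 * C' / c1) (by rw [hQd]; linarith)
    rw [div_mul_eq_mul_div, div_le_one hc1] at this
    exact this
  have K4 : C' * v ≤ 1 := sub _ (by rw [hQd]; linarith)
  have K3 : (128 * C0 + 72 * C') * (4 / (θ * c1)) * v ≤ 1 := sub _ (by rw [hQd]; linarith)
  have K5 : (512 * C0 + 288 * C' + (6 + 2 * (8 * M) ^ 2)) * v ≤ 1 := sub _ (by rw [hQd]; linarith)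
  have K6 : (κ + 1) * v ≤ 1 := sub _ (by rw [hQd]; linarith)
  have hKη : (K * d) ^ (-a) = θ * η := by
    rw [Real.mul_rpow (by linarith) hd0.le, hηa, hKd, ← Real.rpow_mul hθ.le]
    congr 1
    have : -(1 / a) * -a = 1 := by field_simp
    rw [this, Real.rpow_one]
  have h1η : (1 * (d : ℝ)) ^ (-a) = η := by rw [one_mul, hηa]
  have hexp : (d : ℝ) ^ (-(1 - 2 * (1 / 2 - 2 * m - ε) - 2 * m - ε / 2)) = s * v ^ 32 / η := by
    rw [← hηs]; field_simp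
  obtain ⟨μ, f, S, hfm, hS, hμ, hf, hfS, hνS, hmean, hsupp⟩ :=
    trunc ν hα hp hmp hε hmε hM hd1 hdM hint hν0 hP
  rw [← hηd] at hμ
  haveI : IsProbabilityMeasure (ν.map f) := Measure.isProbabilityMeasure_map hfm.aemeasurable
  obtain ⟨n1, hn1⟩ := T1 d hd3 hd1'
  obtain ⟨n2, hn2⟩ := T2 d hd3 hdK
  obtain ⟨n3, hn3⟩ := hfre 1 d le_rfl hd3 hd1'
  obtain ⟨n4, hn4⟩ := lAvg (v ^ 16) (by positivity) (pow_le_one₀ hv.le hv1)
  obtain ⟨n5, hn5⟩ := lLob d (θ * η) (c1 * s) (by positivity) (by positivity)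
  rw [← hηd, ← hvd, ← hLd]
  obtain ⟨δ, hδ⟩ : ∃ δ, δ = (θ * η) ^ 2 * s * v ^ 32 / 8 := ⟨_, rfl⟩
  obtain ⟨b, hb⟩ : ∃ b, b = min (s * v ^ 32 * θ ^ 2 * η / 8) (3 / (4 * (d : ℝ))) := ⟨_, rfl⟩
  have hb0 : 0 < b := by rw [hb]; exact lt_min (by positivity) (by positivity)
  refine as_of hd1 ν (fun n _ V => GG _ κ η v L V) hb0
    (C := 8 * (((⌈2 * (7 * (Real.sqrt (d : ℝ) / v ^ 4)) / δ⌉₊ : ℕ) : ℝ) + 1) + 4) (by positivity)
    (n0 := max (max n1 n2) (max (max n3 n4) (max n5 (8 * L ^ 2 + 8)))) ?_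
  intro n _ hn
  have g1 : n1 ≤ n := (le_max_left _ _).trans ((le_max_left _ _).trans hn)
  have g2 : n2 ≤ n := (le_max_right _ _).trans ((le_max_left _ _).trans hn)
  have g34 : max n3 n4 ≤ n := (le_max_left _ _).trans ((le_max_right _ _).trans hn)
  have g3 : n3 ≤ n := (le_max_left _ _).trans g34
  have g4 : n4 ≤ n := (le_max_right _ _).trans g34
  have g56 : max n5 (8 * L ^ 2 + 8) ≤ n := (le_max_right _ _).trans ((le_max_right _ _).trans hn)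
  have g5 : n5 ≤ n := (le_max_left _ _).trans g56
  have g6 : 8 * L ^ 2 + 8 ≤ n := (le_max_right _ _).trans g56
  have hI := hn3 n g3 η (by rw [one_mul]; exact hsη2)
  rw [← hsd] at hI
  have hHT1 : ∀ E : ℝ, ∫ W, HT E η (fun x => f (W x)) ∂(iid (Tor d n) ν) ≤
      A1 * (n : ℝ) ^ d * s * v ^ 32 / η := fun E => by
    have := hn1 n g1 E (ν.map f) hsupp hmean
    rw [h1η, had, hexp] at this
    rw [int_map ν hfm E η hη]
    refine this.trans (le_of_eq ?_)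
    ring
  have hHT2 : ∀ E : ℝ, ∫ W, HT E (θ * η) (fun x => f (W x)) ∂(iid (Tor d n) ν) ≤
      A2 * (n : ℝ) ^ d * s * v ^ 32 / η := fun E => by
    have := hn2 n g2 E (ν.map f) hsupp hmean
    rw [hKη] at this
    rw [had, hexp] at this
    rw [int_map ν hfm E (θ * η) (by positivity)]
    refine this.trans (le_of_eq ?_)
    ring
  have hlow' : ∀ E : ℝ, |E| ≤ (κ + 1) * Real.sqrt d → ∀ x : Tor d n,
      c1 * s ≤ (G hop (fun _ => 0) (pt E (θ * η)) x x).im := fun E hE x => by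
    have hsq : 0 < Real.sqrt d := Real.sqrt_pos.2 hd0
    have hs1 : s = 1 / Real.sqrt d := by rw [eq_div_iff hsq.ne']; exact hsd1
    have hlow1 := hlow d E (θ * η) hdκ hd1 hE (by
      rw [← hs1]
      refine hsη.trans ?_
      have h1 : v ^ 64 ≤ θ := by
        have := pow_le_pow_of_le_one hv.le hv1 (show 1 ≤ 64 by norm_num)
        rw [pow_one] at this; linarith
      calc η * v ^ 64 ≤ η * θ := mul_le_mul_of_nonneg_left h1 hη.le
        _ = _ := mul_comm _ _) (by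
      calc θ * η ≤ 1 * 1 := mul_le_mul hθ1 hη1 hη.le (by norm_num)
        _ = 1 := one_mul _)
    have h2 := hn5 n g5 E x
    have h3 : cκ / Real.sqrt d = 2 * (c1 * s) := by rw [hs1, hc1d]; ring
    rw [h3] at hlow1
    linarith
  refine prob_one hC0 hA1 hA2 hC1 hC2 hc1 hθ hθ1 (lt_min (by positivity) (by positivity)) (min_le_left _ _) ?_
    (by positivity) hm hε hmε hd1 hηd hsd hvd hLd g6 hv4 hv2 (hn4 n g4) hI.2 hI.1 hlow' K1 K2 K4 K3 hC'd K6 K5 hμ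
    ν hfm hS hf hfS hνS hHT1 hHT2 hδ hb
  calc min (θ * c1 / 4) (1 / (4 * (C0 + 1))) * (4 * (C0 + 1)) ≤ 1 / (4 * (C0 + 1)) * (4 * (C0 + 1)) :=
        mul_le_mul_of_nonneg_right (min_le_right _ _) (by positivity)
    _ = 1 := by field_simp

end Pool.Agent.Q218.HB
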