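import Pool.Agent.Q218.HB.Law

/-! The chain of scales. -/

set_option autoImplicit false
set_option linter.unusedSectionVars false
set_option linter.unusedVariables false

open MeasureTheory

namespace Pool.Agent.Q218.HB

variable {ι : Type} {Λ : ι → Type} [∀ i, Fintype (Λ i)] [∀ i, DecidableEq (Λ i)]
  [∀ i, AddCommGroup (Λ i)]

/-- the family of the systems -/
structure Setup (ν : ι → Measure ℝ) (M : ι → ℝ) (CM m C0 : ℝ) (D E : ι → ℝ)
    (h : ∀ i, Λ i → Λ i → ℝ) : Prop where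
  symm : ∀ i x y, h i x y = h i y x
  tran : ∀ i (a x y : Λ i), h i (x + a) (y + a) = h i x y
  one : ∀ i, 1 ≤ D i
  M0 : ∀ i, 0 ≤ M i
  CM0 : 0 ≤ CM
  m0 : 0 ≤ m
  Mle : ∀ i, M i ≤ CM * D i ^ m
  supp : ∀ i, ν i (Set.Icc (-M i) (M i))ᶜ = 0
  mean : ∀ i, ∫ t, t ∂(ν i) = 0
  C00 : 0 ≤ C0
  free : ∀ i (η : ℝ), D i ^ (-(1 / 2 : ℝ)) ≤ η →
    ‖G (h i) (fun _ => 0) (pt (E i) η) 0 0‖ ≤ C0 * D i ^ (-(1 / 2 : ℝ))

/-- the scale `η_j` -/
noncomputable def et (D : ι → ℝ) (e : ℝ) (j : ℕ) (i : ι) : ℝ := D i ^ (1 / 2 - j * e : ℝ)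

/-- the point `E + i η_j` -/
noncomputable def zs (D E : ι → ℝ) (e : ℝ) (j : ℕ) (i : ι) : ℂ := pt (E i) (et D e j i)

/-- `Im G(0,0; z_j)` -/
noncomputable def Ga (D E : ι → ℝ) (h : ∀ i, Λ i → Λ i → ℝ) (e : ℝ) (j : ℕ) (i : ι)
    (V : Λ i → ℝ) : ℝ := (G (h i) V (zs D E e j i) 0 0).im

/-- the control variable -/
noncomputable def K (D E : ι → ℝ) (h : ∀ i, Λ i → Λ i → ℝ) (e : ℝ) (J : ℕ) (i : ι)
    (V : Λ i → ℝ) : ℝ := D i ^ (-(1 / 2 : ℝ)) + ∑ j ∈ Finset.range (J + 1), Ga D E h e j i V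

variable {ν : ι → Measure ℝ} {M : ι → ℝ} {CM m C0 : ℝ} {D E : ι → ℝ} {h : ∀ i, Λ i → Λ i → ℝ} {e : ℝ}

theorem et_pos (hD : ∀ i, 1 ≤ D i) (j : ℕ) (i : ι) : 0 < et D e j i :=
  Real.rpow_pos_of_pos (zero_lt_one.trans_le (hD i)) _

theorem et_step (hD : ∀ i, 1 ≤ D i) (j : ℕ) (i : ι) : et D e j i = D i ^ e * et D e (j + 1) i := by
  unfold et
  rw [← Real.rpow_add (zero_lt_one.trans_le (hD i))]
  congr 1; push_cast; ring

theorem et_le (hD : ∀ i, 1 ≤ D i) (he : 0 ≤ e) (j : ℕ) (i : ι) : et D e (j + 1) i ≤ et D e j i := by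
  rw [et_step hD j i]
  exact le_mul_of_one_le_left (et_pos hD _ i).le (Real.one_le_rpow (hD i) he)

theorem zs_im (hD : ∀ i, 1 ≤ D i) (j : ℕ) (i : ι) : (zs D E e j i).im = et D e j i := pt_im _ _

theorem zs_pos (hD : ∀ i, 1 ≤ D i) (j : ℕ) (i : ι) : 0 < (zs D E e j i).im := by
  rw [zs_im hD]; exact et_pos hD j i

theorem im_nonneg {Λ : Type} [Fintype Λ] [DecidableEq Λ] {h : Λ → Λ → ℝ} {z : ℂ} (L : Lem)
    (hs : ∀ x y, h x y = h y x) (hz : 0 < z.im) (V : Λ → ℝ) (x : Λ) : 0 ≤ (G h V z x x).im := by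
  have h1 := L.ward Λ h V z hs hz x
  have h2 : 0 ≤ (G h V z x x).im / z.im := by rw [← h1]; positivity
  by_contra h3
  have := div_neg_of_neg_of_pos (not_le.1 h3) hz
  linarith

theorem cb_im {Λ : Type} [Fintype Λ] [DecidableEq Λ] {h : Λ → Λ → ℝ} {z : ℂ} (L : Lem)
    (hs : ∀ x y, h x y = h y x) (hz : 0 < z.im) (x : Λ) : CB fun V => (G h V z x x).im :=
  ⟨Complex.continuous_im.comp (L.cont Λ h z hs hz.ne' x x), ⟨1 / z.im, fun V =>
    (Complex.im_le_norm _).trans (ent_le L.opb hs hz V x x)⟩, fun V => im_nonneg L hs hz V x⟩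

variable (S : Setup ν M CM m C0 D E h) (L : Lem)
include S L

theorem Ga_reg (j : ℕ) : Reg (Ga D E h e j) := fun i => cb_im L (S.symm i) (zs_pos S.one j i) 0

theorem Ga_tr (j : ℕ) (i : ι) (x : Λ i) (V : Λ i → ℝ) :
    Ga D E h e j i (tr x V) = (G (h i) V (zs D E e j i) x x).im := by
  unfold Ga tr
  rw [L.tra (Λ i) (h i) V _ (S.tran i) x 0 0, zero_add]

theorem Ga_step (he : 0 ≤ e) (j : ℕ) (i : ι) (V : Λ i → ℝ) :
    Ga D E h e (j + 1) i V ≤ D i ^ e * Ga D E h e j i V := by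
  have h1 := L.mono (Λ i) (h i) V (E i) (et D e j i) (et D e (j + 1) i) (S.symm i)
    (et_pos S.one _ i) (et_le S.one he j i) 0
  rw [et_step S.one j i] at h1
  have h2 := et_pos (e := e) S.one (j + 1) i
  unfold Ga zs
  rw [et_step S.one j i]
  refine le_of_mul_le_mul_left ?_ h2
  linarith

theorem Ga_le_K {j J : ℕ} (hj : j ≤ J) (i : ι) (V : Λ i → ℝ) :
    Ga D E h e j i V ≤ K D E h e J i V := by
  unfold K
  have h1 : Ga D E h e j i V ≤ ∑ j ∈ Finset.range (J + 1), Ga D E h e j i V :=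
    Finset.single_le_sum (f := fun j => Ga D E h e j i V)
      (fun k _ => (Ga_reg S L k i).2.2 V) (Finset.mem_range.2 (by omega))
  have h2 : 0 < D i ^ (-(1 / 2 : ℝ)) := Real.rpow_pos_of_pos (zero_lt_one.trans_le (S.one i)) _
  linarith

theorem D_le_K (J : ℕ) (i : ι) (V : Λ i → ℝ) : D i ^ (-(1 / 2 : ℝ)) ≤ K D E h e J i V := by
  unfold K
  have h1 : 0 ≤ ∑ j ∈ Finset.range (J + 1), Ga D E h e j i V :=
    Finset.sum_nonneg fun k _ => (Ga_reg S L k i).2.2 V
  linarith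

theorem K_mono {J J' : ℕ} (hJ : J ≤ J') (i : ι) (V : Λ i → ℝ) :
    K D E h e J i V ≤ K D E h e J' i V := by
  unfold K
  have : ∑ j ∈ Finset.range (J + 1), Ga D E h e j i V ≤ ∑ j ∈ Finset.range (J' + 1), Ga D E h e j i V :=
    Finset.sum_le_sum_of_subset_of_nonneg (Finset.range_mono (by omega))
      fun k _ _ => (Ga_reg S L k i).2.2 V
  linarith

theorem K_reg (J : ℕ) : Reg (K D E h e J) := fun i =>
  (reg_const (Λ := Λ) (c := fun i => D i ^ (-(1 / 2 : ℝ)))
    (fun i => (Real.rpow_pos_of_pos (zero_lt_one.trans_le (S.one i)) _).le)).add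
    (Y := fun i V => ∑ j ∈ Finset.range (J + 1), Ga D E h e j i V) (fun i => by
      refine ⟨continuous_finsetSum _ fun j _ => (Ga_reg S L j i).1,
        ⟨∑ j ∈ Finset.range (J + 1), (Ga_reg (e := e) S L j i).2.1.choose, fun V =>
        Finset.sum_le_sum fun j _ => (Ga_reg (e := e) S L j i).2.1.choose_spec V⟩, fun V =>
        Finset.sum_nonneg fun j _ => (Ga_reg S L j i).2.2 V⟩) i

/-- the bound of all entries by the control variables -/
theorem chain (he : 0 ≤ e) (J : ℕ) (i : ι) (V : Λ i → ℝ) (x y : Λ i) :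
    ‖G (h i) V (zs D E e J i) x y‖ ≤
      ((J : ℝ) + 1) * D i ^ (e / 2) * Real.sqrt (K D E h e J i (tr x V) * K D E h e J i (tr y V)) := by
  have hD0 : 0 < D i := zero_lt_one.trans_le (S.one i)
  have h1e : 1 ≤ D i ^ (e / 2) := Real.one_le_rpow (S.one i) (by linarith)
  induction J with
  | zero =>
    have h1 := ent_le L.opb (S.symm i) (zs_pos (E := E) (e := e) S.one 0 i) V x y
    rw [zs_im S.one] at h1
    have e1 : 1 / et D e 0 i = D i ^ (-(1 / 2 : ℝ)) := by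
      unfold et
      rw [one_div, ← Real.rpow_neg hD0.le]; congr 1; push_cast; ring
    rw [e1] at h1
    have hk1 := D_le_K (e := e) S L 0 i (tr x V)
    have hk2 := D_le_K (e := e) S L 0 i (tr y V)
    have hp : 0 < D i ^ (-(1 / 2 : ℝ)) := Real.rpow_pos_of_pos hD0 _
    have h2 : D i ^ (-(1 / 2 : ℝ)) ≤ Real.sqrt (K D E h e 0 i (tr x V) * K D E h e 0 i (tr y V)) := by
      refine Real.le_sqrt_of_sq_le ?_
      rw [sq]
      exact mul_le_mul hk1 hk2 hp.le (hp.le.trans hk1)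
    have h3 : 0 ≤ Real.sqrt (K D E h e 0 i (tr x V) * K D E h e 0 i (tr y V)) := Real.sqrt_nonneg _
    push_cast
    rw [zero_add, one_mul]
    exact h1.trans (h2.trans (le_mul_of_one_le_left h3 h1e))
  | succ J ih =>
    have hd := L.difz (Λ i) (h i) V (zs D E e J i) (zs D E e (J + 1) i) (S.symm i)
      (zs_pos S.one J i) (zs_pos S.one (J + 1) i) x y
    have hη := et_pos (e := e) S.one J i
    have hη' := et_pos (e := e) S.one (J + 1) i
    have hst := et_step (e := e) S.one J i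
    have hle := et_le (e := e) S.one he J i
    have e1 : ‖zs D E e (J + 1) i - zs D E e J i‖ ^ 2 ≤ et D e J i ^ 2 := by
      have : zs D E e (J + 1) i - zs D E e J i = ((et D e (J + 1) i - et D e J i : ℝ) : ℂ) * Complex.I := by
        unfold zs pt; push_cast; ring
      rw [this, norm_mul, Complex.norm_I, mul_one, Complex.norm_real, Real.norm_eq_abs]
      refine pow_le_pow_left₀ (abs_nonneg _) ?_ 2
      rw [abs_sub_comm, abs_of_nonneg (by linarith)]
      linarith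
    rw [zs_im S.one, zs_im S.one, ← Ga_tr S L, ← Ga_tr S L] at hd
    have ha := (Ga_reg (e := e) S L (J + 1) i).2.2 (tr x V)
    have hb := (Ga_reg (e := e) S L J i).2.2 (tr y V)
    have h2 : ‖G (h i) V (zs D E e (J + 1) i) x y - G (h i) V (zs D E e J i) x y‖ ^ 2 ≤
        D i ^ e * (K D E h e (J + 1) i (tr x V) * K D E h e (J + 1) i (tr y V)) := by
      refine hd.trans ?_
      calc ‖zs D E e (J + 1) i - zs D E e J i‖ ^ 2 * (Ga D E h e (J + 1) i (tr x V) / et D e (J + 1) i *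
          (Ga D E h e J i (tr y V) / et D e J i))
          ≤ et D e J i ^ 2 * (Ga D E h e (J + 1) i (tr x V) / et D e (J + 1) i *
          (Ga D E h e J i (tr y V) / et D e J i)) := mul_le_mul_of_nonneg_right e1 (by positivity)
        _ = D i ^ e * (Ga D E h e (J + 1) i (tr x V) * Ga D E h e J i (tr y V)) := by
            rw [hst]; field_simp
        _ ≤ _ := by
            refine mul_le_mul_of_nonneg_left ?_ (Real.rpow_pos_of_pos hD0 _).le
            exact mul_le_mul (Ga_le_K S L le_rfl i _) (Ga_le_K S L (Nat.le_succ J) i _) hb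
              (ha.trans (Ga_le_K S L le_rfl i _))
    have h3 : ‖G (h i) V (zs D E e (J + 1) i) x y - G (h i) V (zs D E e J i) x y‖ ≤
        D i ^ (e / 2) * Real.sqrt (K D E h e (J + 1) i (tr x V) * K D E h e (J + 1) i (tr y V)) := by
      have h4 := Real.sqrt_le_sqrt h2
      rw [Real.sqrt_sq (norm_nonneg _), Real.sqrt_mul (Real.rpow_pos_of_pos hD0 _).le] at h4
      have e5 : Real.sqrt (D i ^ e) = D i ^ (e / 2) := by
        rw [Real.sqrt_eq_rpow, ← Real.rpow_mul hD0.le]; congr 1; ring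
      rwa [e5] at h4
    have h5 : Real.sqrt (K D E h e J i (tr x V) * K D E h e J i (tr y V)) ≤
        Real.sqrt (K D E h e (J + 1) i (tr x V) * K D E h e (J + 1) i (tr y V)) := by
      refine Real.sqrt_le_sqrt ?_
      exact mul_le_mul (K_mono S L (Nat.le_succ J) i _) (K_mono S L (Nat.le_succ J) i _)
        ((K_reg S L J i).2.2 _) ((K_reg S L (J + 1) i).2.2 _)
    have h6 : ‖G (h i) V (zs D E e (J + 1) i) x y‖ ≤ ‖G (h i) V (zs D E e J i) x y‖ +
        ‖G (h i) V (zs D E e (J + 1) i) x y - G (h i) V (zs D E e J i) x y‖ := by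
      have := norm_add_le (G (h i) V (zs D E e J i) x y)
        (G (h i) V (zs D E e (J + 1) i) x y - G (h i) V (zs D E e J i) x y)
      rwa [add_sub_cancel] at this
    have hR : 0 ≤ D i ^ (e / 2) := by linarith
    have h7 : ((J : ℝ) + 1) * D i ^ (e / 2) * Real.sqrt (K D E h e J i (tr x V) * K D E h e J i (tr y V)) ≤
        ((J : ℝ) + 1) * D i ^ (e / 2) *
        Real.sqrt (K D E h e (J + 1) i (tr x V) * K D E h e (J + 1) i (tr y V)) :=
      mul_le_mul_of_nonneg_left h5 (by positivity)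
    push_cast
    linarith

end Pool.Agent.Q218.HB
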