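import Pool.Agent.Q218.HB.Dom

/-! Domination of covariant sums. -/

set_option autoImplicit false
set_option linter.unusedSectionVars false

open MeasureTheory

namespace Pool.Agent.Q218.HB

/-- translation of the potential -/
def tr {Λ : Type} [Add Λ] (x : Λ) (V : Λ → ℝ) : Λ → ℝ := fun v => V (v + x)

theorem tr_cont {Λ : Type} [Add Λ] (x : Λ) : Continuous fun V : Λ → ℝ => tr x V :=
  continuous_pi fun _ => continuous_apply _

theorem jensen {α : Type} [Fintype α] (a w : α → ℝ) (ha : ∀ x, 0 ≤ a x) (hw : ∀ x, 0 ≤ w x) (p : ℕ) :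
    (∑ x, a x * w x) ^ (p + 1) ≤ (∑ x, w x) ^ p * ∑ x, a x ^ (p + 1) * w x := by
  obtain ⟨m, hm⟩ : ∃ m, m = ∑ x, w x := ⟨_, rfl⟩
  have hm0 : 0 ≤ m := by rw [hm]; exact Finset.sum_nonneg fun x _ => hw x
  rcases hm0.eq_or_lt with h0 | h0
  · have hz : ∀ x, w x = 0 := fun x => by
      have := (Finset.sum_eq_zero_iff_of_nonneg (s := Finset.univ) (f := w)
        (fun x _ => hw x)).1 (by rw [← hm, ← h0]) x (Finset.mem_univ x)
      exact this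
    simp [hz]
  · have h1 := Real.pow_arith_mean_le_arith_mean_pow Finset.univ (fun x => w x / m) a
      (fun x _ => div_nonneg (hw x) hm0) (by rw [← Finset.sum_div, ← hm, div_self h0.ne'])
      (fun x _ => ha x) (p + 1)
    have e1 : ∑ x, w x / m * a x = (∑ x, a x * w x) / m := by
      rw [Finset.sum_div]; exact Finset.sum_congr rfl fun x _ => by ring
    have e2 : ∑ x, w x / m * a x ^ (p + 1) = (∑ x, a x ^ (p + 1) * w x) / m := by
      rw [Finset.sum_div]; exact Finset.sum_congr rfl fun x _ => by ring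
    rw [e1, e2, div_pow, div_le_div_iff₀ (by positivity) h0] at h1
    rw [← hm]
    have h2 : (∑ x, a x * w x) ^ (p + 1) * m ≤ (m ^ p * ∑ x, a x ^ (p + 1) * w x) * m := by
      refine h1.trans (le_of_eq ?_)
      ring
    exact le_of_mul_le_mul_right h2 h0

variable {ι : Type} {Λ : ι → Type} [∀ i, Fintype (Λ i)] [∀ i, AddCommGroup (Λ i)]
variable {ν : ι → Measure ℝ} {D : ι → ℝ} {s t : ℝ}

theorem Reg.tr_sum {a : ∀ i, (Λ i → ℝ) → ℝ} {w : ∀ i, Λ i → (Λ i → ℝ) → ℝ} (ha : Reg a)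
    (hw : ∀ i y, Continuous (w i y) ∧ (∃ B : ℝ, ∀ V, w i y V ≤ B) ∧ ∀ V, 0 ≤ w i y V) :
    Reg fun i V => ∑ x, a i (tr x V) * w i (-x) (tr x V) := fun i => by
  obtain ⟨h1, ⟨B, hB⟩, h3⟩ := ha i
  choose Bw hBw using fun y => (hw i y).2.1
  refine ⟨?_, ⟨∑ x, B * Bw (-x), fun V => ?_⟩, fun V => ?_⟩
  · exact continuous_finsetSum _ fun x _ =>
      (h1.comp (tr_cont x)).mul (((hw i (-x)).1).comp (tr_cont x))
  · exact Finset.sum_le_sum fun x _ => mul_le_mul (hB _) (hBw _ _) ((hw i (-x)).2.2 _)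
      ((h3 V).trans (hB V))
  · exact Finset.sum_nonneg fun x _ => mul_nonneg (h3 _) ((hw i (-x)).2.2 _)

/-- sums with covariant weights -/
theorem Dom.cov [∀ i, IsProbabilityMeasure (ν i)] (hS : S_SHI) {a : ∀ i, (Λ i → ℝ) → ℝ}
    {w : ∀ i, Λ i → (Λ i → ℝ) → ℝ} (ha : Reg a)
    (hw : ∀ i y, Continuous (w i y) ∧ (∃ B : ℝ, ∀ V, w i y V ≤ B) ∧ ∀ V, 0 ≤ w i y V)
    (hsum : ∀ i V, ∑ x, w i (-x) (tr x V) = ∑ y, w i y V) (hD : ∀ i, 1 ≤ D i)
    (hda : Dom ν D a s) (hdm : Dom ν D (fun i V => ∑ y, w i y V) t) :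
    Dom ν D (fun i V => ∑ x, a i (tr x V) * w i (-x) (tr x V)) (s + t) := by
  have hm : Reg fun i V => ∑ y, w i y V := fun i => by
    choose Bw hBw using fun y => (hw i y).2.1
    exact ⟨continuous_finsetSum _ fun y _ => (hw i y).1, ⟨∑ y, Bw y, fun V =>
      Finset.sum_le_sum fun y _ => hBw y V⟩, fun V => Finset.sum_nonneg fun y _ => (hw i y).2.2 V⟩
  have hR := Reg.tr_sum ha hw
  intro p
  rcases p with _ | p
  · refine ⟨1, zero_le_one, fun i => ?_⟩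
    haveI := iid_prob (Λ i) (ν i)
    simp
  obtain ⟨C, hC, h1⟩ := hdm (2 * p + 1)
  obtain ⟨C', hC', h2⟩ := Dom.mul (ha.pow (2 * (p + 1))) hm hD (hda.pow (2 * (p + 1))) hdm 1
  refine ⟨(C + C') / 2, by positivity, fun i => ?_⟩
  haveI := iid_prob (Λ i) (ν i)
  have h0 : 0 < D i := zero_lt_one.trans_le (hD i)
  obtain ⟨α, hα⟩ : ∃ α, α = D i ^ (t * (2 * p + 1) - (s + t) * (p + 1)) := ⟨_, rfl⟩
  have hα0 : 0 < α := by rw [hα]; exact Real.rpow_pos_of_pos h0 _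
  obtain ⟨h31, ⟨B, hB⟩, h33⟩ := ha i
  have hp : ∀ V, (∑ x, a i (tr x V) * w i (-x) (tr x V)) ^ (p + 1) ≤
      α / 2 * (∑ y, w i y V) ^ (2 * p + 1) +
        α⁻¹ / 2 * ∑ x, a i (tr x V) ^ (2 * (p + 1)) * w i (-x) (tr x V) := fun V => by
    have hj := jensen (fun x => a i (tr x V)) (fun x => w i (-x) (tr x V)) (fun x => h33 _)
      (fun x => (hw i (-x)).2.2 _) p
    rw [hsum i V] at hj
    refine hj.trans ?_
    have e1 : (∑ y, w i y V) ^ (2 * p + 1) = ∑ x, (∑ y, w i y V) ^ (2 * p) * w i (-x) (tr x V) := by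
      rw [← Finset.mul_sum, hsum i V, pow_succ]
    rw [e1, Finset.mul_sum, Finset.mul_sum, Finset.mul_sum, ← Finset.sum_add_distrib]
    refine Finset.sum_le_sum fun x _ => ?_
    obtain ⟨m, hm'⟩ : ∃ m, m = (∑ y, w i y V) ^ p := ⟨_, rfl⟩
    obtain ⟨b, hb'⟩ : ∃ b, b = a i (tr x V) ^ (p + 1) := ⟨_, rfl⟩
    have e2 : (∑ y, w i y V) ^ (2 * p) = m ^ 2 := by rw [hm', ← pow_mul, mul_comm]
    have e3 : a i (tr x V) ^ (2 * (p + 1)) = b ^ 2 := by rw [hb', ← pow_mul, mul_comm]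
    rw [e2, e3, ← hb', ← hm']
    have h4 : α / 2 * m ^ 2 + α⁻¹ / 2 * b ^ 2 - m * b = (α * m - b) ^ 2 / (2 * α) := by
      field_simp; ring
    have h5 : 0 ≤ (α * m - b) ^ 2 / (2 * α) := by positivity
    have h6 := (hw i (-x)).2.2 (tr x V)
    have h7 : m * b ≤ α / 2 * m ^ 2 + α⁻¹ / 2 * b ^ 2 := by linarith
    calc m * (b * w i (-x) (tr x V)) = (m * b) * w i (-x) (tr x V) := by ring
      _ ≤ (α / 2 * m ^ 2 + α⁻¹ / 2 * b ^ 2) * w i (-x) (tr x V) := mul_le_mul_of_nonneg_right h7 h6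
      _ = _ := by ring
  have hRp := Reg.tr_sum (ha.pow (2 * (p + 1))) hw
  have hi := integral_mono (hR.ipow (ν := ν) (p + 1) i)
    (((hm.ipow (2 * p + 1) i).const_mul (α / 2)).add ((hRp.int i).const_mul (α⁻¹ / 2))) hp
  have e4 : ∫ V, ∑ x, a i (tr x V) ^ (2 * (p + 1)) * w i (-x) (tr x V) ∂(iid (Λ i) (ν i)) =
      ∫ V, a i V ^ (2 * (p + 1)) * ∑ y, w i y V ∂(iid (Λ i) (ν i)) := by
    choose Bw hBw using fun y => (hw i y).2.1
    have hint : ∀ y : Λ i, Integrable (fun V => a i V ^ (2 * (p + 1)) * w i y V) (iid (Λ i) (ν i)) :=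
      fun y => bc_int (ν i) ((h31.pow _).mul (hw i y).1) (B := B ^ (2 * (p + 1)) * Bw y) fun V => by
        rw [abs_of_nonneg (mul_nonneg (pow_nonneg (h33 V) _) ((hw i y).2.2 V))]
        exact mul_le_mul (pow_le_pow_left₀ (h33 V) (hB V) _) (hBw y V) ((hw i y).2.2 V)
          (pow_nonneg ((h33 V).trans (hB V)) _)
    have hint2 : ∀ x : Λ i, Integrable (fun V => a i (tr x V) ^ (2 * (p + 1)) * w i (-x) (tr x V))
        (iid (Λ i) (ν i)) :=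
      fun x => bc_int (ν i) (((h31.comp (tr_cont x)).pow _).mul ((hw i (-x)).1.comp (tr_cont x)))
        (B := B ^ (2 * (p + 1)) * Bw (-x)) fun V => by
        rw [abs_of_nonneg (mul_nonneg (pow_nonneg (h33 _) _) ((hw i _).2.2 _))]
        exact mul_le_mul (pow_le_pow_left₀ (h33 _) (hB _) _) (hBw _ _) ((hw i _).2.2 _)
          (pow_nonneg ((h33 V).trans (hB V)) _)
    rw [integral_finsetSum _ fun x _ => hint2 x]
    have e5 : ∀ x : Λ i, ∫ V, a i (tr x V) ^ (2 * (p + 1)) * w i (-x) (tr x V) ∂(iid (Λ i) (ν i)) =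
        ∫ V, a i V ^ (2 * (p + 1)) * w i (-x) V ∂(iid (Λ i) (ν i)) := fun x =>
      hS (Λ i) (ν i) (fun V => a i V ^ (2 * (p + 1)) * w i (-x) V) x
    rw [Finset.sum_congr rfl fun x _ => e5 x, ← integral_finsetSum _ fun x _ => hint (-x)]
    congr 1
    funext V
    rw [← Finset.mul_sum]
    congr 1
    exact Fintype.sum_equiv (Equiv.neg (Λ i)) _ _ fun x => rfl
  have h2' := h2 i
  simp only [pow_one] at h2'
  have h1' := h1 i
  have e6 : α * D i ^ (-(t * ((2 * p + 1 : ℕ) : ℝ))) = D i ^ (-((s + t) * ((p + 1 : ℕ) : ℝ))) := by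
    rw [hα, ← Real.rpow_add h0]; congr 1; push_cast; ring
  have e7 : α⁻¹ * D i ^ (-((((2 * (p + 1) : ℕ) : ℝ) * s + t) * ((1 : ℕ) : ℝ))) =
      D i ^ (-((s + t) * ((p + 1 : ℕ) : ℝ))) := by
    rw [hα, ← Real.rpow_neg h0.le, ← Real.rpow_add h0]; congr 1; push_cast; ring
  refine hi.trans ?_
  have e8 : ∫ V, (α / 2 * (∑ y, w i y V) ^ (2 * p + 1) +
        α⁻¹ / 2 * ∑ x, a i (tr x V) ^ (2 * (p + 1)) * w i (-x) (tr x V)) ∂(iid (Λ i) (ν i)) =
      α / 2 * ∫ V, (∑ y, w i y V) ^ (2 * p + 1) ∂(iid (Λ i) (ν i)) +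
      α⁻¹ / 2 * ∫ V, ∑ x, a i (tr x V) ^ (2 * (p + 1)) * w i (-x) (tr x V) ∂(iid (Λ i) (ν i)) := by
    rw [integral_add ((hm.ipow (2 * p + 1) i).const_mul (α / 2)) ((hRp.int i).const_mul (α⁻¹ / 2)),
      integral_const_mul, integral_const_mul]
  refine (le_of_eq e8).trans ?_
  rw [e4]
  calc α / 2 * ∫ V, (∑ y, w i y V) ^ (2 * p + 1) ∂(iid (Λ i) (ν i)) +
      α⁻¹ / 2 * ∫ V, a i V ^ (2 * (p + 1)) * ∑ y, w i y V ∂(iid (Λ i) (ν i))
      ≤ α / 2 * (C * D i ^ (-(t * ((2 * p + 1 : ℕ) : ℝ)))) +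
        α⁻¹ / 2 * (C' * D i ^ (-((((2 * (p + 1) : ℕ) : ℝ) * s + t) * ((1 : ℕ) : ℝ)))) := by
        gcongr
    _ = (C + C') / 2 * D i ^ (-((s + t) * ((p + 1 : ℕ) : ℝ))) := by
        rw [show α / 2 * (C * D i ^ (-(t * ((2 * p + 1 : ℕ) : ℝ)))) =
          C / 2 * (α * D i ^ (-(t * ((2 * p + 1 : ℕ) : ℝ)))) by ring,
          show α⁻¹ / 2 * (C' * D i ^ (-((((2 * (p + 1) : ℕ) : ℝ) * s + t) * ((1 : ℕ) : ℝ)))) =
          C' / 2 * (α⁻¹ * D i ^ (-((((2 * (p + 1) : ℕ) : ℝ) * s + t) * ((1 : ℕ) : ℝ)))) by ring, e6, e7]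
        ring

end Pool.Agent.Q218.HB
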