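import Mathlib

/-!
# Project HB: definitions

The Anderson model on the torus `(ℤ/n)^d` in high dimension `d`, at a fixed disorder.
-/

set_option autoImplicit false

open MeasureTheory

namespace Pool.Agent.Q218.HB

/-- the matrix `h + V` (`h` a real kernel, `V` a potential) -/
noncomputable def Hm {Λ : Type} [DecidableEq Λ] (h : Λ → Λ → ℝ) (V : Λ → ℝ) : Matrix Λ Λ ℂ :=
  fun x y => (h x y : ℂ) + if x = y then (V x : ℂ) else 0

/-- the resolvent `(h + V - z)⁻¹` -/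
noncomputable def G {Λ : Type} [Fintype Λ] [DecidableEq Λ] (h : Λ → Λ → ℝ) (V : Λ → ℝ) (z : ℂ) :
    Matrix Λ Λ ℂ :=
  (Hm h V - z • (1 : Matrix Λ Λ ℂ))⁻¹

/-- the point `E + i η` -/
noncomputable def pt (E η : ℝ) : ℂ := (E : ℂ) + (η : ℂ) * Complex.I

/-- the potential `V` with the value at `x` replaced by `0` -/
def up {Λ : Type} [DecidableEq Λ] (V : Λ → ℝ) (x : Λ) : Λ → ℝ := Function.update V x 0

/-- the law of iid variables with law `ν` -/
noncomputable def iid (Λ : Type) [Fintype Λ] (ν : Measure ℝ) : Measure (Λ → ℝ) :=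
  Measure.pi fun _ => ν

/-- the torus `(ℤ/n)^d` -/
abbrev Tor (d n : ℕ) : Type := Fin d → ZMod n

/-- the unit vector `e_i` of the torus -/
def ev {d n : ℕ} (i : Fin d) : Tor d n := Pi.single i 1

/-- the kernel of `u ↦ -∑_i (u(x + e_i) + u(x - e_i))` on the torus -/
noncomputable def hop {d n : ℕ} (x y : Tor d n) : ℝ :=
  -∑ i : Fin d, ((if y = x + ev i then (1 : ℝ) else 0) + (if y = x - ev i then 1 else 0))

/-- the kernel of `Dᵀ D`, `(D u)(x) = u(x + e_i) - u(x - e_i)`, that is of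
`u ↦ 2 u(x) - u(x + 2 e_i) - u(x - 2 e_i)` -/
noncomputable def two {d n : ℕ} (i : Fin d) (x y : Tor d n) : ℝ :=
  2 * (if y = x then (1 : ℝ) else 0) - (if y = x + ev i + ev i then 1 else 0) -
    (if y = x - ev i - ev i then 1 else 0)

/-- the matrix `K = ε² (Dᵀ D + ε²)⁻¹` -/
noncomputable def Km {d n : ℕ} [NeZero n] (i : Fin d) (ε : ℝ) : Matrix (Tor d n) (Tor d n) ℂ :=
  ((ε ^ 2 : ℝ) : ℂ) • (Hm (two i) fun _ => ε ^ 2)⁻¹

/-- the matrix `K G₀(z)` -/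
noncomputable def KG {d n : ℕ} [NeZero n] (i : Fin d) (ε : ℝ) (z : ℂ) :
    Matrix (Tor d n) (Tor d n) ℂ :=
  Km i ε * G hop (fun _ => 0) z

/-- `b_n(q)`, the mean of `exp(2 i q cos(2 π j/n))` over `j` mod `n` -/
noncomputable def bn (n : ℕ) [NeZero n] (q : ℝ) : ℂ :=
  ((n : ℂ))⁻¹ * ∑ j : ZMod n,
    Complex.exp (2 * (q : ℂ) * Complex.I * (Real.cos (2 * Real.pi * (j.val : ℝ) / n) : ℝ))

/-- `∫_0^∞ e^{-ηq} |b_n(q)|^m dq` -/
noncomputable def In (n m : ℕ) [NeZero n] (η : ℝ) : ℝ :=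
  ∫ q in Set.Ioi (0 : ℝ), Real.exp (-(η * q)) * ‖bn n q‖ ^ m

/-- the energy `e(k) = -2 ∑ cos(2 π k_j/n)` -/
noncomputable def en {d n : ℕ} (k : Tor d n) : ℝ :=
  -(2 * ∑ j : Fin d, Real.cos (2 * Real.pi * ((k j).val : ℝ) / n))

/-- the arc `{b - L, ..., b + L}` of `ℤ/n` -/
def slab {n : ℕ} (b : ZMod n) (L : ℕ) : Set (ZMod n) := {c | ∃ m : ℤ, |m| ≤ L ∧ c = b + (m : ZMod n)}

end Pool.Agent.Q218.HB
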