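import Pool.Agent.Q218.HB.TorL

/-! Deterministic consequences of the local law. -/

set_option autoImplicit false
set_option linter.unusedSectionVars false
set_option linter.unusedVariables false

open MeasureTheory

namespace Pool.Agent.Q218.HB

/-- orthonormal basis of eigenfunctions of `H₀ + V` -/
structure EB {d n : ℕ} [NeZero n] (V : Tor d n → ℝ) (φ : Tor d n → Tor d n → ℂ)
    (e : Tor d n → ℝ) : Prop where
  orth : ∀ j k, ∑ x, (starRingEnd ℂ) (φ j x) * φ k x = if j = k then 1 else 0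
  eig : ∀ j x, ∑ y, Hm hop V x y * φ j y = (e j : ℂ) * φ j x

section

variable {d n : ℕ} [NeZero n] {V : Tor d n → ℝ} {φ : Tor d n → Tor d n → ℂ} {e : Tor d n → ℝ}

theorem EB.comp (h : EB V φ e) (x y : Tor d n) :
    ∑ j, φ j x * (starRingEnd ℂ) (φ j y) = if x = y then 1 else 0 := by
  obtain ⟨U, hU⟩ : ∃ U : Matrix (Tor d n) (Tor d n) ℂ, U = fun j x => (starRingEnd ℂ) (φ j x) := ⟨_, rfl⟩
  obtain ⟨W, hW⟩ : ∃ W : Matrix (Tor d n) (Tor d n) ℂ, W = fun x k => φ k x := ⟨_, rfl⟩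
  have h1 : U * W = 1 := by
    ext j k
    rw [Matrix.mul_apply, hU, hW, Matrix.one_apply]
    exact h.orth j k
  have h2 : W * U = 1 := mul_eq_one_comm.1 h1
  have h3 := congrFun (congrFun h2 x) y
  rw [Matrix.mul_apply, hU, hW, Matrix.one_apply] at h3
  exact h3

/-- Parseval -/
theorem EB.hs (h : EB V φ e) (A : Matrix (Tor d n) (Tor d n) ℂ) :
    ∑ j, ∑ x, ‖∑ y, A x y * φ j y‖ ^ 2 = ∑ x, ∑ y, ‖A x y‖ ^ 2 := by
  rw [Finset.sum_comm]
  refine Finset.sum_congr rfl fun x _ => ?_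
  have h1 : ∀ j, ((‖∑ y, A x y * φ j y‖ ^ 2 : ℝ) : ℂ) =
      ∑ y, ∑ w, A x y * (starRingEnd ℂ) (A x w) * (φ j y * (starRingEnd ℂ) (φ j w)) := fun j => by
    rw [← Complex.normSq_eq_norm_sq, ← Complex.mul_conj, map_sum, Finset.sum_mul_sum]
    refine Finset.sum_congr rfl fun y _ => Finset.sum_congr rfl fun w _ => ?_
    rw [map_mul]; ring
  have h2 : ((∑ j, ‖∑ y, A x y * φ j y‖ ^ 2 : ℝ) : ℂ) = ((∑ y, ‖A x y‖ ^ 2 : ℝ) : ℂ) := by
    push_cast
    have h1' : ∀ j, ((‖∑ y, A x y * φ j y‖ : ℝ) : ℂ) ^ 2 =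
      ∑ y, ∑ w, A x y * (starRingEnd ℂ) (A x w) * (φ j y * (starRingEnd ℂ) (φ j w)) := fun j => by
      rw [← h1 j]; push_cast; rfl
    rw [Finset.sum_congr rfl fun j _ => h1' j, Finset.sum_comm]
    refine Finset.sum_congr rfl fun y _ => ?_
    rw [Finset.sum_comm]
    have h3 : ∀ w, ∑ j, A x y * (starRingEnd ℂ) (A x w) * (φ j y * (starRingEnd ℂ) (φ j w)) =
        if y = w then A x y * (starRingEnd ℂ) (A x w) else 0 := fun w => by
      rw [← Finset.mul_sum, h.comp y w]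
      split_ifs <;> simp
    rw [Finset.sum_congr rfl fun w _ => h3 w, Finset.sum_ite_eq]
    simp only [Finset.mem_univ, if_true]
    rw [Complex.mul_conj, Complex.normSq_eq_norm_sq]
    push_cast; rfl
  exact_mod_cast h2

/-- `∑_{x,y} |G(x,y)|² = ∑_j 1/((e_j - E)² + η²)` -/
theorem EB.G_hs (hI : S_INV) (h : EB V φ e) (E η : ℝ) (hη : 0 < η) :
    ∑ x, ∑ y, ‖G hop V (pt E η) x y‖ ^ 2 = ∑ j, 1 / ((e j - E) ^ 2 + η ^ 2) := by
  rw [← h.hs]
  refine Finset.sum_congr rfl fun j _ => ?_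
  have hz : (pt E η).im ≠ 0 := by rw [pt_im]; exact hη.ne'
  obtain ⟨_, h2, _⟩ := hI (Tor d n) hop V (pt E η) hop_symm hz
  have hne : (e j : ℂ) - pt E η ≠ 0 := fun h0 => by
    have := congrArg Complex.im h0
    simp [pt] at this
    exact hη.ne' this
  have h3 : ∀ x, ∑ y, G hop V (pt E η) x y * φ j y = ((e j : ℂ) - pt E η)⁻¹ * φ j x := fun x => by
    have h4 : (Hm hop V - pt E η • (1 : Matrix (Tor d n) (Tor d n) ℂ)).mulVec (φ j) =
        ((e j : ℂ) - pt E η) • φ j := by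
      funext w
      rw [Matrix.sub_mulVec, Matrix.smul_mulVec, Matrix.one_mulVec]
      simp only [Pi.sub_apply, Pi.smul_apply, smul_eq_mul]
      have := h.eig j w
      rw [Matrix.mulVec, dotProduct, this]; ring
    have h5 : (G hop V (pt E η)).mulVec (((e j : ℂ) - pt E η) • φ j) = φ j := by
      rw [← h4, Matrix.mulVec_mulVec, h2, Matrix.one_mulVec]
    rw [Matrix.mulVec_smul] at h5
    have h6 := congrFun h5 x
    simp only [Pi.smul_apply, smul_eq_mul] at h6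
    rw [← h6, ← mul_assoc, inv_mul_cancel₀ hne, one_mul]
    rfl
  simp only [h3, norm_mul, norm_inv, mul_pow, inv_pow]
  rw [← Finset.mul_sum]
  have h7 : ∑ x, ‖φ j x‖ ^ 2 = 1 := by
    have := h.orth j j
    rw [if_pos rfl] at this
    have h8 : ((∑ x, ‖φ j x‖ ^ 2 : ℝ) : ℂ) = 1 := by
      rw [← this]
      push_cast
      refine Finset.sum_congr rfl fun x _ => ?_
      rw [mul_comm, Complex.mul_conj, Complex.normSq_eq_norm_sq]; push_cast; rfl
    exact_mod_cast h8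
  rw [h7, mul_one]
  have h8 : ‖(e j : ℂ) - pt E η‖ ^ 2 = (e j - E) ^ 2 + η ^ 2 := by
    rw [← Complex.normSq_eq_norm_sq, Complex.normSq_apply]
    simp [pt]; ring
  rw [h8, one_div]

/-- the number of the eigenvalues in `[E - η, E + η]` -/
noncomputable def cnt {d n : ℕ} [NeZero n] (e : Tor d n → ℝ) (E η : ℝ) : ℕ :=
  (Finset.univ.filter fun j => |e j - E| ≤ η).card

theorem sq_half {α β : Type} [Fintype α] [Fintype β] (A B : α → β → ℂ) :
    ∑ x, ∑ y, ‖A x y‖ ^ 2 ≤ 2 * ∑ x, ∑ y, ‖B x y‖ ^ 2 + 2 * ∑ x, ∑ y, ‖A x y - B x y‖ ^ 2 := by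
  rw [Finset.mul_sum, Finset.mul_sum, ← Finset.sum_add_distrib]
  refine Finset.sum_le_sum fun x _ => ?_
  rw [Finset.mul_sum, Finset.mul_sum, ← Finset.sum_add_distrib]
  refine Finset.sum_le_sum fun y _ => ?_
  have h1 : ‖A x y‖ ≤ ‖B x y‖ + ‖A x y - B x y‖ := by
    have := norm_add_le (B x y) (A x y - B x y)
    rwa [add_sub_cancel] at this
  have h2 := norm_nonneg (A x y)
  have h3 := norm_nonneg (B x y)
  have h4 := norm_nonneg (A x y - B x y)
  nlinarith [sq_nonneg (‖B x y‖ - ‖A x y - B x y‖)]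

/-- the lower bound for the number of the eigenvalues -/
theorem count_low (hI : S_INV) (hW : S_WARD) (h : EB V φ e) {E η θ g g' : ℝ} (hη : 0 < η) (hθ : 0 < θ)
    (hθ1 : θ ≤ 1) (hg : ∀ x : Tor d n, (G hop (fun _ => 0) (pt E η) x x).im ≤ g)
    (hg' : ∀ x : Tor d n, g' ≤ (G hop (fun _ => 0) (pt E (θ * η)) x x).im) :
    θ * η * (1 / 2 * ((n : ℝ) ^ d * g') - θ * η * HT E (θ * η) V -
      2 * θ * (2 * ((n : ℝ) ^ d * g) + 2 * η * HT E η V)) ≤ cnt e E η := by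
  have hθη : 0 < θ * η := by positivity
  have hN : (Finset.univ : Finset (Tor d n)).card = n ^ d := by simp [ZMod.card]
  have w1 : ∑ x : Tor d n, ∑ y : Tor d n, ‖G hop (fun _ => 0) (pt E η) x y‖ ^ 2 ≤
      (n : ℝ) ^ d * g / η := by
    have h1 : ∀ x : Tor d n, ∑ y, ‖G hop (fun _ => 0) (pt E η) x y‖ ^ 2 ≤ g / η := fun x => by
      rw [hW (Tor d n) hop (fun _ => 0) (pt E η) hop_symm (by rw [pt_im]; exact hη) x, pt_im]
      exact div_le_div_of_nonneg_right (hg x) hη.le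
    refine (Finset.sum_le_sum fun x _ => h1 x).trans (le_of_eq ?_)
    rw [Finset.sum_const, hN, nsmul_eq_mul]; push_cast; ring
  have w2 : (n : ℝ) ^ d * g' / (θ * η) ≤
      ∑ x : Tor d n, ∑ y : Tor d n, ‖G hop (fun _ => 0) (pt E (θ * η)) x y‖ ^ 2 := by
    have h1 : ∀ x : Tor d n, g' / (θ * η) ≤ ∑ y, ‖G hop (fun _ => 0) (pt E (θ * η)) x y‖ ^ 2 := fun x => by
      rw [hW (Tor d n) hop (fun _ => 0) (pt E (θ * η)) hop_symm (by rw [pt_im]; exact hθη) x, pt_im]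
      exact div_le_div_of_nonneg_right (hg' x) hθη.le
    refine (le_of_eq ?_).trans (Finset.sum_le_sum fun x _ => h1 x)
    rw [Finset.sum_const, hN, nsmul_eq_mul]; push_cast; ring
  have s1 := sq_half (fun x y : Tor d n => G hop V (pt E η) x y) (fun x y => G hop (fun _ => 0) (pt E η) x y)
  have s2 := sq_half (fun x y : Tor d n => G hop (fun _ => 0) (pt E (θ * η)) x y)
    (fun x y => G hop V (pt E (θ * η)) x y)
  have e2 : ∑ x : Tor d n, ∑ y : Tor d n, ‖G hop (fun _ => 0) (pt E (θ * η)) x y -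
      G hop V (pt E (θ * η)) x y‖ ^ 2 = HT E (θ * η) V := by
    unfold HT
    exact Finset.sum_congr rfl fun x _ => Finset.sum_congr rfl fun y _ => by rw [norm_sub_rev]
  rw [e2] at s2
  have e1 : ∑ x : Tor d n, ∑ y : Tor d n, ‖G hop V (pt E η) x y -
      G hop (fun _ => 0) (pt E η) x y‖ ^ 2 = HT E η V := rfl
  rw [e1] at s1
  rw [h.G_hs hI E η hη] at s1
  rw [h.G_hs hI E (θ * η) hθη] at s2
  -- pointwise comparison
  have hp : ∀ j, (θ * η) / ((e j - E) ^ 2 + (θ * η) ^ 2) ≤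
      (if |e j - E| ≤ η then 1 / (θ * η) else 0) + 2 * θ * (η / ((e j - E) ^ 2 + η ^ 2)) := fun j => by
    split_ifs with hj
    · have h1 : (θ * η) / ((e j - E) ^ 2 + (θ * η) ^ 2) ≤ 1 / (θ * η) := by
        rw [div_le_div_iff₀ (by positivity) hθη]
        nlinarith [sq_nonneg (e j - E)]
      have h2 : 0 ≤ 2 * θ * (η / ((e j - E) ^ 2 + η ^ 2)) := by positivity
      linarith
    · rw [zero_add]
      have h1 : η ^ 2 ≤ (e j - E) ^ 2 := by
        rw [← sq_abs (e j - E)]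
        exact pow_le_pow_left₀ hη.le (not_le.1 hj).le 2
      have h2 : 0 < (e j - E) ^ 2 := lt_of_lt_of_le (by positivity) h1
      rw [← mul_div_assoc, div_le_div_iff₀ (by positivity) (by positivity)]
      have h3 : (e j - E) ^ 2 + η ^ 2 ≤ 2 * ((e j - E) ^ 2 + (θ * η) ^ 2) := by
        nlinarith [sq_nonneg (θ * η)]
      have h4 : 0 ≤ θ * η := hθη.le
      calc θ * η * ((e j - E) ^ 2 + η ^ 2) ≤ θ * η * (2 * ((e j - E) ^ 2 + (θ * η) ^ 2)) :=
            mul_le_mul_of_nonneg_left h3 h4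
        _ = _ := by ring
  have hs := Finset.sum_le_sum (s := Finset.univ) fun j _ => hp j
  rw [Finset.sum_add_distrib, ← Finset.mul_sum] at hs
  have e3 : ∑ j, (if |e j - E| ≤ η then 1 / (θ * η) else 0) = (cnt e E η : ℝ) * (1 / (θ * η)) := by
    rw [← Finset.sum_filter, Finset.sum_const, nsmul_eq_mul]; rfl
  have e4 : ∑ j, (θ * η) / ((e j - E) ^ 2 + (θ * η) ^ 2) =
      θ * η * ∑ j, 1 / ((e j - E) ^ 2 + (θ * η) ^ 2) := by
    rw [Finset.mul_sum]; exact Finset.sum_congr rfl fun j _ => by ring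
  have e5 : ∑ j, η / ((e j - E) ^ 2 + η ^ 2) = η * ∑ j, 1 / ((e j - E) ^ 2 + η ^ 2) := by
    rw [Finset.mul_sum]; exact Finset.sum_congr rfl fun j _ => by ring
  rw [e3, e4, e5] at hs
  obtain ⟨P, hP⟩ : ∃ P, P = ∑ j, 1 / ((e j - E) ^ 2 + η ^ 2) := ⟨_, rfl⟩
  obtain ⟨Q, hQ⟩ : ∃ Q, Q = ∑ j, 1 / ((e j - E) ^ 2 + (θ * η) ^ 2) := ⟨_, rfl⟩
  obtain ⟨P0, hP0⟩ : ∃ P0, P0 = ∑ x : Tor d n, ∑ y : Tor d n, ‖G hop (fun _ => 0) (pt E η) x y‖ ^ 2 := ⟨_, rfl⟩
  obtain ⟨Q0, hQ0⟩ : ∃ Q0, Q0 = ∑ x : Tor d n, ∑ y : Tor d n, ‖G hop (fun _ => 0) (pt E (θ * η)) x y‖ ^ 2 := ⟨_, rfl⟩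
  rw [← hP, ← hQ] at hs
  rw [← hP, ← hP0] at s1
  rw [← hQ, ← hQ0] at s2
  rw [← hP0] at w1
  rw [← hQ0] at w2
  obtain ⟨N, hNN⟩ : ∃ N, N = (n : ℝ) ^ d := ⟨_, rfl⟩
  rw [← hNN] at w1 w2 ⊢
  have a1 : η * P ≤ 2 * (N * g) + 2 * η * HT E η V := by
    have : η * P ≤ η * (2 * P0 + 2 * HT E η V) := mul_le_mul_of_nonneg_left s1 hη.le
    have h2 : η * P0 ≤ N * g := by
      have := mul_le_mul_of_nonneg_left w1 hη.le
      rwa [mul_div_cancel₀ _ hη.ne'] at this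
    nlinarith
  have a2 : 1 / 2 * (N * g') - θ * η * HT E (θ * η) V ≤ θ * η * Q := by
    have : N * g' ≤ θ * η * Q0 := by
      have := mul_le_mul_of_nonneg_left w2 hθη.le
      rwa [mul_div_cancel₀ _ hθη.ne'] at this
    have h3 := mul_le_mul_of_nonneg_left s2 hθη.le
    nlinarith
  have a3 : 1 / 2 * (N * g') - θ * η * HT E (θ * η) V - 2 * θ * (2 * (N * g) + 2 * η * HT E η V) ≤
      (cnt e E η : ℝ) * (1 / (θ * η)) := by
    have := mul_le_mul_of_nonneg_left a1 (by positivity : 0 ≤ 2 * θ)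
    linarith
  have a4 := mul_le_mul_of_nonneg_left a3 hθη.le
  refine a4.trans (le_of_eq ?_)
  field_simp

end

end Pool.Agent.Q218.HB
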