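import Pool.Agent.Q218.HB.Det
import Pool.Agent.Q218.HB.Imp

/-! Deterministic consequences of the local law: the position and the momentum of the eigenfunctions. -/

set_option autoImplicit false
set_option linter.unusedSectionVars false
set_option linter.unusedVariables false

open MeasureTheory

namespace Pool.Agent.Q218.HB

section

variable {d n : ℕ} [NeZero n] {V : Tor d n → ℝ} {φ : Tor d n → Tor d n → ℂ} {e : Tor d n → ℝ}

theorem EB.norm_one (h : EB V φ e) (j : Tor d n) : ∑ x, ‖φ j x‖ ^ 2 = 1 := by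
  have := h.orth j j
  rw [if_pos rfl] at this
  have h8 : ((∑ x, ‖φ j x‖ ^ 2 : ℝ) : ℂ) = 1 := by
    rw [← this]
    push_cast
    refine Finset.sum_congr rfl fun x _ => ?_
    rw [mul_comm, Complex.mul_conj, Complex.normSq_eq_norm_sq]; push_cast; rfl
  exact_mod_cast h8

/-- a Markov inequality for counting -/
theorem count_markov {J : Type} [Fintype J] (f : J → ℝ) (hf : ∀ j, 0 ≤ f j) (p : J → Prop) [DecidablePred p]
    (τ : ℝ) (hp : ∀ j, p j → τ ≤ f j) : τ * ((Finset.univ.filter p).card : ℝ) ≤ ∑ j, f j := by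
  calc τ * ((Finset.univ.filter p).card : ℝ) = ∑ _j ∈ Finset.univ.filter p, τ := by
        rw [Finset.sum_const, nsmul_eq_mul]; ring
    _ ≤ ∑ j ∈ Finset.univ.filter p, f j :=
        Finset.sum_le_sum fun j hj => hp j (Finset.mem_filter.1 hj).2
    _ ≤ ∑ j, f j := Finset.sum_le_sum_of_subset_of_nonneg (Finset.filter_subset _ _) fun j _ _ => hf j

theorem card_sub (p q : Tor d n → Prop) [DecidablePred p] [DecidablePred q] :
    (Finset.univ.filter fun j : {j // p j} => q j.1).card = (Finset.univ.filter fun j => p j ∧ q j).card := by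
  rw [← Finset.card_map (Function.Embedding.subtype p)]
  congr 1
  ext j
  simp only [Finset.mem_map, Finset.mem_filter, Finset.mem_univ, true_and, Function.Embedding.coe_subtype,
    Subtype.exists, exists_and_right, exists_eq_right]
  constructor
  · rintro ⟨h1, h2⟩; exact ⟨h1, h2⟩
  · rintro ⟨h1, h2⟩; exact ⟨h1, h2⟩

open Classical in
/-- few of the eigenfunctions of the window have a large mass in a slab -/
theorem det_bad (h : EB V φ e) {E η ε τ g : ℝ} (i : Fin d) (L : ℕ) (hL : 1 ≤ L) (hn : 8 * L ^ 2 + 8 ≤ n)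
    (hη : 0 < η) (hε : 0 < ε) (hε1 : ε ≤ 1)
    (havg : (n : ℝ)⁻¹ * ∑ j : ZMod n,
      (ε ^ 2 / (4 * Real.sin (2 * Real.pi * (j.val : ℝ) / n) ^ 2 + ε ^ 2)) ^ 2 ≤ 2 * ε)
    (hg0 : 0 ≤ g) (hIn : In n (d - 1) η ≤ g) (hIn0 : 0 ≤ In n (d - 1) η) :
    (τ - 400 / ε ^ 2 * (L * η + 1 / L)) *
      ((Finset.univ.filter fun j => |e j - E| ≤ η ∧ ∃ b : ZMod n,
      τ < ∑ x, Set.indicator {x : Tor d n | x i ∈ slab b L} (fun x => ‖φ j x‖ ^ 2) x).card : ℝ) ≤
      64 * ((n : ℝ) ^ d * η * ε * g) + 36 * η ^ 2 * HT E η V := by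
  obtain ⟨f1, f2⟩ := lFam lInv lKon d n V E η hη {j // |e j - E| ≤ η} (fun j => φ j.1) (fun j => e j.1)
    (fun j k => by
      rw [h.orth j.1 k.1]
      by_cases hjk : j = k
      · rw [if_pos hjk, if_pos (congrArg _ hjk)]
      · rw [if_neg hjk, if_neg fun hh => hjk (Subtype.ext hh)])
    (fun j x => h.eig j.1 x) (fun j => j.2)
  have f3 := f2 i ε hε
  have k1 := lKgb lFou d n i E η ε hη hε
  have k2 : η ^ 2 * ∑ x : Tor d n, ∑ y : Tor d n, ‖KG i ε (pt E η) x y‖ ^ 2 ≤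
      (n : ℝ) ^ d * η * (2 * ε) * g := by
    refine k1.trans ?_
    refine mul_le_mul (mul_le_mul_of_nonneg_left havg (by positivity)) hIn hIn0 (by positivity)
  have c1 := card_sub (fun j => |e j - E| ≤ η) (fun j => ∃ b : ZMod n,
      τ < ∑ x, Set.indicator {x : Tor d n | x i ∈ slab b L} (fun x => ‖φ j x‖ ^ 2) x)
  have c2 := count_markov (J := {j // |e j - E| ≤ η}) (fun j =>
      8 * ∑ x, ‖∑ y, Km i ε x y * φ j.1 y‖ ^ 2 + 2 * ∑ x, ‖φ j.1 x - ((e j.1 : ℂ) - pt E η) *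
        ∑ y, G hop (fun _ => 0) (pt E η) x y * φ j.1 y‖ ^ 2) (fun j => by positivity)
    (fun j => ∃ b : ZMod n,
      τ < ∑ x, Set.indicator {x : Tor d n | x i ∈ slab b L} (fun x => ‖φ j.1 x‖ ^ 2) x)
    (τ - 400 / ε ^ 2 * (L * η + 1 / L))
    (fun j ⟨b, hb⟩ => by
      have := hb.le.trans (lSlb lInv lOpb lCom d n i L hL hn E η ε (e j.1) hη hε hε1 j.2 (φ j.1)
        (h.norm_one j.1) b)
      linarith)
  rw [c1] at c2
  refine c2.trans ?_
  rw [Finset.sum_add_distrib]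
  have s1 : ∑ j : {j // |e j - E| ≤ η}, 8 * ∑ x, ‖∑ y, Km i ε x y * φ j.1 y‖ ^ 2 =
      8 * ∑ j : {j // |e j - E| ≤ η}, ∑ x, ‖∑ y, Km i ε x y * φ j.1 y‖ ^ 2 := (Finset.mul_sum _ _ _).symm
  have s2 : ∑ j : {j // |e j - E| ≤ η}, 2 * ∑ x, ‖φ j.1 x - ((e j.1 : ℂ) - pt E η) *
        ∑ y, G hop (fun _ => 0) (pt E η) x y * φ j.1 y‖ ^ 2 =
      2 * ∑ j : {j // |e j - E| ≤ η}, ∑ x, ‖φ j.1 x - ((e j.1 : ℂ) - pt E η) *
        ∑ y, G hop (fun _ => 0) (pt E η) x y * φ j.1 y‖ ^ 2 := (Finset.mul_sum _ _ _).symm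
  rw [s1, s2]
  have e1 : ∑ x : Tor d n, ∑ y : Tor d n, ‖G hop V (pt E η) x y - G hop (fun _ => 0) (pt E η) x y‖ ^ 2 =
      HT E η V := rfl
  rw [e1] at f1 f3
  nlinarith

open Classical in
/-- few of the eigenfunctions of the window have a large mass off the energy shell -/
theorem det_mom (h : EB V φ e) {E η τ : ℝ} (hη : 0 < η) :
    τ * ((Finset.univ.filter fun j => |e j - E| ≤ η ∧
      τ < ∑ k, Set.indicator {k : Tor d n | 3 * η < |en k - E|} (fun k => ‖fo (φ j) k‖ ^ 2) k).card : ℝ) ≤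
      8 * η ^ 2 * HT E η V := by
  obtain ⟨f1, _⟩ := lFam lInv lKon d n V E η hη {j // |e j - E| ≤ η} (fun j => φ j.1) (fun j => e j.1)
    (fun j k => by
      rw [h.orth j.1 k.1]
      by_cases hjk : j = k
      · rw [if_pos hjk, if_pos (congrArg _ hjk)]
      · rw [if_neg hjk, if_neg fun hh => hjk (Subtype.ext hh)])
    (fun j x => h.eig j.1 x) (fun j => j.2)
  have c1 := card_sub (fun j => |e j - E| ≤ η) (fun j =>
      τ < ∑ k, Set.indicator {k : Tor d n | 3 * η < |en k - E|} (fun k => ‖fo (φ j) k‖ ^ 2) k)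
  have c2 := count_markov (J := {j // |e j - E| ≤ η}) (fun j => 4 * ∑ x, ‖φ j.1 x - ((e j.1 : ℂ) - pt E η) *
        ∑ y, G hop (fun _ => 0) (pt E η) x y * φ j.1 y‖ ^ 2) (fun j => by positivity)
    (fun j => τ < ∑ k, Set.indicator {k : Tor d n | 3 * η < |en k - E|} (fun k => ‖fo (φ j.1) k‖ ^ 2) k) τ
    (fun j hj => hj.le.trans (lMom d n E η (e j.1) hη j.2 (φ j.1)))
  rw [c1] at c2
  refine c2.trans ?_
  rw [← Finset.mul_sum]
  have e1 : ∑ x : Tor d n, ∑ y : Tor d n, ‖G hop V (pt E η) x y - G hop (fun _ => 0) (pt E η) x y‖ ^ 2 =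
      HT E η V := rfl
  rw [e1] at f1
  linarith

end

end Pool.Agent.Q218.HB
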