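import Pool.Agent.Q218.HB.Stm

/-! Domination: `Dom X s` means that all moments of the nonnegative random variables `X_i` are bounded by those of
a constant times `D_i^{-s}`. -/

set_option autoImplicit false

open MeasureTheory

namespace Pool.Agent.Q218.HB

variable {ι : Type} {Λ : ι → Type} [∀ i, Fintype (Λ i)]

/-- continuous, bounded, nonnegative -/
def Reg (X : ∀ i, (Λ i → ℝ) → ℝ) : Prop :=
  ∀ i, Continuous (X i) ∧ (∃ B : ℝ, ∀ V, X i V ≤ B) ∧ ∀ V, 0 ≤ X i V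

/-- the moments of `X` are at most those of a constant times `D^{-s}` -/
def Dom (ν : ι → Measure ℝ) (D : ι → ℝ) (X : ∀ i, (Λ i → ℝ) → ℝ) (s : ℝ) : Prop :=
  ∀ p : ℕ, ∃ C : ℝ, 0 ≤ C ∧ ∀ i, ∫ V, X i V ^ p ∂(iid (Λ i) (ν i)) ≤ C * D i ^ (-(s * p))

theorem iid_prob (Λ : Type) [Fintype Λ] (ν : Measure ℝ) [IsProbabilityMeasure ν] :
    IsProbabilityMeasure (iid Λ ν) := by
  unfold iid; infer_instance

theorem bc_int {Λ : Type} [Fintype Λ] (ν : Measure ℝ) [IsProbabilityMeasure ν] {f : (Λ → ℝ) → ℝ}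
    (hf : Continuous f) {B : ℝ} (hB : ∀ V, |f V| ≤ B) : Integrable f (iid Λ ν) := by
  haveI := iid_prob Λ ν
  exact Integrable.of_bound hf.aestronglyMeasurable B (Filter.Eventually.of_forall fun V => by
    rw [Real.norm_eq_abs]; exact hB V)

variable {X Y : ∀ i, (Λ i → ℝ) → ℝ} {ν : ι → Measure ℝ} {D : ι → ℝ} {s t : ℝ}

theorem Reg.pow (h : Reg X) (p : ℕ) : Reg fun i V => X i V ^ p := fun i => by
  obtain ⟨h1, ⟨B, hB⟩, h3⟩ := h i
  exact ⟨h1.pow p, ⟨B ^ p, fun V => pow_le_pow_left₀ (h3 V) (hB V) p⟩, fun V => pow_nonneg (h3 V) p⟩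

theorem Reg.mul (h : Reg X) (h' : Reg Y) : Reg fun i V => X i V * Y i V := fun i => by
  obtain ⟨h1, ⟨B, hB⟩, h3⟩ := h i
  obtain ⟨h1', ⟨B', hB'⟩, h3'⟩ := h' i
  exact ⟨h1.mul h1', ⟨B * B', fun V => mul_le_mul (hB V) (hB' V) (h3' V) ((h3 V).trans (hB V))⟩,
    fun V => mul_nonneg (h3 V) (h3' V)⟩

theorem Reg.add (h : Reg X) (h' : Reg Y) : Reg fun i V => X i V + Y i V := fun i => by
  obtain ⟨h1, ⟨B, hB⟩, h3⟩ := h i
  obtain ⟨h1', ⟨B', hB'⟩, h3'⟩ := h' i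
  exact ⟨h1.add h1', ⟨B + B', fun V => add_le_add (hB V) (hB' V)⟩,
    fun V => add_nonneg (h3 V) (h3' V)⟩

theorem Reg.sqrt (h : Reg X) : Reg fun i V => Real.sqrt (X i V) := fun i => by
  obtain ⟨h1, ⟨B, hB⟩, h3⟩ := h i
  exact ⟨h1.sqrt, ⟨Real.sqrt B, fun V => Real.sqrt_le_sqrt (hB V)⟩, fun V => Real.sqrt_nonneg _⟩

theorem Reg.smul (h : Reg X) {c : ι → ℝ} (hc : ∀ i, 0 ≤ c i) : Reg fun i V => c i * X i V :=
  fun i => by
  obtain ⟨h1, ⟨B, hB⟩, h3⟩ := h i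
  exact ⟨h1.const_mul _, ⟨c i * B, fun V => mul_le_mul_of_nonneg_left (hB V) (hc i)⟩,
    fun V => mul_nonneg (hc i) (h3 V)⟩

theorem reg_const {c : ι → ℝ} (hc : ∀ i, 0 ≤ c i) : Reg (Λ := Λ) fun i _ => c i :=
  fun i => ⟨continuous_const, ⟨c i, fun _ => le_rfl⟩, fun _ => hc i⟩

theorem Reg.int [∀ i, IsProbabilityMeasure (ν i)] (h : Reg X) (i : ι) : Integrable (X i) (iid (Λ i) (ν i)) := by
  obtain ⟨h1, ⟨B, hB⟩, h3⟩ := h i
  exact bc_int (ν i) h1 (B := B) fun V => by rw [abs_of_nonneg (h3 V)]; exact hB V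

theorem Reg.ipow [∀ i, IsProbabilityMeasure (ν i)] (h : Reg X) (p : ℕ) (i : ι) :
    Integrable (fun V => X i V ^ p) (iid (Λ i) (ν i)) := (h.pow p).int i

theorem Dom.mono_ae [∀ i, IsProbabilityMeasure (ν i)] (hX : Reg X) (hY : Reg Y)
    (h : ∀ i, ∀ᵐ V ∂(iid (Λ i) (ν i)), X i V ≤ Y i V) (hd : Dom ν D Y s) : Dom ν D X s := fun p => by
  obtain ⟨C, hC, h1⟩ := hd p
  refine ⟨C, hC, fun i => (integral_mono_ae (hX.ipow p i) (hY.ipow p i) ?_).trans (h1 i)⟩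
  filter_upwards [h i] with V hV
  exact pow_le_pow_left₀ ((hX i).2.2 V) hV p

theorem Dom.mono [∀ i, IsProbabilityMeasure (ν i)] (hX : Reg X) (hY : Reg Y)
    (h : ∀ i V, X i V ≤ Y i V) (hd : Dom ν D Y s) : Dom ν D X s :=
  Dom.mono_ae hX hY (fun i => Filter.Eventually.of_forall (h i)) hd

theorem Dom.wk (hD : ∀ i, 1 ≤ D i) (hd : Dom ν D X s) (h : t ≤ s) : Dom ν D X t := fun p => by
  obtain ⟨C, hC, h1⟩ := hd p
  refine ⟨C, hC, fun i => (h1 i).trans (mul_le_mul_of_nonneg_left ?_ hC)⟩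
  refine Real.rpow_le_rpow_of_exponent_le (hD i) ?_
  have : (0 : ℝ) ≤ p := Nat.cast_nonneg p
  nlinarith

theorem Dom.const [∀ i, IsProbabilityMeasure (ν i)] (hX : Reg X) (hD : ∀ i, 1 ≤ D i) {C : ℝ} (hC : 0 ≤ C)
    (h : ∀ i V, X i V ≤ C * D i ^ (-s)) : Dom ν D X s := fun p => by
  refine ⟨C ^ p, pow_nonneg hC p, fun i => ?_⟩
  haveI := iid_prob (Λ i) (ν i)
  have h0 : 0 < D i := zero_lt_one.trans_le (hD i)
  have h1 : ∀ V, X i V ^ p ≤ C ^ p * D i ^ (-(s * p)) := fun V => by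
    have h2 := pow_le_pow_left₀ ((hX i).2.2 V) (h i V) p
    refine h2.trans (le_of_eq ?_)
    rw [mul_pow, ← Real.rpow_natCast (D i ^ (-s)) p, ← Real.rpow_mul h0.le]
    congr 2; ring
  calc ∫ V, X i V ^ p ∂(iid (Λ i) (ν i)) ≤ ∫ _V, C ^ p * D i ^ (-(s * p)) ∂(iid (Λ i) (ν i)) :=
        integral_mono (hX.ipow p i) (integrable_const _) h1
    _ = _ := by simp

theorem Dom.mul [∀ i, IsProbabilityMeasure (ν i)] (hX : Reg X) (hY : Reg Y) (hD : ∀ i, 1 ≤ D i)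
    (h : Dom ν D X s) (h' : Dom ν D Y t) : Dom ν D (fun i V => X i V * Y i V) (s + t) := fun p => by
  obtain ⟨C, hC, h1⟩ := h (2 * p)
  obtain ⟨C', hC', h1'⟩ := h' (2 * p)
  refine ⟨(C + C') / 2, by positivity, fun i => ?_⟩
  have h0 : 0 < D i := zero_lt_one.trans_le (hD i)
  obtain ⟨a, ha⟩ : ∃ a, a = D i ^ ((s - t) * p) := ⟨_, rfl⟩
  have ha0 : 0 < a := by rw [ha]; exact Real.rpow_pos_of_pos h0 _
  have hp : ∀ V, (X i V * Y i V) ^ p ≤ a / 2 * X i V ^ (2 * p) + a⁻¹ / 2 * Y i V ^ (2 * p) := fun V => by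
    have hx := pow_nonneg ((hX i).2.2 V) p
    have hy := pow_nonneg ((hY i).2.2 V) p
    have e1 : X i V ^ (2 * p) = (X i V ^ p) ^ 2 := by rw [← pow_mul, mul_comm]
    have e2 : Y i V ^ (2 * p) = (Y i V ^ p) ^ 2 := by rw [← pow_mul, mul_comm]
    rw [mul_pow, e1, e2]
    have h3 : 0 ≤ (a * X i V ^ p - Y i V ^ p) ^ 2 := sq_nonneg _
    have h4 : a / 2 * (X i V ^ p) ^ 2 + a⁻¹ / 2 * (Y i V ^ p) ^ 2 - X i V ^ p * Y i V ^ p =
        (a * X i V ^ p - Y i V ^ p) ^ 2 / (2 * a) := by field_simp; ring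
    have h5 : 0 ≤ (a * X i V ^ p - Y i V ^ p) ^ 2 / (2 * a) := by positivity
    linarith
  have hi := integral_mono ((hX.mul hY).ipow p i)
    (((hX.ipow (ν := ν) (2 * p) i).const_mul (a / 2)).add ((hY.ipow (2 * p) i).const_mul (a⁻¹ / 2))) hp
  have e3 : ∫ V, (a / 2 * X i V ^ (2 * p) + a⁻¹ / 2 * Y i V ^ (2 * p)) ∂(iid (Λ i) (ν i)) =
      a / 2 * ∫ V, X i V ^ (2 * p) ∂(iid (Λ i) (ν i)) + a⁻¹ / 2 * ∫ V, Y i V ^ (2 * p) ∂(iid (Λ i) (ν i)) := by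
    rw [integral_add ((hX.ipow (2 * p) i).const_mul _) ((hY.ipow (2 * p) i).const_mul _),
      integral_const_mul, integral_const_mul]
  have e4 : a * D i ^ (-(s * ((2 * p : ℕ) : ℝ))) = D i ^ (-((s + t) * p)) := by
    rw [ha, ← Real.rpow_add h0]; congr 1; push_cast; ring
  have e5 : a⁻¹ * D i ^ (-(t * ((2 * p : ℕ) : ℝ))) = D i ^ (-((s + t) * p)) := by
    rw [ha, ← Real.rpow_neg h0.le, ← Real.rpow_add h0]; congr 1; push_cast; ring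
  calc ∫ V, (X i V * Y i V) ^ p ∂(iid (Λ i) (ν i)) ≤ _ := hi
    _ = _ := e3
    _ ≤ a / 2 * (C * D i ^ (-(s * ((2 * p : ℕ) : ℝ)))) + a⁻¹ / 2 * (C' * D i ^ (-(t * ((2 * p : ℕ) : ℝ)))) := by
        gcongr
        · exact h1 i
        · exact h1' i
    _ = (C + C') / 2 * D i ^ (-((s + t) * p)) := by
        rw [show a / 2 * (C * D i ^ (-(s * ((2 * p : ℕ) : ℝ)))) =
          C / 2 * (a * D i ^ (-(s * ((2 * p : ℕ) : ℝ)))) by ring,
          show a⁻¹ / 2 * (C' * D i ^ (-(t * ((2 * p : ℕ) : ℝ)))) =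
          C' / 2 * (a⁻¹ * D i ^ (-(t * ((2 * p : ℕ) : ℝ)))) by ring, e4, e5]
        ring

theorem Dom.pow (h : Dom ν D X s) (k : ℕ) : Dom ν D (fun i V => X i V ^ k) (k * s) := fun p => by
  obtain ⟨C, hC, h1⟩ := h (k * p)
  refine ⟨C, hC, fun i => ?_⟩
  have h2 := h1 i
  simp only [← pow_mul]
  refine h2.trans (le_of_eq ?_)
  congr 2; push_cast; ring

theorem Dom.add [∀ i, IsProbabilityMeasure (ν i)] (hX : Reg X) (hY : Reg Y)
    (h : Dom ν D X s) (h' : Dom ν D Y s) : Dom ν D (fun i V => X i V + Y i V) s := fun p => by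
  obtain ⟨C, hC, h1⟩ := h p
  obtain ⟨C', hC', h1'⟩ := h' p
  refine ⟨2 ^ (p - 1) * (C + C'), by positivity, fun i => ?_⟩
  have hp : ∀ V, (X i V + Y i V) ^ p ≤ 2 ^ (p - 1) * (X i V ^ p + Y i V ^ p) := fun V =>
    add_pow_le ((hX i).2.2 V) ((hY i).2.2 V) p
  have hi := integral_mono ((hX.add hY).ipow p i)
    (((hX.ipow (ν := ν) p i).add (hY.ipow p i)).const_mul (2 ^ (p - 1))) hp
  refine hi.trans ?_
  rw [integral_const_mul]
  have e : ∫ V, ((fun V => X i V ^ p) + fun V => Y i V ^ p) V ∂(iid (Λ i) (ν i)) =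
      ∫ V, X i V ^ p ∂(iid (Λ i) (ν i)) + ∫ V, Y i V ^ p ∂(iid (Λ i) (ν i)) :=
    integral_add (hX.ipow p i) (hY.ipow p i)
  rw [e]
  have := h1 i
  have := h1' i
  have h9 : (0 : ℝ) < 2 ^ (p - 1) := by positivity
  nlinarith

theorem Dom.sqrt [∀ i, IsProbabilityMeasure (ν i)] (hX : Reg X) (hD : ∀ i, 1 ≤ D i)
    (h : Dom ν D X s) : Dom ν D (fun i V => Real.sqrt (X i V)) (s / 2) := fun p => by
  obtain ⟨C, hC, h1⟩ := h p
  refine ⟨(C + 1) / 2, by positivity, fun i => ?_⟩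
  haveI := iid_prob (Λ i) (ν i)
  have h0 : 0 < D i := zero_lt_one.trans_le (hD i)
  obtain ⟨a, ha⟩ : ∃ a, a = D i ^ (s / 2 * p) := ⟨_, rfl⟩
  have ha0 : 0 < a := by rw [ha]; exact Real.rpow_pos_of_pos h0 _
  have hp : ∀ V, Real.sqrt (X i V) ^ p ≤ a / 2 * X i V ^ p + a⁻¹ / 2 := fun V => by
    have hx := (hX i).2.2 V
    obtain ⟨y, hy⟩ : ∃ y, y = Real.sqrt (X i V) ^ p := ⟨_, rfl⟩
    have e1 : X i V ^ p = y ^ 2 := by
      rw [hy, ← pow_mul, mul_comm p 2, pow_mul, Real.sq_sqrt hx]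
    rw [e1, ← hy]
    have h4 : a / 2 * y ^ 2 + a⁻¹ / 2 - y = (a * y - 1) ^ 2 / (2 * a) := by field_simp; ring
    have h5 : 0 ≤ (a * y - 1) ^ 2 / (2 * a) := by positivity
    linarith
  have hi := integral_mono (hX.sqrt.ipow p i)
    (((hX.ipow (ν := ν) p i).const_mul (a / 2)).add (integrable_const (a⁻¹ / 2))) hp
  have e3 : ∫ V, (a / 2 * X i V ^ p + a⁻¹ / 2) ∂(iid (Λ i) (ν i)) =
      a / 2 * ∫ V, X i V ^ p ∂(iid (Λ i) (ν i)) + a⁻¹ / 2 := by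
    rw [integral_add ((hX.ipow p i).const_mul _) (integrable_const _), integral_const_mul]
    simp
  have e4 : a * D i ^ (-(s * (p : ℝ))) = D i ^ (-(s / 2 * p)) := by
    rw [ha, ← Real.rpow_add h0]; congr 1; ring
  have e5 : a⁻¹ = D i ^ (-(s / 2 * p)) := by rw [ha, ← Real.rpow_neg h0.le]
  calc ∫ V, Real.sqrt (X i V) ^ p ∂(iid (Λ i) (ν i)) ≤ _ := hi
    _ = _ := e3
    _ ≤ a / 2 * (C * D i ^ (-(s * (p : ℝ)))) + a⁻¹ / 2 := by gcongr; exact h1 i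
    _ = (C + 1) / 2 * D i ^ (-(s / 2 * p)) := by
        rw [show a / 2 * (C * D i ^ (-(s * (p : ℝ)))) = C / 2 * (a * D i ^ (-(s * (p : ℝ)))) by ring, e4, e5]
        ring

/-- multiplication with a deterministic factor `≤ C D^{-t}` -/
theorem Dom.smul [∀ i, IsProbabilityMeasure (ν i)] (hX : Reg X) (hD : ∀ i, 1 ≤ D i) {c : ι → ℝ}
    (hc : ∀ i, 0 ≤ c i) {C : ℝ} (hC : 0 ≤ C) (h : ∀ i, c i ≤ C * D i ^ (-t)) (hd : Dom ν D X s) :
    Dom ν D (fun i V => c i * X i V) (t + s) :=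
  Dom.mul (reg_const hc) hX hD (Dom.const (reg_const hc) hD hC fun i _ => h i) hd

theorem Dom.ofPow [∀ i, IsProbabilityMeasure (ν i)] (hX : Reg X) (hD : ∀ i, 1 ≤ D i)
    (h : ∀ p : ℕ, ∃ C : ℝ, 0 ≤ C ∧ ∀ i, ∫ V, X i V ^ (2 * p) ∂(iid (Λ i) (ν i)) ≤ C * D i ^ (-(s * (2 * p)))) :
    Dom ν D X s := by
  have h1 : Dom ν D (fun i V => X i V ^ 2) (2 * s) := fun p => by
    obtain ⟨C, hC, h2⟩ := h p
    refine ⟨C, hC, fun i => ?_⟩
    simp only [← pow_mul]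
    refine (h2 i).trans (le_of_eq ?_)
    congr 2; ring
  have h2 := Dom.sqrt (hX.pow 2) hD h1
  have e : (fun i V => Real.sqrt (X i V ^ 2)) = X := by
    funext i V
    exact Real.sqrt_sq ((hX i).2.2 V)
  rw [e] at h2
  convert h2 using 1
  ring

end Pool.Agent.Q218.HB
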