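import Pool.Agent.Q218.HB.Det2

/-! Further deterministic lemmas: the upper bound of the number of the eigenvalues, the tail of the
spectrum, balls instead of slabs. -/

set_option autoImplicit false
set_option linter.unusedSectionVars false
set_option linter.unusedVariables false

open MeasureTheory

namespace Pool.Agent.Q218.HB

section

variable {d n : ℕ} [NeZero n] {V : Tor d n → ℝ} {φ : Tor d n → Tor d n → ℂ} {e : Tor d n → ℝ}

theorem HT_nonneg (E η : ℝ) (V : Tor d n → ℝ) : 0 ≤ HT E η V :=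
  Finset.sum_nonneg fun _ _ => Finset.sum_nonneg fun _ _ => by positivity

theorem HT_cb (E η : ℝ) (hη : 0 < η) : CB fun V : Tor d n → ℝ => HT E η V := by
  have hz : 0 < (pt E η).im := by rw [pt_im]; exact hη
  exact CB.sum fun x => CB.sum fun y =>
    CB.pow (f := fun V => ‖G hop V (pt E η) x y - G hop (fun _ => 0) (pt E η) x y‖)
      ⟨((lCont _ hop _ hop_symm hz.ne' x y).sub continuous_const).norm,
      ⟨1 / (pt E η).im + 1 / (pt E η).im, fun V => (norm_sub_le _ _).trans (add_le_add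
        (ent_le lOpb hop_symm hz V x y) (ent_le lOpb hop_symm hz _ x y))⟩, fun _ => norm_nonneg _⟩ 2

/-- Markov's inequality -/
theorem markov {Λ : Type} [Fintype Λ] (ν : Measure ℝ) [IsProbabilityMeasure ν] {f : (Λ → ℝ) → ℝ} (hf : CB f)
    {t a : ℝ} (ht : 0 < t) (h : ∫ V, f V ∂(iid Λ ν) ≤ a * t) :
    iid Λ ν {V | t ≤ f V} ≤ ENNReal.ofReal a := by
  haveI := iid_prob Λ ν
  have h1 := mul_meas_ge_le_integral_of_nonneg (μ := iid Λ ν) (f := f)
    (Filter.Eventually.of_forall hf.2.2) (hf.int ν) t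
  have h2 : (iid Λ ν).real {V | t ≤ f V} ≤ a := by
    have := h1.trans h
    rw [mul_comm a t] at this
    exact le_of_mul_le_mul_left this ht
  rw [← ENNReal.ofReal_toReal (measure_ne_top (iid Λ ν) {V | t ≤ f V})]
  exact ENNReal.ofReal_le_ofReal h2

/-- the upper bound for the number of the eigenvalues -/
theorem count_up (h : EB V φ e) {E η g : ℝ} (hη : 0 < η)
    (hg : ∀ x : Tor d n, (G hop (fun _ => 0) (pt E η) x x).im ≤ g) :
    (cnt e E η : ℝ) ≤ 4 * η * ((n : ℝ) ^ d * g + η * HT E η V) := by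
  have hN : (Finset.univ : Finset (Tor d n)).card = n ^ d := by simp [ZMod.card]
  have w1 : ∑ x : Tor d n, ∑ y : Tor d n, ‖G hop (fun _ => 0) (pt E η) x y‖ ^ 2 ≤
      (n : ℝ) ^ d * g / η := by
    have h1 : ∀ x : Tor d n, ∑ y, ‖G hop (fun _ => 0) (pt E η) x y‖ ^ 2 ≤ g / η := fun x => by
      rw [lWard (Tor d n) hop (fun _ => 0) (pt E η) hop_symm (by rw [pt_im]; exact hη) x, pt_im]
      exact div_le_div_of_nonneg_right (hg x) hη.le
    refine (Finset.sum_le_sum fun x _ => h1 x).trans (le_of_eq ?_)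
    rw [Finset.sum_const, hN, nsmul_eq_mul]; push_cast; ring
  have s1 := sq_half (fun x y : Tor d n => G hop V (pt E η) x y) (fun x y => G hop (fun _ => 0) (pt E η) x y)
  have e1 : ∑ x : Tor d n, ∑ y : Tor d n, ‖G hop V (pt E η) x y -
      G hop (fun _ => 0) (pt E η) x y‖ ^ 2 = HT E η V := rfl
  rw [e1] at s1
  rw [h.G_hs lInv E η hη] at s1
  have hp : ∀ j, (if |e j - E| ≤ η then 1 / (2 * η ^ 2) else 0) ≤ 1 / ((e j - E) ^ 2 + η ^ 2) := fun j => by
    split_ifs with hj
    · have h1 : (e j - E) ^ 2 ≤ η ^ 2 := by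
        rw [← sq_abs (e j - E)]
        exact pow_le_pow_left₀ (abs_nonneg _) hj 2
      exact one_div_le_one_div_of_le (by positivity) (by linarith)
    · positivity
  have hs := Finset.sum_le_sum (s := Finset.univ) fun j _ => hp j
  have e3 : ∑ j, (if |e j - E| ≤ η then 1 / (2 * η ^ 2) else 0) = (cnt e E η : ℝ) * (1 / (2 * η ^ 2)) := by
    rw [← Finset.sum_filter, Finset.sum_const, nsmul_eq_mul]; rfl
  rw [e3] at hs
  have h4 : (cnt e E η : ℝ) * (1 / (2 * η ^ 2)) ≤ 2 * ((n : ℝ) ^ d * g / η) + 2 * HT E η V := by linarith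
  have h5 := mul_le_mul_of_nonneg_left h4 (by positivity : 0 ≤ 2 * η ^ 2)
  have e6 : 2 * η ^ 2 * ((cnt e E η : ℝ) * (1 / (2 * η ^ 2))) = cnt e E η := by field_simp
  have e7 : 2 * η ^ 2 * (2 * ((n : ℝ) ^ d * g / η) + 2 * HT E η V) =
      4 * η * ((n : ℝ) ^ d * g + η * HT E η V) := by field_simp; ring
  rw [e6, e7] at h5
  exact h5

theorem ev_ne (hn : 3 ≤ n) (i i' : Fin d) : (ev i : Tor d n) ≠ - ev i' := by
  haveI : Fact (1 < n) := ⟨by omega⟩
  intro h
  have h1 := congrFun h i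
  rw [ev, ev, Pi.neg_apply, Pi.single_eq_same] at h1
  by_cases hi : i = i'
  · subst hi
    rw [Pi.single_eq_same] at h1
    have h2 : ((2 : ℕ) : ZMod n) = 0 := by
      push_cast
      have : (1 : ZMod n) + 1 = 0 := by
        nth_rewrite 1 [h1]; simp
      rw [← this]; norm_num
    rw [ZMod.natCast_eq_zero_iff] at h2
    have := Nat.le_of_dvd (by norm_num) h2
    omega
  · rw [Pi.single_eq_of_ne hi, neg_zero] at h1
    exact one_ne_zero h1

theorem ev_inj (hn : 3 ≤ n) (i i' : Fin d) : (ev i : Tor d n) = ev i' ↔ i' = i := by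
  haveI : Fact (1 < n) := ⟨by omega⟩
  constructor
  · intro h
    by_contra hi
    have h1 := congrFun h i
    rw [ev, ev, Pi.single_eq_same, Pi.single_eq_of_ne fun hh => hi hh.symm] at h1
    exact one_ne_zero h1
  · rintro rfl; rfl

/-- `∑_y |h(x,y)|² = 2 d` -/
theorem hop_sq (hn : 3 ≤ n) (x : Tor d n) : ∑ y, (hop x y) ^ 2 = 2 * d := by
  have h1 : ∀ i : Fin d, hop x (x + ev i) = -1 := fun i => by
    unfold hop
    rw [neg_inj, Finset.sum_add_distrib]
    have e1 : ∀ i' : Fin d, (if x + ev i = x + ev i' then (1 : ℝ) else 0) = if i' = i then 1 else 0 :=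
      fun i' => by
        refine if_congr ?_ rfl rfl
        rw [add_right_inj]; exact ev_inj hn i i'
    have e2 : ∀ i' : Fin d, (if x + ev i = x - ev i' then (1 : ℝ) else 0) = 0 := fun i' => by
      rw [if_neg]
      rw [sub_eq_add_neg, add_right_inj]
      exact ev_ne hn i i'
    rw [Finset.sum_congr rfl fun i' _ => e1 i', Finset.sum_congr rfl fun i' _ => e2 i', Finset.sum_ite_eq']
    simp
  have h2 : ∀ i : Fin d, hop x (x - ev i) = -1 := fun i => by
    unfold hop
    rw [neg_inj, Finset.sum_add_distrib]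
    have e1 : ∀ i' : Fin d, (if x - ev i = x - ev i' then (1 : ℝ) else 0) = if i' = i then 1 else 0 :=
      fun i' => by
        refine if_congr ?_ rfl rfl
        rw [sub_right_inj]; exact ev_inj hn i i'
    have e2 : ∀ i' : Fin d, (if x - ev i = x + ev i' then (1 : ℝ) else 0) = 0 := fun i' => by
      rw [if_neg]
      rw [sub_eq_add_neg, add_right_inj]
      exact fun h => ev_ne hn i' i h.symm
    rw [Finset.sum_congr rfl fun i' _ => e1 i', Finset.sum_congr rfl fun i' _ => e2 i', Finset.sum_ite_eq']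
    simp
  have h3 : ∀ y, (hop x y) ^ 2 = -∑ i : Fin d, ((if y = x + ev i then hop x y else 0) +
      (if y = x - ev i then hop x y else 0)) := fun y => by
    rw [sq]
    nth_rewrite 1 [hop]
    rw [neg_mul, Finset.sum_mul]
    congr 1
    refine Finset.sum_congr rfl fun i _ => ?_
    rw [add_mul, ite_mul, ite_mul, one_mul, zero_mul]
  rw [Finset.sum_congr rfl fun y _ => h3 y, Finset.sum_neg_distrib, Finset.sum_comm]
  have h4 : ∀ i : Fin d, ∑ y, ((if y = x + ev i then hop x y else 0) +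
      (if y = x - ev i then hop x y else 0)) = -2 := fun i => by
    rw [Finset.sum_add_distrib, Finset.sum_ite_eq', Finset.sum_ite_eq']
    simp only [Finset.mem_univ, if_true]
    rw [h1, h2]; norm_num
  rw [Finset.sum_congr rfl fun i _ => h4 i, Finset.sum_const, Finset.card_univ, Fintype.card_fin, nsmul_eq_mul]
  ring

/-- the tail of the spectrum -/
theorem spec_tail (hn : 3 ≤ n) (h : EB V φ e) {M R : ℝ} (hV : ∀ x, |V x| ≤ M) (hR : 0 ≤ R) :
    R ^ 2 * ((Finset.univ.filter fun j => R < |e j|).card : ℝ) ≤ (n : ℝ) ^ d * (4 * d + 2 * M ^ 2) := by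
  have hN : (Finset.univ : Finset (Tor d n)).card = n ^ d := by simp [ZMod.card]
  have h1 := h.hs (Hm hop V)
  have h2 : ∀ j, ∑ x, ‖∑ y, Hm hop V x y * φ j y‖ ^ 2 = (e j) ^ 2 := fun j => by
    have : ∀ x, ‖∑ y, Hm hop V x y * φ j y‖ ^ 2 = (e j) ^ 2 * ‖φ j x‖ ^ 2 := fun x => by
      rw [h.eig j x, norm_mul, mul_pow, Complex.norm_real, Real.norm_eq_abs, sq_abs]
    rw [Finset.sum_congr rfl fun x _ => this x, ← Finset.mul_sum, h.norm_one, mul_one]
  rw [Finset.sum_congr rfl fun j _ => h2 j] at h1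
  have h3 : ∀ x, ∑ y, ‖Hm hop V x y‖ ^ 2 ≤ 4 * d + 2 * M ^ 2 := fun x => by
    have h4 : ∀ y, ‖Hm hop V x y‖ ^ 2 ≤ 2 * (hop x y) ^ 2 + (if y = x then 2 * M ^ 2 else 0) := fun y => by
      unfold Hm
      by_cases hxy : x = y
      · rw [if_pos hxy, if_pos hxy.symm]
        have : ((hop x y : ℝ) : ℂ) + (V x : ℂ) = ((hop x y + V x : ℝ) : ℂ) := by push_cast; rfl
        rw [this, Complex.norm_real, Real.norm_eq_abs, sq_abs]
        have hVx : (V x) ^ 2 ≤ M ^ 2 := by
          rw [← sq_abs (V x)]; exact pow_le_pow_left₀ (abs_nonneg _) (hV x) 2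
        nlinarith [sq_nonneg (hop x y - V x)]
      · rw [if_neg hxy, if_neg fun hh => hxy hh.symm, add_zero, add_zero, Complex.norm_real, Real.norm_eq_abs,
          sq_abs]
        nlinarith [sq_nonneg (hop x y)]
    refine (Finset.sum_le_sum fun y _ => h4 y).trans (le_of_eq ?_)
    rw [Finset.sum_add_distrib, ← Finset.mul_sum, hop_sq hn, Finset.sum_ite_eq']
    simp only [Finset.mem_univ, if_true]
    ring
  have h5 : ∑ j, (e j) ^ 2 ≤ (n : ℝ) ^ d * (4 * d + 2 * M ^ 2) := by
    rw [h1]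
    refine (Finset.sum_le_sum fun x _ => h3 x).trans (le_of_eq ?_)
    rw [Finset.sum_const, hN, nsmul_eq_mul]; push_cast; ring
  refine le_trans ?_ h5
  exact count_markov (fun j => (e j) ^ 2) (fun j => sq_nonneg _) (fun j => R < |e j|) (R ^ 2) fun j hj => by
    rw [← sq_abs (e j)]; exact pow_le_pow_left₀ hR hj.le 2

end

end Pool.Agent.Q218.HB
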