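import Pool.Agent.Q218.HB.Fin1

/-! Balls instead of slabs. -/

set_option autoImplicit false
set_option linter.unusedSectionVars false
set_option linter.unusedVariables false

open MeasureTheory

namespace Pool.Agent.Q218.HB

section

variable {d n : ℕ} [NeZero n] {V : Tor d n → ℝ} {φ : Tor d n → Tor d n → ℂ} {e : Tor d n → ℝ}

/-- the mass of `φ` in the slab `|x_i - b| ≤ L` -/
noncomputable def sm (φ : Tor d n → ℂ) (i : Fin d) (b : ZMod n) (L : ℕ) : ℝ :=
  ∑ x, Set.indicator {x : Tor d n | x i ∈ slab b L} (fun x => ‖φ x‖ ^ 2) x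

/-- the mass of `φ` in the ball `2 |x - b|₁ ≤ d L` -/
noncomputable def bm (φ : Tor d n → ℂ) (b : Tor d n) (L : ℕ) : ℝ :=
  ∑ x, Set.indicator {x : Tor d n | 2 * ∑ i, (x i - b i).valMinAbs.natAbs ≤ d * L} (fun x => ‖φ x‖ ^ 2) x

theorem sm_le_one (ψ : Tor d n → ℂ) (h : ∑ x, ‖ψ x‖ ^ 2 = 1) (i : Fin d) (b : ZMod n) (L : ℕ) :
    sm ψ i b L ≤ 1 := by
  rw [← h]
  exact Finset.sum_le_sum fun x _ => Set.indicator_le_self' (fun _ _ => by positivity) x

theorem mem_slab (b c : ZMod n) (L : ℕ) (h : (c - b).valMinAbs.natAbs ≤ L) : c ∈ slab b L := by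
  refine ⟨(c - b).valMinAbs, ?_, ?_⟩
  · rw [Int.abs_eq_natAbs]; exact_mod_cast h
  · rw [ZMod.coe_valMinAbs]; ring

open Classical in
theorem ball_pt (L : ℕ) (b x : Tor d n) (h : 2 * ∑ i, (x i - b i).valMinAbs.natAbs ≤ d * L) :
    d ≤ 2 * (Finset.univ.filter fun i => x i ∈ slab (b i) L).card := by
  have h1 : (L + 1) * (Finset.univ.filter fun i => ¬ x i ∈ slab (b i) L).card ≤
      ∑ i, (x i - b i).valMinAbs.natAbs := by
    calc (L + 1) * (Finset.univ.filter fun i => ¬ x i ∈ slab (b i) L).card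
        = ∑ _i ∈ Finset.univ.filter fun i => ¬ x i ∈ slab (b i) L, (L + 1) := by
          rw [Finset.sum_const, smul_eq_mul]; ring
      _ ≤ ∑ i ∈ Finset.univ.filter fun i => ¬ x i ∈ slab (b i) L, (x i - b i).valMinAbs.natAbs := by
          refine Finset.sum_le_sum fun i hi => ?_
          by_contra hc
          exact (Finset.mem_filter.1 hi).2 (mem_slab _ _ _ (by omega))
      _ ≤ _ := Finset.sum_le_sum_of_subset_of_nonneg (Finset.filter_subset _ _) fun _ _ _ => Nat.zero_le _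
  have h2 : (Finset.univ.filter fun i => x i ∈ slab (b i) L).card +
      (Finset.univ.filter fun i => ¬ x i ∈ slab (b i) L).card = d := by
    rw [Finset.card_filter_add_card_filter_not]; simp
  obtain ⟨p, hp⟩ : ∃ p, p = (Finset.univ.filter fun i => x i ∈ slab (b i) L).card := ⟨_, rfl⟩
  obtain ⟨q, hq⟩ : ∃ q, q = (Finset.univ.filter fun i => ¬ x i ∈ slab (b i) L).card := ⟨_, rfl⟩
  rw [← hp, ← hq] at h2
  rw [← hq] at h1
  rw [← hp]
  by_contra hc
  have h3 : d < 2 * q := by omega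
  have h4 : 2 * ((L + 1) * q) ≤ d * L := by omega
  have h5 : (L + 1) * (2 * q) ≤ d * L := by rw [← mul_assoc, mul_comm (L + 1) 2, mul_assoc]; exact h4
  have h6 : (L + 1) * (d + 1) ≤ (L + 1) * (2 * q) := Nat.mul_le_mul_left _ (by omega)
  nlinarith

theorem ball_le (ψ : Tor d n → ℂ) (L : ℕ) (b : Tor d n) : (d : ℝ) * bm ψ b L ≤ 2 * ∑ i, sm ψ i (b i) L := by
  classical
  unfold bm sm
  rw [Finset.sum_comm, Finset.mul_sum, Finset.mul_sum]
  refine Finset.sum_le_sum fun x _ => ?_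
  have h0 : 0 ≤ ∑ i : Fin d, Set.indicator {x : Tor d n | x i ∈ slab (b i) L} (fun x => ‖ψ x‖ ^ 2) x :=
    Finset.sum_nonneg fun i _ => Set.indicator_nonneg (fun _ _ => by positivity) x
  by_cases hx : 2 * ∑ i, (x i - b i).valMinAbs.natAbs ≤ d * L
  · rw [Set.indicator_of_mem (show x ∈ {x : Tor d n | 2 * ∑ i, (x i - b i).valMinAbs.natAbs ≤ d * L} from hx)]
    have h1 : ∑ i : Fin d, Set.indicator {x : Tor d n | x i ∈ slab (b i) L} (fun x => ‖ψ x‖ ^ 2) x =
        ((Finset.univ.filter fun i => x i ∈ slab (b i) L).card : ℝ) * ‖ψ x‖ ^ 2 := by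
      rw [Finset.card_filter, Nat.cast_sum, Finset.sum_mul]
      refine Finset.sum_congr rfl fun i _ => ?_
      by_cases hi : x i ∈ slab (b i) L
      · rw [Set.indicator_of_mem (show x ∈ {x : Tor d n | x i ∈ slab (b i) L} from hi), if_pos hi]
        simp
      · rw [Set.indicator_of_notMem (show x ∉ {x : Tor d n | x i ∈ slab (b i) L} from hi), if_neg hi]
        simp
    rw [h1, ← mul_assoc]
    refine mul_le_mul_of_nonneg_right ?_ (by positivity)
    exact_mod_cast ball_pt L b x hx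
  · rw [Set.indicator_of_notMem (show x ∉ {x : Tor d n | 2 * ∑ i, (x i - b i).valMinAbs.natAbs ≤ d * L} from hx),
      mul_zero]
    exact mul_nonneg (by norm_num) h0

open Classical in
/-- from slabs to balls -/
theorem ball_count (hφ : ∀ j, ∑ x, ‖φ j x‖ ^ 2 = 1) (hd : 1 ≤ d) (J : Finset (Tor d n)) (L : ℕ) {τ s T : ℝ}
    (hτ : 0 ≤ τ) (hs : 0 < s)
    (h : ∀ i : Fin d, ((J.filter fun j => ∃ b : ZMod n, τ < sm (φ j) i b L).card : ℝ) ≤ τ * T) :
    s * ((J.filter fun j => ∃ b : Tor d n, 2 * (τ + s) < bm (φ j) b L).card : ℝ) ≤ τ * T := by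
  have hd0 : (0 : ℝ) < d := by exact_mod_cast hd
  have h1 : ∀ j, (∃ b : Tor d n, 2 * (τ + s) < bm (φ j) b L) →
      s * d ≤ ((Finset.univ.filter fun i : Fin d => ∃ b : ZMod n, τ < sm (φ j) i b L).card : ℝ) := by
    rintro j ⟨b, hb⟩
    have h2 := ball_le (φ j) L b
    have h3 : ∑ i, sm (φ j) i (b i) L ≤ d * τ +
        ((Finset.univ.filter fun i : Fin d => ∃ b : ZMod n, τ < sm (φ j) i b L).card : ℝ) := by
      rw [Finset.card_filter, Nat.cast_sum]
      have e1 : (d : ℝ) * τ = ∑ _i : Fin d, τ := by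
        rw [Finset.sum_const, Finset.card_univ, Fintype.card_fin, nsmul_eq_mul]
      rw [e1, ← Finset.sum_add_distrib]
      refine Finset.sum_le_sum fun i _ => ?_
      by_cases hi : ∃ b : ZMod n, τ < sm (φ j) i b L
      · rw [if_pos hi]
        have := sm_le_one (φ j) (hφ j) i (b i) L
        push_cast; linarith
      · rw [if_neg hi]
        have := not_lt.1 (not_exists.1 hi (b i))
        push_cast; linarith
    have h4 := mul_lt_mul_of_pos_left hb hd0
    nlinarith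
  have h5 : ∑ j ∈ J, ((Finset.univ.filter fun i : Fin d => ∃ b : ZMod n, τ < sm (φ j) i b L).card : ℝ) =
      ∑ i : Fin d, ((J.filter fun j => ∃ b : ZMod n, τ < sm (φ j) i b L).card : ℝ) := by
    simp only [Finset.card_filter, Nat.cast_sum]
    rw [Finset.sum_comm]
  have h6 : s * d * ((J.filter fun j => ∃ b : Tor d n, 2 * (τ + s) < bm (φ j) b L).card : ℝ) ≤
      ∑ j ∈ J, ((Finset.univ.filter fun i : Fin d => ∃ b : ZMod n, τ < sm (φ j) i b L).card : ℝ) := by
    calc s * d * ((J.filter fun j => ∃ b : Tor d n, 2 * (τ + s) < bm (φ j) b L).card : ℝ)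
        = ∑ _j ∈ J.filter fun j => ∃ b : Tor d n, 2 * (τ + s) < bm (φ j) b L, s * d := by
          rw [Finset.sum_const, nsmul_eq_mul]; ring
      _ ≤ ∑ j ∈ J.filter fun j => ∃ b : Tor d n, 2 * (τ + s) < bm (φ j) b L,
          ((Finset.univ.filter fun i : Fin d => ∃ b : ZMod n, τ < sm (φ j) i b L).card : ℝ) :=
          Finset.sum_le_sum fun j hj => h1 j (Finset.mem_filter.1 hj).2
      _ ≤ _ := Finset.sum_le_sum_of_subset_of_nonneg (Finset.filter_subset _ _) fun _ _ _ => Nat.cast_nonneg _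
  rw [h5] at h6
  have h7 : ∑ i : Fin d, ((J.filter fun j => ∃ b : ZMod n, τ < sm (φ j) i b L).card : ℝ) ≤ d * (τ * T) := by
    refine (Finset.sum_le_sum fun i _ => h i).trans (le_of_eq ?_)
    rw [Finset.sum_const, Finset.card_univ, Fintype.card_fin, nsmul_eq_mul]
  have h8 := h6.trans h7
  refine le_of_mul_le_mul_left ?_ hd0
  calc (d : ℝ) * (s * _) = s * d * _ := by ring
    _ ≤ _ := h8

end

end Pool.Agent.Q218.HB
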