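import Pool.Agent.Q218.HB.Fin2

/-! The deterministic parts of the two main statements. -/

set_option autoImplicit false
set_option linter.unusedSectionVars false
set_option linter.unusedVariables false

open MeasureTheory

namespace Pool.Agent.Q218.HB

section

variable {d n : ℕ} [NeZero n] {V : Tor d n → ℝ} {φ : Tor d n → Tor d n → ℂ} {e : Tor d n → ℝ}

/-- the mass of the Fourier transform of `φ` off the energy shell `|e(k) - e| ≤ 4 η` -/
noncomputable def om (φ : Tor d n → ℂ) (e η : ℝ) : ℝ :=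
  ∑ k, Set.indicator {k : Tor d n | 4 * η < |en k - e|} (fun k => ‖fo φ k‖ ^ 2) k

open Classical in
/-- few exceptions in the set `J` of indices: all but `τ T` of them are spread over all balls and
concentrated on the energy shell, and for each direction all but `τ T` are spread over all slabs -/
def Few (φ : Tor d n → Tor d n → ℂ) (e : Tor d n → ℝ) (η τ : ℝ) (L : ℕ) (J : Finset (Tor d n)) (T : ℝ) : Prop :=
  ((J.filter fun j => ¬ ((∀ b, bm (φ j) b L ≤ τ) ∧ om (φ j) (e j) η ≤ τ)).card : ℝ) ≤ τ * T ∧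
  ∀ i : Fin d, ((J.filter fun j => ∃ b : ZMod n, τ < sm (φ j) i b L).card : ℝ) ≤ τ * T

open Classical in
theorem few_of (hφ : ∀ j, ∑ x, ‖φ j x‖ ^ 2 = 1) (hd : 1 ≤ d) (J : Finset (Tor d n)) (L : ℕ) {η v T : ℝ}
    (hv : 0 < v) (hv4 : v ≤ 1 / 4) (hT : 0 ≤ T)
    (h1 : ∀ i : Fin d, ((J.filter fun j => ∃ b : ZMod n, v ^ 4 < sm (φ j) i b L).card : ℝ) ≤ v ^ 4 * T)
    (h2 : ((J.filter fun j => v ^ 4 < om (φ j) (e j) η).card : ℝ) ≤ v ^ 4 * T) :
    Few φ e η v L J T := by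
  have hv1 : v ≤ 1 := hv4.trans (by norm_num)
  have p2 : v ^ 4 ≤ v ^ 2 := pow_le_pow_of_le_one hv.le hv1 (by norm_num)
  have p1 : v ^ 4 ≤ v := by
    have := pow_le_pow_of_le_one hv.le hv1 (show 1 ≤ 4 by norm_num); rwa [pow_one] at this
  have q1 : 4 * v ^ 2 ≤ v := by nlinarith
  refine ⟨?_, fun i => ?_⟩
  · have b1 := ball_count hφ hd J L (τ := v ^ 4) (s := v ^ 2) (T := T) (by positivity) (by positivity) h1
    have b2 : ((J.filter fun j => ∃ b : Tor d n, 2 * (v ^ 4 + v ^ 2) < bm (φ j) b L).card : ℝ) ≤ v ^ 2 * T := by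
      refine le_of_mul_le_mul_left ?_ (by positivity : 0 < v ^ 2)
      calc _ ≤ v ^ 4 * T := b1
        _ = v ^ 2 * (v ^ 2 * T) := by ring
    have b3 : (J.filter fun j => ¬ ((∀ b, bm (φ j) b L ≤ v) ∧ om (φ j) (e j) η ≤ v)) ⊆
        (J.filter fun j => ∃ b : Tor d n, 2 * (v ^ 4 + v ^ 2) < bm (φ j) b L) ∪
        (J.filter fun j => v ^ 4 < om (φ j) (e j) η) := by
      intro j hj
      rw [Finset.mem_filter] at hj
      rw [Finset.mem_union, Finset.mem_filter, Finset.mem_filter]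
      by_cases hb : ∀ b, bm (φ j) b L ≤ v
      · right
        refine ⟨hj.1, ?_⟩
        have := not_le.1 fun hh => hj.2 ⟨hb, hh⟩
        linarith
      · left
        push Not at hb
        obtain ⟨b, hb⟩ := hb
        exact ⟨hj.1, b, by linarith⟩
    have b4 := (Finset.card_le_card b3).trans (Finset.card_union_le _ _)
    have b5 : ((J.filter fun j => ¬ ((∀ b, bm (φ j) b L ≤ v) ∧ om (φ j) (e j) η ≤ v)).card : ℝ) ≤
        ((J.filter fun j => ∃ b : Tor d n, 2 * (v ^ 4 + v ^ 2) < bm (φ j) b L).card : ℝ) +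
        ((J.filter fun j => v ^ 4 < om (φ j) (e j) η).card : ℝ) := by exact_mod_cast b4
    have b6 : v ^ 4 * T ≤ v ^ 2 * T := mul_le_mul_of_nonneg_right p2 hT
    have b7 : 4 * v ^ 2 * T ≤ v * T := mul_le_mul_of_nonneg_right q1 hT
    have b8 : 0 ≤ v ^ 2 * T := by positivity
    linarith
  · have b1 : (J.filter fun j => ∃ b : ZMod n, v < sm (φ j) i b L) ⊆
        (J.filter fun j => ∃ b : ZMod n, v ^ 4 < sm (φ j) i b L) := fun j hj => by
      rw [Finset.mem_filter] at hj ⊢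
      obtain ⟨h3, b, hb⟩ := hj
      exact ⟨h3, b, by linarith⟩
    have b2 : ((J.filter fun j => ∃ b : ZMod n, v < sm (φ j) i b L).card : ℝ) ≤
        ((J.filter fun j => ∃ b : ZMod n, v ^ 4 < sm (φ j) i b L).card : ℝ) := by
      exact_mod_cast Finset.card_le_card b1
    exact b2.trans ((h1 i).trans (mul_le_mul_of_nonneg_right p1 hT))

theorem om_le (ψ : Tor d n → ℂ) {e E η : ℝ} (h : |e - E| ≤ η) :
    om ψ e η ≤ ∑ k, Set.indicator {k : Tor d n | 3 * η < |en k - E|} (fun k => ‖fo ψ k‖ ^ 2) k := by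
  unfold om
  refine Finset.sum_le_sum fun k _ => ?_
  refine Set.indicator_le_indicator_of_subset ?_ (fun _ => by positivity) k
  intro k hk
  simp only [Set.mem_setOf_eq] at hk ⊢
  have h1 : |en k - e| ≤ |en k - E| + |e - E| := by
    have := abs_sub (en k - E) (e - E)
    rwa [sub_sub_sub_cancel_right] at this
  linarith

/-- the window -/
noncomputable def Wd (e : Tor d n → ℝ) (E η : ℝ) : Finset (Tor d n) :=
  Finset.univ.filter fun j => |e j - E| ≤ η

/-- the number of the exceptions in a window -/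
theorem win (h : EB V φ e) {E η s v C0 X : ℝ} {L : ℕ} (hL : 1 ≤ L) (hn : 8 * L ^ 2 + 8 ≤ n)
    (hη : 0 < η) (hv : 0 < v) (hv1 : v ≤ 1) (hs : 0 ≤ s) (hC0 : 0 ≤ C0) (hv2 : 2400 * v ≤ 1)
    (havg : (n : ℝ)⁻¹ * ∑ j : ZMod n,
      ((v ^ 16) ^ 2 / (4 * Real.sin (2 * Real.pi * (j.val : ℝ) / n) ^ 2 + (v ^ 16) ^ 2)) ^ 2 ≤ 2 * v ^ 16)
    (hIn : In n (d - 1) η ≤ C0 * s) (hIn0 : 0 ≤ In n (d - 1) η) (hLη : L * η ≤ v ^ 64)
    (hL2 : 1 / (L : ℝ) ≤ 2 * v ^ 64) (hX : η ^ 2 * HT E η V ≤ X) :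
    (∀ i : Fin d, v ^ 4 * (((Wd e E η).filter fun j => ∃ b : ZMod n, v ^ 4 < sm (φ j) i b L).card : ℝ) ≤
      128 * C0 * v ^ 16 * ((n : ℝ) ^ d * η * s) + 72 * X) ∧
    v ^ 4 * (((Wd e E η).filter fun j => v ^ 4 < om (φ j) (e j) η).card : ℝ) ≤ 8 * X := by
  classical
  constructor
  · intro i
    have h1 := det_bad h (E := E) (η := η) (ε := v ^ 16) (τ := v ^ 4) (g := C0 * s) i L hL hn hη (by positivity)
      (pow_le_one₀ hv.le hv1) havg (by positivity) hIn hIn0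
    have h2 : 400 / (v ^ 16) ^ 2 * (L * η + 1 / L) ≤ v ^ 4 / 2 := by
      have h3 : 400 / (v ^ 16) ^ 2 * (L * η + 1 / L) ≤ 400 / (v ^ 16) ^ 2 * (3 * v ^ 64) :=
        mul_le_mul_of_nonneg_left (by linarith) (by positivity)
      have h4 : 400 / (v ^ 16) ^ 2 * (3 * v ^ 64) = 1200 * v ^ 32 := by
        field_simp; ring
      have h5 : v ^ 32 = v ^ 4 * (v * v ^ 27) := by ring
      have h6 : v ^ 27 ≤ 1 := pow_le_one₀ hv.le hv1
      have h7 : v * v ^ 27 ≤ v := mul_le_of_le_one_right hv.le h6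
      have h8 : v ^ 4 * (v * v ^ 27) ≤ v ^ 4 * v := mul_le_mul_of_nonneg_left h7 (by positivity)
      have h9 : v ^ 4 * (2400 * v) ≤ v ^ 4 * 1 := mul_le_mul_of_nonneg_left hv2 (by positivity)
      rw [h4, h5] at h3
      linarith
    have e1 : (Finset.univ.filter fun j => |e j - E| ≤ η ∧ ∃ b : ZMod n,
      v ^ 4 < ∑ x, Set.indicator {x : Tor d n | x i ∈ slab b L} (fun x => ‖φ j x‖ ^ 2) x) =
        ((Wd e E η).filter fun j => ∃ b : ZMod n, v ^ 4 < sm (φ j) i b L) := by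
      rw [Wd, Finset.filter_filter]; rfl
    rw [e1] at h1
    obtain ⟨P, hP⟩ : ∃ P : ℝ, P = (((Wd e E η).filter fun j => ∃ b : ZMod n, v ^ 4 < sm (φ j) i b L).card : ℝ) :=
      ⟨_, rfl⟩
    have hP0 : 0 ≤ P := by rw [hP]; exact Nat.cast_nonneg _
    rw [← hP] at h1
    have h3 : v ^ 4 / 2 * P ≤ (v ^ 4 - 400 / (v ^ 16) ^ 2 * (L * η + 1 / L)) * P :=
      mul_le_mul_of_nonneg_right (by linarith) hP0
    have h4 : v ^ 4 * P ≤ 2 * (64 * ((n : ℝ) ^ d * η * v ^ 16 * (C0 * s)) + 36 * η ^ 2 * HT E η V) := by linarith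
    have h5 : v ^ 4 * P ≤ 128 * C0 * v ^ 16 * ((n : ℝ) ^ d * η * s) + 72 * X := by nlinarith
    rw [hP] at h5
    convert h5 using 3
  · have h1 := det_mom h (E := E) (η := η) (τ := v ^ 4) hη
    have h2 : ((Wd e E η).filter fun j => v ^ 4 < om (φ j) (e j) η) ⊆
        (Finset.univ.filter fun j => |e j - E| ≤ η ∧
      v ^ 4 < ∑ k, Set.indicator {k : Tor d n | 3 * η < |en k - E|} (fun k => ‖fo (φ j) k‖ ^ 2) k) := by
      intro j hj
      rw [Wd, Finset.mem_filter, Finset.mem_filter] at hj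
      rw [Finset.mem_filter]
      exact ⟨Finset.mem_univ _, hj.1.2, lt_of_lt_of_le hj.2 (om_le _ hj.1.2)⟩
    have h3 : (((Wd e E η).filter fun j => v ^ 4 < om (φ j) (e j) η).card : ℝ) ≤
        ((Finset.univ.filter fun j => |e j - E| ≤ η ∧
      v ^ 4 < ∑ k, Set.indicator {k : Tor d n | 3 * η < |en k - E|} (fun k => ‖fo (φ j) k‖ ^ 2) k).card : ℝ) := by
      exact_mod_cast Finset.card_le_card h2
    have h4 := mul_le_mul_of_nonneg_left h3 (by positivity : 0 ≤ v ^ 4)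
    nlinarith

end

end Pool.Agent.Q218.HB
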