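import Pool.Agent.Q218.HB.Fin3

/-! The deterministic parts of the two main statements: windows and the whole spectrum. -/

set_option autoImplicit false
set_option linter.unusedSectionVars false
set_option linter.unusedVariables false

open MeasureTheory

namespace Pool.Agent.Q218.HB

section

variable {d n : ℕ} [NeZero n] {V : Tor d n → ℝ} {φ : Tor d n → Tor d n → ℂ} {e : Tor d n → ℝ}

theorem partA (h : EB V φ e) (hd : 1 ≤ d) {E η s v C0 C' c1 θ : ℝ} {L : ℕ} (hL : 1 ≤ L) (hn : 8 * L ^ 2 + 8 ≤ n)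
    (hη : 0 < η) (hv : 0 < v) (hv4 : v ≤ 1 / 4) (hs : 0 < s) (hC0 : 0 < C0) (hC' : 0 ≤ C') (hc1 : 0 < c1)
    (hθ : 0 < θ) (hθ1 : θ ≤ 1)
    (hv2 : 2400 * v ≤ 1)
    (havg : (n : ℝ)⁻¹ * ∑ j : ZMod n,
      ((v ^ 16) ^ 2 / (4 * Real.sin (2 * Real.pi * (j.val : ℝ) / n) ^ 2 + (v ^ 16) ^ 2)) ^ 2 ≤ 2 * v ^ 16)
    (hIn : In n (d - 1) η ≤ C0 * s) (hIn0 : 0 ≤ In n (d - 1) η) (hLη : L * η ≤ v ^ 64)
    (hL2 : 1 / (L : ℝ) ≤ 2 * v ^ 64)
    (hg : ∀ x : Tor d n, (G hop (fun _ => 0) (pt E η) x x).im ≤ C0 * s)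
    (hg' : ∀ x : Tor d n, c1 * s ≤ (G hop (fun _ => 0) (pt E (θ * η)) x x).im)
    (H1 : η * HT E η V ≤ (n : ℝ) ^ d * s * (C' * v ^ 24))
    (H2 : θ * η * HT E (θ * η) V ≤ (n : ℝ) ^ d * s * (C' * v ^ 24))
    (K1 : 32 * θ * C0 ≤ c1) (K2 : 40 * C' * v ≤ c1) (K4 : C' * v ≤ 1)
    (K3 : (128 * C0 + 72 * C') * (4 / (θ * c1)) * v ≤ 1) :
    θ * c1 / 4 * (η * s * (n : ℝ) ^ d) ≤ cnt e E η ∧ (cnt e E η : ℝ) ≤ 4 * (C0 + 1) * (η * s * (n : ℝ) ^ d) ∧
      Few φ e η v L (Wd e E η) (cnt e E η) := by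
  have hv1 : v ≤ 1 := hv4.trans (by norm_num)
  obtain ⟨N, hN⟩ : ∃ N, N = (n : ℝ) ^ d := ⟨_, rfl⟩
  have hn0 : (0 : ℝ) < n := by exact_mod_cast Nat.pos_of_ne_zero (NeZero.ne n)
  have hN0 : 0 < N := by rw [hN]; positivity
  have hv24 : v ^ 24 ≤ v := by
    have := pow_le_pow_of_le_one hv.le hv1 (show 1 ≤ 24 by norm_num); rwa [pow_one] at this
  have hCv : C' * v ^ 24 ≤ C' * v := mul_le_mul_of_nonneg_left hv24 hC'
  have a1 := count_low lInv lWard h (E := E) (η := η) (θ := θ) (g := C0 * s) (g' := c1 * s) hη hθ hθ1 hg hg'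
  have a2 := count_up h (E := E) (η := η) (g := C0 * s) hη hg
  rw [← hN] at a1 a2 H1 H2
  have hNs : 0 < N * s := by positivity
  have H1' : η * HT E η V ≤ N * s * (C' * v) := H1.trans (mul_le_mul_of_nonneg_left hCv hNs.le)
  have H2' : θ * η * HT E (θ * η) V ≤ N * s * (C' * v) := H2.trans (mul_le_mul_of_nonneg_left hCv hNs.le)
  have low : θ * c1 / 4 * (η * s * N) ≤ cnt e E η := by
    refine le_trans ?_ a1
    have b1 : c1 / 4 * (N * s) ≤ 1 / 2 * (N * (c1 * s)) - θ * η * HT E (θ * η) V -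
        2 * θ * (2 * (N * (C0 * s)) + 2 * η * HT E η V) := by
      have b2 : 2 * θ * (2 * η * HT E η V) ≤ 4 * (N * s * (C' * v)) := by
        have : 0 ≤ η * HT E η V := mul_nonneg hη.le (HT_nonneg _ _ _)
        calc 2 * θ * (2 * η * HT E η V) = 4 * (θ * (η * HT E η V)) := by ring
          _ ≤ 4 * (1 * (η * HT E η V)) := by
              refine mul_le_mul_of_nonneg_left (mul_le_mul_of_nonneg_right hθ1 this) (by norm_num)
          _ ≤ _ := by rw [one_mul]; exact mul_le_mul_of_nonneg_left H1' (by norm_num)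
      have b3 : N * s * (40 * C' * v) ≤ N * s * c1 := mul_le_mul_of_nonneg_left K2 hNs.le
      have b4 : N * s * (32 * θ * C0) ≤ N * s * c1 := mul_le_mul_of_nonneg_left K1 hNs.le
      nlinarith
    calc θ * c1 / 4 * (η * s * N) = θ * η * (c1 / 4 * (N * s)) := by ring
      _ ≤ _ := mul_le_mul_of_nonneg_left b1 (by positivity)
  have up : (cnt e E η : ℝ) ≤ 4 * (C0 + 1) * (η * s * N) := by
    refine a2.trans ?_
    have b1 : N * (C0 * s) + η * HT E η V ≤ (C0 + 1) * (s * N) := by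
      have : N * s * (C' * v) ≤ N * s * 1 := mul_le_mul_of_nonneg_left K4 hNs.le
      nlinarith
    calc 4 * η * (N * (C0 * s) + η * HT E η V) ≤ 4 * η * ((C0 + 1) * (s * N)) :=
          mul_le_mul_of_nonneg_left b1 (by positivity)
      _ = _ := by ring
  rw [← hN]
  refine ⟨low, up, ?_⟩
  -- the exceptions
  have hc : η * s * N ≤ 4 / (θ * c1) * cnt e E η := by
    have := mul_le_mul_of_nonneg_left low (by positivity : 0 ≤ 4 / (θ * c1))
    refine le_trans (le_of_eq ?_) this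
    field_simp
  have hX : η ^ 2 * HT E η V ≤ C' * v ^ 24 * (η * s * N) := by
    calc η ^ 2 * HT E η V = η * (η * HT E η V) := by ring
      _ ≤ η * (N * s * (C' * v ^ 24)) := mul_le_mul_of_nonneg_left H1 hη.le
      _ = _ := by ring
  obtain ⟨w1, w2⟩ := win h (E := E) (η := η) (s := s) (v := v) (C0 := C0) (X := C' * v ^ 24 * (η * s * N))
    hL hn hη hv hv1 hs.le hC0.le hv2 havg hIn hIn0 hLη hL2 hX
  have hcnt : (0 : ℝ) ≤ cnt e E η := Nat.cast_nonneg _
  have hηsN : 0 ≤ η * s * N := by positivity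
  have key : (128 * C0 + 72 * C') * v ^ 16 * (η * s * N) ≤ v ^ 4 * (v ^ 4 * cnt e E η) := by
    have c1' : (128 * C0 + 72 * C') * v ^ 16 * (η * s * N) ≤
        (128 * C0 + 72 * C') * v ^ 16 * (4 / (θ * c1) * cnt e E η) :=
      mul_le_mul_of_nonneg_left hc (by positivity)
    have c2 : v ^ 16 = v ^ 8 * (v * v ^ 7) := by ring
    have c3 : v * v ^ 7 ≤ v := mul_le_of_le_one_right hv.le (pow_le_one₀ hv.le hv1)
    have c4 : (128 * C0 + 72 * C') * (4 / (θ * c1)) * (v * v ^ 7) ≤ 1 :=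
      le_trans (mul_le_mul_of_nonneg_left c3 (by positivity)) K3
    have c5 : v ^ 8 * cnt e E η * ((128 * C0 + 72 * C') * (4 / (θ * c1)) * (v * v ^ 7)) ≤ v ^ 8 * cnt e E η * 1 :=
      mul_le_mul_of_nonneg_left c4 (by positivity)
    calc _ ≤ (128 * C0 + 72 * C') * v ^ 16 * (4 / (θ * c1) * cnt e E η) := c1'
      _ = v ^ 8 * cnt e E η * ((128 * C0 + 72 * C') * (4 / (θ * c1)) * (v * v ^ 7)) := by rw [c2]; ring
      _ ≤ v ^ 8 * cnt e E η * 1 := c5
      _ = _ := by ring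
  have k24 : C' * v ^ 24 * (η * s * N) ≤ C' * v ^ 16 * (η * s * N) := by
    refine mul_le_mul_of_nonneg_right (mul_le_mul_of_nonneg_left ?_ hC') hηsN
    exact pow_le_pow_of_le_one hv.le hv1 (by norm_num)
  have hv16 : 0 ≤ C' * v ^ 16 * (η * s * N) := by positivity
  have hv16' : 0 ≤ C0 * v ^ 16 * (η * s * N) := by positivity
  refine few_of h.norm_one hd (Wd e E η) L hv hv4 hcnt (fun i => ?_) ?_
  · have := w1 i
    rw [← hN] at this
    refine le_of_mul_le_mul_left ?_ (by positivity : 0 < v ^ 4)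
    refine le_trans ?_ key
    refine le_trans (le_trans (le_of_eq ?_) this) ?_
    · congr 3
    · have e9 : 128 * C0 * v ^ 16 * (N * η * s) = 128 * (C0 * v ^ 16 * (η * s * N)) := by ring
      rw [e9]; nlinarith
  · refine le_of_mul_le_mul_left ?_ (by positivity : 0 < v ^ 4)
    refine le_trans ?_ key
    refine le_trans (le_trans (le_of_eq ?_) w2) ?_
    · congr 3
    · nlinarith

/-- the net of the energies covers `[-R, R]` -/
theorem net_cov {R η x : ℝ} (hη : 0 < η) (hx : |x| ≤ R) {m : ℕ} (hm : R / η + 1 / 2 ≤ m) :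
    ∃ k ∈ Finset.range (m + 1), |x - (-R + 2 * η * k)| ≤ η := by
  obtain ⟨h1, h2⟩ := abs_le.1 hx
  have hy : 0 ≤ (x + R) / (2 * η) := div_nonneg (by linarith) (by positivity)
  refine ⟨⌊(x + R) / (2 * η) + 1 / 2⌋₊, ?_, ?_⟩
  · rw [Finset.mem_range, Nat.lt_succ_iff]
    refine Nat.floor_le_of_le ?_
    have : (x + R) / (2 * η) ≤ R / η := by
      rw [div_le_div_iff₀ (by positivity) hη]; nlinarith
    linarith
  · have f1 := Nat.floor_le (show 0 ≤ (x + R) / (2 * η) + 1 / 2 by linarith)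
    have f2 := Nat.lt_floor_add_one ((x + R) / (2 * η) + 1 / 2)
    obtain ⟨k, hk⟩ : ∃ k : ℝ, k = (⌊(x + R) / (2 * η) + 1 / 2⌋₊ : ℝ) := ⟨_, rfl⟩
    rw [← hk] at f1 f2 ⊢
    have f3 : (x + R) / (2 * η) * (2 * η) = x + R := by field_simp
    rw [abs_le]
    have f4 := mul_le_mul_of_nonneg_right f1 (by positivity : 0 ≤ 2 * η)
    have f5 := mul_le_mul_of_nonneg_right f2.le (by positivity : 0 ≤ 2 * η)
    constructor
    · nlinarith
    · nlinarith

theorem card_net (h : EB V φ e) {η R : ℝ} (hη : 0 < η) {m : ℕ} (hm : R / η + 1 / 2 ≤ m) (P : Tor d n → Prop)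
    [DecidablePred P] :
    ((Finset.univ.filter P).card : ℝ) ≤ ((Finset.univ.filter fun j => R < |e j|).card : ℝ) +
      ∑ k ∈ Finset.range (m + 1), (((Wd e (-R + 2 * η * k) η).filter P).card : ℝ) := by
  have h1 : Finset.univ.filter P ⊆ (Finset.univ.filter fun j => R < |e j|) ∪
      (Finset.range (m + 1)).biUnion fun k => (Wd e (-R + 2 * η * k) η).filter P := by
    intro j hj
    rw [Finset.mem_filter] at hj
    rw [Finset.mem_union, Finset.mem_filter, Finset.mem_biUnion]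
    by_cases hR : R < |e j|
    · left; exact ⟨Finset.mem_univ _, hR⟩
    · right
      obtain ⟨k, hk, hk2⟩ := net_cov hη (not_lt.1 hR) hm
      refine ⟨k, hk, ?_⟩
      rw [Finset.mem_filter, Wd, Finset.mem_filter]
      exact ⟨⟨Finset.mem_univ _, hk2⟩, hj.2⟩
  have h2 := (Finset.card_le_card h1).trans (Finset.card_union_le _ _)
  have h3 := h2.trans (Nat.add_le_add_left Finset.card_biUnion_le _)
  exact_mod_cast h3

theorem partB (h : EB V φ e) (hd : 1 ≤ d) {η s v C0 C' CT M R : ℝ} {L m : ℕ} (hL : 1 ≤ L)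
    (hn : 8 * L ^ 2 + 8 ≤ n)
    (hη : 0 < η) (hv : 0 < v) (hv4 : v ≤ 1 / 4) (hs : 0 < s) (hC0 : 0 < C0) (hC' : 0 ≤ C') (hCT : 0 ≤ CT)
    (hv2 : 2400 * v ≤ 1)
    (havg : (n : ℝ)⁻¹ * ∑ j : ZMod n,
      ((v ^ 16) ^ 2 / (4 * Real.sin (2 * Real.pi * (j.val : ℝ) / n) ^ 2 + (v ^ 16) ^ 2)) ^ 2 ≤ 2 * v ^ 16)
    (hIn : In n (d - 1) η ≤ C0 * s) (hIn0 : 0 ≤ In n (d - 1) η) (hLη : L * η ≤ v ^ 64)
    (hL2 : 1 / (L : ℝ) ≤ 2 * v ^ 64)
    (hV : ∀ x, |V x| ≤ M) (hR : 0 < R) (hm : R / η + 1 / 2 ≤ m) (hm2 : ((m : ℝ) + 1) * η ≤ 4 * R)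
    (hRs : R * s * v ^ 4 ≤ 1) (htail : 4 * d + 2 * M ^ 2 ≤ CT * v ^ 8 * R ^ 2)
    (hX : ∑ k ∈ Finset.range (m + 1), η ^ 2 * HT (-R + 2 * η * k) η V ≤ 4 * C' * (n : ℝ) ^ d * v ^ 20)
    (hQ : (512 * C0 + 288 * C' + CT) * v ≤ 1) :
    Few φ e η v L Finset.univ ((n : ℝ) ^ d) := by
  classical
  have hv1 : v ≤ 1 := hv4.trans (by norm_num)
  obtain ⟨N, hN⟩ : ∃ N, N = (n : ℝ) ^ d := ⟨_, rfl⟩
  have hn0 : (0 : ℝ) < n := by exact_mod_cast Nat.pos_of_ne_zero (NeZero.ne n)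
  have hN0 : 0 < N := by rw [hN]; positivity
  have t1 := spec_tail (R := R) (by nlinarith [Nat.one_le_pow 2 L (by omega)]) h hV hR.le
  obtain ⟨T, hT⟩ : ∃ T : ℝ, T = ((Finset.univ.filter fun j => R < |e j|).card : ℝ) := ⟨_, rfl⟩
  have hT0 : 0 ≤ T := by rw [hT]; exact Nat.cast_nonneg _
  have t2 : T ≤ CT * v ^ 8 * N := by
    refine le_of_mul_le_mul_left ?_ (by positivity : 0 < R ^ 2)
    rw [hT]
    refine t1.trans ?_
    rw [← hN]
    calc N * (4 * d + 2 * M ^ 2) ≤ N * (CT * v ^ 8 * R ^ 2) := mul_le_mul_of_nonneg_left htail hN0.le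
      _ = _ := by ring
  have w := fun k : ℕ => win h (E := -R + 2 * η * k) (η := η) (s := s) (v := v) (C0 := C0)
    (X := η ^ 2 * HT (-R + 2 * η * k) η V) hL hn hη hv hv1 hs.le hC0.le hv2 havg hIn hIn0 hLη hL2 le_rfl
  rw [← hN] at hX
  have key : (512 * C0 + 288 * C' + CT) * v ^ 8 * N ≤ v ^ 4 * N := by
    have c2 : v ^ 8 = v ^ 4 * (v * v ^ 3) := by ring
    have c3 : v * v ^ 3 ≤ v := mul_le_of_le_one_right hv.le (pow_le_one₀ hv.le hv1)
    have c4 : (512 * C0 + 288 * C' + CT) * (v * v ^ 3) ≤ 1 :=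
      le_trans (mul_le_mul_of_nonneg_left c3 (by positivity)) hQ
    calc (512 * C0 + 288 * C' + CT) * v ^ 8 * N = v ^ 4 * N * ((512 * C0 + 288 * C' + CT) * (v * v ^ 3)) := by
          rw [c2]; ring
      _ ≤ v ^ 4 * N * 1 := mul_le_mul_of_nonneg_left c4 (by positivity)
      _ = _ := by ring
  have hv20 : v ^ 20 ≤ v ^ 12 := pow_le_pow_of_le_one hv.le hv1 (by norm_num)
  have hXN : 0 ≤ C' * N := by positivity
  have hX' : ∑ k ∈ Finset.range (m + 1), η ^ 2 * HT (-R + 2 * η * k) η V ≤ 4 * C' * N * v ^ 12 :=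
    hX.trans (mul_le_mul_of_nonneg_left hv20 (by positivity))
  rw [← hN]
  refine few_of h.norm_one hd Finset.univ L hv hv4 hN0.le (fun i => ?_) ?_
  · have c1 := card_net h (R := R) hη hm (fun j => ∃ b : ZMod n, v ^ 4 < sm (φ j) i b L)
    have c2 : v ^ 4 * ∑ k ∈ Finset.range (m + 1), (((Wd e (-R + 2 * η * k) η).filter
        fun j => ∃ b : ZMod n, v ^ 4 < sm (φ j) i b L).card : ℝ) ≤
        ∑ k ∈ Finset.range (m + 1), (128 * C0 * v ^ 16 * (N * η * s) + 72 * (η ^ 2 * HT (-R + 2 * η * k) η V)) := by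
      rw [Finset.mul_sum]
      refine Finset.sum_le_sum fun k _ => ?_
      have := (w k).1 i
      rw [← hN] at this
      refine le_trans (le_of_eq ?_) this
      congr 3
    rw [Finset.sum_add_distrib, Finset.sum_const, Finset.card_range, nsmul_eq_mul, ← Finset.mul_sum] at c2
    have c3 : ((m + 1 : ℕ) : ℝ) * (128 * C0 * v ^ 16 * (N * η * s)) ≤ 512 * C0 * N * v ^ 12 := by
      push_cast
      calc ((m : ℝ) + 1) * (128 * C0 * v ^ 16 * (N * η * s)) = 128 * C0 * v ^ 16 * N * s * (((m : ℝ) + 1) * η) := by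
            ring
        _ ≤ 128 * C0 * v ^ 16 * N * s * (4 * R) := mul_le_mul_of_nonneg_left hm2 (by positivity)
        _ = 512 * C0 * N * v ^ 12 * (R * s * v ^ 4) := by ring
        _ ≤ 512 * C0 * N * v ^ 12 * 1 := mul_le_mul_of_nonneg_left hRs (by positivity)
        _ = _ := by ring
    have c4 : ∑ k ∈ Finset.range (m + 1), (((Wd e (-R + 2 * η * k) η).filter
        fun j => ∃ b : ZMod n, v ^ 4 < sm (φ j) i b L).card : ℝ) ≤ (512 * C0 + 288 * C') * v ^ 8 * N := by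
      refine le_of_mul_le_mul_left ?_ (by positivity : 0 < v ^ 4)
      refine c2.trans ?_
      calc _ ≤ 512 * C0 * N * v ^ 12 + 72 * (4 * C' * N * v ^ 12) :=
            add_le_add c3 (mul_le_mul_of_nonneg_left hX' (by norm_num))
        _ = _ := by ring
    refine le_trans ?_ key
    refine le_trans c1 ?_
    rw [← hT]; linarith
  · have c1 := card_net h (R := R) hη hm (fun j => v ^ 4 < om (φ j) (e j) η)
    have c2 : v ^ 4 * ∑ k ∈ Finset.range (m + 1), (((Wd e (-R + 2 * η * k) η).filter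
        fun j => v ^ 4 < om (φ j) (e j) η).card : ℝ) ≤
        ∑ k ∈ Finset.range (m + 1), 8 * (η ^ 2 * HT (-R + 2 * η * k) η V) := by
      rw [Finset.mul_sum]
      refine Finset.sum_le_sum fun k _ => ?_
      have := (w k).2
      refine le_trans (le_of_eq ?_) this
      congr 3
    rw [← Finset.mul_sum] at c2
    have c4 : ∑ k ∈ Finset.range (m + 1), (((Wd e (-R + 2 * η * k) η).filter
        fun j => v ^ 4 < om (φ j) (e j) η).card : ℝ) ≤ (32 * C') * v ^ 8 * N := by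
      refine le_of_mul_le_mul_left ?_ (by positivity : 0 < v ^ 4)
      refine c2.trans ?_
      calc _ ≤ 8 * (4 * C' * N * v ^ 12) := mul_le_mul_of_nonneg_left hX' (by norm_num)
        _ = _ := by ring
    refine le_trans ?_ key
    refine le_trans c1 ?_
    rw [← hT]
    have : 0 ≤ v ^ 8 * N := by positivity
    have h1 : 0 ≤ C0 * (v ^ 8 * N) := by positivity
    have h2 : 0 ≤ C' * (v ^ 8 * N) := by positivity
    linarith

end

end Pool.Agent.Q218.HB
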