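import Pool.Agent.Q218.HB.Fin5

/-! The main theorem. -/

set_option autoImplicit false
set_option linter.unusedSectionVars false
set_option linter.unusedVariables false

open MeasureTheory

namespace Pool.Agent.Q218.HB

/-- the event of the whole spectrum -/
theorem probB {C0 C1 C' CM m ε : ℝ} (hC0 : 0 < C0) (hC1 : 0 ≤ C1) (hC' : C1 ≤ C') (hC'0 : 0 < C') (hCM : 0 ≤ CM)
    (hm : 0 ≤ m) (hε : 0 < ε) (hmε : 2 * m + 3 * ε ≤ 1 / 2) {d n : ℕ} [NeZero n] (hd : 1 ≤ d)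
    {η s v : ℝ} {L : ℕ} (hηd : η = (d : ℝ) ^ (-(1 / 2 - 2 * m - ε))) (hsd : s = (d : ℝ) ^ (-(1 / 2 : ℝ)))
    (hvd : v = (d : ℝ) ^ (-(ε / 64))) (hLd : L = ⌊(d : ℝ) ^ (1 / 2 - 2 * m - 2 * ε)⌋₊)
    (hn : 8 * L ^ 2 + 8 ≤ n) (hv4 : v ≤ 1 / 4) (hv2 : 2400 * v ≤ 1)
    (havg : (n : ℝ)⁻¹ * ∑ j : ZMod n,
      ((v ^ 16) ^ 2 / (4 * Real.sin (2 * Real.pi * (j.val : ℝ) / n) ^ 2 + (v ^ 16) ^ 2)) ^ 2 ≤ 2 * v ^ 16)
    (hIn : In n (d - 1) η ≤ C0 * s) (hQ : (512 * C0 + 288 * C' + (4 + 2 * CM ^ 2)) * v ≤ 1)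
    (ν : Measure ℝ) [IsProbabilityMeasure ν]
    (hν : ν (Set.Icc (-(CM * (d : ℝ) ^ m)) (CM * (d : ℝ) ^ m))ᶜ = 0)
    (hHT : ∀ E : ℝ, ∫ V, HT E η V ∂(iid (Tor d n) ν) ≤
      C1 * (n : ℝ) ^ d * (d : ℝ) ^ (-(1 - 2 * (1 / 2 - 2 * m - ε) - 2 * m - ε / 2))) :
    iid (Tor d n) ν {V | ¬ GB η v L V} ≤ ENNReal.ofReal v := by
  haveI := iid_prob (Tor d n) ν
  obtain ⟨hη, hη1, hs, hv, hv1, hL, hLη, hL2, hsη, hηs, hsd1, -⟩ := par_facts m ε hm hε hmε d hd hηd hsd hvd hLd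
  have hd1 : (1 : ℝ) ≤ d := by exact_mod_cast hd
  have hd0 : (0 : ℝ) < d := by linarith
  have hn0 : (0 : ℝ) < n := by exact_mod_cast Nat.pos_of_ne_zero (NeZero.ne n)
  obtain ⟨N, hN⟩ : ∃ N, N = (n : ℝ) ^ d := ⟨_, rfl⟩
  have hN0 : 0 < N := by rw [hN]; positivity
  obtain ⟨R, hR⟩ : ∃ R, R = Real.sqrt d / v ^ 4 := ⟨_, rfl⟩
  have hsq1 : 1 ≤ Real.sqrt d := Real.one_le_sqrt.2 hd1
  have hR1 : 1 ≤ R := by
    rw [hR, one_le_div (by positivity)]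
    exact (pow_le_one₀ hv.le hv1).trans hsq1
  have hR0 : 0 < R := by linarith
  have hRs : R * s * v ^ 4 = 1 := by
    rw [hR]
    calc Real.sqrt d / v ^ 4 * s * v ^ 4 = (s * Real.sqrt d) * (v ^ 4 / v ^ 4) := by ring
      _ = 1 := by rw [hsd1, div_self (by positivity), one_mul]
  obtain ⟨k0, hk0⟩ : ∃ k0 : ℕ, k0 = ⌈R / η + 1 / 2⌉₊ := ⟨_, rfl⟩
  have hm1 : R / η + 1 / 2 ≤ (k0 : ℝ) := by rw [hk0]; exact Nat.le_ceil _
  have hm2 : ((k0 : ℝ) + 1) * η ≤ 4 * R := by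
    have h1 : (k0 : ℝ) < R / η + 1 / 2 + 1 := by rw [hk0]; exact Nat.ceil_lt_add_one (by positivity)
    have h2 : ((k0 : ℝ) + 1) * η ≤ (R / η + 5 / 2) * η := mul_le_mul_of_nonneg_right (by linarith) hη.le
    have h3 : (R / η + 5 / 2) * η = R + 5 / 2 * η := by field_simp
    rw [h3] at h2
    linarith
  have hX : (0 : ℝ) < 4 * C' * N * v ^ 20 := by positivity
  have hcb : CB fun V : Tor d n → ℝ => ∑ k : Fin (k0 + 1), η ^ 2 * HT (-R + 2 * η * (k.val : ℝ)) η V :=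
    CB.sum fun k => CB.cmul (by positivity) (HT_cb _ _ hη)
  have hsum : ∀ V : Tor d n → ℝ, ∑ k : Fin (k0 + 1), η ^ 2 * HT (-R + 2 * η * (k.val : ℝ)) η V =
      ∑ k ∈ Finset.range (k0 + 1), η ^ 2 * HT (-R + 2 * η * k) η V := fun V =>
    (Finset.sum_range fun k : ℕ => η ^ 2 * HT (-R + 2 * η * k) η V).symm
  have hint : ∫ V, ∑ k : Fin (k0 + 1), η ^ 2 * HT (-R + 2 * η * (k.val : ℝ)) η V ∂(iid (Tor d n) ν) ≤
      v ^ 8 * (4 * C' * N * v ^ 20) := by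
    rw [integral_finsetSum _ fun k _ => ((HT_cb _ _ hη).int ν).const_mul _]
    have h1 : ∀ k : Fin (k0 + 1), ∫ V, η ^ 2 * HT (-R + 2 * η * (k.val : ℝ)) η V ∂(iid (Tor d n) ν) ≤
        η * (C1 * N * (s * v ^ 32)) := fun k => by
      rw [integral_const_mul]
      calc η ^ 2 * ∫ V, HT (-R + 2 * η * (k.val : ℝ)) η V ∂(iid (Tor d n) ν) ≤
          η ^ 2 * (C1 * (n : ℝ) ^ d * (d : ℝ) ^ (-(1 - 2 * (1 / 2 - 2 * m - ε) - 2 * m - ε / 2))) :=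
            mul_le_mul_of_nonneg_left (hHT _) (by positivity)
        _ = η * (C1 * N * (η * (d : ℝ) ^ (-(1 - 2 * (1 / 2 - 2 * m - ε) - 2 * m - ε / 2)))) := by rw [hN]; ring
        _ = _ := by rw [hηs]
    refine (Finset.sum_le_sum fun k _ => h1 k).trans ?_
    rw [Finset.sum_const, Finset.card_univ, Fintype.card_fin, nsmul_eq_mul]
    push_cast
    calc ((k0 : ℝ) + 1) * (η * (C1 * N * (s * v ^ 32))) = (((k0 : ℝ) + 1) * η) * (C1 * N * (s * v ^ 32)) := by ring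
      _ ≤ (4 * R) * (C1 * N * (s * v ^ 32)) := mul_le_mul_of_nonneg_right hm2 (by positivity)
      _ = 4 * C1 * N * v ^ 28 * (R * s * v ^ 4) := by ring
      _ = 4 * C1 * N * v ^ 28 := by rw [hRs, mul_one]
      _ ≤ 4 * C' * N * v ^ 28 := by gcongr
      _ = _ := by ring
  have hmk := markov ν hcb hX hint
  have hae := ae_le (Λ := Tor d n) ν (CM * (d : ℝ) ^ m) hν
  rw [ae_iff] at hae
  have hsub : {V : Tor d n → ℝ | ¬ GB η v L V} ⊆ {V | ¬ ∀ x, |V x| ≤ CM * (d : ℝ) ^ m} ∪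
      {V | 4 * C' * N * v ^ 20 ≤ ∑ k : Fin (k0 + 1), η ^ 2 * HT (-R + 2 * η * (k.val : ℝ)) η V} := by
    intro V hV
    by_contra hc
    rw [Set.mem_union, not_or] at hc
    obtain ⟨hc1, hc2⟩ := hc
    have hc1' : ∀ x, |V x| ≤ CM * (d : ℝ) ^ m := by
      by_contra h0; exact hc1 h0
    have hc2' : ∑ k : Fin (k0 + 1), η ^ 2 * HT (-R + 2 * η * (k.val : ℝ)) η V < 4 * C' * N * v ^ 20 :=
      not_le.1 hc2
    rw [hsum V, hN] at hc2'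
    refine hV fun φ e h => ?_
    refine partB h hd (C' := C') (CT := 4 + 2 * CM ^ 2) (M := CM * (d : ℝ) ^ m) (R := R) (m := k0) hL hn hη hv hv4
      hs hC0 hC'0.le (by positivity) hv2 havg hIn (In_nn _ _ _) hLη hL2 hc1' hR0 hm1 hm2 hRs.le ?_ hc2'.le hQ
    have h1 : v ^ 8 * R ^ 2 = d := by
      rw [hR, div_pow, Real.sq_sqrt hd0.le]
      field_simp
    have h2 : (d : ℝ) ^ m * (d : ℝ) ^ m ≤ d := by
      rw [← Real.rpow_add hd0]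
      calc (d : ℝ) ^ (m + m) ≤ (d : ℝ) ^ (1 : ℝ) := Real.rpow_le_rpow_of_exponent_le hd1 (by linarith)
        _ = d := Real.rpow_one _
    calc 4 * (d : ℝ) + 2 * (CM * (d : ℝ) ^ m) ^ 2 = 4 * (d : ℝ) + 2 * CM ^ 2 * ((d : ℝ) ^ m * (d : ℝ) ^ m) := by ring
      _ ≤ 4 * (d : ℝ) + 2 * CM ^ 2 * d := by
          have := mul_le_mul_of_nonneg_left h2 (by positivity : 0 ≤ 2 * CM ^ 2); linarith
      _ = (4 + 2 * CM ^ 2) * (v ^ 8 * R ^ 2) := by rw [h1]; ring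
      _ = _ := by ring
  calc iid (Tor d n) ν {V | ¬ GB η v L V} ≤ _ := measure_mono hsub
    _ ≤ iid (Tor d n) ν {V | ¬ ∀ x, |V x| ≤ CM * (d : ℝ) ^ m} + _ := measure_union_le _ _
    _ ≤ 0 + ENNReal.ofReal (v ^ 8) := add_le_add hae.le hmk
    _ ≤ ENNReal.ofReal v := by
        rw [zero_add]
        refine ENNReal.ofReal_le_ofReal ?_
        have := pow_le_pow_of_le_one hv.le hv1 (show 1 ≤ 8 by norm_num); rwa [pow_one] at this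

/-- the event of a window -/
theorem probA {C0 C1 C2 C' c1 θ c m ε : ℝ} (hC0 : 0 < C0) (hC1 : 0 ≤ C1) (hC2 : 0 ≤ C2) (hC1' : C1 ≤ C')
    (hC2' : C2 ≤ C') (hC'0 : 0 < C') (hc1 : 0 < c1) (hθ : 0 < θ) (hθ1 : θ ≤ 1) (hc : 0 < c)
    (hcl : c ≤ θ * c1 / 4) (hcu : c * (4 * (C0 + 1)) ≤ 1)
    (hm : 0 ≤ m) (hε : 0 < ε) (hmε : 2 * m + 3 * ε ≤ 1 / 2) {d n : ℕ} [NeZero n] (hd : 1 ≤ d)
    {η s v : ℝ} {L : ℕ} (hηd : η = (d : ℝ) ^ (-(1 / 2 - 2 * m - ε))) (hsd : s = (d : ℝ) ^ (-(1 / 2 : ℝ)))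
    (hvd : v = (d : ℝ) ^ (-(ε / 64))) (hLd : L = ⌊(d : ℝ) ^ (1 / 2 - 2 * m - 2 * ε)⌋₊)
    (hn : 8 * L ^ 2 + 8 ≤ n) (hv4 : v ≤ 1 / 4) (hv2 : 2400 * v ≤ 1)
    (havg : (n : ℝ)⁻¹ * ∑ j : ZMod n,
      ((v ^ 16) ^ 2 / (4 * Real.sin (2 * Real.pi * (j.val : ℝ) / n) ^ 2 + (v ^ 16) ^ 2)) ^ 2 ≤ 2 * v ^ 16)
    (hIn : In n (d - 1) η ≤ C0 * s) (hIn2 : In n d η ≤ C0 * s) {E : ℝ}
    (hlow : ∀ x : Tor d n, c1 * s ≤ (G hop (fun _ => 0) (pt E (θ * η)) x x).im)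
    (K1 : 32 * θ * C0 ≤ c1) (K2 : 40 * C' * v ≤ c1) (K4 : C' * v ≤ 1)
    (K3 : (128 * C0 + 72 * C') * (4 / (θ * c1)) * v ≤ 1)
    (ν : Measure ℝ) [IsProbabilityMeasure ν]
    (hHT : ∫ V, HT E η V ∂(iid (Tor d n) ν) ≤
      C1 * (n : ℝ) ^ d * (d : ℝ) ^ (-(1 - 2 * (1 / 2 - 2 * m - ε) - 2 * m - ε / 2)))
    (hHT2 : ∫ V, HT E (θ * η) V ∂(iid (Tor d n) ν) ≤
      C2 * (n : ℝ) ^ d * (d : ℝ) ^ (-(1 - 2 * (1 / 2 - 2 * m - ε) - 2 * m - ε / 2))) :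
    iid (Tor d n) ν {V | ¬ GA c η v L E V} ≤ ENNReal.ofReal v := by
  haveI := iid_prob (Tor d n) ν
  obtain ⟨hη, hη1, hs, hv, hv1, hL, hLη, hL2, hsη, hηs, hsd1, -⟩ := par_facts m ε hm hε hmε d hd hηd hsd hvd hLd
  have hn0 : (0 : ℝ) < n := by exact_mod_cast Nat.pos_of_ne_zero (NeZero.ne n)
  obtain ⟨N, hN⟩ : ∃ N, N = (n : ℝ) ^ d := ⟨_, rfl⟩
  have hN0 : 0 < N := by rw [hN]; positivity
  have hθη : 0 < θ * η := by positivity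
  obtain ⟨t, ht⟩ : ∃ t, t = N * s * (C' * v ^ 24) / η := ⟨_, rfl⟩
  have ht0 : 0 < t := by rw [ht]; positivity
  have hint : ∀ (Cj a : ℝ), 0 ≤ Cj → Cj ≤ C' → a ≤ Cj * (n : ℝ) ^ d *
      (d : ℝ) ^ (-(1 - 2 * (1 / 2 - 2 * m - ε) - 2 * m - ε / 2)) → a ≤ v ^ 8 * t := by
    intro Cj a h0 h1 h2
    refine h2.trans ?_
    have h3 : (d : ℝ) ^ (-(1 - 2 * (1 / 2 - 2 * m - ε) - 2 * m - ε / 2)) = s * v ^ 32 / η := by
      rw [← hηs]; field_simp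
    rw [h3, ht, ← hN]
    calc Cj * N * (s * v ^ 32 / η) ≤ C' * N * (s * v ^ 32 / η) := by gcongr
      _ = _ := by ring
  have m1 := markov ν (HT_cb E η hη) ht0 (hint C1 _ hC1 hC1' hHT)
  have m2 := markov ν (HT_cb E (θ * η) hθη) ht0 (hint C2 _ hC2 hC2' hHT2)
  have hg : ∀ x : Tor d n, (G hop (fun _ => 0) (pt E η) x x).im ≤ C0 * s := fun x =>
    ((Complex.im_le_norm _).trans (lGze lFou d n E η hη x)).trans hIn2
  have hsub : {V : Tor d n → ℝ | ¬ GA c η v L E V} ⊆ {V | t ≤ HT E η V} ∪ {V | t ≤ HT E (θ * η) V} := by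
    intro V hV
    by_contra hcc
    rw [Set.mem_union, not_or] at hcc
    have h1 : HT E η V < t := not_le.1 hcc.1
    have h2 : HT E (θ * η) V < t := not_le.1 hcc.2
    refine hV fun φ e h => ?_
    have H1 : η * HT E η V ≤ (n : ℝ) ^ d * s * (C' * v ^ 24) := by
      calc η * HT E η V ≤ η * t := mul_le_mul_of_nonneg_left h1.le hη.le
        _ = _ := by rw [ht, ← hN]; field_simp
    have H2 : θ * η * HT E (θ * η) V ≤ (n : ℝ) ^ d * s * (C' * v ^ 24) := by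
      calc θ * η * HT E (θ * η) V ≤ 1 * η * t := by
            have := HT_nonneg E (θ * η) V
            refine mul_le_mul (mul_le_mul_of_nonneg_right hθ1 hη.le) h2.le this (by positivity)
        _ = _ := by rw [ht, ← hN]; field_simp
    obtain ⟨r1, r2, r3⟩ := partA h hd hL hn hη hv hv4 hs hC0 hC'0.le hc1 hθ hθ1 hv2 havg hIn (In_nn _ _ _) hLη hL2
      hg hlow H1 H2 K1 K2 K4 K3
    have hp : 0 ≤ η * s * (n : ℝ) ^ d := by positivity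
    refine ⟨?_, ?_, r3⟩
    · rw [← hsd]
      exact (mul_le_mul_of_nonneg_right hcl hp).trans r1
    · rw [← hsd]
      calc c * ((Wd e E η).card : ℝ) ≤ c * (4 * (C0 + 1) * (η * s * (n : ℝ) ^ d)) :=
            mul_le_mul_of_nonneg_left r2 hc.le
        _ = c * (4 * (C0 + 1)) * (η * s * (n : ℝ) ^ d) := by ring
        _ ≤ 1 * (η * s * (n : ℝ) ^ d) := mul_le_mul_of_nonneg_right hcu hp
        _ = _ := one_mul _
  calc iid (Tor d n) ν {V | ¬ GA c η v L E V} ≤ _ := measure_mono hsub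
    _ ≤ _ := measure_union_le _ _
    _ ≤ ENNReal.ofReal (v ^ 8) + ENNReal.ofReal (v ^ 8) := add_le_add m1 m2
    _ = ENNReal.ofReal (v ^ 8 + v ^ 8) := (ENNReal.ofReal_add (by positivity) (by positivity)).symm
    _ ≤ ENNReal.ofReal v := by
        refine ENNReal.ofReal_le_ofReal ?_
        have h2 := pow_le_pow_of_le_one hv.le hv1 (show 2 ≤ 8 by norm_num)
        nlinarith

end Pool.Agent.Q218.HB
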