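import Pool.Agent.Q218.HB.Fin6

/-! The main theorem. -/

set_option autoImplicit false
set_option linter.unusedSectionVars false
set_option linter.unusedVariables false

open MeasureTheory

namespace Pool.Agent.Q218.HB

theorem main (κ : ℝ) (hκ : 0 < κ) : ∃ c : ℝ, 0 < c ∧ ∀ m ε CM : ℝ, 0 ≤ m → 0 < ε → 2 * m + 3 * ε ≤ 1 / 2 →
    0 ≤ CM → ∃ d0 : ℕ, 1 ≤ d0 ∧ ∀ d : ℕ, d0 ≤ d → ∃ n0 : ℕ, ∀ (n : ℕ) [NeZero n], n0 ≤ n →
    ∀ (ν : Measure ℝ) [IsProbabilityMeasure ν], ν (Set.Icc (-(CM * (d : ℝ) ^ m)) (CM * (d : ℝ) ^ m))ᶜ = 0 →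
      ∫ t, t ∂ν = 0 →
      iid (Tor d n) ν {V | ¬ GB ((d : ℝ) ^ (-(1 / 2 - 2 * m - ε))) ((d : ℝ) ^ (-(ε / 64)))
        ⌊(d : ℝ) ^ (1 / 2 - 2 * m - 2 * ε)⌋₊ V} ≤ ENNReal.ofReal ((d : ℝ) ^ (-(ε / 64))) ∧
      ∀ E : ℝ, |E| ≤ κ * Real.sqrt d →
        iid (Tor d n) ν {V | ¬ GA c ((d : ℝ) ^ (-(1 / 2 - 2 * m - ε))) ((d : ℝ) ^ (-(ε / 64)))
          ⌊(d : ℝ) ^ (1 / 2 - 2 * m - 2 * ε)⌋₊ E V} ≤ ENNReal.ofReal ((d : ℝ) ^ (-(ε / 64))) := by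
  obtain ⟨C0, hC0, hfre⟩ := lFre
  obtain ⟨cκ, dκ, hcκ, hlow⟩ := lLow κ hκ
  obtain ⟨c1, hc1d⟩ : ∃ c1, c1 = cκ / 2 := ⟨_, rfl⟩
  have hc1 : 0 < c1 := by rw [hc1d]; positivity
  obtain ⟨θ, hθd⟩ : ∃ θ, θ = min 1 (c1 / (32 * C0)) := ⟨_, rfl⟩
  have hθ : 0 < θ := by rw [hθd]; exact lt_min one_pos (by positivity)
  have hθ1 : θ ≤ 1 := by rw [hθd]; exact min_le_left _ _
  have K1 : 32 * θ * C0 ≤ c1 := by
    have : θ ≤ c1 / (32 * C0) := by rw [hθd]; exact min_le_right _ _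
    rw [le_div_iff₀ (by positivity)] at this
    linarith
  refine ⟨min (θ * c1 / 4) (1 / (4 * (C0 + 1))), lt_min (by positivity) (by positivity), ?_⟩
  intro m ε CM hm hε hmε hCM
  obtain ⟨a, had⟩ : ∃ a, a = 1 / 2 - 2 * m - ε := ⟨_, rfl⟩
  have ha : 0 < a := by rw [had]; linarith
  obtain ⟨K, hKd⟩ : ∃ K, K = θ ^ (-(1 / a)) := ⟨_, rfl⟩
  have hK : 1 ≤ K := by
    rw [hKd]; exact Real.one_le_rpow_of_pos_of_le_one_of_nonpos hθ hθ1 (by rw [neg_nonpos]; positivity)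
  obtain ⟨C1, hC1, T1⟩ := torus_law lem lGze lFou lFre CM m a ε 1 hCM hm ha.le hε (by rw [had]; linarith) le_rfl
  obtain ⟨C2, hC2, T2⟩ := torus_law lem lGze lFou lFre CM m a ε K hCM hm ha.le hε (by rw [had]; linarith) hK
  obtain ⟨C', hC'd⟩ : ∃ C', C' = C1 + C2 + 1 := ⟨_, rfl⟩
  have hC'0 : 0 < C' := by rw [hC'd]; positivity
  obtain ⟨Q, hQd⟩ : ∃ Q : ℝ, Q = 2400 + 1 / θ + 40 * C' / c1 + C' + (128 * C0 + 72 * C') * (4 / (θ * c1)) +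
    (512 * C0 + 288 * C' + (4 + 2 * CM ^ 2)) := ⟨_, rfl⟩
  have p1 : 0 < 1 / θ := by positivity
  have p2 : 0 < 40 * C' / c1 := by positivity
  have p3 : 0 < (128 * C0 + 72 * C') * (4 / (θ * c1)) := by positivity
  have p4 : 0 < 512 * C0 + 288 * C' + (4 + 2 * CM ^ 2) := by positivity
  have hQ : 0 < Q := by rw [hQd]; positivity
  obtain ⟨D, hD⟩ := exists_small ε hε Q hQ
  refine ⟨max (max D dκ) (max 3 ⌈K⌉₊), le_trans (by norm_num) (le_max_of_le_right (le_max_left 3 _)), ?_⟩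
  intro d hd
  have hdD : D ≤ d := (le_max_left _ _).trans ((le_max_left _ _).trans hd)
  have hdκ : dκ ≤ d := (le_max_right _ _).trans ((le_max_left _ _).trans hd)
  have hd3 : 3 ≤ d := (le_max_left _ _).trans ((le_max_right _ _).trans hd)
  have hdK : K ≤ d := by
    have h1 : ⌈K⌉₊ ≤ d := (le_max_right _ _).trans ((le_max_right _ _).trans hd)
    exact (Nat.le_ceil K).trans (by exact_mod_cast h1)
  have hd1 : 1 ≤ d := by omega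
  have hd1' : (1 : ℝ) ≤ d := by exact_mod_cast hd1
  have hd0 : (0 : ℝ) < d := by linarith
  obtain ⟨η, hηd⟩ : ∃ η, η = (d : ℝ) ^ (-(1 / 2 - 2 * m - ε)) := ⟨_, rfl⟩
  obtain ⟨s, hsd⟩ : ∃ s, s = (d : ℝ) ^ (-(1 / 2 : ℝ)) := ⟨_, rfl⟩
  obtain ⟨v, hvd⟩ : ∃ v, v = (d : ℝ) ^ (-(ε / 64)) := ⟨_, rfl⟩
  obtain ⟨L, hLd⟩ : ∃ L, L = ⌊(d : ℝ) ^ (1 / 2 - 2 * m - 2 * ε)⌋₊ := ⟨_, rfl⟩
  have hηa : η = (d : ℝ) ^ (-a) := by rw [hηd, had]
  obtain ⟨hη, hη1, hs, hv, hv1, hL, hLη, hL2, hsη, hηs, hsd1, hsη2⟩ :=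
    par_facts m ε hm hε hmε d hd1 hηd hsd hvd hLd
  have hvQ : v * Q ≤ 1 := by rw [hvd]; exact hD d hdD
  have sub : ∀ x : ℝ, x ≤ Q → x * v ≤ 1 := fun x hx => by
    have := mul_le_mul_of_nonneg_left hx hv.le
    linarith
  have hv2 : 2400 * v ≤ 1 := sub _ (by rw [hQd]; linarith)
  have hv4 : v ≤ 1 / 4 := by linarith
  have hvθ : v ≤ θ := by
    have := sub (1 / θ) (by rw [hQd]; linarith)
    rw [one_div, inv_mul_le_iff₀ hθ] at this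
    linarith
  have K2 : 40 * C' * v ≤ c1 := by
    have := sub (40 * C' / c1) (by rw [hQd]; linarith)
    rw [div_mul_eq_mul_div, div_le_one hc1] at this
    exact this
  have K4 : C' * v ≤ 1 := sub _ (by rw [hQd]; linarith)
  have K3 : (128 * C0 + 72 * C') * (4 / (θ * c1)) * v ≤ 1 := sub _ (by rw [hQd]; linarith)
  have K5 : (512 * C0 + 288 * C' + (4 + 2 * CM ^ 2)) * v ≤ 1 := sub _ (by rw [hQd]; linarith)
  have hKη : (K * d) ^ (-a) = θ * η := by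
    rw [Real.mul_rpow (by linarith) hd0.le, hηa, hKd, ← Real.rpow_mul hθ.le]
    congr 1
    have : -(1 / a) * -a = 1 := by field_simp
    rw [this, Real.rpow_one]
  have h1η : (1 * (d : ℝ)) ^ (-a) = η := by rw [one_mul, hηa]
  obtain ⟨n1, hn1⟩ := T1 d hd3 hd1'
  obtain ⟨n2, hn2⟩ := T2 d hd3 hdK
  obtain ⟨n3, hn3⟩ := hfre 1 d le_rfl hd3 hd1'
  obtain ⟨n4, hn4⟩ := lAvg (v ^ 16) (by positivity) (pow_le_one₀ hv.le hv1)
  obtain ⟨n5, hn5⟩ := lLob d (θ * η) (c1 * s) (by positivity) (by positivity)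
  refine ⟨max (max n1 n2) (max (max n3 n4) (max n5 (8 * L ^ 2 + 8))), ?_⟩
  intro n _ hn ν _ hν hν0
  have g1 : n1 ≤ n := (le_max_left _ _).trans ((le_max_left _ _).trans hn)
  have g2 : n2 ≤ n := (le_max_right _ _).trans ((le_max_left _ _).trans hn)
  have g34 : max n3 n4 ≤ n := (le_max_left _ _).trans ((le_max_right _ _).trans hn)
  have g3 : n3 ≤ n := (le_max_left _ _).trans g34
  have g4 : n4 ≤ n := (le_max_right _ _).trans g34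
  have g56 : max n5 (8 * L ^ 2 + 8) ≤ n := (le_max_right _ _).trans ((le_max_right _ _).trans hn)
  have g5 : n5 ≤ n := (le_max_left _ _).trans g56
  have g6 : 8 * L ^ 2 + 8 ≤ n := (le_max_right _ _).trans g56
  have hI := hn3 n g3 η (by rw [one_mul]; exact hsη2)
  rw [← hsd] at hI
  have hHT1 : ∀ E : ℝ, ∫ V, HT E η V ∂(iid (Tor d n) ν) ≤
      C1 * (n : ℝ) ^ d * (d : ℝ) ^ (-(1 - 2 * (1 / 2 - 2 * m - ε) - 2 * m - ε / 2)) := fun E => by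
    have := hn1 n g1 E ν hν hν0
    rwa [h1η, had] at this
  have hHT2 : ∀ E : ℝ, ∫ V, HT E (θ * η) V ∂(iid (Tor d n) ν) ≤
      C2 * (n : ℝ) ^ d * (d : ℝ) ^ (-(1 - 2 * (1 / 2 - 2 * m - ε) - 2 * m - ε / 2)) := fun E => by
    have := hn2 n g2 E ν hν hν0
    rw [hKη] at this
    rwa [had] at this
  rw [← hηd, ← hvd, ← hLd]
  refine ⟨?_, fun E hE => ?_⟩
  · exact probB hC0 hC1 (by rw [hC'd]; linarith) hC'0 hCM hm hε hmε hd1 hηd hsd hvd hLd g6 hv4 hv2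
      (hn4 n g4) hI.2 K5 ν hν hHT1
  · have hsq : 0 < Real.sqrt d := Real.sqrt_pos.2 hd0
    have hs1 : s = 1 / Real.sqrt d := by rw [eq_div_iff hsq.ne']; exact hsd1
    have hlow1 := hlow d E (θ * η) hdκ hd1 hE (by
      rw [← hs1]
      refine hsη.trans ?_
      have h1 : v ^ 64 ≤ θ := by
        have := pow_le_pow_of_le_one hv.le hv1 (show 1 ≤ 64 by norm_num)
        rw [pow_one] at this; linarith
      calc η * v ^ 64 ≤ η * θ := mul_le_mul_of_nonneg_left h1 hη.le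
        _ = _ := mul_comm _ _) (by
      calc θ * η ≤ 1 * 1 := mul_le_mul hθ1 hη1 hη.le (by norm_num)
        _ = 1 := one_mul _)
    refine probA hC0 hC1 hC2 (by rw [hC'd]; linarith) (by rw [hC'd]; linarith) hC'0 hc1 hθ hθ1
      (lt_min (by positivity) (by positivity)) (min_le_left _ _) ?_ hm hε hmε hd1 hηd hsd hvd hLd g6 hv4 hv2
      (hn4 n g4) hI.2 hI.1 ?_ K1 K2 K4 K3 ν (hHT1 E) (hHT2 E)
    · calc min (θ * c1 / 4) (1 / (4 * (C0 + 1))) * (4 * (C0 + 1)) ≤ 1 / (4 * (C0 + 1)) * (4 * (C0 + 1)) :=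
            mul_le_mul_of_nonneg_right (min_le_right _ _) (by positivity)
        _ = 1 := by field_simp
    · intro x
      have h2 := hn5 n g5 E x
      have h3 : cκ / Real.sqrt d = 2 * (c1 * s) := by rw [hs1, hc1d]; ring
      rw [h3] at hlow1
      linarith

end Pool.Agent.Q218.HB
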