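import Pool.Agent.Q218.HB.Stm5

/-! Bessel families which satisfy the eigenvalue equation off a small set: windows of energies. -/

set_option autoImplicit false
set_option linter.unusedSectionVars false
set_option linter.unusedVariables false

open MeasureTheory

namespace Pool.Agent.Q218.HB

section

variable {d n : ℕ} [NeZero n] {J : Type} [Fintype J] {u : J → Tor d n → ℂ} {e : J → ℝ}

/-- matrices and Bessel's inequality -/
theorem Bes.hs (h : Bes u) (A : Matrix (Tor d n) (Tor d n) ℂ) (s : Finset J) :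
    ∑ j ∈ s, ∑ x, ‖∑ y, A x y * u j y‖ ^ 2 ≤ ∑ x, ∑ y, ‖A x y‖ ^ 2 := by
  rw [Finset.sum_comm]
  refine Finset.sum_le_sum fun x _ => ?_
  refine (Finset.sum_le_sum_of_subset_of_nonneg (Finset.subset_univ s) fun _ _ _ => by positivity).trans ?_
  exact h (A x)

theorem Bes.norm (h : Bes u) (j : J) : ∑ x, ‖u j x‖ ^ 2 ≤ 1 := by
  have h1 := h fun x => (starRingEnd ℂ) (u j x)
  have h2 : ‖∑ x, (starRingEnd ℂ) (u j x) * u j x‖ ^ 2 ≤ ∑ x, ‖u j x‖ ^ 2 := by
    refine (Finset.single_le_sum (f := fun k => ‖∑ x, (starRingEnd ℂ) (u j x) * u k x‖ ^ 2)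
      (fun _ _ => by positivity) (Finset.mem_univ j)).trans (h1.trans (le_of_eq ?_))
    exact Finset.sum_congr rfl fun x _ => by rw [Complex.norm_conj]
  have h3 : ∑ x, (starRingEnd ℂ) (u j x) * u j x = ((∑ x, ‖u j x‖ ^ 2 : ℝ) : ℂ) := by
    push_cast
    refine Finset.sum_congr rfl fun x _ => ?_
    rw [mul_comm, Complex.mul_conj, Complex.normSq_eq_norm_sq]; push_cast; rfl
  rw [h3, Complex.norm_real, Real.norm_eq_abs, sq_abs] at h2
  have h4 : 0 ≤ ∑ x, ‖u j x‖ ^ 2 := Finset.sum_nonneg fun _ _ => by positivity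
  nlinarith

theorem markovF (s : Finset J) (f : J → ℝ) (hf : ∀ j, 0 ≤ f j) (P : J → Prop) [DecidablePred P] (t : ℝ)
    (h : ∀ j ∈ s, P j → t ≤ f j) : t * ((s.filter P).card : ℝ) ≤ ∑ j ∈ s, f j := by
  calc t * ((s.filter P).card : ℝ) = ∑ _j ∈ s.filter P, t := by rw [Finset.sum_const, nsmul_eq_mul]; ring
    _ ≤ ∑ j ∈ s.filter P, f j := Finset.sum_le_sum fun j hj => by
        rw [Finset.mem_filter] at hj; exact h j hj.1 hj.2
    _ ≤ _ := Finset.sum_le_sum_of_subset_of_nonneg (Finset.filter_subset _ _) fun j _ _ => hf j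

/-- the window -/
noncomputable def WJ (e : J → ℝ) (E η : ℝ) : Finset J := Finset.univ.filter fun j => |e j - E| ≤ η

theorem cz {e E η : ℝ} (h : |e - E| ≤ η) : ‖(e : ℂ) - pt E η‖ ^ 2 ≤ 2 * η ^ 2 := by
  rw [← Complex.normSq_eq_norm_sq, Complex.normSq_apply]
  have e1 : ((e : ℂ) - pt E η).re = e - E := by simp [pt]
  have e2 : ((e : ℂ) - pt E η).im = -η := by simp [pt]
  rw [e1, e2]
  have h4 := abs_le.1 h
  nlinarith [h4.1, h4.2]

theorem famL (hRPW : S_RPW) (h : Bes u) {U : Tor d n → ℝ} {F : Finset (Tor d n)}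
    (hF : ∀ j x, x ∉ F → ∑ y, Hm hop U x y * u j y = (e j : ℂ) * u j x) (E η : ℝ) (hη : 0 < η) :
    (∑ j ∈ WJ e E η, ∑ x, ‖u j x - ((e j : ℂ) - pt E η) * ∑ y, G hop (fun _ => 0) (pt E η) x y * u j y‖ ^ 2 ≤
      12 * F.card + 4 * η ^ 2 * HT E η U) ∧
    ∀ (i : Fin d) (ε : ℝ), 0 < ε → ∑ j ∈ WJ e E η, ∑ x, ‖∑ y, Km i ε x y * u j y‖ ^ 2 ≤
      4 * (η ^ 2 * ∑ x : Tor d n, ∑ y : Tor d n, ‖KG i ε (pt E η) x y‖ ^ 2) +
        2 * (12 * F.card + 4 * η ^ 2 * HT E η U) := by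
  have h0 := hRPW lInv lOpb (Tor d n) J hop U u e F hop_symm h hF E η hη
  have hfirst : ∑ j ∈ WJ e E η, ∑ x, ‖u j x - ((e j : ℂ) - pt E η) *
      ∑ y, G hop (fun _ => 0) (pt E η) x y * u j y‖ ^ 2 ≤ 12 * F.card + 4 * η ^ 2 * HT E η U := by
    calc ∑ j ∈ WJ e E η, ∑ x, ‖u j x - ((e j : ℂ) - pt E η) * ∑ y, G hop (fun _ => 0) (pt E η) x y * u j y‖ ^ 2
        ≤ ∑ j ∈ WJ e E η, ∑ x, (2 * ‖u j x - ((e j : ℂ) - pt E η) * ∑ y, G hop U (pt E η) x y * u j y‖ ^ 2 +
          4 * η ^ 2 * ‖∑ y, (G hop U (pt E η) x y - G hop (fun _ => 0) (pt E η) x y) * u j y‖ ^ 2) := by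
          refine Finset.sum_le_sum fun j hj => Finset.sum_le_sum fun x _ => ?_
          rw [WJ, Finset.mem_filter] at hj
          have e1 : u j x - ((e j : ℂ) - pt E η) * ∑ y, G hop (fun _ => 0) (pt E η) x y * u j y =
              (u j x - ((e j : ℂ) - pt E η) * ∑ y, G hop U (pt E η) x y * u j y) +
              ((e j : ℂ) - pt E η) *
                ∑ y, (G hop U (pt E η) x y - G hop (fun _ => 0) (pt E η) x y) * u j y := by
            have : ∑ y, (G hop U (pt E η) x y - G hop (fun _ => 0) (pt E η) x y) * u j y =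
                (∑ y, G hop U (pt E η) x y * u j y) - ∑ y, G hop (fun _ => 0) (pt E η) x y * u j y := by
              rw [← Finset.sum_sub_distrib]; exact Finset.sum_congr rfl fun y _ => by ring
            rw [this]; ring
          rw [e1]
          refine (Pool.Agent.Q224.HB.norm_add_sq_le _ _).trans ?_
          rw [norm_mul, mul_pow]
          have := mul_le_mul_of_nonneg_right (cz hj.2)
            (by positivity : 0 ≤ ‖∑ y, (G hop U (pt E η) x y - G hop (fun _ => 0) (pt E η) x y) * u j y‖ ^ 2)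
          linarith
      _ = 2 * (∑ j ∈ WJ e E η, ∑ x, ‖u j x - ((e j : ℂ) - pt E η) * ∑ y, G hop U (pt E η) x y * u j y‖ ^ 2) +
          4 * η ^ 2 * ∑ j ∈ WJ e E η, ∑ x,
            ‖∑ y, (G hop U (pt E η) x y - G hop (fun _ => 0) (pt E η) x y) * u j y‖ ^ 2 := by
          rw [Finset.mul_sum, Finset.mul_sum, ← Finset.sum_add_distrib]
          refine Finset.sum_congr rfl fun j _ => ?_
          rw [Finset.mul_sum, Finset.mul_sum, ← Finset.sum_add_distrib]
      _ ≤ 2 * (6 * F.card) + 4 * η ^ 2 * HT E η U := by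
          refine add_le_add (mul_le_mul_of_nonneg_left ?_ (by norm_num)) (mul_le_mul_of_nonneg_left ?_ (by positivity))
          · refine le_trans (le_of_eq ?_) h0
            unfold WJ
            refine Finset.sum_congr ?_ fun _ _ => rfl
            ext j; simp
          · exact h.hs (fun x y => G hop U (pt E η) x y - G hop (fun _ => 0) (pt E η) x y) _
      _ = _ := by ring
  refine ⟨hfirst, fun i ε hε => ?_⟩
  have hK : ∀ (j : J) x, ∑ y, Km i ε x y * u j y =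
      ((e j : ℂ) - pt E η) * (∑ y, KG i ε (pt E η) x y * u j y) +
      ∑ y, Km i ε x y * (u j y - ((e j : ℂ) - pt E η) * ∑ w, G hop (fun _ => 0) (pt E η) y w * u j w) := by
    intro j x
    have h8 : ∑ y, KG i ε (pt E η) x y * u j y =
        ∑ y, Km i ε x y * ∑ w, G hop (fun _ => 0) (pt E η) y w * u j w := by
      have h9 := congrFun (Matrix.mulVec_mulVec (u j) (Km i ε) (G hop (fun _ => 0) (pt E η))) x
      exact h9.symm
    rw [h8, Finset.mul_sum, ← Finset.sum_add_distrib]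
    apply Finset.sum_congr rfl
    intro y _
    ring
  calc ∑ j ∈ WJ e E η, ∑ x, ‖∑ y, Km i ε x y * u j y‖ ^ 2
      ≤ ∑ j ∈ WJ e E η, (4 * η ^ 2 * ∑ x, ‖∑ y, KG i ε (pt E η) x y * u j y‖ ^ 2 +
        2 * ∑ x, ‖u j x - ((e j : ℂ) - pt E η) * ∑ w, G hop (fun _ => 0) (pt E η) x w * u j w‖ ^ 2) := by
        refine Finset.sum_le_sum fun j hj => ?_
        rw [WJ, Finset.mem_filter] at hj
        calc ∑ x, ‖∑ y, Km i ε x y * u j y‖ ^ 2
            ≤ ∑ x, (4 * η ^ 2 * ‖∑ y, KG i ε (pt E η) x y * u j y‖ ^ 2 +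
              2 * ‖∑ y, Km i ε x y * (u j y - ((e j : ℂ) - pt E η) *
                ∑ w, G hop (fun _ => 0) (pt E η) y w * u j w)‖ ^ 2) := by
              refine Finset.sum_le_sum fun x _ => ?_
              rw [hK j x]
              refine (Pool.Agent.Q224.HB.norm_add_sq_le _ _).trans ?_
              rw [norm_mul, mul_pow]
              have := mul_le_mul_of_nonneg_right (cz hj.2)
                (by positivity : 0 ≤ ‖∑ y, KG i ε (pt E η) x y * u j y‖ ^ 2)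
              linarith
          _ = 4 * η ^ 2 * ∑ x, ‖∑ y, KG i ε (pt E η) x y * u j y‖ ^ 2 +
              2 * ∑ x, ‖∑ y, Km i ε x y * (u j y - ((e j : ℂ) - pt E η) *
                ∑ w, G hop (fun _ => 0) (pt E η) y w * u j w)‖ ^ 2 := by
              rw [Finset.mul_sum, Finset.mul_sum, ← Finset.sum_add_distrib]
          _ ≤ _ := by
              have := lKon d n i ε hε fun y => u j y - ((e j : ℂ) - pt E η) *
                ∑ w, G hop (fun _ => 0) (pt E η) y w * u j w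
              linarith
    _ = 4 * η ^ 2 * (∑ j ∈ WJ e E η, ∑ x, ‖∑ y, KG i ε (pt E η) x y * u j y‖ ^ 2) +
        2 * ∑ j ∈ WJ e E η, ∑ x, ‖u j x - ((e j : ℂ) - pt E η) *
          ∑ w, G hop (fun _ => 0) (pt E η) x w * u j w‖ ^ 2 := by
        rw [Finset.mul_sum, Finset.mul_sum, ← Finset.sum_add_distrib]
    _ ≤ 4 * η ^ 2 * (∑ x, ∑ y, ‖KG i ε (pt E η) x y‖ ^ 2) +
        2 * (12 * F.card + 4 * η ^ 2 * HT E η U) := by
        refine add_le_add (mul_le_mul_of_nonneg_left (h.hs (KG i ε (pt E η)) _) (by positivity))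
          (mul_le_mul_of_nonneg_left hfirst (by norm_num))
    _ = _ := by ring

open Classical in
/-- the exceptions in a window -/
theorem winL (hRPW : S_RPW) (hSLC : S_SLC) (h : Bes u) {U : Tor d n → ℝ} {F : Finset (Tor d n)}
    (hF : ∀ j x, x ∉ F → ∑ y, Hm hop U x y * u j y = (e j : ℂ) * u j x) {E η s v C0 : ℝ} {L : ℕ}
    (hL : 1 ≤ L) (hn : 8 * L ^ 2 + 8 ≤ n)
    (hη : 0 < η) (hv : 0 < v) (hv1 : v ≤ 1) (hs : 0 ≤ s) (hC0 : 0 ≤ C0) (hv2 : 2400 * v ≤ 1)
    (havg : (n : ℝ)⁻¹ * ∑ j : ZMod n,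
      ((v ^ 16) ^ 2 / (4 * Real.sin (2 * Real.pi * (j.val : ℝ) / n) ^ 2 + (v ^ 16) ^ 2)) ^ 2 ≤ 2 * v ^ 16)
    (hIn : In n (d - 1) η ≤ C0 * s) (hIn0 : 0 ≤ In n (d - 1) η) (hLη : L * η ≤ v ^ 64)
    (hL2 : 1 / (L : ℝ) ≤ 2 * v ^ 64) :
    (∀ i : Fin d, v ^ 2 * (((WJ e E η).filter fun j => ∃ b : ZMod n, v ^ 2 < sm (u j) i b L).card : ℝ) ≤
      128 * C0 * v ^ 16 * ((n : ℝ) ^ d * η * s) + 36 * (12 * F.card + 4 * η ^ 2 * HT E η U)) ∧
    v ^ 2 * (((WJ e E η).filter fun j => v ^ 2 < om (u j) (e j) η).card : ℝ) ≤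
      4 * (12 * F.card + 4 * η ^ 2 * HT E η U) := by
  obtain ⟨f1, f2⟩ := famL hRPW h hF (e := e) E η hη
  constructor
  · intro i
    have f3 := f2 i (v ^ 16) (by positivity)
    have k1 := lKgb lFou d n i E η (v ^ 16) hη (by positivity)
    have k2 : η ^ 2 * ∑ x : Tor d n, ∑ y : Tor d n, ‖KG i (v ^ 16) (pt E η) x y‖ ^ 2 ≤
        (n : ℝ) ^ d * η * (2 * v ^ 16) * (C0 * s) := by
      refine k1.trans ?_
      refine mul_le_mul (mul_le_mul_of_nonneg_left havg (by positivity)) hIn hIn0 (by positivity)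
    have h2 : 400 / (v ^ 16) ^ 2 * (L * η + 1 / L) ≤ v ^ 2 / 2 := by
      have h3 : 400 / (v ^ 16) ^ 2 * (L * η + 1 / L) ≤ 400 / (v ^ 16) ^ 2 * (3 * v ^ 64) :=
        mul_le_mul_of_nonneg_left (by linarith) (by positivity)
      have h4 : 400 / (v ^ 16) ^ 2 * (3 * v ^ 64) = 1200 * v ^ 32 := by
        field_simp; ring
      have h5 : v ^ 32 = v ^ 2 * (v * v ^ 29) := by ring
      have h6 : v ^ 29 ≤ 1 := pow_le_one₀ hv.le hv1
      have h7 : v * v ^ 29 ≤ v := mul_le_of_le_one_right hv.le h6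
      have h8 : v ^ 2 * (v * v ^ 29) ≤ v ^ 2 * v := mul_le_mul_of_nonneg_left h7 (by positivity)
      have h9 : v ^ 2 * (2400 * v) ≤ v ^ 2 * 1 := mul_le_mul_of_nonneg_left hv2 (by positivity)
      rw [h4, h5] at h3
      linarith
    have c2 := markovF (WJ e E η) (fun j =>
        8 * ∑ x, ‖∑ y, Km i (v ^ 16) x y * u j y‖ ^ 2 + 2 * ∑ x, ‖u j x - ((e j : ℂ) - pt E η) *
          ∑ y, G hop (fun _ => 0) (pt E η) x y * u j y‖ ^ 2) (fun j => by positivity)
      (fun j => ∃ b : ZMod n, v ^ 2 < sm (u j) i b L)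
      (v ^ 2 / 2)
      (fun j hj ⟨b, hb⟩ => by
        rw [WJ, Finset.mem_filter] at hj
        have := hb.le.trans (hSLC lSlb lInv lOpb lCom d n i L hL hn E η (v ^ 16) (e j) hη (by positivity)
          (pow_le_one₀ hv.le hv1) hj.2 (u j) (h.norm j) b)
        linarith)
    rw [Finset.sum_add_distrib, ← Finset.mul_sum, ← Finset.mul_sum] at c2
    have h5 : 128 * C0 * v ^ 16 * ((n : ℝ) ^ d * η * s) = 64 * ((n : ℝ) ^ d * η * (2 * v ^ 16) * (C0 * s)) := by ring
    rw [h5]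
    linarith
  · have c2 := markovF (WJ e E η) (fun j => 4 * ∑ x, ‖u j x - ((e j : ℂ) - pt E η) *
          ∑ y, G hop (fun _ => 0) (pt E η) x y * u j y‖ ^ 2) (fun j => by positivity)
      (fun j => v ^ 2 < om (u j) (e j) η) (v ^ 2)
      (fun j hj hj2 => by
        rw [WJ, Finset.mem_filter] at hj
        exact hj2.le.trans ((om_le _ hj.2).trans (lMom d n E η (e j) hη hj.2 (u j))))
    rw [← Finset.mul_sum] at c2
    linarith

end

end Pool.Agent.Q218.HB
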