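import Pool.Agent.Q218.HB.Loc1

/-! Bessel families which satisfy the eigenvalue equation off a small set: the deterministic theorem. -/

set_option autoImplicit false
set_option linter.unusedSectionVars false
set_option linter.unusedVariables false

open MeasureTheory

namespace Pool.Agent.Q218.HB

open Classical in
/-- few exceptions -/
def FewJ {d n : ℕ} [NeZero n] {J : Type} [Fintype J] (u : J → Tor d n → ℂ) (e : J → ℝ) (η τ : ℝ) (L : ℕ)
    (T : ℝ) : Prop :=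
  ((Finset.univ.filter fun j => ¬ ((∀ b, bm (u j) b L ≤ τ) ∧ om (u j) (e j) η ≤ τ)).card : ℝ) ≤ τ * T ∧
  ∀ i : Fin d, ((Finset.univ.filter fun j => ∃ b : ZMod n, τ < sm (u j) i b L).card : ℝ) ≤ τ * T

section

variable {d n : ℕ} [NeZero n] {J : Type} [Fintype J] {u : J → Tor d n → ℂ} {e : J → ℝ}

theorem sm_le_norm (ψ : Tor d n → ℂ) (i : Fin d) (b : ZMod n) (L : ℕ) : sm ψ i b L ≤ ∑ x, ‖ψ x‖ ^ 2 :=
  Finset.sum_le_sum fun x _ => Set.indicator_le_self' (fun _ _ => by positivity) x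

theorem om_le_norm (ψ : Tor d n → ℂ) (e η : ℝ) : om ψ e η ≤ ∑ x, ‖ψ x‖ ^ 2 := by
  rw [← Pool.Agent.Q124.HB.parseval ψ]
  unfold om
  refine Finset.sum_le_sum fun k _ => ?_
  rw [← Pool.Agent.Q124.HB.fo_eq]
  exact Set.indicator_le_self' (fun _ _ => by positivity) k

open Classical in
/-- from slabs to balls -/
theorem ball_countJ (hφ : ∀ j, ∑ x, ‖u j x‖ ^ 2 ≤ 1) (hd : 1 ≤ d) (L : ℕ) {τ s K : ℝ}
    (hτ : 0 ≤ τ) (hs : 0 < s)
    (h : ∀ i : Fin d, ((Finset.univ.filter fun j => ∃ b : ZMod n, τ < sm (u j) i b L).card : ℝ) ≤ K) :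
    s * ((Finset.univ.filter fun j => ∃ b : Tor d n, 2 * (τ + s) < bm (u j) b L).card : ℝ) ≤ K := by
  have hd0 : (0 : ℝ) < d := by exact_mod_cast hd
  have h1 : ∀ j, (∃ b : Tor d n, 2 * (τ + s) < bm (u j) b L) →
      s * d ≤ ((Finset.univ.filter fun i : Fin d => ∃ b : ZMod n, τ < sm (u j) i b L).card : ℝ) := by
    rintro j ⟨b, hb⟩
    have h2 := ball_le (u j) L b
    have h3 : ∑ i, sm (u j) i (b i) L ≤ d * τ +
        ((Finset.univ.filter fun i : Fin d => ∃ b : ZMod n, τ < sm (u j) i b L).card : ℝ) := by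
      rw [Finset.card_filter, Nat.cast_sum]
      have e1 : (d : ℝ) * τ = ∑ _i : Fin d, τ := by
        rw [Finset.sum_const, Finset.card_univ, Fintype.card_fin, nsmul_eq_mul]
      rw [e1, ← Finset.sum_add_distrib]
      refine Finset.sum_le_sum fun i _ => ?_
      by_cases hi : ∃ b : ZMod n, τ < sm (u j) i b L
      · rw [if_pos hi]
        have := (sm_le_norm (u j) i (b i) L).trans (hφ j)
        push_cast; linarith
      · rw [if_neg hi]
        have := not_lt.1 (not_exists.1 hi (b i))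
        push_cast; linarith
    have h4 := mul_lt_mul_of_pos_left hb hd0
    nlinarith
  have h5 : ∑ j : J, ((Finset.univ.filter fun i : Fin d => ∃ b : ZMod n, τ < sm (u j) i b L).card : ℝ) =
      ∑ i : Fin d, ((Finset.univ.filter fun j => ∃ b : ZMod n, τ < sm (u j) i b L).card : ℝ) := by
    simp only [Finset.card_filter, Nat.cast_sum]
    rw [Finset.sum_comm]
  have h6 : s * d * ((Finset.univ.filter fun j => ∃ b : Tor d n, 2 * (τ + s) < bm (u j) b L).card : ℝ) ≤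
      ∑ j : J, ((Finset.univ.filter fun i : Fin d => ∃ b : ZMod n, τ < sm (u j) i b L).card : ℝ) := by
    calc s * d * ((Finset.univ.filter fun j => ∃ b : Tor d n, 2 * (τ + s) < bm (u j) b L).card : ℝ)
        = ∑ _j ∈ Finset.univ.filter fun j => ∃ b : Tor d n, 2 * (τ + s) < bm (u j) b L, s * d := by
          rw [Finset.sum_const, nsmul_eq_mul]; ring
      _ ≤ ∑ j ∈ Finset.univ.filter fun j => ∃ b : Tor d n, 2 * (τ + s) < bm (u j) b L,
          ((Finset.univ.filter fun i : Fin d => ∃ b : ZMod n, τ < sm (u j) i b L).card : ℝ) :=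
          Finset.sum_le_sum fun j hj => h1 j (Finset.mem_filter.1 hj).2
      _ ≤ _ := Finset.sum_le_sum_of_subset_of_nonneg (Finset.filter_subset _ _) fun _ _ _ => Nat.cast_nonneg _
  rw [h5] at h6
  have h7 : ∑ i : Fin d, ((Finset.univ.filter fun j => ∃ b : ZMod n, τ < sm (u j) i b L).card : ℝ) ≤ d * K := by
    refine (Finset.sum_le_sum fun i _ => h i).trans (le_of_eq ?_)
    rw [Finset.sum_const, Finset.card_univ, Fintype.card_fin, nsmul_eq_mul]
  have h8 := h6.trans h7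
  refine le_of_mul_le_mul_left ?_ hd0
  calc (d : ℝ) * (s * _) = s * d * _ := by ring
    _ ≤ _ := h8

open Classical in
theorem few_ofJ (hφ : ∀ j, ∑ x, ‖u j x‖ ^ 2 ≤ 1) (hd : 1 ≤ d) (L : ℕ) {η v T : ℝ}
    (hv : 0 < v) (hv4 : v ≤ 1 / 4) (hT : 0 ≤ T)
    (h1 : ∀ i : Fin d, ((Finset.univ.filter fun j => ∃ b : ZMod n, v ^ 2 < sm (u j) i b L).card : ℝ) ≤ v ^ 4 * T)
    (h2 : ((Finset.univ.filter fun j => v ^ 2 < om (u j) (e j) η).card : ℝ) ≤ v ^ 4 * T) :
    FewJ u e η v L T := by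
  have hv1 : v ≤ 1 := hv4.trans (by norm_num)
  have p2 : v ^ 4 ≤ v ^ 2 := pow_le_pow_of_le_one hv.le hv1 (by norm_num)
  have p1 : v ^ 4 ≤ v := by
    have := pow_le_pow_of_le_one hv.le hv1 (show 1 ≤ 4 by norm_num); rwa [pow_one] at this
  have p3 : v ^ 2 ≤ v := by
    have := pow_le_pow_of_le_one hv.le hv1 (show 1 ≤ 2 by norm_num); rwa [pow_one] at this
  have q1 : 4 * v ^ 2 ≤ v := by nlinarith
  refine ⟨?_, fun i => ?_⟩
  · have b1 := ball_countJ hφ hd L (τ := v ^ 2) (s := v ^ 2) (K := v ^ 4 * T) (by positivity) (by positivity) h1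
    have b2 : ((Finset.univ.filter fun j => ∃ b : Tor d n, 2 * (v ^ 2 + v ^ 2) < bm (u j) b L).card : ℝ) ≤
        v ^ 2 * T := by
      refine le_of_mul_le_mul_left ?_ (by positivity : 0 < v ^ 2)
      calc _ ≤ v ^ 4 * T := b1
        _ = v ^ 2 * (v ^ 2 * T) := by ring
    have b3 : (Finset.univ.filter fun j => ¬ ((∀ b, bm (u j) b L ≤ v) ∧ om (u j) (e j) η ≤ v)) ⊆
        (Finset.univ.filter fun j => ∃ b : Tor d n, 2 * (v ^ 2 + v ^ 2) < bm (u j) b L) ∪
        (Finset.univ.filter fun j => v ^ 2 < om (u j) (e j) η) := by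
      intro j hj
      rw [Finset.mem_filter] at hj
      rw [Finset.mem_union, Finset.mem_filter, Finset.mem_filter]
      by_cases hb : ∀ b, bm (u j) b L ≤ v
      · right
        refine ⟨hj.1, ?_⟩
        have := not_le.1 fun hh => hj.2 ⟨hb, hh⟩
        linarith
      · left
        push Not at hb
        obtain ⟨b, hb⟩ := hb
        exact ⟨hj.1, b, by linarith⟩
    have b4 := (Finset.card_le_card b3).trans (Finset.card_union_le _ _)
    have b5 : ((Finset.univ.filter fun j => ¬ ((∀ b, bm (u j) b L ≤ v) ∧ om (u j) (e j) η ≤ v)).card : ℝ) ≤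
        ((Finset.univ.filter fun j => ∃ b : Tor d n, 2 * (v ^ 2 + v ^ 2) < bm (u j) b L).card : ℝ) +
        ((Finset.univ.filter fun j => v ^ 2 < om (u j) (e j) η).card : ℝ) := by exact_mod_cast b4
    have b6 : v ^ 4 * T ≤ v ^ 2 * T := mul_le_mul_of_nonneg_right p2 hT
    have b7 : 4 * v ^ 2 * T ≤ v * T := mul_le_mul_of_nonneg_right q1 hT
    have b8 : 0 ≤ v ^ 2 * T := by positivity
    linarith
  · have b1 : (Finset.univ.filter fun j => ∃ b : ZMod n, v < sm (u j) i b L) ⊆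
        (Finset.univ.filter fun j => ∃ b : ZMod n, v ^ 2 < sm (u j) i b L) := fun j hj => by
      rw [Finset.mem_filter] at hj ⊢
      obtain ⟨h3, b, hb⟩ := hj
      exact ⟨h3, b, by linarith⟩
    have b2 : ((Finset.univ.filter fun j => ∃ b : ZMod n, v < sm (u j) i b L).card : ℝ) ≤
        ((Finset.univ.filter fun j => ∃ b : ZMod n, v ^ 2 < sm (u j) i b L).card : ℝ) := by
      exact_mod_cast Finset.card_le_card b1
    exact b2.trans ((h1 i).trans (mul_le_mul_of_nonneg_right p1 hT))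

open Classical in
theorem card_netJ {η R : ℝ} (hη : 0 < η) {m : ℕ} (hm : R / η + 1 / 2 ≤ m) (P : J → Prop) :
    ((Finset.univ.filter P).card : ℝ) ≤ ((Finset.univ.filter fun j => R < |e j| ∧ P j).card : ℝ) +
      ∑ k ∈ Finset.range (m + 1), (((WJ e (-R + 2 * η * k) η).filter P).card : ℝ) := by
  have h1 : Finset.univ.filter P ⊆ (Finset.univ.filter fun j => R < |e j| ∧ P j) ∪
      (Finset.range (m + 1)).biUnion fun k => (WJ e (-R + 2 * η * k) η).filter P := by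
    intro j hj
    rw [Finset.mem_filter] at hj
    rw [Finset.mem_union, Finset.mem_filter, Finset.mem_biUnion]
    by_cases hR : R < |e j|
    · left; exact ⟨Finset.mem_univ _, hR, hj.2⟩
    · right
      obtain ⟨k, hk, hk2⟩ := net_cov hη (not_lt.1 hR) hm
      refine ⟨k, hk, ?_⟩
      rw [Finset.mem_filter, WJ, Finset.mem_filter]
      exact ⟨⟨Finset.mem_univ _, hk2⟩, hj.2⟩
  have h2 := (Finset.card_le_card h1).trans (Finset.card_union_le _ _)
  have h3 := h2.trans (Nat.add_le_add_left Finset.card_biUnion_le _)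
  exact_mod_cast h3

open Classical in
/-- **The deterministic theorem for Bessel families.** -/
theorem det_allL (hRPW : S_RPW) (hSLC : S_SLC) (hTAL : S_TAL) {C0 C1 m ε M : ℝ} (hC0 : 0 < C0)
    (hC1 : 0 ≤ C1) (hM : 0 ≤ M)
    (hm : 0 ≤ m) (hε : 0 < ε) (hmε : 2 * m + 3 * ε ≤ 1 / 2) (hd : 1 ≤ d)
    {η s v : ℝ} {L : ℕ} (hηd : η = (d : ℝ) ^ (-(1 / 2 - 2 * m - ε))) (hsd : s = (d : ℝ) ^ (-(1 / 2 : ℝ)))
    (hvd : v = (d : ℝ) ^ (-(ε / 64))) (hLd : L = ⌊(d : ℝ) ^ (1 / 2 - 2 * m - 2 * ε)⌋₊)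
    (hn : 8 * L ^ 2 + 8 ≤ n) (hv4 : v ≤ 1 / 4) (hv2 : 2400 * v ≤ 1)
    (havg : (n : ℝ)⁻¹ * ∑ j : ZMod n,
      ((v ^ 16) ^ 2 / (4 * Real.sin (2 * Real.pi * (j.val : ℝ) / n) ^ 2 + (v ^ 16) ^ 2)) ^ 2 ≤ 2 * v ^ 16)
    (hIn : In n (d - 1) η ≤ C0 * s)
    (hQ : (512 * C0 + 576 * C1 + 5191 + 2 * M ^ 2) * v ≤ 1)
    {U : Tor d n → ℝ} (hU : ∀ x, |U x| ≤ M * (d : ℝ) ^ m)
    (hHT1 : ∀ E, |E| ≤ 7 * (Real.sqrt d / v ^ 4) → HT E η U ≤ C1 * (n : ℝ) ^ d * s * v ^ 32 / η)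
    {F : Finset (Tor d n)} (hF2 : (F.card : ℝ) ≤ 3 * (n : ℝ) ^ d / d) (h : Bes u)
    (hF : ∀ j x, x ∉ F → ∑ y, Hm hop U x y * u j y = (e j : ℂ) * u j x) :
    FewJ u e η v L ((n : ℝ) ^ d) := by
  obtain ⟨hη, hη1, hs, hv, hv1, hL, hLη, hL2, hsη, hηs, hsd1, -⟩ := par_facts2 m ε hm hε hmε d hd hηd hsd hvd hLd
  have hd1 : (1 : ℝ) ≤ d := by exact_mod_cast hd
  have hd0 : (0 : ℝ) < d := by linarith
  have hn0 : (0 : ℝ) < n := by exact_mod_cast Nat.pos_of_ne_zero (NeZero.ne n)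
  obtain ⟨N, hN⟩ : ∃ N, N = (n : ℝ) ^ d := ⟨_, rfl⟩
  have hN0 : 0 < N := by rw [hN]; positivity
  have hss : s * s = 1 / d := by
    have h1 : s = 1 / Real.sqrt d := by
      rw [eq_div_iff (Real.sqrt_pos.2 hd0).ne']; exact hsd1
    rw [h1]
    have := Real.mul_self_sqrt hd0.le
    field_simp
    rw [Real.sq_sqrt hd0.le]
  obtain ⟨R, hR⟩ : ∃ R, R = Real.sqrt d / v ^ 4 := ⟨_, rfl⟩
  rw [← hR] at hHT1
  have hsq1 : 1 ≤ Real.sqrt d := Real.one_le_sqrt.2 hd1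
  have hR1 : 1 ≤ R := by
    rw [hR, one_le_div (by positivity)]
    exact (pow_le_one₀ hv.le hv1).trans hsq1
  have hR0 : 0 < R := by linarith
  have hRs : R * s = 1 / v ^ 4 := by
    rw [hR]
    calc Real.sqrt d / v ^ 4 * s = (s * Real.sqrt d) * (1 / v ^ 4) := by ring
      _ = 1 / v ^ 4 := by rw [hsd1, one_mul]
  obtain ⟨k0, hk0⟩ : ∃ k0 : ℕ, k0 = ⌈R / η + 1 / 2⌉₊ := ⟨_, rfl⟩
  have hm1 : R / η + 1 / 2 ≤ (k0 : ℝ) := by rw [hk0]; exact Nat.le_ceil _
  have hm2 : ((k0 : ℝ) + 1) * η ≤ 4 * R := by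
    have h1 : (k0 : ℝ) < R / η + 1 / 2 + 1 := by rw [hk0]; exact Nat.ceil_lt_add_one (by positivity)
    have h2 : ((k0 : ℝ) + 1) * η ≤ (R / η + 5 / 2) * η := mul_le_mul_of_nonneg_right (by linarith) hη.le
    have h3 : (R / η + 5 / 2) * η = R + 5 / 2 * η := by field_simp
    rw [h3] at h2
    linarith
  -- the sum of the errors
  obtain ⟨Y, hY⟩ : ∃ Y : ℕ → ℝ, Y = fun k : ℕ => 12 * (F.card : ℝ) + 4 * η ^ 2 * HT (-R + 2 * η * k) η U := ⟨_, rfl⟩
  rw [← hN] at hF2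
  have hYk : ∀ k ∈ Finset.range (k0 + 1), Y k ≤ η * (N * s * ((36 + 4 * C1) * v ^ 32)) := by
    intro k hk
    have hk' : (k : ℝ) ≤ k0 := by exact_mod_cast Nat.lt_succ_iff.1 (Finset.mem_range.1 hk)
    have h2 : |(-R + 2 * η * k)| ≤ 7 * R := by
      rw [abs_le]
      have h3 : (k : ℝ) * η ≤ 4 * R := by
        calc (k : ℝ) * η ≤ ((k0 : ℝ) + 1) * η := mul_le_mul_of_nonneg_right (by linarith) hη.le
          _ ≤ 4 * R := hm2
      have h4 : 0 ≤ (k : ℝ) * η := mul_nonneg (Nat.cast_nonneg _) hη.le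
      have h5 : 2 * η * (k : ℝ) = 2 * ((k : ℝ) * η) := by ring
      rw [h5]
      constructor
      · clear hRPW hSLC hTAL hHT1 havg h hF hQ; linarith
      · clear hRPW hSLC hTAL hHT1 havg h hF hQ; linarith
    have h3 := hHT1 _ h2
    rw [← hN] at h3
    have h4 : 4 * η ^ 2 * HT (-R + 2 * η * k) η U ≤ η * (N * s * (4 * C1 * v ^ 32)) := by
      calc 4 * η ^ 2 * HT (-R + 2 * η * k) η U ≤ 4 * η ^ 2 * (C1 * N * s * v ^ 32 / η) :=
            mul_le_mul_of_nonneg_left h3 (by positivity)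
        _ = _ := by field_simp
    have h5 : 12 * (F.card : ℝ) ≤ η * (N * s * (36 * v ^ 32)) := by
      calc 12 * (F.card : ℝ) ≤ 12 * (3 * N / d) := by linarith
        _ = 36 * N * (s * s) := by rw [hss]; ring
        _ ≤ 36 * N * (s * (η * v ^ 64)) := by gcongr
        _ ≤ 36 * N * (s * (η * v ^ 32)) := by
            have : v ^ 64 ≤ v ^ 32 := pow_le_pow_of_le_one hv.le hv1 (by norm_num)
            gcongr
        _ = _ := by ring
    rw [hY]
    simp only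
    calc _ ≤ η * (N * s * (36 * v ^ 32)) + η * (N * s * (4 * C1 * v ^ 32)) := add_le_add h5 h4
      _ = _ := by ring
  have hYs : ∑ k ∈ Finset.range (k0 + 1), Y k ≤ (144 + 16 * C1) * N * v ^ 28 := by
    refine (Finset.sum_le_sum hYk).trans ?_
    rw [Finset.sum_const, Finset.card_range, nsmul_eq_mul]
    push_cast
    calc ((k0 : ℝ) + 1) * (η * (N * s * ((36 + 4 * C1) * v ^ 32))) =
          (((k0 : ℝ) + 1) * η) * (N * s * ((36 + 4 * C1) * v ^ 32)) := by ring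
      _ ≤ (4 * R) * (N * s * ((36 + 4 * C1) * v ^ 32)) := mul_le_mul_of_nonneg_right hm2 (by positivity)
      _ = (144 + 16 * C1) * N * v ^ 32 * (R * s) := by ring
      _ = _ := by rw [hRs]; field_simp
  -- the tail
  have htail : ∀ P : J → Prop, (∀ j, P j → v ^ 2 < ∑ x, ‖u j x‖ ^ 2) →
      v ^ 2 * ((Finset.univ.filter fun j => R < |e j| ∧ P j).card : ℝ) ≤ (7 + 2 * M ^ 2) * v ^ 8 * N := by
    intro P hP
    have h1 := hTAL d n (by nlinarith [Nat.one_le_pow 2 L (by omega)]) J U U 0 (M * (d : ℝ) ^ m) F ∅ u e h hU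
      (fun x _ => sub_zero _) hF R hR0
    simp only [sub_zero, Finset.card_empty, Nat.cast_zero, add_zero] at h1
    have h2 := markovF (Finset.univ.filter fun j => R < |e j|) (fun j => ∑ x, ‖u j x‖ ^ 2)
      (fun j => by positivity) P (v ^ 2) (fun j _ hj => (hP j hj).le)
    rw [Finset.filter_filter] at h2
    have h3 : (d : ℝ) ^ m * (d : ℝ) ^ m ≤ d := by
      rw [← Real.rpow_add hd0]
      calc (d : ℝ) ^ (m + m) ≤ (d : ℝ) ^ (1 : ℝ) := Real.rpow_le_rpow_of_exponent_le hd1 (by linarith)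
        _ = d := Real.rpow_one _
    have h4 : 4 * (d : ℝ) + 2 * (M * (d : ℝ) ^ m) ^ 2 ≤ (4 + 2 * M ^ 2) * d := by
      calc 4 * (d : ℝ) + 2 * (M * (d : ℝ) ^ m) ^ 2 = 4 * (d : ℝ) + 2 * M ^ 2 * ((d : ℝ) ^ m * (d : ℝ) ^ m) := by ring
        _ ≤ 4 * (d : ℝ) + 2 * M ^ 2 * d := by
            have := mul_le_mul_of_nonneg_left h3 (by positivity : 0 ≤ 2 * M ^ 2); linarith
        _ = _ := by ring
    have h5 : (d : ℝ) / R ^ 2 = v ^ 8 := by
      rw [hR, div_pow, Real.sq_sqrt hd0.le]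
      field_simp
    have h6 : N * (4 * (d : ℝ) + 2 * (M * (d : ℝ) ^ m) ^ 2) / R ^ 2 ≤ N * ((4 + 2 * M ^ 2) * v ^ 8) := by
      calc N * (4 * (d : ℝ) + 2 * (M * (d : ℝ) ^ m) ^ 2) / R ^ 2 ≤ N * ((4 + 2 * M ^ 2) * d) / R ^ 2 := by gcongr
        _ = N * ((4 + 2 * M ^ 2) * ((d : ℝ) / R ^ 2)) := by ring
        _ = _ := by rw [h5]
    have h8 : 3 * N / d ≤ 3 * N * v ^ 8 := by
      have h9 : s * s ≤ v ^ 8 := by
        have e1 : s ≤ v ^ 8 := by
          calc s ≤ η * v ^ 64 := hsη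
            _ ≤ 1 * v ^ 64 := by gcongr
            _ ≤ v ^ 8 := by rw [one_mul]; exact pow_le_pow_of_le_one hv.le hv1 (by norm_num)
        have e2 : v ^ 8 ≤ 1 := pow_le_one₀ hv.le hv1
        calc s * s ≤ v ^ 8 * 1 := mul_le_mul e1 (e1.trans e2) hs.le (by positivity)
          _ = v ^ 8 := mul_one _
      rw [hss] at h9
      calc 3 * N / d = 3 * N * (1 / d) := by ring
        _ ≤ 3 * N * v ^ 8 := mul_le_mul_of_nonneg_left h9 (by positivity)
    rw [← hN] at h1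
    have e3 : ((Finset.univ.filter fun j => R < |e j| ∧ P j).card : ℝ) =
        ((Finset.univ.filter fun a => R < |e a| ∧ P a).card : ℝ) := rfl
    calc v ^ 2 * ((Finset.univ.filter fun j => R < |e j| ∧ P j).card : ℝ) ≤
          ∑ j with R < |e j|, ∑ x, ‖u j x‖ ^ 2 := h2
      _ ≤ N * (4 * (d : ℝ) + 2 * (M * (d : ℝ) ^ m) ^ 2) / R ^ 2 + F.card := h1
      _ ≤ N * ((4 + 2 * M ^ 2) * v ^ 8) + 3 * N * v ^ 8 := add_le_add h6 (hF2.trans h8)
      _ = _ := by ring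
  have w := fun k : ℕ => winL hRPW hSLC h hF (E := -R + 2 * η * k) (s := s) (C0 := C0) hL hn hη hv hv1 hs.le hC0.le hv2
    havg hIn (In_nn2 _ _ _) hLη hL2
  have hsum1 : ((k0 + 1 : ℕ) : ℝ) * (128 * C0 * v ^ 16 * (N * η * s)) ≤ 512 * C0 * N * v ^ 12 := by
    push_cast
    calc ((k0 : ℝ) + 1) * (128 * C0 * v ^ 16 * (N * η * s)) = 128 * C0 * v ^ 16 * N * s * (((k0 : ℝ) + 1) * η) := by
          ring
      _ ≤ 128 * C0 * v ^ 16 * N * s * (4 * R) := mul_le_mul_of_nonneg_left hm2 (by positivity)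
      _ = 512 * C0 * v ^ 16 * N * (R * s) := by ring
      _ = _ := by rw [hRs]; field_simp
  have key : (512 * C0 + 576 * C1 + 5191 + 2 * M ^ 2) * v ^ 8 * N ≤ v ^ 2 * (v ^ 4 * N) := by
    have c2 : v ^ 8 = v ^ 6 * (v * v) := by ring
    have c3 : v * v ≤ v := mul_le_of_le_one_right hv.le hv1
    have c4 : (512 * C0 + 576 * C1 + 5191 + 2 * M ^ 2) * (v * v) ≤ 1 :=
      le_trans (mul_le_mul_of_nonneg_left c3 (by positivity)) hQ
    calc (512 * C0 + 576 * C1 + 5191 + 2 * M ^ 2) * v ^ 8 * N =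
          v ^ 6 * N * ((512 * C0 + 576 * C1 + 5191 + 2 * M ^ 2) * (v * v)) := by rw [c2]; ring
      _ ≤ v ^ 6 * N * 1 := mul_le_mul_of_nonneg_left c4 (by positivity)
      _ = _ := by ring
  have hv12 : v ^ 12 ≤ v ^ 8 := pow_le_pow_of_le_one hv.le hv1 (by norm_num)
  have hv28 : v ^ 28 ≤ v ^ 8 := pow_le_pow_of_le_one hv.le hv1 (by norm_num)
  have q1 : 512 * C0 * N * v ^ 12 ≤ 512 * C0 * N * v ^ 8 := by gcongr
  have q2 : (144 + 16 * C1) * N * v ^ 28 ≤ (144 + 16 * C1) * N * v ^ 8 := by gcongr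
  have main : ∀ P : J → Prop, (∀ j, P j → v ^ 2 < ∑ x, ‖u j x‖ ^ 2) →
      (∀ k : ℕ, v ^ 2 * (((WJ e (-R + 2 * η * k) η).filter P).card : ℝ) ≤
        128 * C0 * v ^ 16 * (N * η * s) + 36 * Y k) → ((Finset.univ.filter P).card : ℝ) ≤ v ^ 4 * N := by
    intro P hP1 hP2
    have c1 := card_netJ (e := e) (R := R) hη hm1 P
    have c2 : v ^ 2 * ∑ k ∈ Finset.range (k0 + 1), (((WJ e (-R + 2 * η * k) η).filter P).card : ℝ) ≤
        ∑ k ∈ Finset.range (k0 + 1), (128 * C0 * v ^ 16 * (N * η * s) + 36 * Y k) := by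
      rw [Finset.mul_sum]
      exact Finset.sum_le_sum fun k _ => hP2 k
    rw [Finset.sum_add_distrib, Finset.sum_const, Finset.card_range, nsmul_eq_mul, ← Finset.mul_sum] at c2
    have c5 := htail P hP1
    refine le_of_mul_le_mul_left ?_ (by positivity : 0 < v ^ 2)
    refine le_trans ?_ key
    refine le_trans (mul_le_mul_of_nonneg_left c1 (by positivity : 0 ≤ v ^ 2)) ?_
    rw [mul_add]
    linarith
  rw [← hN]
  refine few_ofJ h.norm hd L hv hv4 hN0.le (fun i => ?_) ?_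
  · refine le_trans (le_of_eq (by congr!)) (main (fun j => ∃ b : ZMod n, v ^ 2 < sm (u j) i b L)
      (fun j ⟨b, hb⟩ => hb.trans_le (sm_le_norm _ _ _ _)) fun k => ?_)
    have := (w k).1 i
    rw [← hN] at this
    rw [hY]
    refine le_trans (le_of_eq (by congr!)) this
  · refine le_trans (le_of_eq (by congr!)) (main (fun j => v ^ 2 < om (u j) (e j) η)
      (fun j hb => hb.trans_le (om_le_norm _ _ _)) fun k => ?_)
    have := (w k).2
    have hYk0 : 0 ≤ Y k := by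
      rw [hY]
      have : 0 ≤ HT (-R + 2 * η * k) η U := Finset.sum_nonneg fun _ _ => Finset.sum_nonneg fun _ _ => by positivity
      positivity
    have h9 : 0 ≤ 128 * C0 * v ^ 16 * (N * η * s) := by positivity
    have h10 : v ^ 2 * (((WJ e (-R + 2 * η * k) η).filter fun j => v ^ 2 < om (u j) (e j) η).card : ℝ) ≤ 4 * Y k := by
      rw [hY]
      refine le_trans (le_of_eq (by congr!)) this
    linarith

end

end Pool.Agent.Q218.HB
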