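import Pool.Agent.Q218.HB.Loc2
import Pool.Agent.Q277.HB3.RPW
import Pool.Agent.Q220.HB3.TAL
import Pool.Agent.Q181.HB3.SLC
import Pool.Agent.Q65.HB3.BEL

/-! The probability of the good event for Bessel families, and the third main theorem. -/

set_option autoImplicit false
set_option linter.unusedSectionVars false
set_option linter.unusedVariables false

open MeasureTheory Filter

namespace Pool.Agent.Q218.HB

theorem lRpw : S_RPW := Pool.Agent.Q277.HB3.rpw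
theorem lTal : S_TAL := Pool.Agent.Q220.HB3.tal
theorem lSlc : S_SLC := Pool.Agent.Q181.HB3.slc
theorem lBel : S_BEL := Pool.Agent.Q65.HB3.bel

/-- the good event for Bessel families which satisfy the eigenvalue equation off a small set -/
def Gloc {d n : ℕ} [NeZero n] (η τ : ℝ) (L : ℕ) (V : Tor d n → ℝ) : Prop :=
  ∃ μ : ℝ, |μ| ≤ η ∧ ∀ (J : Type) [Fintype J] (u : J → Tor d n → ℂ) (e : J → ℝ) (F : Finset (Tor d n)),
    (F.card : ℝ) ≤ 2 * (n : ℝ) ^ d / d → Bes u →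
    (∀ j x, x ∉ F → ∑ y, Hm hop V x y * u j y = (e j : ℂ) * u j x) →
    FewJ u (fun j => e j - μ) η τ L ((n : ℝ) ^ d)

open Classical in
theorem det_stepL {C0 C1 m ε M μ : ℝ} (hC0 : 0 < C0)
    (hC1 : 0 ≤ C1) (hM : 0 ≤ M)
    (hm : 0 ≤ m) (hε : 0 < ε) (hmε : 2 * m + 3 * ε ≤ 1 / 2) {d n : ℕ} [NeZero n] (hd : 1 ≤ d)
    {η s v : ℝ} {L : ℕ} (hηd : η = (d : ℝ) ^ (-(1 / 2 - 2 * m - ε))) (hsd : s = (d : ℝ) ^ (-(1 / 2 : ℝ)))
    (hvd : v = (d : ℝ) ^ (-(ε / 64))) (hLd : L = ⌊(d : ℝ) ^ (1 / 2 - 2 * m - 2 * ε)⌋₊)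
    (hn : 8 * L ^ 2 + 8 ≤ n) (hv4 : v ≤ 1 / 4) (hv2 : 2400 * v ≤ 1)
    (havg : (n : ℝ)⁻¹ * ∑ j : ZMod n,
      ((v ^ 16) ^ 2 / (4 * Real.sin (2 * Real.pi * (j.val : ℝ) / n) ^ 2 + (v ^ 16) ^ 2)) ^ 2 ≤ 2 * v ^ 16)
    (hIn : In n (d - 1) η ≤ C0 * s)
    (hQ : (512 * C0 + 576 * C1 + 5191 + 2 * M ^ 2) * v ≤ 1)
    (hμ : |μ| ≤ η) {V U : Tor d n → ℝ} (hU : ∀ x, |U x| ≤ M * (d : ℝ) ^ m) {S : Finset (Tor d n)}
    (hS : ∀ x, x ∉ S → V x - μ = U x) (hS2 : (S.card : ℝ) ≤ (n : ℝ) ^ d / d)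
    (hHT1 : ∀ E, |E| ≤ 7 * (Real.sqrt d / v ^ 4) → HT E η U ≤ C1 * (n : ℝ) ^ d * s * v ^ 32 / η) :
    Gloc η v L V := by
  refine ⟨μ, hμ, fun J _ u e F hF2 hu hF => ?_⟩
  refine det_allL lRpw lSlc lTal hC0 hC1 hM hm hε hmε hd hηd hsd hvd hLd hn hv4 hv2 havg hIn hQ hU hHT1
    (F := F ∪ S) ?_ hu ?_
  · have h1 : ((F ∪ S).card : ℝ) ≤ F.card + S.card := by exact_mod_cast Finset.card_union_le F S
    have h2 : 3 * (n : ℝ) ^ d / d = 2 * (n : ℝ) ^ d / d + (n : ℝ) ^ d / d := by ring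
    rw [h2]; linarith
  · intro j x hx
    rw [Finset.mem_union, not_or] at hx
    have h1 := hF j x hx.1
    have h2 : ∀ y, Hm hop U x y * u j y = Hm hop V x y * u j y - (if x = y then (μ : ℂ) * u j y else 0) := fun y => by
      unfold Hm
      by_cases hxy : x = y
      · rw [if_pos hxy, if_pos hxy, if_pos hxy, ← hS x hx.2]; push_cast; ring
      · rw [if_neg hxy, if_neg hxy, if_neg hxy, sub_zero]
    rw [Finset.sum_congr rfl fun y _ => h2 y, Finset.sum_sub_distrib, h1, Finset.sum_ite_eq]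
    simp only [Finset.mem_univ, if_true]
    push_cast; ring

open Classical in
theorem prob_two {C0 C1 C2 A1 A2 C' c1 θ c m ε M κ μ σ : ℝ} (hC0 : 0 < C0)
    (hA1 : 0 ≤ A1) (hA2 : 0 ≤ A2) (hC1 : C1 = A1 + 2) (hC2 : C2 = A2 + 1 + 1 / θ)
    (hc1 : 0 < c1) (hθ : 0 < θ) (hθ1 : θ ≤ 1) (hc : 0 < c)
    (hcl : c ≤ θ * c1 / 4) (hcu : c * (4 * (C0 + 1)) ≤ 1) (hM : 0 ≤ M)
    (hm : 0 ≤ m) (hε : 0 < ε) (hmε : 2 * m + 3 * ε ≤ 1 / 2) {d n : ℕ} [NeZero n] (hd : 1 ≤ d)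
    {η s v : ℝ} {L : ℕ} (hηd : η = (d : ℝ) ^ (-(1 / 2 - 2 * m - ε))) (hsd : s = (d : ℝ) ^ (-(1 / 2 : ℝ)))
    (hvd : v = (d : ℝ) ^ (-(ε / 64))) (hLd : L = ⌊(d : ℝ) ^ (1 / 2 - 2 * m - 2 * ε)⌋₊)
    (hn : 8 * L ^ 2 + 8 ≤ n) (hv4 : v ≤ 1 / 4) (hv2 : 2400 * v ≤ 1)
    (havg : (n : ℝ)⁻¹ * ∑ j : ZMod n,
      ((v ^ 16) ^ 2 / (4 * Real.sin (2 * Real.pi * (j.val : ℝ) / n) ^ 2 + (v ^ 16) ^ 2)) ^ 2 ≤ 2 * v ^ 16)
    (hIn : In n (d - 1) η ≤ C0 * s) (hIn2 : In n d η ≤ C0 * s)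
    (hlow : ∀ E : ℝ, |E| ≤ (κ + 1) * Real.sqrt d → ∀ x : Tor d n,
      c1 * s ≤ (G hop (fun _ => 0) (pt E (θ * η)) x x).im)
    (K1 : 32 * θ * C0 ≤ c1) (K2 : 40 * C' * v ≤ c1) (K4 : C' * v ≤ 1)
    (K3 : (128 * C0 + 72 * C') * (4 / (θ * c1)) * v ≤ 1)
    (hC' : C' = 2 * C1 + 2 * C2 + 20 + 16 / θ) (hκ : (κ + 1) * v ≤ 1)
    (hQ : (512 * C0 + 288 * C' + (6 + 2 * M ^ 2)) * v ≤ 1)
    (hQ2 : (512 * C0 + 576 * C1 + 5191 + 2 * M ^ 2) * v ≤ 1) (hμ : |μ| ≤ η)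
    (ν : Measure ℝ) [IsProbabilityMeasure ν] {f : ℝ → ℝ} (hfm : Measurable f) {S : Set ℝ} (hS : MeasurableSet S)
    (hf : ∀ t, |f t| ≤ M * (d : ℝ) ^ m) (hfS : ∀ t, t ∉ S → σ * t - μ = f t)
    (hνS : ν S ≤ ENNReal.ofReal (1 / (4 * d)))
    (hI1 : ∀ E, ∫ W, HT E η (fun x => f (W x)) ∂(iid (Tor d n) ν) ≤ A1 * (n : ℝ) ^ d * s * v ^ 32 / η)
    (hI2 : ∀ E, ∫ W, HT E (θ * η) (fun x => f (W x)) ∂(iid (Tor d n) ν) ≤ A2 * (n : ℝ) ^ d * s * v ^ 32 / η)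
    {δ b : ℝ} (hδ : δ = (θ * η) ^ 2 * s * v ^ 32 / 8)
    (hb : b = min (s * v ^ 32 * θ ^ 2 * η / 8) (3 / (4 * (d : ℝ)))) :
    iid (Tor d n) ν {V | ¬ (GG c κ η v L (fun x => σ * V x) ∧ Gloc η v L (fun x => σ * V x))} ≤
      ENNReal.ofReal ((8 * (((⌈2 * (7 * (Real.sqrt (d : ℝ) / v ^ 4)) / δ⌉₊ : ℕ) : ℝ) + 1) + 4) *
        Real.exp (-(b * Real.sqrt ((n : ℝ) ^ d)))) := by
  haveI := iid_prob (Tor d n) ν
  obtain ⟨hη, hη1, hs, hv, hv1, -⟩ := par_facts2 m ε hm hε hmε d hd hηd hsd hvd hLd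
  have hd1 : (1 : ℝ) ≤ d := by exact_mod_cast hd
  have hd0 : (0 : ℝ) < d := by linarith
  have hn0 : (0 : ℝ) < n := by exact_mod_cast Nat.pos_of_ne_zero (NeZero.ne n)
  obtain ⟨N, hN⟩ : ∃ N, N = (n : ℝ) ^ d := ⟨_, rfl⟩
  have hN0 : 0 < N := by rw [hN]; positivity
  have hθη : 0 < θ * η := by positivity
  have hδ0 : 0 < δ := by rw [hδ]; positivity
  obtain ⟨R, hR⟩ : ∃ R, R = 7 * (Real.sqrt d / v ^ 4) := ⟨_, rfl⟩
  have hR0 : 0 ≤ R := by rw [hR]; positivity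
  rw [← hR, ← hN]
  obtain ⟨I, hI⟩ : ∃ I : ℕ, I = ⌈2 * R / δ⌉₊ := ⟨_, rfl⟩
  rw [← hI]
  obtain ⟨t, ht⟩ : ∃ t, t = N * s * v ^ 32 / η := ⟨_, rfl⟩
  have ht0 : 0 < t := by rw [ht]; positivity
  obtain ⟨En, hEn⟩ : ∃ En : ℕ → ℝ, En = fun i : ℕ => -R + δ * (i : ℝ) := ⟨_, rfl⟩
  obtain ⟨P1, hP1⟩ : ∃ P : ℕ → Set (Tor d n → ℝ), P = fun i => {V | (∫ W, HT (En i) η (fun x => f (W x))
    ∂(iid (Tor d n) ν)) + t ≤ HT (En i) η fun x => f (V x)} := ⟨_, rfl⟩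
  obtain ⟨P2, hP2⟩ : ∃ P : ℕ → Set (Tor d n → ℝ), P = fun i => {V | (∫ W, HT (En i) (θ * η) (fun x => f (W x))
    ∂(iid (Tor d n) ν)) + t ≤ HT (En i) (θ * η) fun x => f (V x)} := ⟨_, rfl⟩
  obtain ⟨P3, hP3⟩ : ∃ P : Set (Tor d n → ℝ), P = {V | 1 / (4 * d) * (n : ℝ) ^ d + 3 * N / (4 * d) ≤
    ((Finset.univ.filter fun x => V x ∈ S).card : ℝ)} := ⟨_, rfl⟩
  have hsq : N / Real.sqrt N = Real.sqrt N := Real.div_sqrt
  have m1 : ∀ i, iid (Tor d n) ν (P1 i) ≤ ENNReal.ofReal (4 * Real.exp (-(b * Real.sqrt N))) := fun i => by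
    rw [hP1]
    refine (lCon lBdd lInv lOpb lCont d n ν f hfm (En i) η t hη ht0).trans ?_
    rw [← hN]
    refine exp_le_of hN0 ?_
    have e1 : t * η ^ 2 / (8 * Real.sqrt N) = s * v ^ 32 * 1 ^ 2 * η / 8 * (N / Real.sqrt N) := by
      rw [ht]; field_simp
    rw [e1, hsq]
    refine mul_le_mul_of_nonneg_right ?_ (Real.sqrt_nonneg _)
    rw [hb]
    refine (min_le_left _ _).trans ?_
    gcongr
  have m2 : ∀ i, iid (Tor d n) ν (P2 i) ≤ ENNReal.ofReal (4 * Real.exp (-(b * Real.sqrt N))) := fun i => by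
    rw [hP2]
    refine (lCon lBdd lInv lOpb lCont d n ν f hfm (En i) (θ * η) t hθη ht0).trans ?_
    rw [← hN]
    refine exp_le_of hN0 ?_
    have e1 : t * (θ * η) ^ 2 / (8 * Real.sqrt N) = s * v ^ 32 * θ ^ 2 * η / 8 * (N / Real.sqrt N) := by
      rw [ht]; field_simp
    rw [e1, hsq]
    refine mul_le_mul_of_nonneg_right ?_ (Real.sqrt_nonneg _)
    rw [hb]
    exact min_le_left _ _
  have m3 : iid (Tor d n) ν P3 ≤ ENNReal.ofReal (4 * Real.exp (-(b * Real.sqrt N))) := by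
    rw [hP3]
    refine (lNum d n ν S (1 / (4 * d)) (3 * N / (4 * d)) hS (by positivity) hνS (by positivity)).trans ?_
    rw [← hN]
    refine exp_le_of hN0 ?_
    have e1 : 3 * N / (4 * d) / Real.sqrt N = 3 / (4 * d) * (N / Real.sqrt N) := by ring
    rw [e1, hsq]
    refine mul_le_mul_of_nonneg_right ?_ (Real.sqrt_nonneg _)
    rw [hb]
    exact min_le_right _ _
  have hsub : {V : Tor d n → ℝ | ¬ (GG c κ η v L (fun x => σ * V x) ∧ Gloc η v L (fun x => σ * V x))} ⊆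
      (⋃ i ∈ Finset.range (I + 1), (P1 i ∪ P2 i)) ∪ P3 := by
    intro V hV
    by_contra hcc
    rw [Set.mem_union, not_or] at hcc
    obtain ⟨h12, h3⟩ := hcc
    have h1 : ∀ i ∈ Finset.range (I + 1), V ∉ P1 i ∧ V ∉ P2 i := fun i hi => by
      constructor
      · intro hh
        exact h12 (Set.mem_biUnion (show i ∈ Finset.range (I + 1) from hi) (Or.inl hh))
      · intro hh
        exact h12 (Set.mem_biUnion (show i ∈ Finset.range (I + 1) from hi) (Or.inr hh))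
    have hB1 : ∀ E, |E| ≤ R → HT E η (fun x => f (V x)) ≤ C1 * N * s * v ^ 32 / η := fun E hE => by
      obtain ⟨i, hi, hi2⟩ := net_E hδ0 hR0 hE
      rw [← hI] at hi
      have q1 := (h1 i hi).1
      rw [hP1] at q1
      have q2 : HT (En i) η (fun x => f (V x)) <
        (∫ W, HT (En i) η (fun x => f (W x)) ∂(iid (Tor d n) ν)) + t := not_le.1 q1
      have q3 := lLip lInv lOpb d n E (En i) η hη (fun x => f (V x))
      have q4 := hI1 (En i)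
      have q5 : |E - En i| ≤ δ := by rw [hEn]; exact hi2
      have q6 : 8 * (n : ℝ) ^ d * |E - En i| / η ^ 3 ≤ t := by
        rw [← hN]
        calc 8 * N * |E - En i| / η ^ 3 ≤ 8 * N * δ / η ^ 3 := by gcongr
          _ = N * s * v ^ 32 / η * θ ^ 2 := by rw [hδ]; field_simp
          _ ≤ N * s * v ^ 32 / η * 1 := by
              refine mul_le_mul_of_nonneg_left ?_ (by positivity)
              exact pow_le_one₀ hθ.le hθ1
          _ = t := by rw [ht, mul_one]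
      have q7 := (abs_le.1 q3).2
      have q8 : C1 * N * s * v ^ 32 / η = A1 * N * s * v ^ 32 / η + 2 * t := by rw [hC1, ht]; ring
      rw [← hN] at q4
      rw [q8]; linarith
    have hB2 : ∀ E, |E| ≤ R → HT E (θ * η) (fun x => f (V x)) ≤ C2 * N * s * v ^ 32 / η := fun E hE => by
      obtain ⟨i, hi, hi2⟩ := net_E hδ0 hR0 hE
      rw [← hI] at hi
      have q1 := (h1 i hi).2
      rw [hP2] at q1
      have q2 : HT (En i) (θ * η) (fun x => f (V x)) <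
        (∫ W, HT (En i) (θ * η) (fun x => f (W x)) ∂(iid (Tor d n) ν)) + t := not_le.1 q1
      have q3 := lLip lInv lOpb d n E (En i) (θ * η) hθη (fun x => f (V x))
      have q4 := hI2 (En i)
      have q5 : |E - En i| ≤ δ := by rw [hEn]; exact hi2
      have q6 : 8 * (n : ℝ) ^ d * |E - En i| / (θ * η) ^ 3 ≤ 1 / θ * t := by
        rw [← hN]
        calc 8 * N * |E - En i| / (θ * η) ^ 3 ≤ 8 * N * δ / (θ * η) ^ 3 := by gcongr
          _ = 1 / θ * t := by rw [hδ, ht]; field_simp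
      have q7 := (abs_le.1 q3).2
      have q8 : C2 * N * s * v ^ 32 / η = A2 * N * s * v ^ 32 / η + t + 1 / θ * t := by rw [hC2, ht]; ring
      rw [← hN] at q4
      rw [q8]; linarith
    rw [hN] at hB1 hB2
    rw [hR] at hB1 hB2
    have hSx : ∀ x, x ∉ (Finset.univ.filter fun x => V x ∈ S) → σ * V x - μ = f (V x) := fun x hx => by
      refine hfS (V x) fun hh => hx ?_
      rw [Finset.mem_filter]
      exact ⟨Finset.mem_univ _, hh⟩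
    have hSc : ((Finset.univ.filter fun x => V x ∈ S).card : ℝ) ≤ (n : ℝ) ^ d / d := by
      rw [hP3] at h3
      have h4 : ((Finset.univ.filter fun x => V x ∈ S).card : ℝ) < 1 / (4 * d) * (n : ℝ) ^ d + 3 * N / (4 * d) :=
        not_le.1 h3
      refine h4.le.trans (le_of_eq ?_)
      rw [hN]; field_simp; norm_num
    refine hV ⟨?_, ?_⟩
    · exact det_step hC0 (by rw [hC1]; linarith) (by rw [hC2]; positivity) hc1 hθ hθ1 hc hcl hcu hM hm hε hmε hd hηd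
        hsd hvd hLd hn hv4 hv2 havg hIn hIn2 hlow K1 K2 K4 K3 hC' hκ hQ hμ (U := fun x => f (V x))
        (S := Finset.univ.filter fun x => V x ∈ S) (fun x => hf (V x)) hSx hSc hB1 hB2
    · exact det_stepL hC0 (by rw [hC1]; linarith) hM hm hε hmε hd hηd
        hsd hvd hLd hn hv4 hv2 havg hIn hQ2 hμ (U := fun x => f (V x))
        (S := Finset.univ.filter fun x => V x ∈ S) (fun x => hf (V x)) hSx hSc hB1
  calc iid (Tor d n) ν {V | ¬ (GG c κ η v L (fun x => σ * V x) ∧ Gloc η v L (fun x => σ * V x))} ≤ _ := measure_mono hsub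
    _ ≤ iid (Tor d n) ν (⋃ i ∈ Finset.range (I + 1), (P1 i ∪ P2 i)) + iid (Tor d n) ν P3 := measure_union_le _ _
    _ ≤ (∑ i ∈ Finset.range (I + 1), iid (Tor d n) ν (P1 i ∪ P2 i)) + iid (Tor d n) ν P3 := by
        gcongr
        exact measure_biUnion_finset_le _ _
    _ ≤ (∑ i ∈ Finset.range (I + 1), (ENNReal.ofReal (4 * Real.exp (-(b * Real.sqrt N))) +
        ENNReal.ofReal (4 * Real.exp (-(b * Real.sqrt N))))) + ENNReal.ofReal (4 * Real.exp (-(b * Real.sqrt N))) := by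
        refine add_le_add (Finset.sum_le_sum fun i _ => ?_) m3
        exact (measure_union_le _ _).trans (add_le_add (m1 i) (m2 i))
    _ = _ := by
        rw [Finset.sum_const, Finset.card_range, ← ENNReal.ofReal_add (by positivity) (by positivity),
          nsmul_eq_mul, ← ENNReal.ofReal_natCast, ← ENNReal.ofReal_mul (by positivity),
          ← ENNReal.ofReal_add (by positivity) (by positivity)]
        congr 1
        push_cast; ring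


theorem main3 (κ : ℝ) (hκ : 0 < κ) : ∃ c : ℝ, 0 < c ∧ ∀ α m ε M p : ℝ, 0 ≤ α → 1 ≤ p → 1 ≤ (m - α) * p →
    0 < ε → 2 * m + 3 * ε ≤ 1 / 2 → 1 ≤ M → ∃ d0 : ℕ, 1 ≤ d0 ∧ ∀ d : ℕ, d0 ≤ d →
    ∀ (ν : Measure ℝ) [IsProbabilityMeasure ν], Integrable (fun t => |t| ^ p) ν → ∫ t, t ∂ν = 0 →
    ∀ σ : ℝ, |σ| ^ p * ∫ t, |t| ^ p ∂ν ≤ (M * (d : ℝ) ^ α) ^ p →
      ∀ᵐ ω ∂(Measure.infinitePi fun _ : Fin d → ℤ => ν), ∀ᶠ n : ℕ in atTop, ∀ [NeZero n],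
        GG c κ ((d : ℝ) ^ (-(1 / 2 - 2 * m - ε))) ((d : ℝ) ^ (-(ε / 64)))
          ⌊(d : ℝ) ^ (1 / 2 - 2 * m - 2 * ε)⌋₊ (fun x => σ * rs n ω x) ∧
        Gloc ((d : ℝ) ^ (-(1 / 2 - 2 * m - ε))) ((d : ℝ) ^ (-(ε / 64)))
          ⌊(d : ℝ) ^ (1 / 2 - 2 * m - 2 * ε)⌋₊ (fun x => σ * rs n ω x) := by
  obtain ⟨C0, hC0, hfre⟩ := lFre
  obtain ⟨cκ, dκ, hcκ, hlow⟩ := lLow (κ + 1) (by linarith)
  obtain ⟨c1, hc1d⟩ : ∃ c1, c1 = cκ / 2 := ⟨_, rfl⟩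
  have hc1 : 0 < c1 := by rw [hc1d]; positivity
  obtain ⟨θ, hθd⟩ : ∃ θ, θ = min 1 (c1 / (32 * C0)) := ⟨_, rfl⟩
  have hθ : 0 < θ := by rw [hθd]; exact lt_min one_pos (by positivity)
  have hθ1 : θ ≤ 1 := by rw [hθd]; exact min_le_left _ _
  have K1 : 32 * θ * C0 ≤ c1 := by
    have : θ ≤ c1 / (32 * C0) := by rw [hθd]; exact min_le_right _ _
    rw [le_div_iff₀ (by positivity)] at this
    linarith
  refine ⟨min (θ * c1 / 4) (1 / (4 * (C0 + 1))), lt_min (by positivity) (by positivity), ?_⟩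
  intro α m ε M p hα hp hmp hε hmε hM
  have hM0 : 0 < M := by linarith
  have hm : 0 ≤ m := by
    by_contra h
    have : (m - α) * p ≤ 0 := mul_nonpos_of_nonpos_of_nonneg (by linarith) (by linarith)
    linarith
  obtain ⟨a, had⟩ : ∃ a, a = 1 / 2 - 2 * m - ε := ⟨_, rfl⟩
  have ha : 0 < a := by rw [had]; linarith
  obtain ⟨K, hKd⟩ : ∃ K, K = θ ^ (-(1 / a)) := ⟨_, rfl⟩
  have hK : 1 ≤ K := by
    rw [hKd]; exact Real.one_le_rpow_of_pos_of_le_one_of_nonpos hθ hθ1 (by rw [neg_nonpos]; positivity)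
  obtain ⟨A1, hA1, T1⟩ := torus_law lem lGze lFou lFre (8 * M) m a ε 1 (by positivity) hm ha.le hε
    (by rw [had]; linarith) le_rfl
  obtain ⟨A2, hA2, T2⟩ := torus_law lem lGze lFou lFre (8 * M) m a ε K (by positivity) hm ha.le hε
    (by rw [had]; linarith) hK
  obtain ⟨C1, hC1⟩ : ∃ C1, C1 = A1 + 2 := ⟨_, rfl⟩
  obtain ⟨C2, hC2⟩ : ∃ C2, C2 = A2 + 1 + 1 / θ := ⟨_, rfl⟩
  have hC1' : 0 ≤ C1 := by rw [hC1]; linarith
  have hC2' : 0 ≤ C2 := by rw [hC2]; positivity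
  obtain ⟨C', hC'd⟩ : ∃ C', C' = 2 * C1 + 2 * C2 + 20 + 16 / θ := ⟨_, rfl⟩
  have hC'0 : 0 < C' := by rw [hC'd]; positivity
  obtain ⟨Q, hQd⟩ : ∃ Q : ℝ, Q = 2400 + 1 / θ + 40 * C' / c1 + C' + (128 * C0 + 72 * C') * (4 / (θ * c1)) +
    (512 * C0 + 288 * C' + (6 + 2 * (8 * M) ^ 2)) + (κ + 1) +
    (512 * C0 + 576 * C1 + 5191 + 2 * (8 * M) ^ 2) := ⟨_, rfl⟩
  have p1 : 0 < 1 / θ := by positivity
  have p2 : 0 < 40 * C' / c1 := by positivity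
  have p3 : 0 < (128 * C0 + 72 * C') * (4 / (θ * c1)) := by positivity
  have p4 : 0 < 512 * C0 + 288 * C' + (6 + 2 * (8 * M) ^ 2) := by positivity
  have p5 : 0 < 512 * C0 + 576 * C1 + 5191 + 2 * (8 * M) ^ 2 := by positivity
  have hQ : 0 < Q := by rw [hQd]; positivity
  obtain ⟨D, hD⟩ := exists_small2 ε hε Q hQ
  refine ⟨max (max D dκ) (max 3 (max ⌈K⌉₊ ⌈M ^ 2⌉₊)),
    le_trans (by norm_num) (le_max_of_le_right (le_max_left 3 _)), ?_⟩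
  intro d hd ν _ hint hν0 σ hP
  have hdD : D ≤ d := (le_max_left _ _).trans ((le_max_left _ _).trans hd)
  have hdκ : dκ ≤ d := (le_max_right _ _).trans ((le_max_left _ _).trans hd)
  have hd3 : 3 ≤ d := (le_max_left _ _).trans ((le_max_right _ _).trans hd)
  have hdKM : max ⌈K⌉₊ ⌈M ^ 2⌉₊ ≤ d := (le_max_right _ _).trans ((le_max_right _ _).trans hd)
  have hdK : K ≤ d := (Nat.le_ceil K).trans (by exact_mod_cast (le_max_left _ _).trans hdKM)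
  have hdM : M ^ 2 ≤ d := (Nat.le_ceil (M ^ 2)).trans (by exact_mod_cast (le_max_right _ _).trans hdKM)
  have hd1 : 1 ≤ d := by omega
  have hd1' : (1 : ℝ) ≤ d := by exact_mod_cast hd1
  have hd0 : (0 : ℝ) < d := by linarith
  obtain ⟨η, hηd⟩ : ∃ η, η = (d : ℝ) ^ (-(1 / 2 - 2 * m - ε)) := ⟨_, rfl⟩
  obtain ⟨s, hsd⟩ : ∃ s, s = (d : ℝ) ^ (-(1 / 2 : ℝ)) := ⟨_, rfl⟩
  obtain ⟨v, hvd⟩ : ∃ v, v = (d : ℝ) ^ (-(ε / 64)) := ⟨_, rfl⟩
  obtain ⟨L, hLd⟩ : ∃ L, L = ⌊(d : ℝ) ^ (1 / 2 - 2 * m - 2 * ε)⌋₊ := ⟨_, rfl⟩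
  have hηa : η = (d : ℝ) ^ (-a) := by rw [hηd, had]
  obtain ⟨hη, hη1, hs, hv, hv1, hL, hLη, hL2, hsη, hηs, hsd1, hsη2⟩ :=
    par_facts2 m ε hm hε hmε d hd1 hηd hsd hvd hLd
  have hvQ : v * Q ≤ 1 := by rw [hvd]; exact hD d hdD
  have sub : ∀ x : ℝ, x ≤ Q → x * v ≤ 1 := fun x hx => by
    have := mul_le_mul_of_nonneg_left hx hv.le
    linarith
  have hv2 : 2400 * v ≤ 1 := sub _ (by rw [hQd]; linarith)
  have hv4 : v ≤ 1 / 4 := by linarith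
  have hvθ : v ≤ θ := by
    have := sub (1 / θ) (by rw [hQd]; linarith)
    rw [one_div, inv_mul_le_iff₀ hθ] at this
    linarith
  have K2 : 40 * C' * v ≤ c1 := by
    have := sub (40 * C' / c1) (by rw [hQd]; linarith)
    rw [div_mul_eq_mul_div, div_le_one hc1] at this
    exact this
  have K4 : C' * v ≤ 1 := sub _ (by rw [hQd]; linarith)
  have K3 : (128 * C0 + 72 * C') * (4 / (θ * c1)) * v ≤ 1 := sub _ (by rw [hQd]; linarith)
  have K5 : (512 * C0 + 288 * C' + (6 + 2 * (8 * M) ^ 2)) * v ≤ 1 := sub _ (by rw [hQd]; linarith)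
  have K6 : (κ + 1) * v ≤ 1 := sub _ (by rw [hQd]; linarith)
  have K7 : (512 * C0 + 576 * C1 + 5191 + 2 * (8 * M) ^ 2) * v ≤ 1 := sub _ (by rw [hQd]; linarith)
  have hKη : (K * d) ^ (-a) = θ * η := by
    rw [Real.mul_rpow (by linarith) hd0.le, hηa, hKd, ← Real.rpow_mul hθ.le]
    congr 1
    have : -(1 / a) * -a = 1 := by field_simp
    rw [this, Real.rpow_one]
  have h1η : (1 * (d : ℝ)) ^ (-a) = η := by rw [one_mul, hηa]
  have hexp : (d : ℝ) ^ (-(1 - 2 * (1 / 2 - 2 * m - ε) - 2 * m - ε / 2)) = s * v ^ 32 / η := by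
    rw [← hηs]; field_simp
  obtain ⟨μ, f, S, hfm, hS, hμ, hf, hfS, hνS, hmean, hsupp⟩ :=
    trunc ν hα hp hmp hε hmε hM hd1 hdM hint hν0 hP
  rw [← hηd] at hμ
  haveI : IsProbabilityMeasure (ν.map f) := Measure.isProbabilityMeasure_map hfm.aemeasurable
  obtain ⟨n1, hn1⟩ := T1 d hd3 hd1'
  obtain ⟨n2, hn2⟩ := T2 d hd3 hdK
  obtain ⟨n3, hn3⟩ := hfre 1 d le_rfl hd3 hd1'
  obtain ⟨n4, hn4⟩ := lAvg (v ^ 16) (by positivity) (pow_le_one₀ hv.le hv1)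
  obtain ⟨n5, hn5⟩ := lLob d (θ * η) (c1 * s) (by positivity) (by positivity)
  rw [← hηd, ← hvd, ← hLd]
  obtain ⟨δ, hδ⟩ : ∃ δ, δ = (θ * η) ^ 2 * s * v ^ 32 / 8 := ⟨_, rfl⟩
  obtain ⟨b, hb⟩ : ∃ b, b = min (s * v ^ 32 * θ ^ 2 * η / 8) (3 / (4 * (d : ℝ))) := ⟨_, rfl⟩
  have hb0 : 0 < b := by rw [hb]; exact lt_min (by positivity) (by positivity)
  refine as_of hd1 ν (fun n _ V => GG _ κ η v L V ∧ Gloc η v L V) hb0
    (C := 8 * (((⌈2 * (7 * (Real.sqrt (d : ℝ) / v ^ 4)) / δ⌉₊ : ℕ) : ℝ) + 1) + 4) (by positivity)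
    (n0 := max (max n1 n2) (max (max n3 n4) (max n5 (8 * L ^ 2 + 8)))) ?_
  intro n _ hn
  have g1 : n1 ≤ n := (le_max_left _ _).trans ((le_max_left _ _).trans hn)
  have g2 : n2 ≤ n := (le_max_right _ _).trans ((le_max_left _ _).trans hn)
  have g34 : max n3 n4 ≤ n := (le_max_left _ _).trans ((le_max_right _ _).trans hn)
  have g3 : n3 ≤ n := (le_max_left _ _).trans g34
  have g4 : n4 ≤ n := (le_max_right _ _).trans g34
  have g56 : max n5 (8 * L ^ 2 + 8) ≤ n := (le_max_right _ _).trans ((le_max_right _ _).trans hn)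
  have g5 : n5 ≤ n := (le_max_left _ _).trans g56
  have g6 : 8 * L ^ 2 + 8 ≤ n := (le_max_right _ _).trans g56
  have hI := hn3 n g3 η (by rw [one_mul]; exact hsη2)
  rw [← hsd] at hI
  have hHT1 : ∀ E : ℝ, ∫ W, HT E η (fun x => f (W x)) ∂(iid (Tor d n) ν) ≤
      A1 * (n : ℝ) ^ d * s * v ^ 32 / η := fun E => by
    have := hn1 n g1 E (ν.map f) hsupp hmean
    rw [h1η, had, hexp] at this
    rw [int_map ν hfm E η hη]
    refine this.trans (le_of_eq ?_)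
    ring
  have hHT2 : ∀ E : ℝ, ∫ W, HT E (θ * η) (fun x => f (W x)) ∂(iid (Tor d n) ν) ≤
      A2 * (n : ℝ) ^ d * s * v ^ 32 / η := fun E => by
    have := hn2 n g2 E (ν.map f) hsupp hmean
    rw [hKη] at this
    rw [had, hexp] at this
    rw [int_map ν hfm E (θ * η) (by positivity)]
    refine this.trans (le_of_eq ?_)
    ring
  have hlow' : ∀ E : ℝ, |E| ≤ (κ + 1) * Real.sqrt d → ∀ x : Tor d n,
      c1 * s ≤ (G hop (fun _ => 0) (pt E (θ * η)) x x).im := fun E hE x => by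
    have hsq : 0 < Real.sqrt d := Real.sqrt_pos.2 hd0
    have hs1 : s = 1 / Real.sqrt d := by rw [eq_div_iff hsq.ne']; exact hsd1
    have hlow1 := hlow d E (θ * η) hdκ hd1 hE (by
      rw [← hs1]
      refine hsη.trans ?_
      have h1 : v ^ 64 ≤ θ := by
        have := pow_le_pow_of_le_one hv.le hv1 (show 1 ≤ 64 by norm_num)
        rw [pow_one] at this; linarith
      calc η * v ^ 64 ≤ η * θ := mul_le_mul_of_nonneg_left h1 hη.le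
        _ = _ := mul_comm _ _) (by
      calc θ * η ≤ 1 * 1 := mul_le_mul hθ1 hη1 hη.le (by norm_num)
        _ = 1 := one_mul _)
    have h2 := hn5 n g5 E x
    have h3 : cκ / Real.sqrt d = 2 * (c1 * s) := by rw [hs1, hc1d]; ring
    rw [h3] at hlow1
    linarith
  refine prob_two hC0 hA1 hA2 hC1 hC2 hc1 hθ hθ1 (lt_min (by positivity) (by positivity)) (min_le_left _ _) ?_
    (by positivity) hm hε hmε hd1 hηd hsd hvd hLd g6 hv4 hv2 (hn4 n g4) hI.2 hI.1 hlow' K1 K2 K4 K3 hC'd K6 K5 K7 hμ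
    ν hfm hS hf hfS hνS hHT1 hHT2 hδ hb
  calc min (θ * c1 / 4) (1 / (4 * (C0 + 1))) * (4 * (C0 + 1)) ≤ 1 / (4 * (C0 + 1)) * (4 * (C0 + 1)) :=
        mul_le_mul_of_nonneg_right (min_le_right _ _) (by positivity)
    _ = 1 := by field_simp


end Pool.Agent.Q218.HB
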