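import Pool.Agent.Q218.HB.TorL

/-!
# Project HB, second part: statements of the lemma jobs

All energies at once, all laws with moments, stability under perturbations of small rank.
Each `S_X` is the statement of job X; a job may assume the statements named in it as arrows.
-/

set_option autoImplicit false

open MeasureTheory

namespace Pool.Agent.Q218.HB

/-- orthonormal basis -/
def ON {Λ : Type} [Fintype Λ] [DecidableEq Λ] (φ : Λ → Λ → ℂ) : Prop :=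
  ∀ j k, ∑ x, (starRingEnd ℂ) (φ j x) * φ k x = if j = k then 1 else 0

/-- the matrix `∑_j (e_j - z)⁻¹ φ_j φ_j*` -/
noncomputable def GA {Λ : Type} [Fintype Λ] (φ : Λ → Λ → ℂ) (e : Λ → ℝ) (z : ℂ) : Matrix Λ Λ ℂ :=
  fun x y => ∑ j, ((e j : ℂ) - z)⁻¹ * φ j x * (starRingEnd ℂ) (φ j y)

/-- JOB RNK. The Hilbert-Schmidt norm is at most `√rank` times the operator norm. Take an orthonormal basis of
`(ker X)ᗮ` (dimension `rank X`) and one of `ker X`; the Hilbert-Schmidt norm can be computed in every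
orthonormal basis (see `EB.hs` in `Pool/Agent/Q218/HB/Det.lean`, which only uses orthonormality, `EB.comp`). -/
def S_RNK : Prop := ∀ (Λ : Type) [Fintype Λ] [DecidableEq Λ] (X : Matrix Λ Λ ℂ) (K : ℝ), 0 ≤ K →
  (∀ f : Λ → ℂ, ∑ x, ‖∑ y, X x y * f y‖ ^ 2 ≤ K ^ 2 * ∑ x, ‖f x‖ ^ 2) →
  ∑ x, ∑ y, ‖X x y‖ ^ 2 ≤ (X.rank : ℝ) * K ^ 2

/-- JOB RSA. `A φ_j = e_j φ_j`, so `GA (A - z) = (A - z) GA = 1` (`∑_j φ_j φ_j* = 1`, see `EB.comp` in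
`Pool/Agent/Q218/HB/Det.lean`), `GA - G = -GA (A - H) G`, rank at most `rank (A - H)`; `‖GA f‖ ≤ ‖f‖/η`
(Parseval) and `‖G f‖ ≤ ‖f‖/η` (OPB), so RNK with `K = 2/η`. -/
def S_RSA : Prop := S_RNK → S_INV → S_OPB → ∀ (Λ : Type) [Fintype Λ] [DecidableEq Λ] (h : Λ → Λ → ℝ)
  (V : Λ → ℝ) (A : Matrix Λ Λ ℂ) (φ : Λ → Λ → ℂ) (e : Λ → ℝ), (∀ x y, h x y = h y x) → ON φ →
  (∀ j x, ∑ y, A x y * φ j y = (e j : ℂ) * φ j x) → ∀ E η : ℝ, 0 < η →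
  ∑ x, ∑ y, ‖GA φ e (pt E η) x y - G h V (pt E η) x y‖ ^ 2 ≤ 4 * ((A - Hm h V).rank : ℝ) / η ^ 2

open Classical in
/-- JOB TAI. `S = {j : R < |e_j|}`, `W` the span of the `φ_j`, `j ∈ S` (dimension `|S|`), `U = W ∩ ker (A - B)`,
`dim U ≥ |S| - rank (A - B)`. For `u ∈ U`: `B u = A u` and `‖A u‖ ≥ R ‖u‖`. Sum `‖B u_i‖²` over an
orthonormal basis of `U` (at most the Hilbert-Schmidt norm of `B`). -/
def S_TAI : Prop := ∀ (Λ : Type) [Fintype Λ] [DecidableEq Λ] (A B : Matrix Λ Λ ℂ) (φ : Λ → Λ → ℂ)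
  (e : Λ → ℝ), ON φ → (∀ j x, ∑ y, A x y * φ j y = (e j : ℂ) * φ j x) → ∀ R : ℝ, 0 ≤ R →
  R ^ 2 * (((Finset.univ.filter fun j => R < |e j|).card : ℝ) - (A - B).rank) ≤ ∑ x, ∑ y, ‖B x y‖ ^ 2

/-- JOB LIP. `X(E) = G - G₀` at `E + iη`. In the Hilbert-Schmidt norm: `G(E) - G(E') = (E - E') G(E) G(E')` (see
DIFZ, `Pool/Agent/Q164/HB/Difz.lean`) has norm at most `|E - E'| √N/η²`, `N = n^d` (`‖G‖ ≤ 1/η`,
`‖G‖_HS ≤ √N/η`), `‖X‖ ≤ 2 √N/η`, and `|‖X‖² - ‖X'‖²| ≤ ‖X - X'‖ (‖X‖ + ‖X'‖)`. -/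
def S_LIP : Prop := S_INV → S_OPB → ∀ (d n : ℕ) [NeZero n] (E E' η : ℝ), 0 < η → ∀ V : Tor d n → ℝ,
  |HT E η V - HT E' η V| ≤ 8 * (n : ℝ) ^ d * |E - E'| / η ^ 3

/-- JOB BDD. `V' = update V x t`, `G' - G = (V x - t) u vᵀ`, `u = G'(·, x)`, `v = G(x, ·)`, has rank one, so its
Hilbert-Schmidt norm `|V x - t| ‖u‖ ‖v‖` is its operator norm, at most `2/η` (apply it to `conj v`).
`‖X'‖² - ‖X‖² = Re ⟨X' - X, X' + X⟩` in the Hilbert-Schmidt scalar product with `X = G - G₀`, `X' = G' - G₀`,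
and `|⟨c u vᵀ, Y⟩| ≤ |c| ‖u‖ ‖v‖ ‖Y‖`, `‖Y‖ ≤ 4/η` the operator norm of `X' + X`. -/
def S_BDD : Prop := S_INV → S_OPB → ∀ (d n : ℕ) [NeZero n] (E η : ℝ), 0 < η → ∀ (V : Tor d n → ℝ)
  (x : Tor d n) (t : ℝ), |HT E η (Function.update V x t) - HT E η V| ≤ 8 / η ^ 2

/-- JOB CON. `Pool.Agent.H4R2.AE.Conc.conc` (starting files) with `F V = HT E η (f ∘ V)`, `K = 8 √N/η²`,
`N = n^d`: by BDD the differences are at most `8/η²`. `HT` is continuous (CONT) and bounded (`HT_cb` in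
`Pool/Agent/Q218/HB/Fin1.lean`). -/
def S_CON : Prop := S_BDD → S_INV → S_OPB → S_CONT → ∀ (d n : ℕ) [NeZero n] (ν : Measure ℝ)
  [IsProbabilityMeasure ν] (f : ℝ → ℝ), Measurable f → ∀ E η t : ℝ, 0 < η → 0 < t →
  iid (Tor d n) ν {V | (∫ W, HT E η (fun x => f (W x)) ∂(iid (Tor d n) ν)) + t ≤ HT E η fun x => f (V x)} ≤
    ENNReal.ofReal (4 * Real.exp (-(t * η ^ 2 / (8 * Real.sqrt ((n : ℝ) ^ d)))))

open Classical in
/-- JOB NUM. `Pool.Agent.H4R2.AE.Conc.conc` (starting files) with `F V` the number of the `x` with `V x ∈ S`,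
`K = √N`, `N = n^d`; the mean is `N ν(S) ≤ q N`. -/
def S_NUM : Prop := ∀ (d n : ℕ) [NeZero n] (ν : Measure ℝ) [IsProbabilityMeasure ν] (S : Set ℝ) (q t : ℝ),
  MeasurableSet S → 0 ≤ q → ν S ≤ ENNReal.ofReal q → 0 < t →
  iid (Tor d n) ν {V | q * (n : ℝ) ^ d + t ≤ ((Finset.univ.filter fun x => V x ∈ S).card : ℝ)} ≤
    ENNReal.ofReal (4 * Real.exp (-(t / Real.sqrt ((n : ℝ) ^ d))))

/-- JOB PSH. The restriction of the iid field on `ℤ^d` to the box `{0, ..., n-1}^d`, identified with the torus,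
is iid (the map `x ↦ (val (x i))_i` is injective; look for `infinitePi_map_restrict`, `infinitePi_map_piCongrLeft`,
or characterize by boxes `Measure.pi_eq`). -/
def S_PSH : Prop := ∀ (d n : ℕ) [NeZero n] (ν : Measure ℝ) [IsProbabilityMeasure ν],
  (Measure.infinitePi fun _ : Fin d → ℤ => ν).map
    (fun ω (x : Tor d n) => ω fun i => ((x i).val : ℤ)) = iid (Tor d n) ν

/-- JOB TRN. Truncation at `T`; `μ = ∫ t 1_{|t| ≤ T} dν = -∫ t 1_{|t| > T} dν`, Markov's inequality. -/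
def S_TRN : Prop := ∀ (ν : Measure ℝ) [IsProbabilityMeasure ν] (p P T : ℝ), 1 ≤ p → 0 < T →
  Integrable (fun t => |t| ^ p) ν → ∫ t, |t| ^ p ∂ν ≤ P → ∫ t, t ∂ν = 0 →
  ∃ μ : ℝ, |μ| ≤ P / T ^ (p - 1) ∧ ν {t | T < |t|} ≤ ENNReal.ofReal (P / T ^ p) ∧
    ∫ t, t ∂(ν.map fun t => (if |t| ≤ T then t else 0) - μ) = 0 ∧
    (ν.map fun t => (if |t| ≤ T then t else 0) - μ) (Set.Icc (-(2 * T)) (2 * T))ᶜ = 0

/-- JOB DIA. If `V x = W x` for all `x` outside `S`, the rank of `Hm h V - Hm h W` is at most `|S|`. -/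
def S_DIA : Prop := ∀ (Λ : Type) [Fintype Λ] [DecidableEq Λ] (h : Λ → Λ → ℝ) (V W : Λ → ℝ) (S : Finset Λ),
  (∀ x, x ∉ S → V x = W x) → (Hm h V - Hm h W).rank ≤ S.card

/-- JOB SUM. For `b > 0`, `d ≥ 1` and any `C`: `∑_n C exp(-b √(n^d))` converges. -/
def S_SUM : Prop := ∀ (d : ℕ) (b C : ℝ), 1 ≤ d → 0 < b →
  Summable fun n : ℕ => C * Real.exp (-(b * Real.sqrt ((n : ℝ) ^ d)))

end Pool.Agent.Q218.HB
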