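import Pool.Agent.Q218.HB.Det2
import Pool.Agent.Q218.HB.Stm4

/-! Orthonormal bases instead of eigenfunctions: the matrix `GA`. -/

set_option autoImplicit false
set_option linter.unusedSectionVars false
set_option linter.unusedVariables false

open MeasureTheory

namespace Pool.Agent.Q218.HB

section

variable {d n : ℕ} [NeZero n] {φ : Tor d n → Tor d n → ℂ} {e : Tor d n → ℝ}

theorem ON.comp (h : ON φ) (x y : Tor d n) :
    ∑ j, φ j x * (starRingEnd ℂ) (φ j y) = if x = y then 1 else 0 := by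
  obtain ⟨U, hU⟩ : ∃ U : Matrix (Tor d n) (Tor d n) ℂ, U = fun j x => (starRingEnd ℂ) (φ j x) := ⟨_, rfl⟩
  obtain ⟨W, hW⟩ : ∃ W : Matrix (Tor d n) (Tor d n) ℂ, W = fun x k => φ k x := ⟨_, rfl⟩
  have h1 : U * W = 1 := by
    ext j k
    rw [Matrix.mul_apply, hU, hW, Matrix.one_apply]
    exact h j k
  have h2 : W * U = 1 := mul_eq_one_comm.1 h1
  have h3 := congrFun (congrFun h2 x) y
  rw [Matrix.mul_apply, hU, hW, Matrix.one_apply] at h3
  exact h3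

/-- Parseval -/
theorem ON.hs (h : ON φ) (A : Matrix (Tor d n) (Tor d n) ℂ) :
    ∑ j, ∑ x, ‖∑ y, A x y * φ j y‖ ^ 2 = ∑ x, ∑ y, ‖A x y‖ ^ 2 := by
  rw [Finset.sum_comm]
  refine Finset.sum_congr rfl fun x _ => ?_
  have h1 : ∀ j, ((‖∑ y, A x y * φ j y‖ ^ 2 : ℝ) : ℂ) =
      ∑ y, ∑ w, A x y * (starRingEnd ℂ) (A x w) * (φ j y * (starRingEnd ℂ) (φ j w)) := fun j => by
    rw [← Complex.normSq_eq_norm_sq, ← Complex.mul_conj, map_sum, Finset.sum_mul_sum]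
    refine Finset.sum_congr rfl fun y _ => Finset.sum_congr rfl fun w _ => ?_
    rw [map_mul]; ring
  have h2 : ((∑ j, ‖∑ y, A x y * φ j y‖ ^ 2 : ℝ) : ℂ) = ((∑ y, ‖A x y‖ ^ 2 : ℝ) : ℂ) := by
    push_cast
    have h1' : ∀ j, ((‖∑ y, A x y * φ j y‖ : ℝ) : ℂ) ^ 2 =
      ∑ y, ∑ w, A x y * (starRingEnd ℂ) (A x w) * (φ j y * (starRingEnd ℂ) (φ j w)) := fun j => by
      rw [← h1 j]; push_cast; rfl
    rw [Finset.sum_congr rfl fun j _ => h1' j, Finset.sum_comm]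
    refine Finset.sum_congr rfl fun y _ => ?_
    rw [Finset.sum_comm]
    have h3 : ∀ w, ∑ j, A x y * (starRingEnd ℂ) (A x w) * (φ j y * (starRingEnd ℂ) (φ j w)) =
        if y = w then A x y * (starRingEnd ℂ) (A x w) else 0 := fun w => by
      rw [← Finset.mul_sum, h.comp y w]
      split_ifs <;> simp
    rw [Finset.sum_congr rfl fun w _ => h3 w, Finset.sum_ite_eq]
    simp only [Finset.mem_univ, if_true]
    rw [Complex.mul_conj, Complex.normSq_eq_norm_sq]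
    push_cast; rfl
  exact_mod_cast h2

theorem ON.norm_one (h : ON φ) (j : Tor d n) : ∑ x, ‖φ j x‖ ^ 2 = 1 := by
  have := h j j
  rw [if_pos rfl] at this
  have h8 : ((∑ x, ‖φ j x‖ ^ 2 : ℝ) : ℂ) = 1 := by
    rw [← this]
    push_cast
    refine Finset.sum_congr rfl fun x _ => ?_
    rw [mul_comm, Complex.mul_conj, Complex.normSq_eq_norm_sq]; push_cast; rfl
  exact_mod_cast h8

theorem GA_mul (h : ON φ) (e : Tor d n → ℝ) (z : ℂ) (j x : Tor d n) :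
    ∑ y, GA φ e z x y * φ j y = ((e j : ℂ) - z)⁻¹ * φ j x := by
  unfold GA
  simp only [Finset.sum_mul]
  rw [Finset.sum_comm]
  have h1 : ∀ k, ∑ y, ((e k : ℂ) - z)⁻¹ * φ k x * (starRingEnd ℂ) (φ k y) * φ j y =
      if k = j then ((e k : ℂ) - z)⁻¹ * φ k x else 0 := fun k => by
    have h2 : ∀ y, ((e k : ℂ) - z)⁻¹ * φ k x * (starRingEnd ℂ) (φ k y) * φ j y =
        ((e k : ℂ) - z)⁻¹ * φ k x * ((starRingEnd ℂ) (φ k y) * φ j y) := fun y => by ring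
    rw [Finset.sum_congr rfl fun y _ => h2 y, ← Finset.mul_sum, h k j]
    split_ifs <;> simp
  rw [Finset.sum_congr rfl fun k _ => h1 k, Finset.sum_ite_eq']
  simp

/-- the Hilbert-Schmidt norm of `GA - G₀` -/
noncomputable def HX (φ : Tor d n → Tor d n → ℂ) (e : Tor d n → ℝ) (E η : ℝ) : ℝ :=
  ∑ x, ∑ y, ‖GA φ e (pt E η) x y - G hop (fun _ => 0) (pt E η) x y‖ ^ 2

theorem HX_nonneg (φ : Tor d n → Tor d n → ℂ) (e : Tor d n → ℝ) (E η : ℝ) : 0 ≤ HX φ e E η :=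
  Finset.sum_nonneg fun _ _ => Finset.sum_nonneg fun _ _ => by positivity

theorem GA_hs (h : ON φ) (E η : ℝ) (hη : 0 < η) :
    ∑ x, ∑ y, ‖GA φ e (pt E η) x y‖ ^ 2 = ∑ j, 1 / ((e j - E) ^ 2 + η ^ 2) := by
  rw [← h.hs]
  refine Finset.sum_congr rfl fun j _ => ?_
  simp only [GA_mul h, norm_mul, norm_inv, mul_pow, inv_pow]
  rw [← Finset.mul_sum, h.norm_one, mul_one]
  have h8 : ‖(e j : ℂ) - pt E η‖ ^ 2 = (e j - E) ^ 2 + η ^ 2 := by
    rw [← Complex.normSq_eq_norm_sq, Complex.normSq_apply]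
    simp [pt]; ring
  rw [h8, one_div]

theorem famX (hor0 : ON φ) (E η : ℝ) (hη : 0 < η) :
    (∑ j : {j // |e j - E| ≤ η}, ∑ x, ‖φ j.1 x - ((e j.1 : ℂ) - pt E η) *
        ∑ y, G hop (fun _ => 0) (pt E η) x y * φ j.1 y‖ ^ 2 ≤ 2 * η ^ 2 * HX φ e E η) ∧
    ∀ (i : Fin d) (ε : ℝ), 0 < ε → ∑ j : {j // |e j - E| ≤ η}, ∑ x, ‖∑ y, Km i ε x y * φ j.1 y‖ ^ 2 ≤
      4 * (η ^ 2 * ∑ x : Tor d n, ∑ y : Tor d n, ‖KG i ε (pt E η) x y‖ ^ 2) + 4 * η ^ 2 * HX φ e E η := by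
  have hor : ∀ j k : {j // |e j - E| ≤ η}, ∑ x, (starRingEnd ℂ) (φ j.1 x) * φ k.1 x = if j = k then 1 else 0 :=
    fun j k => by
      rw [hor0 j.1 k.1]
      by_cases hjk : j = k
      · rw [if_pos hjk, if_pos (congrArg _ hjk)]
      · rw [if_neg hjk, if_neg fun hh => hjk (Subtype.ext hh)]
  have hc : ∀ j : {j // |e j - E| ≤ η}, ‖(e j.1 : ℂ) - pt E η‖ ^ 2 ≤ 2 * η ^ 2 := by
    intro j
    rw [← Complex.normSq_eq_norm_sq, Complex.normSq_apply]
    have e1 : ((e j.1 : ℂ) - pt E η).re = e j.1 - E := by simp [pt]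
    have e2 : ((e j.1 : ℂ) - pt E η).im = -η := by simp [pt]
    rw [e1, e2]
    have h4 := abs_le.1 j.2
    nlinarith [h4.1, h4.2]
  have hr : ∀ (j : {j // |e j - E| ≤ η}) x, φ j.1 x - ((e j.1 : ℂ) - pt E η) *
      ∑ y, G hop (fun _ => 0) (pt E η) x y * φ j.1 y =
      ((e j.1 : ℂ) - pt E η) * ∑ y, (GA φ e (pt E η) x y - G hop (fun _ => 0) (pt E η) x y) * φ j.1 y := by
    intro j x
    have hne : (e j.1 : ℂ) - pt E η ≠ 0 := fun h0 => by
      have := congrArg Complex.im h0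
      simp [pt] at this
      exact hη.ne' this
    have h5 : φ j.1 x = ((e j.1 : ℂ) - pt E η) * ∑ y, GA φ e (pt E η) x y * φ j.1 y := by
      rw [GA_mul hor0, ← mul_assoc, mul_inv_cancel₀ hne, one_mul]
    have h6 : ∑ y, (GA φ e (pt E η) x y - G hop (fun _ => 0) (pt E η) x y) * φ j.1 y =
        (∑ y, GA φ e (pt E η) x y * φ j.1 y) - ∑ y, G hop (fun _ => 0) (pt E η) x y * φ j.1 y := by
      rw [← Finset.sum_sub_distrib]
      apply Finset.sum_congr rfl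
      intro y _
      ring
    rw [h6, mul_sub, ← h5]
  have hfam : ∀ A : Matrix (Tor d n) (Tor d n) ℂ,
      ∑ j : {j // |e j - E| ≤ η}, ∑ x, ‖((e j.1 : ℂ) - pt E η) * ∑ y, A x y * φ j.1 y‖ ^ 2 ≤
        2 * η ^ 2 * ∑ x, ∑ y, ‖A x y‖ ^ 2 := by
    intro A
    have hb := Pool.Agent.Q224.HB.bessel A {j // |e j - E| ≤ η} (fun j => φ j.1) hor
    calc ∑ j : {j // |e j - E| ≤ η}, ∑ x, ‖((e j.1 : ℂ) - pt E η) * ∑ y, A x y * φ j.1 y‖ ^ 2
        ≤ ∑ j : {j // |e j - E| ≤ η}, ∑ x, 2 * η ^ 2 * ‖∑ y, A x y * φ j.1 y‖ ^ 2 := by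
          apply Finset.sum_le_sum
          intro j _
          apply Finset.sum_le_sum
          intro x _
          rw [norm_mul, mul_pow]
          exact mul_le_mul_of_nonneg_right (hc j) (by positivity)
      _ = 2 * η ^ 2 * ∑ j : {j // |e j - E| ≤ η}, ∑ x, ‖∑ y, A x y * φ j.1 y‖ ^ 2 := by
          rw [Finset.mul_sum]
          apply Finset.sum_congr rfl
          intro j _
          rw [Finset.mul_sum]
      _ ≤ _ := mul_le_mul_of_nonneg_left hb (by positivity)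
  have hfirst : ∑ j : {j // |e j - E| ≤ η}, ∑ x, ‖φ j.1 x - ((e j.1 : ℂ) - pt E η) *
      ∑ y, G hop (fun _ => 0) (pt E η) x y * φ j.1 y‖ ^ 2 ≤ 2 * η ^ 2 * HX φ e E η := by
    have h7 := hfam (fun x y => GA φ e (pt E η) x y - G hop (fun _ => 0) (pt E η) x y)
    refine le_trans (le_of_eq ?_) h7
    apply Finset.sum_congr rfl
    intro j _
    apply Finset.sum_congr rfl
    intro x _
    rw [hr j x]
  refine ⟨hfirst, ?_⟩
  intro i ε hε
  -- K φ_j = (e_j - z) K G₀ φ_j + K r_j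
  have hK : ∀ (j : {j // |e j - E| ≤ η}) x, ∑ y, Km i ε x y * φ j.1 y =
      ((e j.1 : ℂ) - pt E η) * (∑ y, KG i ε (pt E η) x y * φ j.1 y) +
      ∑ y, Km i ε x y * (φ j.1 y - ((e j.1 : ℂ) - pt E η) * ∑ w, G hop (fun _ => 0) (pt E η) y w * φ j.1 w) := by
    intro j x
    have h8 : ∑ y, KG i ε (pt E η) x y * φ j.1 y =
        ∑ y, Km i ε x y * ∑ w, G hop (fun _ => 0) (pt E η) y w * φ j.1 w := by
      have h9 := congrFun (Matrix.mulVec_mulVec (φ j.1) (Km i ε) (G hop (fun _ => 0) (pt E η))) x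
      exact h9.symm
    rw [h8, Finset.mul_sum, ← Finset.sum_add_distrib]
    apply Finset.sum_congr rfl
    intro y _
    ring
  calc ∑ j : {j // |e j - E| ≤ η}, ∑ x, ‖∑ y, Km i ε x y * φ j.1 y‖ ^ 2
      ≤ ∑ j : {j // |e j - E| ≤ η}, ∑ x, (2 * ‖((e j.1 : ℂ) - pt E η) * (∑ y, KG i ε (pt E η) x y * φ j.1 y)‖ ^ 2 +
        2 * ‖∑ y, Km i ε x y * (φ j.1 y - ((e j.1 : ℂ) - pt E η) *
          ∑ w, G hop (fun _ => 0) (pt E η) y w * φ j.1 w)‖ ^ 2) := by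
        apply Finset.sum_le_sum
        intro j _
        apply Finset.sum_le_sum
        intro x _
        rw [hK j x]
        exact Pool.Agent.Q224.HB.norm_add_sq_le _ _
    _ = 2 * (∑ j : {j // |e j - E| ≤ η}, ∑ x, ‖((e j.1 : ℂ) - pt E η) * (∑ y, KG i ε (pt E η) x y * φ j.1 y)‖ ^ 2) +
        2 * ∑ j : {j // |e j - E| ≤ η}, ∑ x, ‖∑ y, Km i ε x y * (φ j.1 y - ((e j.1 : ℂ) - pt E η) *
          ∑ w, G hop (fun _ => 0) (pt E η) y w * φ j.1 w)‖ ^ 2 := by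
        rw [Finset.mul_sum, Finset.mul_sum, ← Finset.sum_add_distrib]
        apply Finset.sum_congr rfl
        intro j _
        rw [Finset.mul_sum, Finset.mul_sum, ← Finset.sum_add_distrib]
    _ ≤ 2 * (2 * η ^ 2 * ∑ x, ∑ y, ‖KG i ε (pt E η) x y‖ ^ 2) +
        2 * ∑ j : {j // |e j - E| ≤ η}, ∑ x, ‖φ j.1 x - ((e j.1 : ℂ) - pt E η) *
          ∑ w, G hop (fun _ => 0) (pt E η) x w * φ j.1 w‖ ^ 2 := by
        apply add_le_add
        · exact mul_le_mul_of_nonneg_left (hfam (KG i ε (pt E η))) (by norm_num)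
        · apply mul_le_mul_of_nonneg_left _ (by norm_num)
          apply Finset.sum_le_sum
          intro j _
          exact lKon d n i ε hε _
    _ ≤ _ := by
        nlinarith [hfirst]

end

end Pool.Agent.Q218.HB
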