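import Pool.Agent.Q218.HB.OnA
import Pool.Agent.Q218.HB.Fin4

/-! The deterministic lemmas for orthonormal bases instead of eigenfunctions of `H₀ + V`. -/

set_option autoImplicit false
set_option linter.unusedSectionVars false
set_option linter.unusedVariables false

open MeasureTheory

namespace Pool.Agent.Q218.HB

section

variable {d n : ℕ} [NeZero n] {φ : Tor d n → Tor d n → ℂ} {e : Tor d n → ℝ}

/-- the lower bound for the number of the eigenvalues -/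
theorem count_lowX (hI : S_INV) (hW : S_WARD) (h : ON φ) {E η θ g g' : ℝ} (hη : 0 < η) (hθ : 0 < θ)
    (hθ1 : θ ≤ 1) (hg : ∀ x : Tor d n, (G hop (fun _ => 0) (pt E η) x x).im ≤ g)
    (hg' : ∀ x : Tor d n, g' ≤ (G hop (fun _ => 0) (pt E (θ * η)) x x).im) :
    θ * η * (1 / 2 * ((n : ℝ) ^ d * g') - θ * η * HX φ e E (θ * η) -
      2 * θ * (2 * ((n : ℝ) ^ d * g) + 2 * η * HX φ e E η)) ≤ cnt e E η := by
  have hθη : 0 < θ * η := by positivity
  have hN : (Finset.univ : Finset (Tor d n)).card = n ^ d := by simp [ZMod.card]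
  have w1 : ∑ x : Tor d n, ∑ y : Tor d n, ‖G hop (fun _ => 0) (pt E η) x y‖ ^ 2 ≤
      (n : ℝ) ^ d * g / η := by
    have h1 : ∀ x : Tor d n, ∑ y, ‖G hop (fun _ => 0) (pt E η) x y‖ ^ 2 ≤ g / η := fun x => by
      rw [hW (Tor d n) hop (fun _ => 0) (pt E η) hop_symm (by rw [pt_im]; exact hη) x, pt_im]
      exact div_le_div_of_nonneg_right (hg x) hη.le
    refine (Finset.sum_le_sum fun x _ => h1 x).trans (le_of_eq ?_)
    rw [Finset.sum_const, hN, nsmul_eq_mul]; push_cast; ring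
  have w2 : (n : ℝ) ^ d * g' / (θ * η) ≤
      ∑ x : Tor d n, ∑ y : Tor d n, ‖G hop (fun _ => 0) (pt E (θ * η)) x y‖ ^ 2 := by
    have h1 : ∀ x : Tor d n, g' / (θ * η) ≤ ∑ y, ‖G hop (fun _ => 0) (pt E (θ * η)) x y‖ ^ 2 := fun x => by
      rw [hW (Tor d n) hop (fun _ => 0) (pt E (θ * η)) hop_symm (by rw [pt_im]; exact hθη) x, pt_im]
      exact div_le_div_of_nonneg_right (hg' x) hθη.le
    refine (le_of_eq ?_).trans (Finset.sum_le_sum fun x _ => h1 x)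
    rw [Finset.sum_const, hN, nsmul_eq_mul]; push_cast; ring
  have s1 := sq_half (fun x y : Tor d n => GA φ e (pt E η) x y) (fun x y => G hop (fun _ => 0) (pt E η) x y)
  have s2 := sq_half (fun x y : Tor d n => G hop (fun _ => 0) (pt E (θ * η)) x y)
    (fun x y => GA φ e (pt E (θ * η)) x y)
  have e2 : ∑ x : Tor d n, ∑ y : Tor d n, ‖G hop (fun _ => 0) (pt E (θ * η)) x y -
      GA φ e (pt E (θ * η)) x y‖ ^ 2 = HX φ e E (θ * η) := by
    unfold HX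
    exact Finset.sum_congr rfl fun x _ => Finset.sum_congr rfl fun y _ => by rw [norm_sub_rev]
  rw [e2] at s2
  have e1 : ∑ x : Tor d n, ∑ y : Tor d n, ‖GA φ e (pt E η) x y -
      G hop (fun _ => 0) (pt E η) x y‖ ^ 2 = HX φ e E η := rfl
  rw [e1] at s1
  rw [GA_hs h E η hη] at s1
  rw [GA_hs h E (θ * η) hθη] at s2
  -- pointwise comparison
  have hp : ∀ j, (θ * η) / ((e j - E) ^ 2 + (θ * η) ^ 2) ≤
      (if |e j - E| ≤ η then 1 / (θ * η) else 0) + 2 * θ * (η / ((e j - E) ^ 2 + η ^ 2)) := fun j => by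
    split_ifs with hj
    · have h1 : (θ * η) / ((e j - E) ^ 2 + (θ * η) ^ 2) ≤ 1 / (θ * η) := by
        rw [div_le_div_iff₀ (by positivity) hθη]
        nlinarith [sq_nonneg (e j - E)]
      have h2 : 0 ≤ 2 * θ * (η / ((e j - E) ^ 2 + η ^ 2)) := by positivity
      linarith
    · rw [zero_add]
      have h1 : η ^ 2 ≤ (e j - E) ^ 2 := by
        rw [← sq_abs (e j - E)]
        exact pow_le_pow_left₀ hη.le (not_le.1 hj).le 2
      have h2 : 0 < (e j - E) ^ 2 := lt_of_lt_of_le (by positivity) h1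
      rw [← mul_div_assoc, div_le_div_iff₀ (by positivity) (by positivity)]
      have h3 : (e j - E) ^ 2 + η ^ 2 ≤ 2 * ((e j - E) ^ 2 + (θ * η) ^ 2) := by
        nlinarith [sq_nonneg (θ * η)]
      have h4 : 0 ≤ θ * η := hθη.le
      calc θ * η * ((e j - E) ^ 2 + η ^ 2) ≤ θ * η * (2 * ((e j - E) ^ 2 + (θ * η) ^ 2)) :=
            mul_le_mul_of_nonneg_left h3 h4
        _ = _ := by ring
  have hs := Finset.sum_le_sum (s := Finset.univ) fun j _ => hp j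
  rw [Finset.sum_add_distrib, ← Finset.mul_sum] at hs
  have e3 : ∑ j, (if |e j - E| ≤ η then 1 / (θ * η) else 0) = (cnt e E η : ℝ) * (1 / (θ * η)) := by
    rw [← Finset.sum_filter, Finset.sum_const, nsmul_eq_mul]; rfl
  have e4 : ∑ j, (θ * η) / ((e j - E) ^ 2 + (θ * η) ^ 2) =
      θ * η * ∑ j, 1 / ((e j - E) ^ 2 + (θ * η) ^ 2) := by
    rw [Finset.mul_sum]; exact Finset.sum_congr rfl fun j _ => by ring
  have e5 : ∑ j, η / ((e j - E) ^ 2 + η ^ 2) = η * ∑ j, 1 / ((e j - E) ^ 2 + η ^ 2) := by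
    rw [Finset.mul_sum]; exact Finset.sum_congr rfl fun j _ => by ring
  rw [e3, e4, e5] at hs
  obtain ⟨P, hP⟩ : ∃ P, P = ∑ j, 1 / ((e j - E) ^ 2 + η ^ 2) := ⟨_, rfl⟩
  obtain ⟨Q, hQ⟩ : ∃ Q, Q = ∑ j, 1 / ((e j - E) ^ 2 + (θ * η) ^ 2) := ⟨_, rfl⟩
  obtain ⟨P0, hP0⟩ : ∃ P0, P0 = ∑ x : Tor d n, ∑ y : Tor d n, ‖G hop (fun _ => 0) (pt E η) x y‖ ^ 2 := ⟨_, rfl⟩
  obtain ⟨Q0, hQ0⟩ : ∃ Q0, Q0 = ∑ x : Tor d n, ∑ y : Tor d n, ‖G hop (fun _ => 0) (pt E (θ * η)) x y‖ ^ 2 := ⟨_, rfl⟩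
  rw [← hP, ← hQ] at hs
  rw [← hP, ← hP0] at s1
  rw [← hQ, ← hQ0] at s2
  rw [← hP0] at w1
  rw [← hQ0] at w2
  obtain ⟨N, hNN⟩ : ∃ N, N = (n : ℝ) ^ d := ⟨_, rfl⟩
  rw [← hNN] at w1 w2 ⊢
  have a1 : η * P ≤ 2 * (N * g) + 2 * η * HX φ e E η := by
    have : η * P ≤ η * (2 * P0 + 2 * HX φ e E η) := mul_le_mul_of_nonneg_left s1 hη.le
    have h2 : η * P0 ≤ N * g := by
      have := mul_le_mul_of_nonneg_left w1 hη.le
      rwa [mul_div_cancel₀ _ hη.ne'] at this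
    nlinarith
  have a2 : 1 / 2 * (N * g') - θ * η * HX φ e E (θ * η) ≤ θ * η * Q := by
    have : N * g' ≤ θ * η * Q0 := by
      have := mul_le_mul_of_nonneg_left w2 hθη.le
      rwa [mul_div_cancel₀ _ hθη.ne'] at this
    have h3 := mul_le_mul_of_nonneg_left s2 hθη.le
    nlinarith
  have a3 : 1 / 2 * (N * g') - θ * η * HX φ e E (θ * η) - 2 * θ * (2 * (N * g) + 2 * η * HX φ e E η) ≤
      (cnt e E η : ℝ) * (1 / (θ * η)) := by
    have := mul_le_mul_of_nonneg_left a1 (by positivity : 0 ≤ 2 * θ)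
    linarith
  have a4 := mul_le_mul_of_nonneg_left a3 hθη.le
  refine a4.trans (le_of_eq ?_)
  field_simp

/-- the upper bound for the number of the eigenvalues -/
theorem count_upX (h : ON φ) {E η g : ℝ} (hη : 0 < η)
    (hg : ∀ x : Tor d n, (G hop (fun _ => 0) (pt E η) x x).im ≤ g) :
    (cnt e E η : ℝ) ≤ 4 * η * ((n : ℝ) ^ d * g + η * HX φ e E η) := by
  have hN : (Finset.univ : Finset (Tor d n)).card = n ^ d := by simp [ZMod.card]
  have w1 : ∑ x : Tor d n, ∑ y : Tor d n, ‖G hop (fun _ => 0) (pt E η) x y‖ ^ 2 ≤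
      (n : ℝ) ^ d * g / η := by
    have h1 : ∀ x : Tor d n, ∑ y, ‖G hop (fun _ => 0) (pt E η) x y‖ ^ 2 ≤ g / η := fun x => by
      rw [lWard (Tor d n) hop (fun _ => 0) (pt E η) hop_symm (by rw [pt_im]; exact hη) x, pt_im]
      exact div_le_div_of_nonneg_right (hg x) hη.le
    refine (Finset.sum_le_sum fun x _ => h1 x).trans (le_of_eq ?_)
    rw [Finset.sum_const, hN, nsmul_eq_mul]; push_cast; ring
  have s1 := sq_half (fun x y : Tor d n => GA φ e (pt E η) x y) (fun x y => G hop (fun _ => 0) (pt E η) x y)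
  have e1 : ∑ x : Tor d n, ∑ y : Tor d n, ‖GA φ e (pt E η) x y -
      G hop (fun _ => 0) (pt E η) x y‖ ^ 2 = HX φ e E η := rfl
  rw [e1] at s1
  rw [GA_hs h E η hη] at s1
  have hp : ∀ j, (if |e j - E| ≤ η then 1 / (2 * η ^ 2) else 0) ≤ 1 / ((e j - E) ^ 2 + η ^ 2) := fun j => by
    split_ifs with hj
    · have h1 : (e j - E) ^ 2 ≤ η ^ 2 := by
        rw [← sq_abs (e j - E)]
        exact pow_le_pow_left₀ (abs_nonneg _) hj 2
      exact one_div_le_one_div_of_le (by positivity) (by linarith)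
    · positivity
  have hs := Finset.sum_le_sum (s := Finset.univ) fun j _ => hp j
  have e3 : ∑ j, (if |e j - E| ≤ η then 1 / (2 * η ^ 2) else 0) = (cnt e E η : ℝ) * (1 / (2 * η ^ 2)) := by
    rw [← Finset.sum_filter, Finset.sum_const, nsmul_eq_mul]; rfl
  rw [e3] at hs
  have h4 : (cnt e E η : ℝ) * (1 / (2 * η ^ 2)) ≤ 2 * ((n : ℝ) ^ d * g / η) + 2 * HX φ e E η := by linarith
  have h5 := mul_le_mul_of_nonneg_left h4 (by positivity : 0 ≤ 2 * η ^ 2)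
  have e6 : 2 * η ^ 2 * ((cnt e E η : ℝ) * (1 / (2 * η ^ 2))) = cnt e E η := by field_simp
  have e7 : 2 * η ^ 2 * (2 * ((n : ℝ) ^ d * g / η) + 2 * HX φ e E η) =
      4 * η * ((n : ℝ) ^ d * g + η * HX φ e E η) := by field_simp; ring
  rw [e6, e7] at h5
  exact h5

open Classical in
/-- few of the eigenfunctions of the window have a large mass in a slab -/
theorem det_badX (h : ON φ) {E η ε τ g : ℝ} (i : Fin d) (L : ℕ) (hL : 1 ≤ L) (hn : 8 * L ^ 2 + 8 ≤ n)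
    (hη : 0 < η) (hε : 0 < ε) (hε1 : ε ≤ 1)
    (havg : (n : ℝ)⁻¹ * ∑ j : ZMod n,
      (ε ^ 2 / (4 * Real.sin (2 * Real.pi * (j.val : ℝ) / n) ^ 2 + ε ^ 2)) ^ 2 ≤ 2 * ε)
    (hg0 : 0 ≤ g) (hIn : In n (d - 1) η ≤ g) (hIn0 : 0 ≤ In n (d - 1) η) :
    (τ - 400 / ε ^ 2 * (L * η + 1 / L)) *
      ((Finset.univ.filter fun j => |e j - E| ≤ η ∧ ∃ b : ZMod n,
      τ < ∑ x, Set.indicator {x : Tor d n | x i ∈ slab b L} (fun x => ‖φ j x‖ ^ 2) x).card : ℝ) ≤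
      64 * ((n : ℝ) ^ d * η * ε * g) + 36 * η ^ 2 * HX φ e E η := by
  obtain ⟨f1, f2⟩ := famX h (e := e) E η hη
  have f3 := f2 i ε hε
  have k1 := lKgb lFou d n i E η ε hη hε
  have k2 : η ^ 2 * ∑ x : Tor d n, ∑ y : Tor d n, ‖KG i ε (pt E η) x y‖ ^ 2 ≤
      (n : ℝ) ^ d * η * (2 * ε) * g := by
    refine k1.trans ?_
    refine mul_le_mul (mul_le_mul_of_nonneg_left havg (by positivity)) hIn hIn0 (by positivity)
  have c1 := card_sub (fun j => |e j - E| ≤ η) (fun j => ∃ b : ZMod n,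
      τ < ∑ x, Set.indicator {x : Tor d n | x i ∈ slab b L} (fun x => ‖φ j x‖ ^ 2) x)
  have c2 := count_markov (J := {j // |e j - E| ≤ η}) (fun j =>
      8 * ∑ x, ‖∑ y, Km i ε x y * φ j.1 y‖ ^ 2 + 2 * ∑ x, ‖φ j.1 x - ((e j.1 : ℂ) - pt E η) *
        ∑ y, G hop (fun _ => 0) (pt E η) x y * φ j.1 y‖ ^ 2) (fun j => by positivity)
    (fun j => ∃ b : ZMod n,
      τ < ∑ x, Set.indicator {x : Tor d n | x i ∈ slab b L} (fun x => ‖φ j.1 x‖ ^ 2) x)
    (τ - 400 / ε ^ 2 * (L * η + 1 / L))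
    (fun j ⟨b, hb⟩ => by
      have := hb.le.trans (lSlb lInv lOpb lCom d n i L hL hn E η ε (e j.1) hη hε hε1 j.2 (φ j.1)
        (h.norm_one j.1) b)
      linarith)
  rw [c1] at c2
  refine c2.trans ?_
  rw [Finset.sum_add_distrib]
  have s1 : ∑ j : {j // |e j - E| ≤ η}, 8 * ∑ x, ‖∑ y, Km i ε x y * φ j.1 y‖ ^ 2 =
      8 * ∑ j : {j // |e j - E| ≤ η}, ∑ x, ‖∑ y, Km i ε x y * φ j.1 y‖ ^ 2 := (Finset.mul_sum _ _ _).symm
  have s2 : ∑ j : {j // |e j - E| ≤ η}, 2 * ∑ x, ‖φ j.1 x - ((e j.1 : ℂ) - pt E η) *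
        ∑ y, G hop (fun _ => 0) (pt E η) x y * φ j.1 y‖ ^ 2 =
      2 * ∑ j : {j // |e j - E| ≤ η}, ∑ x, ‖φ j.1 x - ((e j.1 : ℂ) - pt E η) *
        ∑ y, G hop (fun _ => 0) (pt E η) x y * φ j.1 y‖ ^ 2 := (Finset.mul_sum _ _ _).symm
  rw [s1, s2]
  nlinarith

open Classical in
/-- few of the eigenfunctions of the window have a large mass off the energy shell -/
theorem det_momX (h : ON φ) {E η τ : ℝ} (hη : 0 < η) :
    τ * ((Finset.univ.filter fun j => |e j - E| ≤ η ∧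
      τ < ∑ k, Set.indicator {k : Tor d n | 3 * η < |en k - E|} (fun k => ‖fo (φ j) k‖ ^ 2) k).card : ℝ) ≤
      8 * η ^ 2 * HX φ e E η := by
  obtain ⟨f1, _⟩ := famX h (e := e) E η hη
  have c1 := card_sub (fun j => |e j - E| ≤ η) (fun j =>
      τ < ∑ k, Set.indicator {k : Tor d n | 3 * η < |en k - E|} (fun k => ‖fo (φ j) k‖ ^ 2) k)
  have c2 := count_markov (J := {j // |e j - E| ≤ η}) (fun j => 4 * ∑ x, ‖φ j.1 x - ((e j.1 : ℂ) - pt E η) *
        ∑ y, G hop (fun _ => 0) (pt E η) x y * φ j.1 y‖ ^ 2) (fun j => by positivity)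
    (fun j => τ < ∑ k, Set.indicator {k : Tor d n | 3 * η < |en k - E|} (fun k => ‖fo (φ j.1) k‖ ^ 2) k) τ
    (fun j hj => hj.le.trans (lMom d n E η (e j.1) hη j.2 (φ j.1)))
  rw [c1] at c2
  refine c2.trans ?_
  rw [← Finset.mul_sum]
  linarith

/-- the number of the exceptions in a window -/
theorem winX (h : ON φ) {E η s v C0 X : ℝ} {L : ℕ} (hL : 1 ≤ L) (hn : 8 * L ^ 2 + 8 ≤ n)
    (hη : 0 < η) (hv : 0 < v) (hv1 : v ≤ 1) (hs : 0 ≤ s) (hC0 : 0 ≤ C0) (hv2 : 2400 * v ≤ 1)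
    (havg : (n : ℝ)⁻¹ * ∑ j : ZMod n,
      ((v ^ 16) ^ 2 / (4 * Real.sin (2 * Real.pi * (j.val : ℝ) / n) ^ 2 + (v ^ 16) ^ 2)) ^ 2 ≤ 2 * v ^ 16)
    (hIn : In n (d - 1) η ≤ C0 * s) (hIn0 : 0 ≤ In n (d - 1) η) (hLη : L * η ≤ v ^ 64)
    (hL2 : 1 / (L : ℝ) ≤ 2 * v ^ 64) (hX : η ^ 2 * HX φ e E η ≤ X) :
    (∀ i : Fin d, v ^ 4 * (((Wd e E η).filter fun j => ∃ b : ZMod n, v ^ 4 < sm (φ j) i b L).card : ℝ) ≤
      128 * C0 * v ^ 16 * ((n : ℝ) ^ d * η * s) + 72 * X) ∧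
    v ^ 4 * (((Wd e E η).filter fun j => v ^ 4 < om (φ j) (e j) η).card : ℝ) ≤ 8 * X := by
  classical
  constructor
  · intro i
    have h1 := det_badX h (e := e) (E := E) (η := η) (ε := v ^ 16) (τ := v ^ 4) (g := C0 * s) i L hL hn hη (by positivity)
      (pow_le_one₀ hv.le hv1) havg (by positivity) hIn hIn0
    have h2 : 400 / (v ^ 16) ^ 2 * (L * η + 1 / L) ≤ v ^ 4 / 2 := by
      have h3 : 400 / (v ^ 16) ^ 2 * (L * η + 1 / L) ≤ 400 / (v ^ 16) ^ 2 * (3 * v ^ 64) :=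
        mul_le_mul_of_nonneg_left (by linarith) (by positivity)
      have h4 : 400 / (v ^ 16) ^ 2 * (3 * v ^ 64) = 1200 * v ^ 32 := by
        field_simp; ring
      have h5 : v ^ 32 = v ^ 4 * (v * v ^ 27) := by ring
      have h6 : v ^ 27 ≤ 1 := pow_le_one₀ hv.le hv1
      have h7 : v * v ^ 27 ≤ v := mul_le_of_le_one_right hv.le h6
      have h8 : v ^ 4 * (v * v ^ 27) ≤ v ^ 4 * v := mul_le_mul_of_nonneg_left h7 (by positivity)
      have h9 : v ^ 4 * (2400 * v) ≤ v ^ 4 * 1 := mul_le_mul_of_nonneg_left hv2 (by positivity)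
      rw [h4, h5] at h3
      linarith
    have e1 : (Finset.univ.filter fun j => |e j - E| ≤ η ∧ ∃ b : ZMod n,
      v ^ 4 < ∑ x, Set.indicator {x : Tor d n | x i ∈ slab b L} (fun x => ‖φ j x‖ ^ 2) x) =
        ((Wd e E η).filter fun j => ∃ b : ZMod n, v ^ 4 < sm (φ j) i b L) := by
      rw [Wd, Finset.filter_filter]; rfl
    rw [e1] at h1
    obtain ⟨P, hP⟩ : ∃ P : ℝ, P = (((Wd e E η).filter fun j => ∃ b : ZMod n, v ^ 4 < sm (φ j) i b L).card : ℝ) :=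
      ⟨_, rfl⟩
    have hP0 : 0 ≤ P := by rw [hP]; exact Nat.cast_nonneg _
    rw [← hP] at h1
    have h3 : v ^ 4 / 2 * P ≤ (v ^ 4 - 400 / (v ^ 16) ^ 2 * (L * η + 1 / L)) * P :=
      mul_le_mul_of_nonneg_right (by linarith) hP0
    have h4 : v ^ 4 * P ≤ 2 * (64 * ((n : ℝ) ^ d * η * v ^ 16 * (C0 * s)) + 36 * η ^ 2 * HX φ e E η) := by linarith
    have h5 : v ^ 4 * P ≤ 128 * C0 * v ^ 16 * ((n : ℝ) ^ d * η * s) + 72 * X := by nlinarith
    rw [hP] at h5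
    convert h5 using 3
  · have h1 := det_momX h (e := e) (E := E) (η := η) (τ := v ^ 4) hη
    have h2 : ((Wd e E η).filter fun j => v ^ 4 < om (φ j) (e j) η) ⊆
        (Finset.univ.filter fun j => |e j - E| ≤ η ∧
      v ^ 4 < ∑ k, Set.indicator {k : Tor d n | 3 * η < |en k - E|} (fun k => ‖fo (φ j) k‖ ^ 2) k) := by
      intro j hj
      rw [Wd, Finset.mem_filter, Finset.mem_filter] at hj
      rw [Finset.mem_filter]
      exact ⟨Finset.mem_univ _, hj.1.2, lt_of_lt_of_le hj.2 (om_le _ hj.1.2)⟩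
    have h3 : (((Wd e E η).filter fun j => v ^ 4 < om (φ j) (e j) η).card : ℝ) ≤
        ((Finset.univ.filter fun j => |e j - E| ≤ η ∧
      v ^ 4 < ∑ k, Set.indicator {k : Tor d n | 3 * η < |en k - E|} (fun k => ‖fo (φ j) k‖ ^ 2) k).card : ℝ) := by
      exact_mod_cast Finset.card_le_card h2
    have h4 := mul_le_mul_of_nonneg_left h3 (by positivity : 0 ≤ v ^ 4)
    nlinarith

theorem partAX (h : ON φ) (hd : 1 ≤ d) {E η s v C0 C' c1 θ : ℝ} {L : ℕ} (hL : 1 ≤ L) (hn : 8 * L ^ 2 + 8 ≤ n)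
    (hη : 0 < η) (hv : 0 < v) (hv4 : v ≤ 1 / 4) (hs : 0 < s) (hC0 : 0 < C0) (hC' : 0 ≤ C') (hc1 : 0 < c1)
    (hθ : 0 < θ) (hθ1 : θ ≤ 1)
    (hv2 : 2400 * v ≤ 1)
    (havg : (n : ℝ)⁻¹ * ∑ j : ZMod n,
      ((v ^ 16) ^ 2 / (4 * Real.sin (2 * Real.pi * (j.val : ℝ) / n) ^ 2 + (v ^ 16) ^ 2)) ^ 2 ≤ 2 * v ^ 16)
    (hIn : In n (d - 1) η ≤ C0 * s) (hIn0 : 0 ≤ In n (d - 1) η) (hLη : L * η ≤ v ^ 64)
    (hL2 : 1 / (L : ℝ) ≤ 2 * v ^ 64)
    (hg : ∀ x : Tor d n, (G hop (fun _ => 0) (pt E η) x x).im ≤ C0 * s)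
    (hg' : ∀ x : Tor d n, c1 * s ≤ (G hop (fun _ => 0) (pt E (θ * η)) x x).im)
    (H1 : η * HX φ e E η ≤ (n : ℝ) ^ d * s * (C' * v ^ 24))
    (H2 : θ * η * HX φ e E (θ * η) ≤ (n : ℝ) ^ d * s * (C' * v ^ 24))
    (K1 : 32 * θ * C0 ≤ c1) (K2 : 40 * C' * v ≤ c1) (K4 : C' * v ≤ 1)
    (K3 : (128 * C0 + 72 * C') * (4 / (θ * c1)) * v ≤ 1) :
    θ * c1 / 4 * (η * s * (n : ℝ) ^ d) ≤ cnt e E η ∧ (cnt e E η : ℝ) ≤ 4 * (C0 + 1) * (η * s * (n : ℝ) ^ d) ∧
      Few φ e η v L (Wd e E η) (cnt e E η) := by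
  have hv1 : v ≤ 1 := hv4.trans (by norm_num)
  obtain ⟨N, hN⟩ : ∃ N, N = (n : ℝ) ^ d := ⟨_, rfl⟩
  have hn0 : (0 : ℝ) < n := by exact_mod_cast Nat.pos_of_ne_zero (NeZero.ne n)
  have hN0 : 0 < N := by rw [hN]; positivity
  have hv24 : v ^ 24 ≤ v := by
    have := pow_le_pow_of_le_one hv.le hv1 (show 1 ≤ 24 by norm_num); rwa [pow_one] at this
  have hCv : C' * v ^ 24 ≤ C' * v := mul_le_mul_of_nonneg_left hv24 hC'
  have a1 := count_lowX lInv lWard h (e := e) (E := E) (η := η) (θ := θ) (g := C0 * s) (g' := c1 * s) hη hθ hθ1 hg hg'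
  have a2 := count_upX h (e := e) (E := E) (η := η) (g := C0 * s) hη hg
  rw [← hN] at a1 a2 H1 H2
  have hNs : 0 < N * s := by positivity
  have H1' : η * HX φ e E η ≤ N * s * (C' * v) := H1.trans (mul_le_mul_of_nonneg_left hCv hNs.le)
  have H2' : θ * η * HX φ e E (θ * η) ≤ N * s * (C' * v) := H2.trans (mul_le_mul_of_nonneg_left hCv hNs.le)
  have low : θ * c1 / 4 * (η * s * N) ≤ cnt e E η := by
    refine le_trans ?_ a1
    have b1 : c1 / 4 * (N * s) ≤ 1 / 2 * (N * (c1 * s)) - θ * η * HX φ e E (θ * η) -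
        2 * θ * (2 * (N * (C0 * s)) + 2 * η * HX φ e E η) := by
      have b2 : 2 * θ * (2 * η * HX φ e E η) ≤ 4 * (N * s * (C' * v)) := by
        have : 0 ≤ η * HX φ e E η := mul_nonneg hη.le (HX_nonneg _ _ _ _)
        calc 2 * θ * (2 * η * HX φ e E η) = 4 * (θ * (η * HX φ e E η)) := by ring
          _ ≤ 4 * (1 * (η * HX φ e E η)) := by
              refine mul_le_mul_of_nonneg_left (mul_le_mul_of_nonneg_right hθ1 this) (by norm_num)
          _ ≤ _ := by rw [one_mul]; exact mul_le_mul_of_nonneg_left H1' (by norm_num)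
      have b3 : N * s * (40 * C' * v) ≤ N * s * c1 := mul_le_mul_of_nonneg_left K2 hNs.le
      have b4 : N * s * (32 * θ * C0) ≤ N * s * c1 := mul_le_mul_of_nonneg_left K1 hNs.le
      nlinarith
    calc θ * c1 / 4 * (η * s * N) = θ * η * (c1 / 4 * (N * s)) := by ring
      _ ≤ _ := mul_le_mul_of_nonneg_left b1 (by positivity)
  have up : (cnt e E η : ℝ) ≤ 4 * (C0 + 1) * (η * s * N) := by
    refine a2.trans ?_
    have b1 : N * (C0 * s) + η * HX φ e E η ≤ (C0 + 1) * (s * N) := by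
      have : N * s * (C' * v) ≤ N * s * 1 := mul_le_mul_of_nonneg_left K4 hNs.le
      nlinarith
    calc 4 * η * (N * (C0 * s) + η * HX φ e E η) ≤ 4 * η * ((C0 + 1) * (s * N)) :=
          mul_le_mul_of_nonneg_left b1 (by positivity)
      _ = _ := by ring
  rw [← hN]
  refine ⟨low, up, ?_⟩
  -- the exceptions
  have hc : η * s * N ≤ 4 / (θ * c1) * cnt e E η := by
    have := mul_le_mul_of_nonneg_left low (by positivity : 0 ≤ 4 / (θ * c1))
    refine le_trans (le_of_eq ?_) this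
    field_simp
  have hX : η ^ 2 * HX φ e E η ≤ C' * v ^ 24 * (η * s * N) := by
    calc η ^ 2 * HX φ e E η = η * (η * HX φ e E η) := by ring
      _ ≤ η * (N * s * (C' * v ^ 24)) := mul_le_mul_of_nonneg_left H1 hη.le
      _ = _ := by ring
  obtain ⟨w1, w2⟩ := winX h (e := e) (E := E) (η := η) (s := s) (v := v) (C0 := C0) (X := C' * v ^ 24 * (η * s * N))
    hL hn hη hv hv1 hs.le hC0.le hv2 havg hIn hIn0 hLη hL2 hX
  have hcnt : (0 : ℝ) ≤ cnt e E η := Nat.cast_nonneg _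
  have hηsN : 0 ≤ η * s * N := by positivity
  have key : (128 * C0 + 72 * C') * v ^ 16 * (η * s * N) ≤ v ^ 4 * (v ^ 4 * cnt e E η) := by
    have c1' : (128 * C0 + 72 * C') * v ^ 16 * (η * s * N) ≤
        (128 * C0 + 72 * C') * v ^ 16 * (4 / (θ * c1) * cnt e E η) :=
      mul_le_mul_of_nonneg_left hc (by positivity)
    have c2 : v ^ 16 = v ^ 8 * (v * v ^ 7) := by ring
    have c3 : v * v ^ 7 ≤ v := mul_le_of_le_one_right hv.le (pow_le_one₀ hv.le hv1)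
    have c4 : (128 * C0 + 72 * C') * (4 / (θ * c1)) * (v * v ^ 7) ≤ 1 :=
      le_trans (mul_le_mul_of_nonneg_left c3 (by positivity)) K3
    have c5 : v ^ 8 * cnt e E η * ((128 * C0 + 72 * C') * (4 / (θ * c1)) * (v * v ^ 7)) ≤ v ^ 8 * cnt e E η * 1 :=
      mul_le_mul_of_nonneg_left c4 (by positivity)
    calc _ ≤ (128 * C0 + 72 * C') * v ^ 16 * (4 / (θ * c1) * cnt e E η) := c1'
      _ = v ^ 8 * cnt e E η * ((128 * C0 + 72 * C') * (4 / (θ * c1)) * (v * v ^ 7)) := by rw [c2]; ring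
      _ ≤ v ^ 8 * cnt e E η * 1 := c5
      _ = _ := by ring
  have k24 : C' * v ^ 24 * (η * s * N) ≤ C' * v ^ 16 * (η * s * N) := by
    refine mul_le_mul_of_nonneg_right (mul_le_mul_of_nonneg_left ?_ hC') hηsN
    exact pow_le_pow_of_le_one hv.le hv1 (by norm_num)
  have hv16 : 0 ≤ C' * v ^ 16 * (η * s * N) := by positivity
  have hv16' : 0 ≤ C0 * v ^ 16 * (η * s * N) := by positivity
  refine few_of h.norm_one hd (Wd e E η) L hv hv4 hcnt (fun i => ?_) ?_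
  · have := w1 i
    rw [← hN] at this
    refine le_of_mul_le_mul_left ?_ (by positivity : 0 < v ^ 4)
    refine le_trans ?_ key
    refine le_trans (le_trans (le_of_eq ?_) this) ?_
    · congr 3
    · have e9 : 128 * C0 * v ^ 16 * (N * η * s) = 128 * (C0 * v ^ 16 * (η * s * N)) := by ring
      rw [e9]; nlinarith
  · refine le_of_mul_le_mul_left ?_ (by positivity : 0 < v ^ 4)
    refine le_trans ?_ key
    refine le_trans (le_trans (le_of_eq ?_) w2) ?_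
    · congr 3
    · nlinarith

theorem card_netX (h : ON φ) {η R : ℝ} (hη : 0 < η) {m : ℕ} (hm : R / η + 1 / 2 ≤ m) (P : Tor d n → Prop)
    [DecidablePred P] :
    ((Finset.univ.filter P).card : ℝ) ≤ ((Finset.univ.filter fun j => R < |e j|).card : ℝ) +
      ∑ k ∈ Finset.range (m + 1), (((Wd e (-R + 2 * η * k) η).filter P).card : ℝ) := by
  have h1 : Finset.univ.filter P ⊆ (Finset.univ.filter fun j => R < |e j|) ∪
      (Finset.range (m + 1)).biUnion fun k => (Wd e (-R + 2 * η * k) η).filter P := by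
    intro j hj
    rw [Finset.mem_filter] at hj
    rw [Finset.mem_union, Finset.mem_filter, Finset.mem_biUnion]
    by_cases hR : R < |e j|
    · left; exact ⟨Finset.mem_univ _, hR⟩
    · right
      obtain ⟨k, hk, hk2⟩ := net_cov hη (not_lt.1 hR) hm
      refine ⟨k, hk, ?_⟩
      rw [Finset.mem_filter, Wd, Finset.mem_filter]
      exact ⟨⟨Finset.mem_univ _, hk2⟩, hj.2⟩
  have h2 := (Finset.card_le_card h1).trans (Finset.card_union_le _ _)
  have h3 := h2.trans (Nat.add_le_add_left Finset.card_biUnion_le _)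
  exact_mod_cast h3

theorem partBX (h : ON φ) (hd : 1 ≤ d) {η s v C0 C' CT R : ℝ} {L m : ℕ} (hL : 1 ≤ L)
    (hn : 8 * L ^ 2 + 8 ≤ n)
    (hη : 0 < η) (hv : 0 < v) (hv4 : v ≤ 1 / 4) (hs : 0 < s) (hC0 : 0 < C0) (hC' : 0 ≤ C') (hCT : 0 ≤ CT)
    (hv2 : 2400 * v ≤ 1)
    (havg : (n : ℝ)⁻¹ * ∑ j : ZMod n,
      ((v ^ 16) ^ 2 / (4 * Real.sin (2 * Real.pi * (j.val : ℝ) / n) ^ 2 + (v ^ 16) ^ 2)) ^ 2 ≤ 2 * v ^ 16)
    (hIn : In n (d - 1) η ≤ C0 * s) (hIn0 : 0 ≤ In n (d - 1) η) (hLη : L * η ≤ v ^ 64)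
    (hL2 : 1 / (L : ℝ) ≤ 2 * v ^ 64)
    (ht : ((Finset.univ.filter fun j => R < |e j|).card : ℝ) ≤ CT * v ^ 8 * (n : ℝ) ^ d) (hR : 0 < R) (hm : R / η + 1 / 2 ≤ m) (hm2 : ((m : ℝ) + 1) * η ≤ 4 * R)
    (hRs : R * s * v ^ 4 ≤ 1)
    (hX : ∑ k ∈ Finset.range (m + 1), η ^ 2 * HX φ e (-R + 2 * η * k) η ≤ 4 * C' * (n : ℝ) ^ d * v ^ 20)
    (hQ : (512 * C0 + 288 * C' + CT) * v ≤ 1) :
    Few φ e η v L Finset.univ ((n : ℝ) ^ d) := by
  classical
  have hv1 : v ≤ 1 := hv4.trans (by norm_num)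
  obtain ⟨N, hN⟩ : ∃ N, N = (n : ℝ) ^ d := ⟨_, rfl⟩
  have hn0 : (0 : ℝ) < n := by exact_mod_cast Nat.pos_of_ne_zero (NeZero.ne n)
  have hN0 : 0 < N := by rw [hN]; positivity
  obtain ⟨T, hT⟩ : ∃ T : ℝ, T = ((Finset.univ.filter fun j => R < |e j|).card : ℝ) := ⟨_, rfl⟩
  have hT0 : 0 ≤ T := by rw [hT]; exact Nat.cast_nonneg _
  have t2 : T ≤ CT * v ^ 8 * N := by rw [hT, hN]; exact ht
  have w := fun k : ℕ => winX h (e := e) (E := -R + 2 * η * k) (η := η) (s := s) (v := v) (C0 := C0)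
    (X := η ^ 2 * HX φ e (-R + 2 * η * k) η) hL hn hη hv hv1 hs.le hC0.le hv2 havg hIn hIn0 hLη hL2 le_rfl
  rw [← hN] at hX
  have key : (512 * C0 + 288 * C' + CT) * v ^ 8 * N ≤ v ^ 4 * N := by
    have c2 : v ^ 8 = v ^ 4 * (v * v ^ 3) := by ring
    have c3 : v * v ^ 3 ≤ v := mul_le_of_le_one_right hv.le (pow_le_one₀ hv.le hv1)
    have c4 : (512 * C0 + 288 * C' + CT) * (v * v ^ 3) ≤ 1 :=
      le_trans (mul_le_mul_of_nonneg_left c3 (by positivity)) hQ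
    calc (512 * C0 + 288 * C' + CT) * v ^ 8 * N = v ^ 4 * N * ((512 * C0 + 288 * C' + CT) * (v * v ^ 3)) := by
          rw [c2]; ring
      _ ≤ v ^ 4 * N * 1 := mul_le_mul_of_nonneg_left c4 (by positivity)
      _ = _ := by ring
  have hv20 : v ^ 20 ≤ v ^ 12 := pow_le_pow_of_le_one hv.le hv1 (by norm_num)
  have hXN : 0 ≤ C' * N := by positivity
  have hX' : ∑ k ∈ Finset.range (m + 1), η ^ 2 * HX φ e (-R + 2 * η * k) η ≤ 4 * C' * N * v ^ 12 :=
    hX.trans (mul_le_mul_of_nonneg_left hv20 (by positivity))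
  rw [← hN]
  refine few_of h.norm_one hd Finset.univ L hv hv4 hN0.le (fun i => ?_) ?_
  · have c1 := card_netX h (e := e) (R := R) hη hm (fun j => ∃ b : ZMod n, v ^ 4 < sm (φ j) i b L)
    have c2 : v ^ 4 * ∑ k ∈ Finset.range (m + 1), (((Wd e (-R + 2 * η * k) η).filter
        fun j => ∃ b : ZMod n, v ^ 4 < sm (φ j) i b L).card : ℝ) ≤
        ∑ k ∈ Finset.range (m + 1), (128 * C0 * v ^ 16 * (N * η * s) + 72 * (η ^ 2 * HX φ e (-R + 2 * η * k) η)) := by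
      rw [Finset.mul_sum]
      refine Finset.sum_le_sum fun k _ => ?_
      have := (w k).1 i
      rw [← hN] at this
      refine le_trans (le_of_eq ?_) this
      congr 3
    rw [Finset.sum_add_distrib, Finset.sum_const, Finset.card_range, nsmul_eq_mul, ← Finset.mul_sum] at c2
    have c3 : ((m + 1 : ℕ) : ℝ) * (128 * C0 * v ^ 16 * (N * η * s)) ≤ 512 * C0 * N * v ^ 12 := by
      push_cast
      calc ((m : ℝ) + 1) * (128 * C0 * v ^ 16 * (N * η * s)) = 128 * C0 * v ^ 16 * N * s * (((m : ℝ) + 1) * η) := by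
            ring
        _ ≤ 128 * C0 * v ^ 16 * N * s * (4 * R) := mul_le_mul_of_nonneg_left hm2 (by positivity)
        _ = 512 * C0 * N * v ^ 12 * (R * s * v ^ 4) := by ring
        _ ≤ 512 * C0 * N * v ^ 12 * 1 := mul_le_mul_of_nonneg_left hRs (by positivity)
        _ = _ := by ring
    have c4 : ∑ k ∈ Finset.range (m + 1), (((Wd e (-R + 2 * η * k) η).filter
        fun j => ∃ b : ZMod n, v ^ 4 < sm (φ j) i b L).card : ℝ) ≤ (512 * C0 + 288 * C') * v ^ 8 * N := by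
      refine le_of_mul_le_mul_left ?_ (by positivity : 0 < v ^ 4)
      refine c2.trans ?_
      calc _ ≤ 512 * C0 * N * v ^ 12 + 72 * (4 * C' * N * v ^ 12) :=
            add_le_add c3 (mul_le_mul_of_nonneg_left hX' (by norm_num))
        _ = _ := by ring
    refine le_trans ?_ key
    refine le_trans c1 ?_
    rw [← hT]; linarith
  · have c1 := card_netX h (e := e) (R := R) hη hm (fun j => v ^ 4 < om (φ j) (e j) η)
    have c2 : v ^ 4 * ∑ k ∈ Finset.range (m + 1), (((Wd e (-R + 2 * η * k) η).filter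
        fun j => v ^ 4 < om (φ j) (e j) η).card : ℝ) ≤
        ∑ k ∈ Finset.range (m + 1), 8 * (η ^ 2 * HX φ e (-R + 2 * η * k) η) := by
      rw [Finset.mul_sum]
      refine Finset.sum_le_sum fun k _ => ?_
      have := (w k).2
      refine le_trans (le_of_eq ?_) this
      congr 3
    rw [← Finset.mul_sum] at c2
    have c4 : ∑ k ∈ Finset.range (m + 1), (((Wd e (-R + 2 * η * k) η).filter
        fun j => v ^ 4 < om (φ j) (e j) η).card : ℝ) ≤ (32 * C') * v ^ 8 * N := by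
      refine le_of_mul_le_mul_left ?_ (by positivity : 0 < v ^ 4)
      refine c2.trans ?_
      calc _ ≤ 8 * (4 * C' * N * v ^ 12) := mul_le_mul_of_nonneg_left hX' (by norm_num)
        _ = _ := by ring
    refine le_trans ?_ key
    refine le_trans c1 ?_
    rw [← hT]
    have : 0 ≤ v ^ 8 * N := by positivity
    have h1 : 0 ≤ C0 * (v ^ 8 * N) := by positivity
    have h2 : 0 ≤ C' * (v ^ 8 * N) := by positivity
    linarith

end

end Pool.Agent.Q218.HB
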