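import Pool.Agent.Q218.HB.Cov

/-! The recursive moment estimate. -/

set_option autoImplicit false
set_option linter.unusedSectionVars false

open MeasureTheory

namespace Pool.Agent.Q218.HB

section CB

variable {Λ : Type} [Fintype Λ]

/-- continuous, bounded, nonnegative -/
def CB (f : (Λ → ℝ) → ℝ) : Prop := Continuous f ∧ (∃ B : ℝ, ∀ V, f V ≤ B) ∧ ∀ V, 0 ≤ f V

variable {f g : (Λ → ℝ) → ℝ}

theorem CB.mul (h : CB f) (h' : CB g) : CB fun V => f V * g V := by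
  obtain ⟨h1, ⟨B, hB⟩, h3⟩ := h
  obtain ⟨h1', ⟨B', hB'⟩, h3'⟩ := h'
  exact ⟨h1.mul h1', ⟨B * B', fun V => mul_le_mul (hB V) (hB' V) (h3' V) ((h3 V).trans (hB V))⟩,
    fun V => mul_nonneg (h3 V) (h3' V)⟩

theorem CB.add (h : CB f) (h' : CB g) : CB fun V => f V + g V := by
  obtain ⟨h1, ⟨B, hB⟩, h3⟩ := h
  obtain ⟨h1', ⟨B', hB'⟩, h3'⟩ := h'
  exact ⟨h1.add h1', ⟨B + B', fun V => add_le_add (hB V) (hB' V)⟩,
    fun V => add_nonneg (h3 V) (h3' V)⟩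

theorem CB.pow (h : CB f) (p : ℕ) : CB fun V => f V ^ p := by
  obtain ⟨h1, ⟨B, hB⟩, h3⟩ := h
  exact ⟨h1.pow p, ⟨B ^ p, fun V => pow_le_pow_left₀ (h3 V) (hB V) p⟩, fun V => pow_nonneg (h3 V) p⟩

theorem CB.cmul {c : ℝ} (hc : 0 ≤ c) (h : CB f) : CB fun V => c * f V := by
  obtain ⟨h1, ⟨B, hB⟩, h3⟩ := h
  exact ⟨h1.const_mul _, ⟨c * B, fun V => mul_le_mul_of_nonneg_left (hB V) hc⟩,
    fun V => mul_nonneg hc (h3 V)⟩

theorem CB.sum {α : Type} [Fintype α] {F : α → (Λ → ℝ) → ℝ} (h : ∀ x, CB (F x)) :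
    CB fun V => ∑ x, F x V := by
  choose B hB using fun x => (h x).2.1
  exact ⟨continuous_finsetSum _ fun x _ => (h x).1, ⟨∑ x, B x, fun V =>
    Finset.sum_le_sum fun x _ => hB x V⟩, fun V => Finset.sum_nonneg fun x _ => (h x).2.2 V⟩

theorem CB.int (ν : Measure ℝ) [IsProbabilityMeasure ν] (h : CB f) : Integrable f (iid Λ ν) := by
  obtain ⟨h1, ⟨B, hB⟩, h3⟩ := h
  exact bc_int ν h1 (B := B) fun V => by rw [abs_of_nonneg (h3 V)]; exact hB V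

end CB

theorem pow_sub_le (a b : ℂ) (R : ℝ) (ha : ‖a‖ ≤ R) (hb : ‖b‖ ≤ R) (n : ℕ) :
    ‖a ^ n - b ^ n‖ * R ≤ n * R ^ n * ‖a - b‖ := by
  have hR : 0 ≤ R := (norm_nonneg a).trans ha
  induction n with
  | zero => simp
  | succ n ih =>
    have e : a ^ (n + 1) - b ^ (n + 1) = a * (a ^ n - b ^ n) + (a - b) * b ^ n := by ring
    have h1 : ‖a ^ (n + 1) - b ^ (n + 1)‖ ≤ R * ‖a ^ n - b ^ n‖ + ‖a - b‖ * R ^ n := by
      rw [e]
      refine (norm_add_le _ _).trans (add_le_add ?_ ?_)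
      · rw [norm_mul]; exact mul_le_mul_of_nonneg_right ha (norm_nonneg _)
      · rw [norm_mul, norm_pow]
        exact mul_le_mul_of_nonneg_left (pow_le_pow_left₀ (norm_nonneg _) hb n) (norm_nonneg _)
    calc ‖a ^ (n + 1) - b ^ (n + 1)‖ * R ≤ (R * ‖a ^ n - b ^ n‖ + ‖a - b‖ * R ^ n) * R :=
          mul_le_mul_of_nonneg_right h1 hR
      _ = R * (‖a ^ n - b ^ n‖ * R) + ‖a - b‖ * R ^ (n + 1) := by ring
      _ ≤ R * (n * R ^ n * ‖a - b‖) + ‖a - b‖ * R ^ (n + 1) := by gcongr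
      _ = ((n + 1 : ℕ) : ℝ) * R ^ (n + 1) * ‖a - b‖ := by push_cast; ring

/-- `F^p conj(F)^(p+1)` -/
noncomputable def Ph (p : ℕ) (a : ℂ) : ℂ := a ^ p * (starRingEnd ℂ) a ^ (p + 1)

theorem Ph_mul (p : ℕ) (a : ℂ) : a * Ph p a = ((‖a‖ ^ (2 * (p + 1)) : ℝ) : ℂ) := by
  unfold Ph
  have h : a * (starRingEnd ℂ) a = ((‖a‖ ^ 2 : ℝ) : ℂ) := by
    rw [Complex.mul_conj, Complex.normSq_eq_norm_sq]
  calc a * (a ^ p * (starRingEnd ℂ) a ^ (p + 1)) = (a * (starRingEnd ℂ) a) ^ (p + 1) := by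
        rw [mul_pow]; ring
    _ = _ := by rw [h, ← Complex.ofReal_pow, ← pow_mul]

theorem Ph_norm (p : ℕ) (a : ℂ) : ‖Ph p a‖ = ‖a‖ ^ (2 * p + 1) := by
  unfold Ph
  rw [norm_mul, norm_pow, norm_pow, RCLike.norm_conj, ← pow_add]
  congr 1; ring

theorem Ph_sub (p : ℕ) (a b : ℂ) :
    ‖Ph p a - Ph p b‖ ≤ (2 * p + 1) * ‖a - b‖ * (‖a‖ + ‖a - b‖) ^ (2 * p) := by
  obtain ⟨R, hR⟩ : ∃ R, R = ‖a‖ + ‖a - b‖ := ⟨_, rfl⟩
  have ha : ‖a‖ ≤ R := by rw [hR]; linarith [norm_nonneg (a - b)]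
  have hb : ‖b‖ ≤ R := by
    have : ‖b‖ = ‖a - (a - b)‖ := by congr 1; ring
    rw [this, hR]; exact norm_sub_le _ _
  have hR0 : 0 ≤ R := (norm_nonneg a).trans ha
  rw [← hR]
  rcases hR0.eq_or_lt with h0 | h0
  · have h1 : a = 0 := norm_le_zero_iff.1 (by rw [h0]; exact ha)
    have h2 : b = 0 := norm_le_zero_iff.1 (by rw [h0]; exact hb)
    rw [h1, h2]; simp
  · have h1 := pow_sub_le a b R ha hb p
    have h2 := pow_sub_le ((starRingEnd ℂ) a) ((starRingEnd ℂ) b) R (by rwa [RCLike.norm_conj])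
      (by rwa [RCLike.norm_conj]) (p + 1)
    rw [← map_sub, RCLike.norm_conj] at h2
    have e : Ph p a - Ph p b = (a ^ p - b ^ p) * (starRingEnd ℂ) a ^ (p + 1) +
        b ^ p * ((starRingEnd ℂ) a ^ (p + 1) - (starRingEnd ℂ) b ^ (p + 1)) := by unfold Ph; ring
    have h3 : ‖Ph p a - Ph p b‖ ≤ ‖a ^ p - b ^ p‖ * R ^ (p + 1) +
        R ^ p * ‖(starRingEnd ℂ) a ^ (p + 1) - (starRingEnd ℂ) b ^ (p + 1)‖ := by
      rw [e]
      refine (norm_add_le _ _).trans (add_le_add ?_ ?_)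
      · rw [norm_mul, norm_pow, RCLike.norm_conj]
        exact mul_le_mul_of_nonneg_left (pow_le_pow_left₀ (norm_nonneg _) ha _) (norm_nonneg _)
      · rw [norm_mul, norm_pow]
        exact mul_le_mul_of_nonneg_right (pow_le_pow_left₀ (norm_nonneg _) hb _) (norm_nonneg _)
    refine le_of_mul_le_mul_right ?_ h0
    calc ‖Ph p a - Ph p b‖ * R ≤ (‖a ^ p - b ^ p‖ * R ^ (p + 1) +
        R ^ p * ‖(starRingEnd ℂ) a ^ (p + 1) - (starRingEnd ℂ) b ^ (p + 1)‖) * R :=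
          mul_le_mul_of_nonneg_right h3 hR0
      _ = (‖a ^ p - b ^ p‖ * R) * R ^ (p + 1) +
        R ^ p * (‖(starRingEnd ℂ) a ^ (p + 1) - (starRingEnd ℂ) b ^ (p + 1)‖ * R) := by ring
      _ ≤ (p * R ^ p * ‖a - b‖) * R ^ (p + 1) +
        R ^ p * (((p + 1 : ℕ) : ℝ) * R ^ (p + 1) * ‖a - b‖) := by gcongr
      _ = (2 * p + 1) * ‖a - b‖ * R ^ (2 * p) * R := by push_cast; ring

theorem young1 (a f : ℝ) (ha : 0 ≤ a) (hf : 0 ≤ f) (p : ℕ) :
    a * f ^ (2 * p + 1) ≤ 1 / 4 * f ^ (2 * (p + 1)) + 4 ^ (2 * p + 1) * a ^ (2 * (p + 1)) := by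
  rcases le_total (4 * a) f with h | h
  · have h1 : a * f ^ (2 * p + 1) ≤ (f / 4) * f ^ (2 * p + 1) :=
      mul_le_mul_of_nonneg_right (by linarith) (by positivity)
    have h2 : 0 ≤ 4 ^ (2 * p + 1) * a ^ (2 * (p + 1)) := by positivity
    have h3 : (f / 4) * f ^ (2 * p + 1) = 1 / 4 * f ^ (2 * (p + 1)) := by ring
    linarith
  · have h1 : a * f ^ (2 * p + 1) ≤ a * (4 * a) ^ (2 * p + 1) :=
      mul_le_mul_of_nonneg_left (pow_le_pow_left₀ hf h _) ha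
    have h2 : 0 ≤ 1 / 4 * f ^ (2 * (p + 1)) := by positivity
    have h3 : a * (4 * a) ^ (2 * p + 1) = 4 ^ (2 * p + 1) * a ^ (2 * (p + 1)) := by
      rw [mul_pow]; ring
    linarith

theorem young2 (a f : ℝ) (ha : 0 ≤ a) (hf : 0 ≤ f) (p : ℕ) :
    a * f ^ (2 * p) ≤ 1 / 4 * f ^ (2 * (p + 1)) + 4 ^ p * a ^ (p + 1) := by
  rcases le_total (4 * a) (f ^ 2) with h | h
  · have h1 : a * f ^ (2 * p) ≤ (f ^ 2 / 4) * f ^ (2 * p) :=
      mul_le_mul_of_nonneg_right (by linarith) (by positivity)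
    have h2 : 0 ≤ 4 ^ p * a ^ (p + 1) := by positivity
    have h3 : (f ^ 2 / 4) * f ^ (2 * p) = 1 / 4 * f ^ (2 * (p + 1)) := by ring
    linarith
  · have h1 : a * f ^ (2 * p) ≤ a * (4 * a) ^ p := by
      rw [pow_mul]
      exact mul_le_mul_of_nonneg_left (pow_le_pow_left₀ (by positivity) h _) ha
    have h2 : 0 ≤ 1 / 4 * f ^ (2 * (p + 1)) := by positivity
    have h3 : a * (4 * a) ^ p = 4 ^ p * a ^ (p + 1) := by
      rw [mul_pow]; ring
    linarith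

section Res

variable {Λ : Type} [Fintype Λ] [DecidableEq Λ] {h : Λ → Λ → ℝ} {z : ℂ}

theorem ent_le (hO : S_OPB) (hs : ∀ x y, h x y = h y x) (hz : 0 < z.im) (V : Λ → ℝ) (x y : Λ) :
    ‖G h V z x y‖ ≤ 1 / z.im := by
  have h1 := hO Λ h V z hs hz (fun w => if w = y then 1 else 0)
  have e1 : ∑ w, ‖(if w = y then (1 : ℂ) else 0)‖ ^ 2 = 1 := by
    rw [Finset.sum_eq_single y]
    · simp
    · intro b _ hb; simp [hb]
    · simp
  have e2 : ∀ w, ∑ v, G h V z w v * (if v = y then (1 : ℂ) else 0) = G h V z w y := fun w => by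
    simp
  simp only [e1, e2] at h1
  have h2 : ‖G h V z x y‖ ^ 2 ≤ (1 / z.im) ^ 2 := by
    refine (Finset.single_le_sum (f := fun w => ‖G h V z w y‖ ^ 2) (fun w _ => by positivity)
      (Finset.mem_univ x)).trans (h1.trans (le_of_eq ?_))
    rw [div_pow, one_pow]
  exact (pow_le_pow_iff_left₀ (norm_nonneg _) (by positivity) two_ne_zero).1 h2

theorem up_cont (x : Λ) : Continuous fun V : Λ → ℝ => up V x :=
  continuous_id.update x continuous_const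

theorem cbG (hI : S_INV) (hC : S_CONT) (hO : S_OPB) (hs : ∀ x y, h x y = h y x)
    (hz : 0 < z.im) (x y : Λ) : CB fun V => ‖G h V z x y‖ :=
  ⟨(hC Λ h z hs hz.ne' x y).norm, ⟨1 / z.im, fun V => ent_le hO hs hz V x y⟩, fun _ => norm_nonneg _⟩

theorem cbU (hI : S_INV) (hC : S_CONT) (hO : S_OPB) (hs : ∀ x y, h x y = h y x)
    (hz : 0 < z.im) (v x y : Λ) : CB fun V => ‖G h (up V v) z x y‖ :=
  ⟨((hC Λ h z hs hz.ne' x y).comp (up_cont v)).norm, ⟨1 / z.im, fun V => ent_le hO hs hz _ x y⟩,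
    fun _ => norm_nonneg _⟩

theorem ae_le (ν : Measure ℝ) [IsProbabilityMeasure ν] (M : ℝ) (hν : ν (Set.Icc (-M) M)ᶜ = 0) :
    ∀ᵐ V ∂(iid Λ ν), ∀ x, |V x| ≤ M := by
  rw [Filter.eventually_all]
  intro x
  have h1 : ∀ᵐ t ∂ν, |t| ≤ M := by
    have : ∀ᵐ t ∂ν, t ∈ Set.Icc (-M) M := by
      rw [ae_iff]; exact hν
    filter_upwards [this] with t ht
    exact abs_le.2 ht
  exact (measurePreserving_eval (fun _ : Λ => ν) x).quasiMeasurePreserving.ae h1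

/-- `A₁` -/
noncomputable def A1 (h : Λ → Λ → ℝ) (z : ℂ) (M : ℝ) (o : Λ) (V : Λ → ℝ) : ℝ :=
  M ^ 2 * ∑ x, ‖G h (fun _ => 0) z o x‖ * (‖G h (up V x) z x x‖ * ‖G h V z x o‖)

/-- `δ_x` -/
noncomputable def dl (h : Λ → Λ → ℝ) (z : ℂ) (M : ℝ) (o x : Λ) (V : Λ → ℝ) : ℝ :=
  M * (‖G h (up V x) z x o‖ * ‖G h V z x o‖)

/-- `∑ |G₀(o,x)| |G^x(x,o)| δ_x^(k+1)` -/
noncomputable def Bk (h : Λ → Λ → ℝ) (z : ℂ) (M : ℝ) (o : Λ) (k : ℕ) (V : Λ → ℝ) : ℝ :=
  ∑ x, ‖G h (fun _ => 0) z o x‖ * (‖G h (up V x) z x o‖ * dl h z M o x V ^ (k + 1))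

theorem cbd (hI : S_INV) (hC : S_CONT) (hO : S_OPB) (hs : ∀ x y, h x y = h y x)
    (hz : 0 < z.im) {M : ℝ} (hM : 0 ≤ M) (o x : Λ) : CB (dl h z M o x) :=
  CB.cmul hM ((cbU hI hC hO hs hz x x o).mul (cbG hI hC hO hs hz x o))

theorem cbA1 (hI : S_INV) (hC : S_CONT) (hO : S_OPB) (hs : ∀ x y, h x y = h y x)
    (hz : 0 < z.im) (M : ℝ) (o : Λ) : CB (A1 h z M o) :=
  CB.cmul (sq_nonneg M) (CB.sum fun x => CB.cmul (norm_nonneg _)
    ((cbU hI hC hO hs hz x x x).mul (cbG hI hC hO hs hz x o)))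

theorem cbB (hI : S_INV) (hC : S_CONT) (hO : S_OPB) (hs : ∀ x y, h x y = h y x)
    (hz : 0 < z.im) {M : ℝ} (hM : 0 ≤ M) (o : Λ) (k : ℕ) : CB (Bk h z M o k) :=
  CB.sum fun x => CB.cmul (norm_nonneg _)
    ((cbU hI hC hO hs hz x x o).mul ((cbd hI hC hO hs hz hM o x).pow (k + 1)))

/-- **The recursive moment estimate.** -/
theorem rec_mom (hI : S_INV) (hC : S_CONT) (hO : S_OPB) (hU : S_UPD) (hE : S_SEC) (hR : S_RES)
    (hs : ∀ x y, h x y = h y x) (hz : 0 < z.im) (ν : Measure ℝ) [IsProbabilityMeasure ν] {M : ℝ}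
    (hM : 0 ≤ M) (hν : ν (Set.Icc (-M) M)ᶜ = 0) (hν0 : ∫ t, t ∂ν = 0) (o : Λ) (p : ℕ) :
    ∫ V, ‖G h V z o o - G h (fun _ => 0) z o o‖ ^ (2 * (p + 1)) ∂(iid Λ ν) ≤
      2 * (4 ^ (2 * p + 1) * ∫ V, A1 h z M o V ^ (2 * (p + 1)) ∂(iid Λ ν) +
        4 ^ p * ∫ V, ((2 * p + 1) * 2 ^ (2 * p) * M * Bk h z M o 0 V) ^ (p + 1) ∂(iid Λ ν) +
        ∫ V, (2 * p + 1) * 2 ^ (2 * p) * M * Bk h z M o (2 * p) V ∂(iid Λ ν)) := by
  haveI := iid_prob Λ ν
  obtain ⟨F, hF⟩ : ∃ F : (Λ → ℝ) → ℂ, F = fun V => G h V z o o - G h (fun _ => 0) z o o := ⟨_, rfl⟩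
  have hFV : ∀ V, G h V z o o - G h (fun _ => 0) z o o = F V := fun V => by rw [hF]
  have hFc : Continuous F := by
    rw [hF]; exact (hC Λ h z hs hz.ne' o o).sub continuous_const
  have hFb : ∀ V, ‖F V‖ ≤ 2 / z.im := fun V => by
    rw [hF]
    refine (norm_sub_le _ _).trans ?_
    have := ent_le hO hs hz V o o
    have := ent_le hO hs hz (fun _ => 0) o o
    have e : 2 / z.im = 1 / z.im + 1 / z.im := by ring
    rw [e]; linarith
  have cbF : CB fun V => ‖F V‖ := ⟨hFc.norm, ⟨2 / z.im, hFb⟩, fun _ => norm_nonneg _⟩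
  simp only [hFV]
  -- the functions `f_x`
  obtain ⟨f, hf⟩ : ∃ f : Λ → (Λ → ℝ) → ℂ, f = fun x V => G h V z x o * Ph p (F V) := ⟨_, rfl⟩
  have hfc : ∀ x, Continuous (f x) := fun x => by
    rw [hf]
    refine (hC Λ h z hs hz.ne' x o).mul ?_
    unfold Ph
    exact (hFc.pow p).mul ((Complex.continuous_conj.comp hFc).pow (p + 1))
  have hfb : ∀ x V, ‖f x V‖ ≤ 1 / z.im * (2 / z.im) ^ (2 * p + 1) := fun x V => by
    rw [hf]
    simp only [norm_mul, Ph_norm]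
    exact mul_le_mul (ent_le hO hs hz V x o) (pow_le_pow_left₀ (norm_nonneg _) (hFb V) _)
      (by positivity) (by positivity)
  have hae := ae_le (Λ := Λ) ν M hν
  have hint : ∀ x, Integrable (fun V : Λ → ℝ => (V x : ℂ) * f x V) (iid Λ ν) := fun x => by
    refine Integrable.of_bound (((Complex.continuous_ofReal.comp (continuous_apply x)).mul
      (hfc x)).aestronglyMeasurable) (M * (1 / z.im * (2 / z.im) ^ (2 * p + 1))) ?_
    filter_upwards [hae] with V hV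
    rw [norm_mul, Complex.norm_real, Real.norm_eq_abs]
    exact mul_le_mul (hV x) (hfb x V) (norm_nonneg _) hM
  have key : ∀ V, ((‖F V‖ ^ (2 * (p + 1)) : ℝ) : ℂ) =
      ∑ x, -(G h (fun _ => 0) z o x) * ((V x : ℂ) * f x V) := fun V => by
    rw [← Ph_mul]
    have h1 := hE Λ h V z hs hz.ne' o o
    have h2 : F V = -∑ v, G h (fun _ => 0) z o v * (V v : ℂ) * G h V z v o := by
      rw [hF]
      simp only
      rw [h1]; ring
    have h3 : F V * Ph p (F V) = (-∑ v, G h (fun _ => 0) z o v * (V v : ℂ) * G h V z v o) * Ph p (F V) := by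
      rw [← h2]
    rw [h3, hf, neg_mul, Finset.sum_mul, ← Finset.sum_neg_distrib]
    exact Finset.sum_congr rfl fun x _ => by ring
  have hnorm : ∫ V, ‖F V‖ ^ (2 * (p + 1)) ∂(iid Λ ν) ≤
      ∑ x, ‖G h (fun _ => 0) z o x‖ * (M * ∫ V, ‖f x V - f x (up V x)‖ ∂(iid Λ ν)) := by
    have h1 : ((∫ V, ‖F V‖ ^ (2 * (p + 1)) ∂(iid Λ ν) : ℝ) : ℂ) =
        ∑ x, -(G h (fun _ => 0) z o x) * ∫ V, (V x : ℂ) * f x V ∂(iid Λ ν) := by
      rw [← integral_complex_ofReal]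
      simp only [key]
      rw [integral_finsetSum _ fun x _ => (hint x).const_mul _]
      exact Finset.sum_congr rfl fun x _ => by rw [integral_const_mul]
    have h2 : 0 ≤ ∫ V, ‖F V‖ ^ (2 * (p + 1)) ∂(iid Λ ν) := integral_nonneg fun V => by positivity
    have h3 : ∫ V, ‖F V‖ ^ (2 * (p + 1)) ∂(iid Λ ν) =
        ‖((∫ V, ‖F V‖ ^ (2 * (p + 1)) ∂(iid Λ ν) : ℝ) : ℂ)‖ := by
      rw [Complex.norm_real, Real.norm_of_nonneg h2]
    rw [h3, h1]
    refine (norm_sum_le _ _).trans (Finset.sum_le_sum fun x _ => ?_)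
    rw [norm_mul, norm_neg]
    exact mul_le_mul_of_nonneg_left (hR Λ ν M hM hν hν0 x (f x) (hfc x) ⟨_, hfb x⟩) (norm_nonneg _)
  -- the pointwise bound
  have hpt : ∀ x, ∀ᵐ V ∂(iid Λ ν), M * ‖f x V - f x (up V x)‖ ≤
      M ^ 2 * (‖G h (up V x) z x x‖ * ‖G h V z x o‖) * ‖F V‖ ^ (2 * p + 1) +
      ((2 * p + 1) * 2 ^ (2 * p) * M * (‖G h (up V x) z x o‖ * dl h z M o x V ^ (0 + 1))) * ‖F V‖ ^ (2 * p) +
      (2 * p + 1) * 2 ^ (2 * p) * M * (‖G h (up V x) z x o‖ * dl h z M o x V ^ (2 * p + 1)) := fun x => by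
    filter_upwards [hae] with V hV
    have hVx : ‖(V x : ℂ)‖ ≤ M := by rw [Complex.norm_real, Real.norm_eq_abs]; exact hV x
    obtain ⟨u1, _⟩ := hU Λ h V z hs hz.ne' x x o
    obtain ⟨u2, _⟩ := hU Λ h V z hs hz.ne' x o o
    have s1 : G h (up V x) z o x = G h (up V x) z x o := (hI Λ h (up V x) z hs hz.ne').2.2 o x
    have d1 : ‖G h V z x o - G h (up V x) z x o‖ ≤ M * (‖G h (up V x) z x x‖ * ‖G h V z x o‖) := by
      have : G h V z x o - G h (up V x) z x o = -((V x : ℂ) * G h (up V x) z x x * G h V z x o) := by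
        linear_combination u1
      rw [this, norm_neg, norm_mul, norm_mul, mul_assoc]
      exact mul_le_mul_of_nonneg_right hVx (by positivity)
    have d2 : ‖F V - F (up V x)‖ ≤ dl h z M o x V := by
      have : F V - F (up V x) = -((V x : ℂ) * G h (up V x) z x o * G h V z x o) := by
        rw [hF]
        simp only
        rw [← s1]
        linear_combination u2
      rw [this, norm_neg, norm_mul, norm_mul, mul_assoc]
      exact mul_le_mul_of_nonneg_right hVx (by positivity)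
    have hδ0 : 0 ≤ dl h z M o x V := (norm_nonneg _).trans d2
    have e1 : f x V - f x (up V x) = (G h V z x o - G h (up V x) z x o) * Ph p (F V) +
        G h (up V x) z x o * (Ph p (F V) - Ph p (F (up V x))) := by rw [hf]; ring
    have d3 : ‖f x V - f x (up V x)‖ ≤
        M * (‖G h (up V x) z x x‖ * ‖G h V z x o‖) * ‖F V‖ ^ (2 * p + 1) +
        ‖G h (up V x) z x o‖ * ((2 * p + 1) * dl h z M o x V * (‖F V‖ + dl h z M o x V) ^ (2 * p)) := by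
      rw [e1]
      refine (norm_add_le _ _).trans (add_le_add ?_ ?_)
      · rw [norm_mul, Ph_norm]
        exact mul_le_mul_of_nonneg_right d1 (by positivity)
      · rw [norm_mul]
        refine mul_le_mul_of_nonneg_left ((Ph_sub p _ _).trans ?_) (norm_nonneg _)
        gcongr
    have d4 : (‖F V‖ + dl h z M o x V) ^ (2 * p) ≤
        2 ^ (2 * p) * (‖F V‖ ^ (2 * p) + dl h z M o x V ^ (2 * p)) := by
      refine (add_pow_le (norm_nonneg _) hδ0 (2 * p)).trans ?_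
      refine mul_le_mul_of_nonneg_right ?_ (by positivity)
      exact pow_le_pow_right₀ (by norm_num) (Nat.sub_le _ _)
    calc M * ‖f x V - f x (up V x)‖ ≤ M * (M * (‖G h (up V x) z x x‖ * ‖G h V z x o‖) * ‖F V‖ ^ (2 * p + 1) +
        ‖G h (up V x) z x o‖ * ((2 * p + 1) * dl h z M o x V *
          (2 ^ (2 * p) * (‖F V‖ ^ (2 * p) + dl h z M o x V ^ (2 * p))))) := by
          refine mul_le_mul_of_nonneg_left (d3.trans ?_) hM
          gcongr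
      _ = _ := by ring
  have cA1 := cbA1 hI hC hO hs hz M o
  have cB0 := cbB hI hC hO hs hz hM o 0
  have cBp := cbB hI hC hO hs hz hM o (2 * p)
  have hcp : (0 : ℝ) ≤ (2 * p + 1) * 2 ^ (2 * p) * M := by positivity
  have hsum : ∫ V, ‖F V‖ ^ (2 * (p + 1)) ∂(iid Λ ν) ≤
      ∫ V, (A1 h z M o V * ‖F V‖ ^ (2 * p + 1) +
        ((2 * p + 1) * 2 ^ (2 * p) * M * Bk h z M o 0 V) * ‖F V‖ ^ (2 * p) +
        (2 * p + 1) * 2 ^ (2 * p) * M * Bk h z M o (2 * p) V) ∂(iid Λ ν) := by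
    refine hnorm.trans ?_
    have hx : ∀ x, ‖G h (fun _ => 0) z o x‖ * (M * ∫ V, ‖f x V - f x (up V x)‖ ∂(iid Λ ν)) ≤
        ∫ V, ‖G h (fun _ => 0) z o x‖ * (M ^ 2 * (‖G h (up V x) z x x‖ * ‖G h V z x o‖) * ‖F V‖ ^ (2 * p + 1) +
      ((2 * p + 1) * 2 ^ (2 * p) * M * (‖G h (up V x) z x o‖ * dl h z M o x V ^ (0 + 1))) * ‖F V‖ ^ (2 * p) +
      (2 * p + 1) * 2 ^ (2 * p) * M * (‖G h (up V x) z x o‖ * dl h z M o x V ^ (2 * p + 1))) ∂(iid Λ ν) := by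
      intro x
      rw [integral_const_mul]
      refine mul_le_mul_of_nonneg_left ?_ (norm_nonneg _)
      rw [← integral_const_mul]
      refine integral_mono_ae ?_ ?_ (hpt x)
      · refine (bc_int ν ((hfc x).sub ((hfc x).comp (up_cont x))).norm
          (B := 2 * (1 / z.im * (2 / z.im) ^ (2 * p + 1))) fun V => ?_).const_mul M
        rw [abs_of_nonneg (norm_nonneg _)]
        refine (norm_sub_le _ _).trans ?_
        have h8 := hfb x V
        have h9 : ‖(f x ∘ fun V => up V x) V‖ ≤ _ := hfb x (up V x)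
        linarith
      · exact ((((cbU hI hC hO hs hz x x x).mul (cbG hI hC hO hs hz x o)).cmul (sq_nonneg M)).mul
          (cbF.pow _)).add ((((cbU hI hC hO hs hz x x o).mul ((cbd hI hC hO hs hz hM o x).pow _)).cmul hcp).mul
          (cbF.pow _)) |>.add (((cbU hI hC hO hs hz x x o).mul
            ((cbd hI hC hO hs hz hM o x).pow _)).cmul hcp) |>.int ν
    refine (Finset.sum_le_sum fun x _ => hx x).trans (le_of_eq ?_)
    rw [← integral_finsetSum]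
    · congr 1
      funext V
      unfold A1 Bk
      simp only [Finset.mul_sum, Finset.sum_mul, ← Finset.sum_add_distrib]
      exact Finset.sum_congr rfl fun x _ => by ring
    · intro x _
      exact (CB.cmul (norm_nonneg _) (((((cbU hI hC hO hs hz x x x).mul (cbG hI hC hO hs hz x o)).cmul
        (sq_nonneg M)).mul
          (cbF.pow _)).add ((((cbU hI hC hO hs hz x x o).mul ((cbd hI hC hO hs hz hM o x).pow _)).cmul hcp).mul
          (cbF.pow _)) |>.add (((cbU hI hC hO hs hz x x o).mul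
            ((cbd hI hC hO hs hz hM o x).pow _)).cmul hcp))).int ν
  have hlast : ∫ V, (A1 h z M o V * ‖F V‖ ^ (2 * p + 1) +
        ((2 * p + 1) * 2 ^ (2 * p) * M * Bk h z M o 0 V) * ‖F V‖ ^ (2 * p) +
        (2 * p + 1) * 2 ^ (2 * p) * M * Bk h z M o (2 * p) V) ∂(iid Λ ν) ≤
      ∫ V, (1 / 2 * ‖F V‖ ^ (2 * (p + 1)) + (4 ^ (2 * p + 1) * A1 h z M o V ^ (2 * (p + 1)) +
        4 ^ p * ((2 * p + 1) * 2 ^ (2 * p) * M * Bk h z M o 0 V) ^ (p + 1) +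
        (2 * p + 1) * 2 ^ (2 * p) * M * Bk h z M o (2 * p) V)) ∂(iid Λ ν) := by
    refine integral_mono ((((cA1.mul (cbF.pow (2 * p + 1))).add
      ((cB0.cmul hcp).mul (cbF.pow (2 * p)))).add (cBp.cmul hcp)).int ν) ?_ fun V => ?_
    · exact (((cbF.pow (2 * (p + 1))).cmul (by norm_num : (0 : ℝ) ≤ 1 / 2)).add
        ((((cA1.pow (2 * (p + 1))).cmul (by positivity : (0 : ℝ) ≤ 4 ^ (2 * p + 1))).add
        (((cB0.cmul hcp).pow (p + 1)).cmul (by positivity : (0 : ℝ) ≤ 4 ^ p))).add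
          (cBp.cmul hcp))).int ν
    · have y1 := young1 (A1 h z M o V) ‖F V‖ (cA1.2.2 V) (norm_nonneg _) p
      have y2 := young2 ((2 * p + 1) * 2 ^ (2 * p) * M * Bk h z M o 0 V) ‖F V‖
        ((cB0.cmul hcp).2.2 V) (norm_nonneg _) p
      simp only
      linarith
  have hfin : ∫ V, (1 / 2 * ‖F V‖ ^ (2 * (p + 1)) + (4 ^ (2 * p + 1) * A1 h z M o V ^ (2 * (p + 1)) +
        4 ^ p * ((2 * p + 1) * 2 ^ (2 * p) * M * Bk h z M o 0 V) ^ (p + 1) +
        (2 * p + 1) * 2 ^ (2 * p) * M * Bk h z M o (2 * p) V)) ∂(iid Λ ν) =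
      1 / 2 * ∫ V, ‖F V‖ ^ (2 * (p + 1)) ∂(iid Λ ν) +
      (4 ^ (2 * p + 1) * ∫ V, A1 h z M o V ^ (2 * (p + 1)) ∂(iid Λ ν) +
        4 ^ p * ∫ V, ((2 * p + 1) * 2 ^ (2 * p) * M * Bk h z M o 0 V) ^ (p + 1) ∂(iid Λ ν) +
        ∫ V, (2 * p + 1) * 2 ^ (2 * p) * M * Bk h z M o (2 * p) V ∂(iid Λ ν)) := by
    rw [integral_add, integral_add, integral_add, integral_const_mul, integral_const_mul,
      integral_const_mul]
    · exact ((cA1.pow (2 * (p + 1))).cmul (by positivity : (0 : ℝ) ≤ 4 ^ (2 * p + 1))).int ν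
    · exact (((cB0.cmul hcp).pow (p + 1)).cmul (by positivity : (0 : ℝ) ≤ 4 ^ p)).int ν
    · exact (((cA1.pow (2 * (p + 1))).cmul (by positivity : (0 : ℝ) ≤ 4 ^ (2 * p + 1))).add
        (((cB0.cmul hcp).pow (p + 1)).cmul (by positivity : (0 : ℝ) ≤ 4 ^ p))).int ν
    · exact (cBp.cmul hcp).int ν
    · exact ((cbF.pow (2 * (p + 1))).cmul (by norm_num : (0 : ℝ) ≤ 1 / 2)).int ν
    · exact ((((cA1.pow (2 * (p + 1))).cmul (by positivity : (0 : ℝ) ≤ 4 ^ (2 * p + 1))).add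
        (((cB0.cmul hcp).pow (p + 1)).cmul (by positivity : (0 : ℝ) ≤ 4 ^ p))).add
          (cBp.cmul hcp)).int ν
  linarith [hsum.trans (hlast.trans (le_of_eq hfin))]

end Res

end Pool.Agent.Q218.HB
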