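import Pool.Agent.Q218.HB.Chain

/-! The induction step. -/

set_option autoImplicit false
set_option linter.unusedSectionVars false
set_option linter.unusedVariables false

open MeasureTheory

namespace Pool.Agent.Q218.HB

variable {ι : Type} {Λ : ι → Type} [∀ i, Fintype (Λ i)] [∀ i, DecidableEq (Λ i)]
  [∀ i, AddCommGroup (Λ i)]

variable {ν : ι → Measure ℝ} {M : ι → ℝ} {CM m C0 : ℝ} {D E : ι → ℝ} {h : ∀ i, Λ i → Λ i → ℝ} {e : ℝ}

/-- the hypothesis of the induction -/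
def Hyp (ν : ι → Measure ℝ) (D E : ι → ℝ) (h : ∀ i, Λ i → Λ i → ℝ) (e : ℝ) (J : ℕ) : Prop :=
  ∀ j ≤ J, Dom ν D (Ga D E h e j) (1 / 2)

/-- `|G(0,0)|` -/
noncomputable def gg (D E : ι → ℝ) (h : ∀ i, Λ i → Λ i → ℝ) (e : ℝ) (j : ℕ) (i : ι)
    (V : Λ i → ℝ) : ℝ := ‖G (h i) V (zs D E e j i) 0 0‖

/-- `|G(0,0)|` with `V_0 = 0` -/
noncomputable def uu (D E : ι → ℝ) (h : ∀ i, Λ i → Λ i → ℝ) (e : ℝ) (j : ℕ) (i : ι)
    (V : Λ i → ℝ) : ℝ := ‖G (h i) (up V 0) (zs D E e j i) 0 0‖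

/-- `|G(0,y)|²` -/
noncomputable def ww (D E : ι → ℝ) (h : ∀ i, Λ i → Λ i → ℝ) (e : ℝ) (j : ℕ) (i : ι) (y : Λ i)
    (V : Λ i → ℝ) : ℝ := ‖G (h i) V (zs D E e j i) 0 y‖ ^ 2

theorem tr_zero {Λ : Type} [AddCommGroup Λ] (V : Λ → ℝ) : tr 0 V = V := by
  funext v; simp [tr]

theorem up_tr {Λ : Type} [AddCommGroup Λ] [DecidableEq Λ] (x : Λ) (V : Λ → ℝ) :
    up (tr x V) 0 = tr x (up V x) := by
  funext v
  unfold up tr Function.update
  by_cases hv : v = 0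
  · simp [hv]
  · have : ¬ v + x = x := fun h => hv (by simpa using h)
    simp [hv, this]

theorem dom_sum [∀ i, IsProbabilityMeasure (ν i)] (hD : ∀ i, 1 ≤ D i) {s : ℝ}
    {X : ℕ → ∀ i, (Λ i → ℝ) → ℝ} (n : ℕ) (hr : ∀ j, Reg (X j)) (hd : ∀ j < n, Dom ν D (X j) s) :
    Reg (fun i V => ∑ j ∈ Finset.range n, X j i V) ∧
      Dom ν D (fun i V => ∑ j ∈ Finset.range n, X j i V) s := by
  induction n with
  | zero =>
    have hr0 : Reg (fun i (V : Λ i → ℝ) => ∑ j ∈ Finset.range 0, X j i V) := by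
      simp only [Finset.range_zero, Finset.sum_empty]
      exact reg_const fun _ => le_rfl
    refine ⟨hr0, Dom.const hr0 hD le_rfl fun i V => by simp⟩
  | succ n ih =>
    obtain ⟨h1, h2⟩ := ih fun j hj => hd j (by omega)
    simp only [Finset.sum_range_succ]
    exact ⟨h1.add (hr n), Dom.add h1 (hr n) h2 (hd n (Nat.lt_succ_self n))⟩

variable [∀ i, IsProbabilityMeasure (ν i)] (S : Setup ν M CM m C0 D E h) (L : Lem)
include S L

theorem gg_reg (j : ℕ) : Reg (gg D E h e j) := fun i =>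
  cbG L.inv L.cont L.opb (S.symm i) (zs_pos S.one j i) 0 0

theorem uu_reg (j : ℕ) : Reg (uu D E h e j) := fun i =>
  cbU L.inv L.cont L.opb (S.symm i) (zs_pos S.one j i) 0 0 0

theorem ww_cb (j : ℕ) (i : ι) (y : Λ i) : CB (ww D E h e j i y) :=
  (cbG L.inv L.cont L.opb (S.symm i) (zs_pos S.one j i) 0 y).pow 2

theorem uu_tr (j : ℕ) (i : ι) (x : Λ i) (V : Λ i → ℝ) :
    uu D E h e j i (tr x V) = ‖G (h i) (up V x) (zs D E e j i) x x‖ := by
  unfold uu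
  rw [up_tr]
  have := L.tra (Λ i) (h i) (up V x) (zs D E e j i) (S.tran i) x 0 0
  rw [zero_add] at this
  unfold tr
  rw [this]

theorem ww_tr (j : ℕ) (i : ι) (x : Λ i) (V : Λ i → ℝ) :
    ww D E h e j i (-x) (tr x V) = ‖G (h i) V (zs D E e j i) x 0‖ ^ 2 := by
  unfold ww
  have := L.tra (Λ i) (h i) V (zs D E e j i) (S.tran i) x 0 (-x)
  rw [zero_add, neg_add_cancel] at this
  unfold tr
  rw [this]

theorem ww_sum (j : ℕ) (i : ι) (V : Λ i → ℝ) :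
    ∑ x, ww D E h e j i (-x) (tr x V) = ∑ y, ww D E h e j i y V := by
  refine Finset.sum_congr rfl fun x _ => ?_
  rw [ww_tr S L]
  unfold ww
  rw [(L.inv (Λ i) (h i) V (zs D E e j i) (S.symm i) (zs_pos S.one j i).ne').2.2 x 0]

theorem ww_eq (j : ℕ) (i : ι) (V : Λ i → ℝ) :
    ∑ y, ww D E h e j i y V = Ga D E h e j i V / et D e j i := by
  have := L.ward (Λ i) (h i) V (zs D E e j i) (S.symm i) (zs_pos S.one j i) 0
  rw [zs_im S.one] at this
  exact this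

theorem K_dom (he : 0 ≤ e) {J : ℕ} (H : Hyp ν D E h e J) :
    Dom ν D (K D E h e (J + 1)) (1 / 2 - e) := by
  have hc : Reg (Λ := Λ) (fun i _ => D i ^ (-(1 / 2 : ℝ))) := reg_const
    (fun i => (Real.rpow_pos_of_pos (zero_lt_one.trans_le (S.one i)) _).le)
  have h1 : Dom ν D (fun (i : ι) (V : Λ i → ℝ) => D i ^ (-(1 / 2 : ℝ))) (1 / 2 - e) := by
    refine Dom.wk S.one (Dom.const (s := 1 / 2) hc S.one zero_le_one fun i V => ?_) (by linarith)
    rw [one_mul]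
  have h2 : ∀ j < J + 1 + 1, Dom ν D (Ga D E h e j) (1 / 2 - e) := fun j hj => by
    rcases Nat.lt_succ_iff_lt_or_eq.1 hj with h3 | h3
    · exact Dom.wk S.one (H j (by omega)) (by linarith)
    · rw [h3]
      have h4 := Dom.smul (t := -e) (c := fun i => D i ^ e) (C := 1) (Ga_reg (e := e) S L J) S.one
        (fun i => (Real.rpow_pos_of_pos (zero_lt_one.trans_le (S.one i)) _).le) zero_le_one
        (fun i => by rw [one_mul, neg_neg]) (H J le_rfl)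
      refine Dom.mono (Ga_reg S L (J + 1)) ((Ga_reg (e := e) S L J).smul
        (fun i => (Real.rpow_pos_of_pos (zero_lt_one.trans_le (S.one i)) _).le))
        (fun i V => Ga_step S L he J i V) ?_
      convert h4 using 1
      ring
  obtain ⟨h5, h6⟩ := dom_sum S.one (J + 1 + 1) (fun j => Ga_reg (e := e) S L j) h2
  exact Dom.add hc h5 h1 h6

theorem gg_dom (he : 0 ≤ e) {J : ℕ} (H : Hyp ν D E h e J) :
    Dom ν D (gg D E h e (J + 1)) (1 / 2 - 3 / 2 * e) := by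
  have hc0 : ∀ i, 0 ≤ ((J : ℝ) + 2) * D i ^ (e / 2) := fun i => by
    have := Real.rpow_pos_of_pos (zero_lt_one.trans_le (S.one i)) (e / 2)
    positivity
  have h4 := Dom.smul (t := -(e / 2)) (c := fun i => ((J : ℝ) + 2) * D i ^ (e / 2)) (C := (J : ℝ) + 2)
    (K_reg (e := e) S L (J + 1)) S.one hc0 (by positivity) (fun i => by rw [neg_neg]) (K_dom S L he H)
  refine Dom.mono (gg_reg S L (J + 1)) ((K_reg (e := e) S L (J + 1)).smul hc0) (fun i V => ?_) ?_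
  · have h1 := chain (E := E) S L he (J + 1) i V 0 0
    rw [tr_zero, Real.sqrt_mul_self ((K_reg S L (J + 1) i).2.2 V)] at h1
    unfold gg
    refine h1.trans (le_of_eq ?_)
    push_cast; ring
  · convert h4 using 1
    ring

theorem M3 (k : ℕ) (i : ι) : M i ^ k ≤ CM ^ k * D i ^ (k * m) := by
  have h1 := pow_le_pow_left₀ (S.M0 i) (S.Mle i) k
  rw [mul_pow, ← Real.rpow_natCast (D i ^ m) k, ← Real.rpow_mul (zero_le_one.trans (S.one i))] at h1
  rwa [mul_comm m (k : ℝ)] at h1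

theorem uu_dom (he : 0 ≤ e) (he1 : 6 * e + 2 * m ≤ 1) {J : ℕ}
    (hJ : ((J : ℝ) + 1) * e - 1 / 2 ≤ 1 / 2 - 7 / 2 * e - 2 * m)
    (H : Hyp ν D E h e J) : Dom ν D (uu D E h e (J + 1)) (1 / 2 - 3 / 2 * e) := by
  have h1 := gg_dom S L he H
  have hm := S.m0
  have r1 : Reg (fun i V => 2 * gg D E h e (J + 1) i V) :=
    (gg_reg S L (J + 1)).smul (c := fun _ => 2) (fun _ => by norm_num)
  have d1 : Dom ν D (fun i V => 2 * gg D E h e (J + 1) i V) (1 / 2 - 3 / 2 * e) := by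
    have := Dom.smul (t := 0) (c := fun _ : ι => (2 : ℝ)) (C := 2) (gg_reg (e := e) S L (J + 1)) S.one
      (fun _ => by norm_num) (by norm_num) (fun i => by simp) h1
    rwa [zero_add] at this
  have hc0 : ∀ i, 0 ≤ (2 * M i) ^ 3 * (et D e (J + 1) i)⁻¹ := fun i => by
    have := et_pos (e := e) S.one (J + 1) i
    have := S.M0 i
    positivity
  have r2 : Reg (fun i V => (2 * M i) ^ 3 * (et D e (J + 1) i)⁻¹ * gg D E h e (J + 1) i V ^ 3) :=
    ((gg_reg S L (J + 1)).pow 3).smul hc0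
  have hCM := S.CM0
  have d2 : Dom ν D (fun i V => (2 * M i) ^ 3 * (et D e (J + 1) i)⁻¹ * gg D E h e (J + 1) i V ^ 3)
      (1 / 2 - 3 / 2 * e) := by
    have := Dom.smul (t := 1 / 2 - ((J : ℝ) + 1) * e - 3 * m)
      (c := fun i => (2 * M i) ^ 3 * (et D e (J + 1) i)⁻¹)
      (C := (2 * CM) ^ 3) ((gg_reg (e := e) S L (J + 1)).pow 3) S.one hc0 (by positivity) (fun i => by
        have hD0 : 0 < D i := zero_lt_one.trans_le (S.one i)
        have hk := M3 S L 3 i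
        have e1 : (et D e (J + 1) i)⁻¹ = D i ^ (-(1 / 2 - ((J : ℝ) + 1) * e)) := by
          unfold et
          rw [← Real.rpow_neg hD0.le]
          push_cast
          rfl
        have e2 : D i ^ (-(1 / 2 - ((J : ℝ) + 1) * e - 3 * m)) =
            D i ^ (((3 : ℕ) : ℝ) * m) * D i ^ (-(1 / 2 - ((J : ℝ) + 1) * e)) := by
          rw [← Real.rpow_add hD0]; congr 1; push_cast; ring
        rw [e1, e2, mul_pow, mul_pow]
        have hp := Real.rpow_pos_of_pos hD0 (-(1 / 2 - ((J : ℝ) + 1) * e))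
        calc 2 ^ 3 * M i ^ 3 * D i ^ (-(1 / 2 - ((J : ℝ) + 1) * e))
            ≤ 2 ^ 3 * (CM ^ 3 * D i ^ (((3 : ℕ) : ℝ) * m)) * D i ^ (-(1 / 2 - ((J : ℝ) + 1) * e)) := by
              gcongr
          _ = _ := by ring) (Dom.pow h1 3)
    refine Dom.wk S.one this ?_
    push_cast
    nlinarith
  refine Dom.mono_ae (uu_reg S L (J + 1)) (r1.add r2) (fun i => ?_) (Dom.add r1 r2 d1 d2)
  filter_upwards [ae_le (Λ := Λ i) (ν i) (M i) (S.supp i)] with V hV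
  obtain ⟨u1, _⟩ := L.upd (Λ i) (h i) V (zs D E e (J + 1) i) (S.symm i) (zs_pos S.one _ i).ne' 0 0 0
  have hV0 : ‖(V 0 : ℂ)‖ ≤ M i := by rw [Complex.norm_real, Real.norm_eq_abs]; exact hV 0
  have hM := S.M0 i
  have hη := et_pos (e := e) S.one (J + 1) i
  have hb := ent_le L.opb (S.symm i) (zs_pos (E := E) (e := e) S.one (J + 1) i) (up V 0) 0 0
  rw [zs_im S.one] at hb
  unfold uu gg
  obtain ⟨g, hg⟩ : ∃ g, g = G (h i) V (zs D E e (J + 1) i) 0 0 := ⟨_, rfl⟩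
  obtain ⟨k, hk⟩ : ∃ k, k = G (h i) (up V 0) (zs D E e (J + 1) i) 0 0 := ⟨_, rfl⟩
  rw [← hg, ← hk] at u1 ⊢
  rw [← hk] at hb
  have h2 : ‖k‖ ≤ ‖g‖ + M i * ‖g‖ * ‖k‖ := by
    have e1 : k = g + (V 0 : ℂ) * k * g := by linear_combination -u1
    have : ‖k‖ ≤ ‖g‖ + ‖(V 0 : ℂ) * k * g‖ := by
      conv_lhs => rw [e1]
      exact norm_add_le _ _
    refine this.trans ?_
    rw [norm_mul, norm_mul]
    have : ‖(V 0 : ℂ)‖ * ‖k‖ * ‖g‖ ≤ M i * ‖k‖ * ‖g‖ := by gcongr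
    linarith
  rcases le_total (2 * M i * ‖g‖) 1 with h3 | h3
  · have h4 : M i * ‖g‖ * ‖k‖ ≤ 1 / 2 * ‖k‖ := mul_le_mul_of_nonneg_right (by linarith) (norm_nonneg _)
    have h5 : 0 ≤ (2 * M i) ^ 3 * (et D e (J + 1) i)⁻¹ * ‖g‖ ^ 3 := by positivity
    linarith
  · have h4 : 1 ≤ (2 * M i * ‖g‖) ^ 3 := one_le_pow₀ h3
    have h5 : 1 / et D e (J + 1) i ≤ (2 * M i) ^ 3 * (et D e (J + 1) i)⁻¹ * ‖g‖ ^ 3 := by
      have : (2 * M i) ^ 3 * (et D e (J + 1) i)⁻¹ * ‖g‖ ^ 3 =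
          (2 * M i * ‖g‖) ^ 3 * (1 / et D e (J + 1) i) := by
        rw [mul_pow, one_div]; ring
      rw [this]
      exact le_mul_of_one_le_left (by positivity) h4
    have h6 : 0 ≤ ‖g‖ := norm_nonneg _
    linarith

theorem mb_dom (he : 0 ≤ e) {J : ℕ} (H : Hyp ν D E h e J) :
    Dom ν D (fun i V => ∑ y, ww D E h e (J + 1) i y V) (1 - e - ((J : ℝ) + 1) * e) := by
  have hc0 : ∀ i, 0 ≤ (et D e (J + 1) i)⁻¹ := fun i => (inv_pos.2 (et_pos S.one (J + 1) i)).le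
  have h4 := Dom.smul (t := 1 / 2 - ((J : ℝ) + 1) * e) (c := fun i => (et D e (J + 1) i)⁻¹) (C := 1)
    (K_reg (e := e) S L (J + 1)) S.one hc0 zero_le_one (fun i => by
        unfold et
        rw [← Real.rpow_neg (zero_le_one.trans (S.one i)), one_mul]
        push_cast
        exact le_rfl) (K_dom S L he H)
  refine Dom.mono (fun i => CB.sum fun y => ww_cb S L (J + 1) i y) ((K_reg (e := e) S L (J + 1)).smul hc0)
    (fun i V => ?_) ?_
  · rw [ww_eq S L, div_eq_inv_mul]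
    exact mul_le_mul_of_nonneg_left (Ga_le_K S L le_rfl i V) (hc0 i)
  · convert h4 using 1
    ring

/-- `(∑ |G₀(0,x)|²)^(1/2)` -/
noncomputable def g2 (D E : ι → ℝ) (h : ∀ i, Λ i → Λ i → ℝ) (e : ℝ) (j : ℕ) (i : ι) : ℝ :=
  Real.sqrt (∑ x, ‖G (h i) (fun _ => 0) (zs D E e j i) 0 x‖ ^ 2)

theorem g2_le {J : ℕ} (hJ : ((J : ℝ) + 1) * e - 1 / 2 ≤ 1 / 2) (i : ι) :
    g2 D E h e (J + 1) i ≤ Real.sqrt C0 * D i ^ (-(1 / 2 - ((J : ℝ) + 1) * e / 2)) := by
  have hD0 : 0 < D i := zero_lt_one.trans_le (S.one i)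
  unfold g2
  rw [L.ward (Λ i) (h i) _ (zs D E e (J + 1) i) (S.symm i) (zs_pos S.one _ i) 0, zs_im S.one]
  have hη := et_pos (e := e) S.one (J + 1) i
  have h1 : (G (h i) (fun _ => 0) (zs D E e (J + 1) i) 0 0).im ≤ C0 * D i ^ (-(1 / 2 : ℝ)) := by
    refine (Complex.im_le_norm _).trans (S.free i (et D e (J + 1) i) ?_)
    unfold et
    refine Real.rpow_le_rpow_of_exponent_le (S.one i) ?_
    push_cast; linarith
  have h2 : (G (h i) (fun _ => 0) (zs D E e (J + 1) i) 0 0).im / et D e (J + 1) i ≤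
      C0 * D i ^ (-(1 - ((J : ℝ) + 1) * e)) := by
    rw [div_le_iff₀ hη]
    refine h1.trans (le_of_eq ?_)
    unfold et
    rw [mul_assoc, ← Real.rpow_add hD0]
    congr 2; push_cast; ring
  refine (Real.sqrt_le_sqrt h2).trans (le_of_eq ?_)
  rw [Real.sqrt_mul S.C00]
  congr 1
  rw [Real.sqrt_eq_rpow, ← Real.rpow_mul hD0.le]
  congr 1; ring

theorem A1_dom (he : 0 ≤ e) (he1 : 6 * e + 2 * m ≤ 1)
    {J : ℕ} (hJ : ((J : ℝ) + 1) * e - 1 / 2 ≤ 1 / 2 - 7 / 2 * e - 2 * m) (H : Hyp ν D E h e J) :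
    Dom ν D (fun i V => A1 (h i) (zs D E e (J + 1) i) (M i) 0 V)
      (3 / 2 - 2 * e - ((J : ℝ) + 1) * e - 2 * m) := by
  have hu := uu_dom S L he he1 hJ H
  have hm := mb_dom S L he H
  have hm0 := S.m0
  have hCM := S.CM0
  have hc := Dom.cov L.shi ((uu_reg (e := e) S L (J + 1)).pow 2) (fun i y => ww_cb S L (J + 1) i y)
    (ww_sum S L (J + 1)) S.one (Dom.pow hu 2) hm
  have hcr := Reg.tr_sum ((uu_reg (e := e) S L (J + 1)).pow 2) (fun i y => ww_cb (e := e) S L (J + 1) i y)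
  have hg0 : ∀ i, 0 ≤ M i ^ 2 * g2 D E h e (J + 1) i := fun i => by unfold g2; positivity
  have h4 := Dom.smul (t := 1 / 2 - ((J : ℝ) + 1) * e / 2 - 2 * m)
    (c := fun i => M i ^ 2 * g2 D E h e (J + 1) i)
    (C := CM ^ 2 * Real.sqrt C0) hcr.sqrt S.one hg0 (by positivity) (fun i => by
      have hD0 : 0 < D i := zero_lt_one.trans_le (S.one i)
      have hk := M3 S L 2 i
      have hg := g2_le (e := e) S L (J := J) (by linarith) i
      have hg1 : 0 ≤ g2 D E h e (J + 1) i := Real.sqrt_nonneg _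
      have e2 : D i ^ (-(1 / 2 - ((J : ℝ) + 1) * e / 2 - 2 * m)) =
            D i ^ (((2 : ℕ) : ℝ) * m) * D i ^ (-(1 / 2 - ((J : ℝ) + 1) * e / 2)) := by
          rw [← Real.rpow_add hD0]; congr 1; push_cast; ring
      have hp := Real.rpow_pos_of_pos hD0 (((2 : ℕ) : ℝ) * m)
      calc M i ^ 2 * g2 D E h e (J + 1) i ≤ (CM ^ 2 * D i ^ (((2 : ℕ) : ℝ) * m)) *
            (Real.sqrt C0 * D i ^ (-(1 / 2 - ((J : ℝ) + 1) * e / 2))) :=
            mul_le_mul hk hg hg1 (by positivity)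
        _ = _ := by rw [e2]; ring) (Dom.sqrt hcr S.one hc)
  refine Dom.mono (fun i => cbA1 L.inv L.cont L.opb (S.symm i) (zs_pos S.one _ i) (M i) 0)
    (hcr.sqrt.smul hg0) (fun i V => ?_) ?_
  · unfold A1 g2
    rw [mul_assoc]
    refine mul_le_mul_of_nonneg_left ?_ (sq_nonneg (M i))
    refine (Real.sum_mul_le_sqrt_mul_sqrt _ _ _).trans ?_
    refine mul_le_mul_of_nonneg_left (Real.sqrt_le_sqrt (le_of_eq ?_)) (Real.sqrt_nonneg _)
    refine Finset.sum_congr rfl fun x _ => ?_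
    rw [uu_tr S L, ww_tr S L, mul_pow]
  · convert h4 using 1
    push_cast
    ring

end Pool.Agent.Q218.HB
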