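import Pool.Agent.Q218.HB.Step

/-! The induction step, second part. -/

set_option autoImplicit false
set_option linter.unusedSectionVars false
set_option linter.unusedVariables false

open MeasureTheory

namespace Pool.Agent.Q218.HB

variable {ι : Type} {Λ : ι → Type} [∀ i, Fintype (Λ i)] [∀ i, DecidableEq (Λ i)]
  [∀ i, AddCommGroup (Λ i)]

variable {ν : ι → Measure ℝ} {M : ι → ℝ} {CM m C0 : ℝ} {D E : ι → ℝ} {h : ∀ i, Λ i → Λ i → ℝ} {e : ℝ}

/-- `1 + M |G^0(0,0)|` -/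
noncomputable def QQ (M : ι → ℝ) (D E : ι → ℝ) (h : ∀ i, Λ i → Λ i → ℝ) (e : ℝ) (j : ℕ) (i : ι)
    (V : Λ i → ℝ) : ℝ := 1 + M i * uu D E h e j i V

/-- `M R² Q K` -/
noncomputable def RR (M : ι → ℝ) (D E : ι → ℝ) (h : ∀ i, Λ i → Λ i → ℝ) (e : ℝ) (j : ℕ) (i : ι)
    (V : Λ i → ℝ) : ℝ := M i * ((j : ℝ) + 1) ^ 2 * D i ^ e * (QQ M D E h e j i V * K D E h e j i V)

variable [∀ i, IsProbabilityMeasure (ν i)] (S : Setup ν M CM m C0 D E h) (L : Lem)
include S L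

theorem QQ_reg (j : ℕ) : Reg (QQ M D E h e j) :=
  (reg_const (c := fun _ => (1 : ℝ)) fun _ => zero_le_one).add
    ((uu_reg (e := e) S L j).smul (c := M) S.M0)

theorem RR_reg (j : ℕ) : Reg (RR M D E h e j) :=
  ((QQ_reg (e := e) S L j).mul (K_reg (e := e) S L j)).smul
    (c := fun i => M i * ((j : ℝ) + 1) ^ 2 * D i ^ e) fun i => by
    have := S.M0 i
    have := Real.rpow_pos_of_pos (zero_lt_one.trans_le (S.one i)) e
    positivity

theorem QQ_dom (he : 0 ≤ e) (he1 : 6 * e + 2 * m ≤ 1)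
    {J : ℕ} (hJ : ((J : ℝ) + 1) * e - 1 / 2 ≤ 1 / 2 - 7 / 2 * e - 2 * m) (H : Hyp ν D E h e J) :
    Dom ν D (QQ M D E h e (J + 1)) 0 := by
  have hc : Reg (Λ := Λ) (fun i _ => (1 : ℝ)) := reg_const (c := fun _ => (1 : ℝ)) fun _ => zero_le_one
  have h1 : Dom ν D (fun (i : ι) (V : Λ i → ℝ) => (1 : ℝ)) 0 :=
    Dom.const hc S.one zero_le_one fun i V => by simp
  have h2 := Dom.smul (t := -m) (c := M) (C := CM) (uu_reg (e := e) S L (J + 1)) S.one
    S.M0 S.CM0 (fun i => by rw [neg_neg]; exact S.Mle i) (uu_dom S L he he1 hJ H)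
  exact Dom.add hc ((uu_reg (e := e) S L (J + 1)).smul (c := M) S.M0) h1
    (Dom.wk S.one h2 (by have := S.m0; linarith))

theorem RR_dom (he : 0 ≤ e) (he1 : 6 * e + 2 * m ≤ 1)
    {J : ℕ} (hJ : ((J : ℝ) + 1) * e - 1 / 2 ≤ 1 / 2 - 7 / 2 * e - 2 * m) (H : Hyp ν D E h e J) :
    Dom ν D (RR M D E h e (J + 1)) (1 / 2 - 2 * e - m) := by
  have h1 := Dom.mul (QQ_reg (e := e) S L (J + 1)) (K_reg (e := e) S L (J + 1)) S.one
    (QQ_dom S L he he1 hJ H) (K_dom S L he H)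
  have hCM := S.CM0
  have h2 := Dom.smul (t := -e - m) (c := fun i => M i * (((J + 1 : ℕ) : ℝ) + 1) ^ 2 * D i ^ e)
    (C := CM * (((J + 1 : ℕ) : ℝ) + 1) ^ 2) ((QQ_reg (e := e) S L (J + 1)).mul (K_reg (e := e) S L (J + 1)))
    S.one (fun i => by
      have := Real.rpow_pos_of_pos (zero_lt_one.trans_le (S.one i)) e
      have := S.M0 i
      positivity) (by positivity) (fun i => by
      have hD0 : 0 < D i := zero_lt_one.trans_le (S.one i)
      have hp := Real.rpow_pos_of_pos hD0 e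
      have e1 : D i ^ (-(-e - m)) = D i ^ m * D i ^ e := by
        rw [← Real.rpow_add hD0]; congr 1; ring
      rw [e1]
      calc M i * (((J + 1 : ℕ) : ℝ) + 1) ^ 2 * D i ^ e
          ≤ (CM * D i ^ m) * (((J + 1 : ℕ) : ℝ) + 1) ^ 2 * D i ^ e := by
            have := S.Mle i
            gcongr
        _ = _ := by ring) h1
  unfold RR
  convert h2 using 1
  ring

theorem B_dom (he : 0 ≤ e) (he1 : 6 * e + 2 * m ≤ 1)
    {J : ℕ} (hJ : ((J : ℝ) + 1) * e - 1 / 2 ≤ 1 / 2 - 7 / 2 * e - 2 * m) (H : Hyp ν D E h e J) (k : ℕ) :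
    Dom ν D (fun i V => Bk (h i) (zs D E e (J + 1) i) (M i) 0 k V)
      (1 - e / 2 - ((J : ℝ) + 1) * e + ((k : ℝ) + 1) * (1 - 3 * e - m)) := by
  have hQ := QQ_dom S L he he1 hJ H
  have hR := RR_dom S L he he1 hJ H
  have hm := mb_dom S L he H
  have rQ := QQ_reg (e := e) S L (J + 1)
  have rR := RR_reg (e := e) S L (J + 1)
  have rK := K_reg (e := e) S L (J + 1)
  have rb : Reg (fun i V => (QQ M D E h e (J + 1) i V * RR M D E h e (J + 1) i V ^ (k + 1)) ^ 2) :=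
    (rQ.mul (rR.pow (k + 1))).pow 2
  have db := Dom.pow (Dom.mul rQ (rR.pow (k + 1)) S.one hQ (Dom.pow hR (k + 1))) 2
  have hc := Dom.cov L.shi rb (fun i y => ww_cb S L (J + 1) i y) (ww_sum S L (J + 1)) S.one db hm
  have hcr := Reg.tr_sum rb (fun i y => ww_cb (e := e) S L (J + 1) i y)
  have hg0 : ∀ i, 0 ≤ g2 D E h e (J + 1) i := fun i => Real.sqrt_nonneg _
  have h4 := Dom.smul (t := 1 / 2 - ((J : ℝ) + 1) * e / 2) (c := fun i => g2 D E h e (J + 1) i)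
    (C := Real.sqrt C0) hcr.sqrt S.one hg0 (by positivity)
    (fun i => g2_le S L (by have := S.m0; linarith) i)
    (Dom.sqrt hcr S.one hc)
  have h5 := Dom.mul (rK.pow (k + 1)) (hcr.sqrt.smul hg0) S.one (Dom.pow (K_dom S L he H) (k + 1)) h4
  refine Dom.mono_ae (fun i => cbB L.inv L.cont L.opb (S.symm i) (zs_pos S.one _ i) (S.M0 i) 0 k)
    ((rK.pow (k + 1)).mul (hcr.sqrt.smul hg0)) (fun i => ?_) ?_
  · filter_upwards [ae_le (Λ := Λ i) (ν i) (M i) (S.supp i)] with V hV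
    have hM := S.M0 i
    have hD0 : 0 < D i := zero_lt_one.trans_le (S.one i)
    -- the bounds of the terms
    have ht : ∀ x, ‖G (h i) (up V x) (zs D E e (J + 1) i) x 0‖ *
        dl (h i) (zs D E e (J + 1) i) (M i) 0 x V ^ (k + 1) ≤
        K D E h e (J + 1) i V ^ (k + 1) * ((QQ M D E h e (J + 1) i (tr x V) *
          RR M D E h e (J + 1) i (tr x V) ^ (k + 1)) * ‖G (h i) V (zs D E e (J + 1) i) x 0‖) := fun x => by
      obtain ⟨u1, _⟩ := L.upd (Λ i) (h i) V (zs D E e (J + 1) i) (S.symm i) (zs_pos S.one _ i).ne' x x 0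
      have hVx : ‖(V x : ℂ)‖ ≤ M i := by rw [Complex.norm_real, Real.norm_eq_abs]; exact hV x
      have hq : QQ M D E h e (J + 1) i (tr x V) = 1 + M i * ‖G (h i) (up V x) (zs D E e (J + 1) i) x x‖ := by
        unfold QQ; rw [uu_tr S L]
      have hG : ‖G (h i) (up V x) (zs D E e (J + 1) i) x 0‖ ≤
          QQ M D E h e (J + 1) i (tr x V) * ‖G (h i) V (zs D E e (J + 1) i) x 0‖ := by
        have e1 : G (h i) (up V x) (zs D E e (J + 1) i) x 0 = G (h i) V (zs D E e (J + 1) i) x 0 +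
          (V x : ℂ) * G (h i) (up V x) (zs D E e (J + 1) i) x x * G (h i) V (zs D E e (J + 1) i) x 0 := by
          linear_combination -u1
        rw [e1, hq]
        refine (norm_add_le _ _).trans ?_
        rw [norm_mul, norm_mul, add_mul, one_mul]
        gcongr
      have hch := chain (E := E) S L he (J + 1) i V x 0
      rw [tr_zero] at hch
      have hKx := (rK i).2.2 (tr x V)
      have hK0 := (rK i).2.2 V
      have hsq : ‖G (h i) V (zs D E e (J + 1) i) x 0‖ ^ 2 ≤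
          (((J + 1 : ℕ) : ℝ) + 1) ^ 2 * D i ^ e * (K D E h e (J + 1) i (tr x V) * K D E h e (J + 1) i V) := by
        refine (pow_le_pow_left₀ (norm_nonneg _) hch 2).trans (le_of_eq ?_)
        rw [mul_pow, mul_pow, Real.sq_sqrt (mul_nonneg hKx hK0)]
        congr 2
        rw [← Real.rpow_natCast (D i ^ (e / 2)) 2, ← Real.rpow_mul hD0.le]
        congr 1; push_cast; ring
      have hq0 := (rQ i).2.2 (tr x V)
      have hdl : dl (h i) (zs D E e (J + 1) i) (M i) 0 x V ≤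
          RR M D E h e (J + 1) i (tr x V) * K D E h e (J + 1) i V := by
        unfold dl RR
        calc M i * (‖G (h i) (up V x) (zs D E e (J + 1) i) x 0‖ * ‖G (h i) V (zs D E e (J + 1) i) x 0‖)
            ≤ M i * ((QQ M D E h e (J + 1) i (tr x V) * ‖G (h i) V (zs D E e (J + 1) i) x 0‖) *
              ‖G (h i) V (zs D E e (J + 1) i) x 0‖) := by gcongr
          _ = M i * (QQ M D E h e (J + 1) i (tr x V) * ‖G (h i) V (zs D E e (J + 1) i) x 0‖ ^ 2) := by ring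
          _ ≤ M i * (QQ M D E h e (J + 1) i (tr x V) * ((((J + 1 : ℕ) : ℝ) + 1) ^ 2 * D i ^ e *
              (K D E h e (J + 1) i (tr x V) * K D E h e (J + 1) i V))) := by gcongr
          _ = _ := by ring
      have hdl0 : 0 ≤ dl (h i) (zs D E e (J + 1) i) (M i) 0 x V := by unfold dl; positivity
      calc ‖G (h i) (up V x) (zs D E e (J + 1) i) x 0‖ * dl (h i) (zs D E e (J + 1) i) (M i) 0 x V ^ (k + 1)
          ≤ (QQ M D E h e (J + 1) i (tr x V) * ‖G (h i) V (zs D E e (J + 1) i) x 0‖) *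
            (RR M D E h e (J + 1) i (tr x V) * K D E h e (J + 1) i V) ^ (k + 1) := by gcongr
        _ = _ := by rw [mul_pow]; ring
    unfold Bk g2
    calc ∑ x, ‖G (h i) (fun _ => 0) (zs D E e (J + 1) i) 0 x‖ *
        (‖G (h i) (up V x) (zs D E e (J + 1) i) x 0‖ * dl (h i) (zs D E e (J + 1) i) (M i) 0 x V ^ (k + 1))
        ≤ ∑ x, ‖G (h i) (fun _ => 0) (zs D E e (J + 1) i) 0 x‖ *
          (K D E h e (J + 1) i V ^ (k + 1) * ((QQ M D E h e (J + 1) i (tr x V) *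
          RR M D E h e (J + 1) i (tr x V) ^ (k + 1)) * ‖G (h i) V (zs D E e (J + 1) i) x 0‖)) :=
          Finset.sum_le_sum fun x _ => mul_le_mul_of_nonneg_left (ht x) (norm_nonneg _)
      _ = K D E h e (J + 1) i V ^ (k + 1) * ∑ x, ‖G (h i) (fun _ => 0) (zs D E e (J + 1) i) 0 x‖ *
          ((QQ M D E h e (J + 1) i (tr x V) *
          RR M D E h e (J + 1) i (tr x V) ^ (k + 1)) * ‖G (h i) V (zs D E e (J + 1) i) x 0‖) := by
          rw [Finset.mul_sum]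
          exact Finset.sum_congr rfl fun x _ => by ring
      _ ≤ _ := by
          refine mul_le_mul_of_nonneg_left ?_ (pow_nonneg ((rK i).2.2 V) _)
          refine (Real.sum_mul_le_sqrt_mul_sqrt _ _ _).trans ?_
          refine mul_le_mul_of_nonneg_left (Real.sqrt_le_sqrt (le_of_eq ?_)) (Real.sqrt_nonneg _)
          refine Finset.sum_congr rfl fun x _ => ?_
          rw [ww_tr S L]; ring
  · convert h5 using 1
    push_cast
    ring

/-- `|G(0,0) - G₀(0,0)|` -/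
noncomputable def FF (D E : ι → ℝ) (h : ∀ i, Λ i → Λ i → ℝ) (e : ℝ) (j : ℕ) (i : ι)
    (V : Λ i → ℝ) : ℝ :=
  ‖G (h i) V (zs D E e j i) 0 0 - G (h i) (fun _ => 0) (zs D E e j i) 0 0‖

theorem FF_reg (j : ℕ) : Reg (FF D E h e j) := fun i => by
  refine ⟨((L.cont (Λ i) (h i) _ (S.symm i) (zs_pos S.one j i).ne' 0 0).sub continuous_const).norm,
    ⟨1 / (zs D E e j i).im + 1 / (zs D E e j i).im, fun V => (norm_sub_le _ _).trans (add_le_add
      (ent_le L.opb (S.symm i) (zs_pos S.one j i) V 0 0)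
      (ent_le L.opb (S.symm i) (zs_pos S.one j i) _ 0 0))⟩, fun _ => norm_nonneg _⟩

theorem FF_dom (he : 0 ≤ e) (he1 : 6 * e + 2 * m ≤ 1)
    {J : ℕ} (hJ : ((J : ℝ) + 1) * e - 1 / 2 ≤ 1 / 2 - 7 / 2 * e - 2 * m) (H : Hyp ν D E h e J) :
    Dom ν D (FF D E h e (J + 1)) (1 / 2) := by
  refine Dom.ofPow (FF_reg S L (J + 1)) S.one fun p => ?_
  rcases p with _ | p
  · refine ⟨1, zero_le_one, fun i => ?_⟩
    haveI := iid_prob (Λ i) (ν i)
    simp
  have hm0 := S.m0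
  have hCM := S.CM0
  obtain ⟨Ca, hCa, h1⟩ := Dom.wk S.one (A1_dom S L he he1 hJ H) (t := 1 / 2) (by linarith) (2 * (p + 1))
  have hc0 : ∀ i, (0 : ℝ) ≤ (2 * p + 1) * 2 ^ (2 * p) * M i := fun i => by
    have := S.M0 i
    positivity
  have hc1 : ∀ i, (2 * (p : ℝ) + 1) * 2 ^ (2 * p) * M i ≤
      (2 * (p : ℝ) + 1) * 2 ^ (2 * p) * CM * D i ^ (-(-m)) := fun i => by
    rw [neg_neg, mul_assoc _ CM]
    exact mul_le_mul_of_nonneg_left (S.Mle i) (by positivity)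
  have rB := fun k : ℕ => (fun i => cbB L.inv L.cont L.opb (S.symm i) (zs_pos S.one _ i) (S.M0 i) 0 k :
    Reg (fun i V => Bk (h i) (zs D E e (J + 1) i) (M i) 0 k V))
  have dB0 := Dom.smul (t := -m) (c := fun i : ι => (2 * (p : ℝ) + 1) * 2 ^ (2 * p) * M i)
    (C := (2 * (p : ℝ) + 1) * 2 ^ (2 * p) * CM) (rB 0) S.one hc0 (by positivity) hc1
    (Dom.wk S.one (B_dom S L he he1 hJ H 0) (t := 1 + m) (by push_cast; linarith))
  have dBp := Dom.smul (t := -m) (c := fun i : ι => (2 * (p : ℝ) + 1) * 2 ^ (2 * p) * M i)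
    (C := (2 * (p : ℝ) + 1) * 2 ^ (2 * p) * CM) (rB (2 * p)) S.one hc0 (by positivity) hc1
    (Dom.wk S.one (B_dom S L he he1 hJ H (2 * p)) (t := (p : ℝ) + 1 + m) (by
      push_cast
      have : (0 : ℝ) ≤ p := Nat.cast_nonneg p
      nlinarith))
  obtain ⟨Cb, hCb, h2⟩ := dB0 (p + 1)
  obtain ⟨Cc, hCc, h3⟩ := dBp 1
  refine ⟨2 * (4 ^ (2 * p + 1) * Ca + 4 ^ p * Cb + Cc), by positivity, fun i => ?_⟩
  have hr := rec_mom L.inv L.cont L.opb L.upd L.sec L.res (S.symm i)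
    (zs_pos (E := E) (e := e) S.one (J + 1) i) (ν i) (S.M0 i) (S.supp i) (S.mean i) 0 p
  unfold FF
  refine hr.trans ?_
  have e1 : D i ^ (-(1 / 2 * ((2 * (p + 1) : ℕ) : ℝ))) = D i ^ (-(1 / 2 * (2 * ((p + 1 : ℕ) : ℝ)))) := by
    congr 1; push_cast; ring
  have e2 : D i ^ (-((-m + (1 + m)) * ((p + 1 : ℕ) : ℝ))) = D i ^ (-(1 / 2 * (2 * ((p + 1 : ℕ) : ℝ)))) := by
    congr 1; push_cast; ring
  have e3 : D i ^ (-((-m + ((p : ℝ) + 1 + m)) * ((1 : ℕ) : ℝ))) = D i ^ (-(1 / 2 * (2 * ((p + 1 : ℕ) : ℝ)))) := by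
    congr 1; push_cast; ring
  have h1' := h1 i
  have h2' := h2 i
  have h3' := h3 i
  simp only [pow_one] at h3'
  rw [e1] at h1'
  rw [e2] at h2'
  rw [e3] at h3'
  have h41 : (0 : ℝ) ≤ 4 ^ (2 * p + 1) := by positivity
  have h42 : (0 : ℝ) ≤ 4 ^ p := by positivity
  have m1 := mul_le_mul_of_nonneg_left h1' h41
  have m2 := mul_le_mul_of_nonneg_left h2' h42
  linarith

theorem gg_dom2 (he : 0 ≤ e) (he1 : 6 * e + 2 * m ≤ 1)
    {J : ℕ} (hJ : ((J : ℝ) + 1) * e - 1 / 2 ≤ 1 / 2 - 7 / 2 * e - 2 * m) (H : Hyp ν D E h e J) :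
    Dom ν D (gg D E h e (J + 1)) (1 / 2) := by
  have hc0 : ∀ i, 0 ≤ C0 * D i ^ (-(1 / 2 : ℝ)) := fun i =>
    mul_nonneg S.C00 (Real.rpow_pos_of_pos (zero_lt_one.trans_le (S.one i)) _).le
  have hc : Reg (Λ := Λ) (fun i _ => C0 * D i ^ (-(1 / 2 : ℝ))) := reg_const hc0
  have h1 : Dom ν D (fun (i : ι) (V : Λ i → ℝ) => C0 * D i ^ (-(1 / 2 : ℝ))) (1 / 2) :=
    Dom.const hc S.one S.C00 fun i V => le_rfl
  refine Dom.mono (gg_reg S L (J + 1)) (hc.add (FF_reg (e := e) S L (J + 1))) (fun i V => ?_)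
    (Dom.add hc (FF_reg S L (J + 1)) h1 (FF_dom S L he he1 hJ H))
  have hf := S.free i (et D e (J + 1) i) (by
    unfold et
    refine Real.rpow_le_rpow_of_exponent_le (S.one i) ?_
    have := S.m0
    push_cast; linarith)
  unfold gg FF
  have := norm_add_le (G (h i) (fun _ => 0) (zs D E e (J + 1) i) 0 0)
    (G (h i) V (zs D E e (J + 1) i) 0 0 - G (h i) (fun _ => 0) (zs D E e (J + 1) i) 0 0)
  rw [add_sub_cancel] at this
  unfold zs at *
  linarith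

theorem hyp_succ (he : 0 ≤ e) (he1 : 6 * e + 2 * m ≤ 1)
    {J : ℕ} (hJ : ((J : ℝ) + 1) * e - 1 / 2 ≤ 1 / 2 - 7 / 2 * e - 2 * m) (H : Hyp ν D E h e J) :
    Hyp ν D E h e (J + 1) := fun j hj => by
  rcases Nat.le_succ_iff.1 hj with h1 | h1
  · exact H j h1
  · rw [h1]
    exact Dom.mono (Ga_reg S L (J + 1)) (gg_reg (e := e) S L (J + 1)) (fun i V => Complex.im_le_norm _)
      (gg_dom2 S L he he1 hJ H)

theorem hyp_zero : Hyp ν D E h e 0 := fun j hj => by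
  have hj0 : j = 0 := Nat.le_zero.1 hj
  rw [hj0]
  refine Dom.const (Ga_reg S L 0) S.one zero_le_one fun i V => ?_
  unfold Ga
  refine (Complex.im_le_norm _).trans ((ent_le L.opb (S.symm i) (zs_pos S.one 0 i) V 0 0).trans
    (le_of_eq ?_))
  rw [zs_im S.one, one_mul]
  unfold et
  rw [one_div, ← Real.rpow_neg (zero_le_one.trans (S.one i))]
  congr 1; push_cast; ring

theorem hyp_all (he : 0 ≤ e) (he1 : 6 * e + 2 * m ≤ 1) (J : ℕ)
    (hJ : (J : ℝ) * e - 1 / 2 ≤ 1 / 2 - 7 / 2 * e - 2 * m) : Hyp ν D E h e J := by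
  induction J with
  | zero => exact hyp_zero S L
  | succ J ih =>
    push_cast at hJ
    exact hyp_succ S L he he1 hJ (ih (by nlinarith))

/-- **The local law.** `E ‖(G - G₀) δ_0‖² ≤ C D^{-1 + 2 a + 2 e}` at the scale `η = D^{-a}`, `a = (J+1) e - 1/2`. -/
theorem law (he : 0 ≤ e) (he1 : 6 * e + 2 * m ≤ 1)
    (J : ℕ) (hJ : ((J : ℝ) + 1) * e - 1 / 2 ≤ 1 / 2 - 7 / 2 * e - 2 * m) :
    ∃ C : ℝ, 0 ≤ C ∧ ∀ i, ∫ V, ∑ x, ‖G (h i) V (zs D E e (J + 1) i) x 0 -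
      G (h i) (fun _ => 0) (zs D E e (J + 1) i) x 0‖ ^ 2 ∂(iid (Λ i) (ν i)) ≤
      C * D i ^ (-(1 - 2 * (((J : ℝ) + 1) * e - 1 / 2) - 2 * e - 2 * m)) := by
  have H := hyp_all S L he he1 J (by nlinarith)
  obtain ⟨C, hC, h1⟩ := A1_dom S L he he1 hJ H 1
  refine ⟨C, hC, fun i => ?_⟩
  have hD0 : 0 < D i := zero_lt_one.trans_le (S.one i)
  have h2 := diff_A1 L (S.symm i) (zs_pos (E := E) (e := e) S.one (J + 1) i) (ν i) (S.M0 i) (S.supp i) (S.mean i) 0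
  refine h2.trans ?_
  have h3 := h1 i
  simp only [pow_one] at h3
  rw [zs_im S.one]
  have hη := et_pos (e := e) S.one (J + 1) i
  calc 1 / et D e (J + 1) i * ∫ V, A1 (h i) (zs D E e (J + 1) i) (M i) 0 V ∂(iid (Λ i) (ν i))
      ≤ 1 / et D e (J + 1) i * (C * D i ^ (-((3 / 2 - 2 * e - ((J : ℝ) + 1) * e - 2 * m) * ((1 : ℕ) : ℝ)))) :=
        mul_le_mul_of_nonneg_left h3 (by positivity)
    _ = C * D i ^ (-(1 - 2 * (((J : ℝ) + 1) * e - 1 / 2) - 2 * e - 2 * m)) := by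
        unfold et
        rw [one_div, ← Real.rpow_neg hD0.le, mul_left_comm, ← Real.rpow_add hD0]
        congr 2; push_cast; ring

end Pool.Agent.Q218.HB
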