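import Pool.Agent.Q218.HB.Def

/-!
# Project HB: statements of the lemma jobs

`G = (h + V - z)⁻¹` is the resolvent of a real symmetric matrix, `G₀` the one with `V = 0`; everything is
finite dimensional. Each `S_X` is the statement of job X; a job may assume the statements named
in it as arrows.
-/

set_option autoImplicit false

open MeasureTheory

namespace Pool.Agent.Q218.HB

/-- JOB INV. `H = h + V` is Hermitian, so `H - z` is injective for `Im z ≠ 0`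
(`‖(H - z) u‖² = ‖(H - Re z) u‖² + (Im z)² ‖u‖²`), hence invertible. Symmetry: `transpose_nonsing_inv`. -/
def S_INV : Prop := ∀ (Λ : Type) [Fintype Λ] [DecidableEq Λ] (h : Λ → Λ → ℝ) (V : Λ → ℝ) (z : ℂ),
  (∀ x y, h x y = h y x) → z.im ≠ 0 →
  (Hm h V - z • (1 : Matrix Λ Λ ℂ)) * G h V z = 1 ∧ G h V z * (Hm h V - z • (1 : Matrix Λ Λ ℂ)) = 1 ∧
    ∀ x y, G h V z x y = G h V z y x

/-- JOB WARD. `G - G* = (z - z̄) G* G`, `G* = conj G` (symmetric); take the entry `(x, x)`. -/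
def S_WARD : Prop := ∀ (Λ : Type) [Fintype Λ] [DecidableEq Λ] (h : Λ → Λ → ℝ) (V : Λ → ℝ) (z : ℂ),
  (∀ x y, h x y = h y x) → 0 < z.im → ∀ x, ∑ y, ‖G h V z x y‖ ^ 2 = (G h V z x x).im / z.im

/-- JOB OPB. `‖G f‖ ≤ ‖f‖ / Im z`: with `u = G f`, `(H - z) u = f` and
`‖(H - z) u‖² = ‖(H - Re z) u‖² + (Im z)² ‖u‖²`. -/
def S_OPB : Prop := ∀ (Λ : Type) [Fintype Λ] [DecidableEq Λ] (h : Λ → Λ → ℝ) (V : Λ → ℝ) (z : ℂ),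
  (∀ x y, h x y = h y x) → 0 < z.im → ∀ f : Λ → ℂ,
  ∑ x, ‖∑ y, G h V z x y * f y‖ ^ 2 ≤ (∑ y, ‖f y‖ ^ 2) / z.im ^ 2

/-- JOB MONO. By WARD, `η Im G(x,x; E+iη) = η² ‖G(E+iη) δ_x‖²`. Let `z = E+iη`, `z' = E+iη'`,
`w = G(z') G(z) δ_x`. Then `G(z') δ_x = (H - z) w` and `G(z) δ_x = (H - z') w` (all commute), and
`‖(H - E - iη) w‖² = ‖(H - E) w‖² + η² ‖w‖²`, so `η'² ‖(H - z) w‖² ≤ η² ‖(H - z') w‖²`. -/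
def S_MONO : Prop := ∀ (Λ : Type) [Fintype Λ] [DecidableEq Λ] (h : Λ → Λ → ℝ) (V : Λ → ℝ)
  (E η η' : ℝ), (∀ x y, h x y = h y x) → 0 < η' → η' ≤ η → ∀ x,
  η' * (G h V (pt E η') x x).im ≤ η * (G h V (pt E η) x x).im

/-- JOB DIFZ. `G(z') - G(z) = (z' - z) G(z') G(z)`, Cauchy-Schwarz for the entry `(x, y)` and WARD. -/
def S_DIFZ : Prop := ∀ (Λ : Type) [Fintype Λ] [DecidableEq Λ] (h : Λ → Λ → ℝ) (V : Λ → ℝ)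
  (z z' : ℂ), (∀ x y, h x y = h y x) → 0 < z.im → 0 < z'.im → ∀ x y,
  ‖G h V z' x y - G h V z x y‖ ^ 2 ≤
    ‖z' - z‖ ^ 2 * (((G h V z' x x).im / z'.im) * ((G h V z y y).im / z.im))

/-- JOB UPD. Resolvent identity for the change of the potential at one site. -/
def S_UPD : Prop := ∀ (Λ : Type) [Fintype Λ] [DecidableEq Λ] (h : Λ → Λ → ℝ) (V : Λ → ℝ) (z : ℂ),
  (∀ x y, h x y = h y x) → z.im ≠ 0 → ∀ v a b,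
  G h V z a b = G h (up V v) z a b - (V v : ℂ) * G h (up V v) z a v * G h V z v b ∧
  G h V z a b = G h (up V v) z a b - (V v : ℂ) * G h V z a v * G h (up V v) z v b

/-- JOB SEC. Second resolvent identity `G = G₀ - G₀ V G`. -/
def S_SEC : Prop := ∀ (Λ : Type) [Fintype Λ] [DecidableEq Λ] (h : Λ → Λ → ℝ) (V : Λ → ℝ) (z : ℂ),
  (∀ x y, h x y = h y x) → z.im ≠ 0 → ∀ a b,
  G h V z a b = G h (fun _ => 0) z a b - ∑ v, G h (fun _ => 0) z a v * (V v : ℂ) * G h V z v b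

/-- JOB PT. `‖(G - G₀) δ_b‖² = -(1/η) Im ⟨G₀ δ_b, V G δ_b⟩`, `η = Im z`. Proof:
`‖(G - G₀) δ_b‖² = ‖G δ_b‖² + ‖G₀ δ_b‖² - 2 Re ⟨G₀ δ_b, G δ_b⟩`, the first two terms are
`Im G(b,b)/η + Im G₀(b,b)/η` (WARD), and `2 i η ⟨G₀ δ_b, G δ_b⟩ = ⟨G₀ δ_b, V G δ_b⟩ - conj (G₀(b,b)) + G(b,b)`,
which is `G₀* - G = G₀* V G - 2 i η G₀* G` at `(b, b)`. -/
def S_PT : Prop := ∀ (Λ : Type) [Fintype Λ] [DecidableEq Λ] (h : Λ → Λ → ℝ) (V : Λ → ℝ) (z : ℂ),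
  (∀ x y, h x y = h y x) → 0 < z.im → ∀ b,
  ∑ x, ‖G h V z x b - G h (fun _ => 0) z x b‖ ^ 2 =
    -(1 / z.im) * (∑ x, (starRingEnd ℂ) (G h (fun _ => 0) z x b) * (V x : ℂ) * G h V z x b).im

/-- JOB NEU. `G = G₀ - G V G₀` gives `‖G δ_b‖ ≤ (1 + M/η) ‖G₀ δ_b‖ ≤ (3/2) ‖G₀ δ_b‖` (OPB). -/
def S_NEU : Prop := ∀ (Λ : Type) [Fintype Λ] [DecidableEq Λ] (h : Λ → Λ → ℝ) (V : Λ → ℝ) (z : ℂ)
  (M : ℝ), (∀ x y, h x y = h y x) → 0 < z.im → (∀ x, |V x| ≤ M) → 2 * M ≤ z.im → ∀ b,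
  ∑ x, ‖G h V z x b‖ ^ 2 ≤ 9 / 4 * ∑ x, ‖G h (fun _ => 0) z x b‖ ^ 2

/-- JOB CONT. `G = det⁻¹ • adjugate`, the determinant does not vanish (INV). -/
def S_CONT : Prop := ∀ (Λ : Type) [Fintype Λ] [DecidableEq Λ] (h : Λ → Λ → ℝ) (z : ℂ),
  (∀ x y, h x y = h y x) → z.im ≠ 0 → ∀ x y, Continuous fun V : Λ → ℝ => G h V z x y

/-- JOB TRA. Covariance; `Matrix.inv_submatrix_equiv` for the translation. -/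
def S_TRA : Prop := ∀ (Λ : Type) [Fintype Λ] [DecidableEq Λ] [AddCommGroup Λ] (h : Λ → Λ → ℝ)
  (V : Λ → ℝ) (z : ℂ), (∀ a x y, h (x + a) (y + a) = h x y) → ∀ a x y,
  G h (fun v => V (v + a)) z x y = G h V z (x + a) (y + a)

/-- JOB SHI. The product measure is invariant under permutations of the sites. -/
def S_SHI : Prop := ∀ (Λ : Type) [Fintype Λ] [AddCommGroup Λ] (ν : Measure ℝ)
  [IsProbabilityMeasure ν] (f : (Λ → ℝ) → ℝ) (a : Λ),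
  ∫ V, f (fun v => V (v + a)) ∂(iid Λ ν) = ∫ V, f V ∂(iid Λ ν)

/-- JOB RES. `E[V_x f(V with V_x = 0)] = 0` (independence, mean zero), so
`E[V_x f(V)] = E[V_x (f(V) - f(V with V_x = 0))]`, and `|V_x| ≤ M` almost surely. -/
def S_RES : Prop := ∀ (Λ : Type) [Fintype Λ] [DecidableEq Λ] (ν : Measure ℝ)
  [IsProbabilityMeasure ν] (M : ℝ), 0 ≤ M → ν (Set.Icc (-M) M)ᶜ = 0 → ∫ t, t ∂ν = 0 →
  ∀ (x : Λ) (f : (Λ → ℝ) → ℂ), Continuous f → (∃ B : ℝ, ∀ V, ‖f V‖ ≤ B) →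
  ‖∫ V, (V x : ℂ) * f V ∂(iid Λ ν)‖ ≤ M * ∫ V, ‖f V - f (up V x)‖ ∂(iid Λ ν)

/-- `b(q) = (1/2π) ∫_0^{2π} exp(2 i q cos θ) dθ` (the Bessel function `J_0(2q)`) -/
noncomputable def bc (q : ℝ) : ℂ :=
  (((2 * Real.pi)⁻¹ : ℝ) : ℂ) * ∫ θ in (0 : ℝ)..(2 * Real.pi),
    Complex.exp (2 * (q : ℂ) * Complex.I * (Real.cos θ : ℝ))

/-- JOB BES. Bounds for the Bessel function `b(q) = J_0(2q)`. Near `0`: `b(q)` is the mean of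
`cos(2 q cos θ)` and `cos y ≤ 1 - y²/2 + y⁴/24`, `cos y ≥ 1 - y²/2`, the means of `cos² θ`, `cos⁴ θ` are `1/2`, `3/8`. Away
from `0`: `|b| < 1` at each `q > 0`, `b` is continuous, and `b(q) → 0` as `q → ∞` (Riemann-Lebesgue, or
`|b(q)| ≤ C/√q` by the van der Corput lemma: look in the library of seats for a bound of `J_0`). -/
def S_BES : Prop := ∃ c q0 ρ : ℝ, 0 < c ∧ 0 < q0 ∧ 0 ≤ ρ ∧ ρ < 1 ∧
  (∀ q : ℝ, 0 ≤ q → q ≤ q0 → ‖bc q‖ ≤ Real.exp (-(c * q ^ 2))) ∧ ∀ q : ℝ, q0 ≤ q → ‖bc q‖ ≤ ρ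

/-- JOB BIN. For `η ≥ 1/(m+1)`: `∫_0^{q0} exp(-c m q²) dq ≤ C/√m` and `∫_{q0}^∞ e^{-ηq} ρ^m dq ≤ ρ^m (m+1) ≤ C/√m`. -/
def S_BIN : Prop := S_BES → ∃ C : ℝ, ∀ (m : ℕ) (η : ℝ), 1 ≤ m → 1 / ((m : ℝ) + 1) ≤ η →
  ∫ q in Set.Ioi (0 : ℝ), Real.exp (-(η * q)) * ‖bc q‖ ^ m ≤ C / Real.sqrt m

/-- JOB RIE. Riemann sums: `‖b_n(q) - b(q)‖ ≤ C |q|/n` (the integrand has derivative at most `2 q` in `θ`). So
`b_n → b` uniformly on bounded sets, both are at most `1`, and dominated convergence gives the limit of the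
integrals as `n → ∞` (for fixed `m`, `η`). -/
def S_RIE : Prop := ∀ (m : ℕ) (η δ : ℝ), 0 < η → 0 < δ → ∃ n0 : ℕ, ∀ (n : ℕ) [NeZero n], n0 ≤ n →
  In n m η ≤ (∫ q in Set.Ioi (0 : ℝ), Real.exp (-(η * q)) * ‖bc q‖ ^ m) + δ

/-- JOB FOU. The characters `F x k = n^{-d/2} exp(2 π i k·x/n)` diagonalize the translation invariant matrices. -/
def S_FOU : Prop := ∀ (d n : ℕ) [NeZero n], ∃ F : Matrix (Tor d n) (Tor d n) ℂ,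
  F * F.conjTranspose = 1 ∧ F.conjTranspose * F = 1 ∧ (∀ x k, ‖F x k‖ ^ 2 = 1 / (n : ℝ) ^ d) ∧
  Hm hop (fun _ => 0) * F = F * Matrix.diagonal (fun k => ((en k : ℝ) : ℂ)) ∧
  ∀ (i : Fin d) (c : ℝ), Hm (two i) (fun _ => c) * F =
    F * Matrix.diagonal (fun k => ((4 * Real.sin (2 * Real.pi * ((k i).val : ℝ) / n) ^ 2 + c : ℝ) : ℂ))

/-- JOB GZE. By FOU, `G₀(x,x) = n^{-d} ∑_k 1/(e(k) - z)`, `1/(e - z) = i ∫_0^∞ exp(i q (z - e)) dq`, and the mean of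
`exp(-i q e(k))` over `k` is `b_n(q)^d` (product over the coordinates). -/
def S_GZE : Prop := S_FOU → ∀ (d n : ℕ) [NeZero n] (E η : ℝ), 0 < η → ∀ x : Tor d n,
  ‖G hop (fun _ => 0) (pt E η) x x‖ ≤ In n d η

/-- JOB KGB. By FOU the left side is `∑_k κ(k_i) η²/((e(k) - E)² + η²)`; sum over the other `d - 1` coordinates
first: `η/((e - E)² + η²) = ∫_0^∞ e^{-ηq} cos(q (e - E)) dq` and the mean over the other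
coordinates of `exp(-i q ·)` is `b_n(q)^{d-1}`. -/
def S_KGB : Prop := S_FOU → ∀ (d n : ℕ) [NeZero n] (i : Fin d) (E η ε : ℝ), 0 < η → 0 < ε →
  η ^ 2 * ∑ x : Tor d n, ∑ y : Tor d n, ‖KG i ε (pt E η) x y‖ ^ 2 ≤
    (n : ℝ) ^ d * η * ((n : ℝ)⁻¹ * ∑ j : ZMod n,
      (ε ^ 2 / (4 * Real.sin (2 * Real.pi * (j.val : ℝ) / n) ^ 2 + ε ^ 2)) ^ 2) * In n (d - 1) η

/-- JOB AVG. The mean over the circle is at most `ε/2`; for large `n` the sum is at most `2 ε` (Riemann sum, or count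
the `j` with `|sin(2πj/n)|` between `2^(k-1) ε` and `2^k ε`). -/
def S_AVG : Prop := ∀ ε : ℝ, 0 < ε → ε ≤ 1 → ∃ n0 : ℕ, ∀ (n : ℕ) [NeZero n], n0 ≤ n →
  (n : ℝ)⁻¹ * ∑ j : ZMod n,
    (ε ^ 2 / (4 * Real.sin (2 * Real.pi * (j.val : ℝ) / n) ^ 2 + ε ^ 2)) ^ 2 ≤ 2 * ε

/-- JOB KON. `‖K f‖ ≤ ‖f‖` for `K = ε² (Dᵀ D + ε²)⁻¹`. -/
def S_KON : Prop := ∀ (d n : ℕ) [NeZero n] (i : Fin d) (ε : ℝ), 0 < ε → ∀ f : Tor d n → ℂ,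
  ∑ x, ‖∑ y, Km i ε x y * f y‖ ^ 2 ≤ ∑ x, ‖f x‖ ^ 2

/-- JOB COM. Commutator estimate. Let `S f(x) = f(x + e_i)`, `D = S - S⁻¹` (skew), `θ` a real function of the
coordinate `x_i` (period `n`) and `B = θ D + D θ` (skew). For `(H₀ - z) g = F` one has
`⟨g, [H₀, B] g⟩ = 2 Re ⟨H₀ g, B g⟩`, at most `2 η ‖B‖ ‖g‖² + 2 ‖B‖ ‖F‖ ‖g‖` as `⟨g, B g⟩` is imaginary; `‖B‖ ≤ 4 max |θ|`.
With `a(c) = θ(c+1) - θ(c)`,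
`⟨g, [H₀, B] g⟩ = ∑_x 2 (a(x) + a(x-1)) |g(x)|² - 2 Re ∑_x (a(x) + a(x+1)) conj(g(x)) g(x + 2 e_i)`
`= ∑_x (a(x-1) + a(x)) |D g(x)|² + ∑_x (a(x) - a(x+1) + a(x-1) - a(x-2)) |g(x)|²` (arguments mean the
coordinate `x_i`). Take `a = tent - mean`, `tent(b + m) = max(0, 1 - |m|/(2L))` (sum `2 L`, mean `2 L/n`); `|θ| ≤ 4 L`;
the second differences are at most `1/L`; on the arc `|m| ≤ L` one has `tent(m-1) + tent(m) ≥ 1/2`. So half the left side is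
at most `8 L η ‖g‖² · 4 + 32 L ‖F‖ ‖g‖ + (1/L) ‖g‖² + 16 (L/n) ‖g‖²`. -/
def S_COM : Prop := ∀ (d n : ℕ) [NeZero n] (i : Fin d) (L : ℕ), 1 ≤ L → 8 * L ^ 2 + 8 ≤ n →
  ∀ (E η : ℝ), 0 < η → ∀ g F : Tor d n → ℂ,
  (∀ x, ∑ y, ((hop x y : ℝ) : ℂ) * g y - pt E η * g x = F x) → ∀ b : ZMod n,
  ∑ x, Set.indicator {x : Tor d n | x i ∈ slab b L} (fun x => ‖g (x + ev i) - g (x - ev i)‖ ^ 2) x ≤
    100 * (L * η * ∑ x, ‖g x‖ ^ 2 + L * (Real.sqrt (∑ x, ‖F x‖ ^ 2) * Real.sqrt (∑ x, ‖g x‖ ^ 2)) +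
      (∑ x, ‖g x‖ ^ 2) / L)

/-- JOB SLB. With `r = φ - (e - z) G₀ φ`, `g₁ = Dᵀ (Dᵀ D + ε²)⁻¹ φ`, `φ = D g₁ + K φ`, `‖g₁‖ ≤ 1/(2ε)`; all commute with `H₀`.
`g = (e - z) G₀ g₁` satisfies `(H₀ - z) g = (e - z) g₁`, `‖g‖ ≤ √2/(2ε)`, `|e - z| ≤ √2 η`, and
`φ = D g + (e - z) G₀ K φ + r`. Apply COM to `g`. -/
def S_SLB : Prop := S_INV → S_OPB → S_COM → ∀ (d n : ℕ) [NeZero n] (i : Fin d) (L : ℕ), 1 ≤ L →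
  8 * L ^ 2 + 8 ≤ n → ∀ (E η ε e : ℝ), 0 < η → 0 < ε → ε ≤ 1 → |e - E| ≤ η →
  ∀ φ : Tor d n → ℂ, ∑ x, ‖φ x‖ ^ 2 = 1 → ∀ b : ZMod n,
  ∑ x, Set.indicator {x : Tor d n | x i ∈ slab b L} (fun x => ‖φ x‖ ^ 2) x ≤
    400 / ε ^ 2 * (L * η + 1 / L) + 8 * ∑ x, ‖∑ y, Km i ε x y * φ y‖ ^ 2 +
    2 * ∑ x, ‖φ x - ((e : ℂ) - pt E η) * ∑ y, G hop (fun _ => 0) (pt E η) x y * φ y‖ ^ 2

/-- JOB FAM. Orthonormal eigenfunctions `φ_j` of `H₀ + V` with energies `|e_j - E| ≤ η`: `φ_j = (e_j - z) G φ_j`, so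
`φ_j - (e_j - z) G₀ φ_j = (e_j - z) (G - G₀) φ_j`, `|e_j - z|² ≤ 2 η²`; for orthonormal families
`∑_j ‖A φ_j‖² ≤ ∑_{x,y} |A(x,y)|²` (Bessel). Then `K φ_j = (e_j - z) K G₀ φ_j + K r_j`, `‖K‖ ≤ 1` (KON). -/
def S_FAM : Prop := S_INV → S_KON → ∀ (d n : ℕ) [NeZero n] (V : Tor d n → ℝ) (E η : ℝ), 0 < η →
  ∀ (J : Type) [Fintype J] [DecidableEq J] (φ : J → Tor d n → ℂ) (e : J → ℝ),
  (∀ j k, ∑ x, (starRingEnd ℂ) (φ j x) * φ k x = if j = k then 1 else 0) →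
  (∀ j x, ∑ y, Hm hop V x y * φ j y = (e j : ℂ) * φ j x) → (∀ j, |e j - E| ≤ η) →
  (∑ j, ∑ x, ‖φ j x - ((e j : ℂ) - pt E η) * ∑ y, G hop (fun _ => 0) (pt E η) x y * φ j y‖ ^ 2 ≤
    2 * η ^ 2 * ∑ x, ∑ y, ‖G hop V (pt E η) x y - G hop (fun _ => 0) (pt E η) x y‖ ^ 2) ∧
  ∀ (i : Fin d) (ε : ℝ), 0 < ε → ∑ j, ∑ x, ‖∑ y, Km i ε x y * φ j y‖ ^ 2 ≤
    4 * (η ^ 2 * ∑ x : Tor d n, ∑ y : Tor d n, ‖KG i ε (pt E η) x y‖ ^ 2) +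
    4 * η ^ 2 * ∑ x, ∑ y, ‖G hop V (pt E η) x y - G hop (fun _ => 0) (pt E η) x y‖ ^ 2

end Pool.Agent.Q218.HB
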