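import Pool.Agent.Q218.HB.Stm

/-!
# Project HB: further lemma jobs (lower bound of the density of states of the free operator)
-/

set_option autoImplicit false

open MeasureTheory

namespace Pool.Agent.Q218.HB

/-- JOB LOA. `J(E, η) = Re ∫_0^∞ e^{-ηq} e^{iqE} b(q)^d dq ≥ c/√d` for `|E| ≤ κ √d`, `1/√d ≤ η ≤ 1`, `d ≥ d₀(κ)`; `b = bc` is
real. Compare with `∫_0^∞ cos(qE) e^{-d q²} dq = (1/2) √(π/d) e^{-E²/(4d)} ≥ (1/2) √(π/d) e^{-κ²/4}`: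
`|e^{-ηq} - 1| ≤ q` contributes at most `∫ q e^{-dq²} = 1/(2d)`; `|b(q) - e^{-q²}| ≤ C q⁴`, so for `q ≤ q0` (S_BES)
`|b^d - e^{-dq²}| ≤ C d q⁴ e^{-c(d-1)q²}` with integral `O(d^{-3/2})`; for `q ≥ q0` use `|b| ≤ ρ` and `∫ e^{-ηq} ≤ √d`. -/
def S_LOA : Prop := S_BES → ∀ κ : ℝ, 0 < κ → ∃ (c : ℝ) (d0 : ℕ), 0 < c ∧ ∀ (d : ℕ) (E η : ℝ), d0 ≤ d →
  1 ≤ d → |E| ≤ κ * Real.sqrt d → 1 / Real.sqrt d ≤ η → η ≤ 1 →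
  c / Real.sqrt d ≤ (∫ q in Set.Ioi (0 : ℝ), (Real.exp (-(η * q)) : ℂ) *
    Complex.exp ((q * E : ℝ) * Complex.I) * bc q ^ d).re

/-- JOB LOB. `Im G₀(x,x; E+iη) = Re ∫_0^∞ e^{-ηq} e^{iqE} b_n(q)^d dq` on the torus (see the proof of GZE,
Pool.Agent.Q124.HB.GZE), and `b_n → b` uniformly on bounded sets (see RIE), uniformly in `E`. -/
def S_LOB : Prop := ∀ (d : ℕ) (η δ : ℝ), 0 < η → 0 < δ → ∃ n0 : ℕ, ∀ (n : ℕ) [NeZero n], n0 ≤ n →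
  ∀ (E : ℝ) (x : Tor d n), (∫ q in Set.Ioi (0 : ℝ), (Real.exp (-(η * q)) : ℂ) *
    Complex.exp ((q * E : ℝ) * Complex.I) * bc q ^ d).re - δ ≤ (G hop (fun _ => 0) (pt E η) x x).im

end Pool.Agent.Q218.HB
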