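import Pool.Agent.Q218.HB.Al5

/-!
# Project HB, third part: eigenfunctions on `ℤ^d`

Statements of the lemma jobs. `u_j` are the restrictions of orthonormal functions on `ℤ^d` to the box
`{0, ..., n-1}^d`, which is identified with the torus `Tor d n`; they satisfy Bessel's inequality and the eigenvalue
equation off a small set `F`.
-/

set_option autoImplicit false

open MeasureTheory

namespace Pool.Agent.Q218.HB

/-- Bessel's inequality -/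
def Bes {Λ J : Type} [Fintype Λ] [Fintype J] (u : J → Λ → ℂ) : Prop :=
  ∀ f : Λ → ℂ, ∑ j, ‖∑ x, f x * u j x‖ ^ 2 ≤ ∑ x, ‖f x‖ ^ 2

/-- JOB BEL. Orthonormal families of `ℓ²(ℤ^d)`, restricted to the box. `Pool.Agent.Q218.AD.ortho`
(`Pool/Agent/Q218/AD/Loc6.lean`) gives an `Orthonormal` family in `lp (fun _ : Fin d → ℤ => ℂ) 2`; use
`Orthonormal.sum_inner_products_le` with the vector which is `conj (f x)` at the site `(val (x i))_i` (injective map)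
and `0` elsewhere. -/
def S_BEL : Prop := ∀ (d n : ℕ) [NeZero n] (J : Type) [Fintype J] (ψ : J → (Fin d → ℤ) → ℂ),
  (∀ j, HasSum (fun x => ‖ψ j x‖ ^ 2) 1) →
  (∀ i j, i ≠ j → HasSum (fun x => (starRingEnd ℂ) (ψ i x) * ψ j x) 0) →
  Bes (fun j (x : Tor d n) => ψ j fun i => ((x i).val : ℤ))

open Classical in
/-- JOB RPW. With `H = Hm h V`, `z = E + iη` and `r_j = (H - e_j) u_j`, supported on `F`: `w_j := u_j - (e_j - z) G u_j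
= G r_j` lies in the span `W` of the functions `G(·, y)`, `y ∈ F`, `dim W ≤ |F|`. Let `b_i`, `i < k ≤ |F|`, be an
orthonormal basis of `W`. `‖w_j‖² = ∑_i |⟨b_i, w_j⟩|² ≤ ∑_i (2 |⟨b_i, u_j⟩|² + 2 |e_j - z|² |⟨b_i, G u_j⟩|²)`,
`|e_j - z|² ≤ 2 η²`; by Bessel `∑_j |⟨b_i, u_j⟩|² ≤ 1` and `∑_j |⟨b_i, G u_j⟩|² ≤ ‖G* b_i‖² ≤ 1/η²` (OPB for `-η` or
the symmetry `G(x,y) = G(y,x)`: `∑_x conj(b x) G(x,y) = ∑_x G(y,x) conj(b x)`). The sum is at most `6 k`. -/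
def S_RPW : Prop := S_INV → S_OPB → ∀ (Λ J : Type) [Fintype Λ] [DecidableEq Λ] [Fintype J] (h : Λ → Λ → ℝ)
  (V : Λ → ℝ) (u : J → Λ → ℂ) (e : J → ℝ) (F : Finset Λ), (∀ x y, h x y = h y x) → Bes u →
  (∀ j x, x ∉ F → ∑ y, Hm h V x y * u j y = (e j : ℂ) * u j x) → ∀ E η : ℝ, 0 < η →
  ∑ j with |e j - E| ≤ η, ∑ x, ‖u j x - ((e j : ℂ) - pt E η) * ∑ y, G h V (pt E η) x y * u j y‖ ^ 2 ≤ 6 * F.card

open Classical in
/-- JOB TAL. For `x ∉ F ∪ S`: `∑_y Hm hop U x y u_j(y) = (e_j - μ) u_j(x)` (`Hm hop V - μ` and `Hm hop U` have the same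
row `x`), so `∑_j (e_j - μ)² |u_j(x)|² ≤ ∑_y |Hm hop U x y|²` by Bessel; sum over `x` with `hm_hs`
(`Pool/Agent/Q218/HB/Al1.lean`). For `x ∈ F ∪ S`: `∑_j |u_j(x)|² ≤ 1` (Bessel). -/
def S_TAL : Prop := ∀ (d n : ℕ) [NeZero n], 3 ≤ n → ∀ (J : Type) [Fintype J] (V U : Tor d n → ℝ) (μ K : ℝ)
  (F S : Finset (Tor d n)) (u : J → Tor d n → ℂ) (e : J → ℝ), Bes u → (∀ x, |U x| ≤ K) →
  (∀ x, x ∉ S → V x - μ = U x) →
  (∀ j x, x ∉ F → ∑ y, Hm hop V x y * u j y = (e j : ℂ) * u j x) → ∀ R : ℝ, 0 < R →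
  ∑ j with R < |e j - μ|, ∑ x, ‖u j x‖ ^ 2 ≤ (n : ℝ) ^ d * (4 * d + 2 * K ^ 2) / R ^ 2 + F.card + S.card

/-- JOB SLC. SLB (`S_SLB` in `Pool/Agent/Q218/HB/Stm.lean`) for functions of norm at most one: apply it to
`φ / ‖φ‖` and multiply by `‖φ‖² ≤ 1` (the case `φ = 0` is trivial). -/
def S_SLC : Prop := S_SLB → S_INV → S_OPB → S_COM → ∀ (d n : ℕ) [NeZero n] (i : Fin d) (L : ℕ), 1 ≤ L →
  8 * L ^ 2 + 8 ≤ n → ∀ (E η ε e : ℝ), 0 < η → 0 < ε → ε ≤ 1 → |e - E| ≤ η →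
  ∀ φ : Tor d n → ℂ, ∑ x, ‖φ x‖ ^ 2 ≤ 1 → ∀ b : ZMod n,
  ∑ x, Set.indicator {x : Tor d n | x i ∈ slab b L} (fun x => ‖φ x‖ ^ 2) x ≤
    400 / ε ^ 2 * (L * η + 1 / L) + 8 * ∑ x, ‖∑ y, Km i ε x y * φ y‖ ^ 2 +
    2 * ∑ x, ‖φ x - ((e : ℂ) - pt E η) * ∑ y, G hop (fun _ => 0) (pt E η) x y * φ y‖ ^ 2

end Pool.Agent.Q218.HB
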