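import Pool.Agent.Q218.HB.Step2
import Pool.Agent.Q218.HB.Stm3

/-! The local law on the torus. -/

set_option autoImplicit false
set_option linter.unusedSectionVars false
set_option linter.unusedVariables false

open MeasureTheory

namespace Pool.Agent.Q218.HB

theorem hop_symm {d n : ℕ} (x y : Tor d n) : hop x y = hop y x := by
  unfold hop
  congr 1
  refine Finset.sum_congr rfl fun i _ => ?_
  have h1 : (y = x + ev i) ↔ (x = y - ev i) :=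
    ⟨fun h => by rw [h]; abel, fun h => by rw [h]; abel⟩
  have h2 : (y = x - ev i) ↔ (x = y + ev i) :=
    ⟨fun h => by rw [h]; abel, fun h => by rw [h]; abel⟩
  rw [if_congr h1 rfl rfl, if_congr h2 rfl rfl, add_comm]

theorem hop_tran {d n : ℕ} (a x y : Tor d n) : hop (x + a) (y + a) = hop x y := by
  unfold hop
  congr 1
  refine Finset.sum_congr rfl fun i _ => ?_
  have h1 : (y + a = x + a + ev i) ↔ (y = x + ev i) :=
    ⟨fun h => by
      have : y = y + a - a := by abel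
      rw [this, h]; abel, fun h => by rw [h]; abel⟩
  have h2 : (y + a = x + a - ev i) ↔ (y = x - ev i) :=
    ⟨fun h => by
      have : y = y + a - a := by abel
      rw [this, h]; abel, fun h => by rw [h]; abel⟩
  rw [if_congr h1 rfl rfl, if_congr h2 rfl rfl]

/-- the indices of the family -/
structure Ix (CM m K : ℝ) (n0 : ℕ → ℕ) : Type where
  d : ℕ
  n : ℕ
  E : ℝ
  ν : Measure ℝ
  hd : 3 ≤ d
  hK : K ≤ d
  hn : n0 d ≤ n + 1
  prob : IsProbabilityMeasure ν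
  supp : ν (Set.Icc (-(CM * (d : ℝ) ^ m)) (CM * (d : ℝ) ^ m))ᶜ = 0
  mean : ∫ t, t ∂ν = 0

/-- the Hilbert-Schmidt norm of `G - G₀` -/
noncomputable def HT {d n : ℕ} [NeZero n] (E η : ℝ) (V : Tor d n → ℝ) : ℝ :=
  ∑ x, ∑ y, ‖G hop V (pt E η) x y - G hop (fun _ => 0) (pt E η) x y‖ ^ 2

theorem HT_int (L : Lem) {d n : ℕ} [NeZero n] (E η : ℝ) (hη : 0 < η) (ν : Measure ℝ)
    [IsProbabilityMeasure ν] :
    ∫ V, HT E η V ∂(iid (Tor d n) ν) = (n : ℝ) ^ d *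
      ∫ V, ∑ x, ‖G hop V (pt E η) x (0 : Tor d n) - G hop (fun _ => 0) (pt E η) x 0‖ ^ 2 ∂(iid (Tor d n) ν) := by
  have hz : 0 < (pt E η).im := by rw [pt_im]; exact hη
  have cb : ∀ x y : Tor d n, CB fun V => ‖G hop V (pt E η) x y - G hop (fun _ => 0) (pt E η) x y‖ ^ 2 :=
    fun x y => CB.pow (f := fun V => ‖G hop V (pt E η) x y - G hop (fun _ => 0) (pt E η) x y‖)
      ⟨((L.cont _ hop _ hop_symm hz.ne' x y).sub continuous_const).norm,
      ⟨1 / (pt E η).im + 1 / (pt E η).im, fun V => (norm_sub_le _ _).trans (add_le_add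
        (ent_le L.opb hop_symm hz V x y) (ent_le L.opb hop_symm hz _ x y))⟩, fun _ => norm_nonneg _⟩ 2
  have h1 : ∀ V : Tor d n → ℝ, HT E η V = ∑ y : Tor d n, ∑ x : Tor d n,
      ‖G hop V (pt E η) x y - G hop (fun _ => 0) (pt E η) x y‖ ^ 2 := fun V => Finset.sum_comm
  simp only [h1]
  rw [integral_finsetSum _ fun y _ => (CB.sum fun x => cb x y).int ν]
  have h2 : ∀ y : Tor d n, ∫ V, ∑ x, ‖G hop V (pt E η) x y - G hop (fun _ => 0) (pt E η) x y‖ ^ 2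
      ∂(iid (Tor d n) ν) =
      ∫ V, ∑ x, ‖G hop V (pt E η) x (0 : Tor d n) - G hop (fun _ => 0) (pt E η) x 0‖ ^ 2
        ∂(iid (Tor d n) ν) := fun y => by
    rw [← L.shi (Tor d n) ν (fun V => ∑ x, ‖G hop V (pt E η) x (0 : Tor d n) -
      G hop (fun _ => 0) (pt E η) x 0‖ ^ 2) y]
    congr 1
    funext V
    refine (Fintype.sum_equiv (Equiv.addRight y) _ _ fun x => ?_).symm
    simp only [Equiv.coe_addRight]
    rw [L.tra (Tor d n) hop V (pt E η) hop_tran y x 0, zero_add]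
    have := L.tra (Tor d n) hop (fun _ => 0) (pt E η) hop_tran y x 0
    rw [zero_add] at this
    rw [← this]
  rw [Finset.sum_congr rfl fun y _ => h2 y, Finset.sum_const, Finset.card_univ, nsmul_eq_mul]
  congr 1
  simp [ZMod.card]

/-- **The local law on the torus.** -/
theorem torus_law (L : Lem) (hGZ : S_GZE) (hF : S_FOU) (hFR : ∃ C0 : ℝ, 0 < C0 ∧ ∀ (K : ℝ) (d : ℕ), 1 ≤ K → 3 ≤ d →
  K ≤ d → ∃ n0 : ℕ, ∀ (n : ℕ) [NeZero n], n0 ≤ n → ∀ η : ℝ, (K * d) ^ (-(1 / 2 : ℝ)) ≤ η →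
  In n d η ≤ C0 * (d : ℝ) ^ (-(1 / 2 : ℝ)) ∧ In n (d - 1) η ≤ C0 * (d : ℝ) ^ (-(1 / 2 : ℝ)))
    (CM m a ε K : ℝ) (hCM : 0 ≤ CM) (hm : 0 ≤ m) (ha : 0 ≤ a) (hε : 0 < ε) (ham : a + 2 * m + ε ≤ 1 / 2)
    (hK : 1 ≤ K) :
    ∃ C : ℝ, 0 ≤ C ∧ ∀ d : ℕ, 3 ≤ d → K ≤ d → ∃ n0 : ℕ, ∀ (n : ℕ) [NeZero n], n0 ≤ n →
      ∀ (E : ℝ) (ν : Measure ℝ) [IsProbabilityMeasure ν],
        ν (Set.Icc (-(CM * (d : ℝ) ^ m)) (CM * (d : ℝ) ^ m))ᶜ = 0 → ∫ t, t ∂ν = 0 →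
        ∫ V, HT E ((K * d) ^ (-a)) V ∂(iid (Tor d n) ν) ≤
          C * (n : ℝ) ^ d * (d : ℝ) ^ (-(1 - 2 * a - 2 * m - ε / 2)) := by
  obtain ⟨C0, hC0, hfr⟩ := hFR
  choose! n0 hn0 using fun (d : ℕ) (h3 : 3 ≤ d) (h4 : K ≤ d) => hfr K d hK h3 h4
  -- the step
  obtain ⟨N, hN⟩ := exists_nat_gt (4 * (a + 1 / 2) / ε)
  have hN0 : (0 : ℝ) < N := lt_of_le_of_lt (by positivity) hN
  obtain ⟨J, rfl⟩ : ∃ J : ℕ, N = J + 1 := ⟨N - 1, by
    have : N ≠ 0 := fun h => by rw [h] at hN0; simp at hN0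
    omega⟩
  obtain ⟨e, he⟩ : ∃ e : ℝ, e = (a + 1 / 2) / ((J + 1 : ℕ) : ℝ) := ⟨_, rfl⟩
  have he0 : 0 ≤ e := by rw [he]; positivity
  have he1 : e ≤ ε / 4 := by
    rw [he, div_le_iff₀ hN0]
    rw [div_lt_iff₀ hε] at hN
    linarith
  have he2 : ((J : ℝ) + 1) * e = a + 1 / 2 := by
    rw [he]
    have : (J : ℝ) + 1 ≠ 0 := by positivity
    push_cast
    field_simp
  have S : Setup (ι := Ix CM m K n0) (Λ := fun i => Tor i.d (i.n + 1)) (fun i => i.ν)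
      (fun i => CM * (i.d : ℝ) ^ m) CM m (C0 * K ^ (1 / 2 : ℝ)) (fun i => K * i.d) (fun i => i.E)
      (fun i => hop) := by
    refine ⟨fun i x y => hop_symm x y, fun i a x y => hop_tran a x y, fun i => ?_, fun i => ?_, hCM, hm,
      fun i => ?_, fun i => i.supp, fun i => i.mean, by positivity, fun i η hη => ?_⟩
    · have : (3 : ℝ) ≤ i.d := by exact_mod_cast i.hd
      nlinarith
    · positivity
    · refine mul_le_mul_of_nonneg_left ?_ hCM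
      exact Real.rpow_le_rpow (Nat.cast_nonneg _) (le_mul_of_one_le_left (Nat.cast_nonneg _) hK) hm
    · have h1 := (hn0 i.d i.hd i.hK (i.n + 1) i.hn η hη).1
      have hd0 : (0 : ℝ) < i.d := by
        have : (3 : ℝ) ≤ i.d := by exact_mod_cast i.hd
        linarith
      have hη0 : 0 < η := lt_of_lt_of_le (Real.rpow_pos_of_pos (by positivity) _) hη
      have h2 := hGZ hF i.d (i.n + 1) i.E η hη0 0
      refine h2.trans (h1.trans (le_of_eq ?_))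
      rw [Real.mul_rpow (by linarith) hd0.le, mul_assoc, ← mul_assoc (K ^ (1 / 2 : ℝ)),
        ← Real.rpow_add (by linarith)]
      norm_num
  haveI : ∀ i : Ix CM m K n0, IsProbabilityMeasure i.ν := fun i => i.prob
  obtain ⟨C, hC, hl⟩ := law (e := e) S L he0 (by linarith) J (by rw [he2]; linarith)
  refine ⟨C, hC, fun d h3 h4 => ⟨n0 d, fun n _ hn E ν _ hs hmn => ?_⟩⟩
  obtain ⟨n', rfl⟩ : ∃ n', n = n' + 1 := ⟨n - 1, by have := NeZero.ne n; omega⟩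
  have h5 := hl ⟨d, n', E, ν, h3, h4, hn, inferInstance, hs, hmn⟩
  have hd1 : (1 : ℝ) ≤ d := by
    have : (3 : ℝ) ≤ d := by exact_mod_cast h3
    linarith
  have hKd : 1 ≤ K * d := by nlinarith
  have e1 : zs (fun i : Ix CM m K n0 => K * i.d) (fun i => i.E) e (J + 1)
      ⟨d, n', E, ν, h3, h4, hn, inferInstance, hs, hmn⟩ = pt E ((K * d) ^ (-a)) := by
    unfold zs et
    congr 2
    push_cast
    rw [he2]; ring
  simp only at h5
  rw [e1] at h5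
  have hη : 0 < (K * (d : ℝ)) ^ (-a) := Real.rpow_pos_of_pos (by linarith) _
  rw [HT_int L E _ hη ν]
  have h6 : (K * (d : ℝ)) ^ (-(1 - 2 * (((J : ℝ) + 1) * e - 1 / 2) - 2 * e - 2 * m)) ≤
      (d : ℝ) ^ (-(1 - 2 * a - 2 * m - ε / 2)) := by
    have h7 : (K * (d : ℝ)) ^ (-(1 - 2 * (((J : ℝ) + 1) * e - 1 / 2) - 2 * e - 2 * m)) ≤
      (K * (d : ℝ)) ^ (-(1 - 2 * a - 2 * m - ε / 2)) := by
      refine Real.rpow_le_rpow_of_exponent_le hKd ?_
      rw [he2]; linarith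
    refine h7.trans ?_
    refine Real.rpow_le_rpow_of_nonpos (by linarith) (by nlinarith) ?_
    linarith
  have hnd : (0 : ℝ) ≤ ((n' + 1 : ℕ) : ℝ) ^ d := by positivity
  calc _ ≤ ((n' + 1 : ℕ) : ℝ) ^ d * (C * (K * (d : ℝ)) ^ (-(1 - 2 * (((J : ℝ) + 1) * e - 1 / 2) - 2 * e - 2 * m))) :=
        mul_le_mul_of_nonneg_left h5 hnd
    _ ≤ ((n' + 1 : ℕ) : ℝ) ^ d * (C * (d : ℝ) ^ (-(1 - 2 * a - 2 * m - ε / 2))) := by gcongr
    _ = _ := by ring

end Pool.Agent.Q218.HB
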